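import Pool.Agent.Helper42.MC.Defs

/-!
# MC-30: commuting elements and roots in free groups

Check first what is on main already (Helper85/NS, Helper87/Ray/Free*.lean and others: commutation,
centralizers, roots in free groups).
* `free_cyclic_centralizer`: subgroups of free groups are free (Nielsen-Schreier,
  `subgroupIsFreeOfIsFree`), an abelian free group is cyclic; the centralizer of `a ≠ 1` is abelian
  (`commute_trans`); or use cyclically reduced words.
* `commute_trans`: commutation is transitive on nontrivial elements.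
* `zpow_inj`: unique roots: `x^k = y^k`: `⟨x,y⟩`: `x^k` is central in it; a free group with nontrivial centre
  is cyclic; cyclic and torsion-free gives `x = y`.
* `commute_of_zpow`: `x y^k x⁻¹ = y^k` gives `(x y x⁻¹)^k = y^k`.
* `norm_zpow`: cyclic reduction `a = u c u⁻¹`, `|a^m| = 2|u| + |m| |c|`, `|c| ≥ 1`.
* `conj_commute`: let `c, v c v⁻¹` commute; the claim is that `v` and `c` commute. If `c ≠ 1`, both are in
  the cyclic centralizer `⟨r⟩` of `c`: `c = r^k`, `v c v⁻¹ = r^l`. For all `m`, `v r^{km} v⁻¹ = r^{lm}`; with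
  `|r^j| = 2|u| + |j| |c₀|` (`c₀` cyclically reduced) the lengths differ by at most `2|v|`, so `|k| = |l|`. If
  `k = l` done. If `v c v⁻¹ = c⁻¹` then `v²` commutes with `c`; `v² ≠ 1` unless `v = 1`, so `v` commutes with `c`
  by transitivity, `c = c⁻¹`, `c = 1`.
  (`conj_commute` is stated for every free group: transport to `FreeGroup (IsFreeGroup.Generators F)`; norms
  are available there with classical decidable equality.)
* `comm_noncomm`: `c = ⁅u,v⁆ ≠ 1`. `⁅u,v²⁆ = c * (v c v⁻¹)` and `⁅u²,v⁆ = (u c u⁻¹) * c`. If `c` commutes with both,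
  it commutes with `v c v⁻¹` and `u c u⁻¹`, so with `v` and `u` by `conj_commute`, so `u`, `v` commute.
-/

namespace MC

/-- Distinct free generators do not commute. -/
private theorem ff_of_commute_eq {α : Type*} (i j : α)
    (h : FreeGroup.of i * FreeGroup.of j = FreeGroup.of j * FreeGroup.of i) : i = j := by
  classical
  by_contra hij
  let f : FreeGroup α →* Equiv.Perm (Fin 3) :=
    FreeGroup.lift (fun k => if k = i then Equiv.swap 0 1 else Equiv.swap 1 2)
  have h1 := congrArg f h
  have hji : j ≠ i := fun h => hij h.symm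
  simp only [map_mul, f, FreeGroup.lift_apply_of, if_true, if_neg hji] at h1
  revert h1
  decide

/-- abelian free groups are cyclic -/
private theorem ff_cyclic {H : Type*} [Group H] [IsFreeGroup H] (hcomm : ∀ a b : H, a * b = b * a) :
    ∃ g : H, ∀ z : H, z ∈ Subgroup.zpowers g := by
  let B : FreeGroupBasis (IsFreeGroup.Generators H) H := IsFreeGroup.basis H
  have hsub : ∀ i j : IsFreeGroup.Generators H, i = j := by
    intro i j
    apply ff_of_commute_eq
    apply B.repr.symm.injective
    rw [map_mul, map_mul]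
    exact hcomm _ _
  by_cases hne : Nonempty (IsFreeGroup.Generators H)
  · obtain ⟨i0⟩ := hne
    refine ⟨B i0, fun z => ?_⟩
    let L : H →* Subgroup.zpowers (B i0) :=
      B.lift (fun _ => ⟨B i0, Subgroup.mem_zpowers _⟩)
    have hL : (Subgroup.zpowers (B i0)).subtype.comp L = MonoidHom.id H := by
      apply B.ext_hom
      intro i
      have hi : i = i0 := hsub _ _
      subst hi
      simp [L]
    have := DFunLike.congr_fun hL z
    simp only [MonoidHom.comp_apply, MonoidHom.id_apply] at this
    rw [← this]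
    exact (L z).2
  · refine ⟨1, fun z => ?_⟩
    have hL : MonoidHom.id H = 1 := by
      apply B.ext_hom
      intro i
      exact absurd ⟨i⟩ hne
    have := DFunLike.congr_fun hL z
    have h1 : z = 1 := by simpa using this
    rw [h1]; exact one_mem _

private theorem ff_torsionFree (F : Type*) [Group F] [IsFreeGroup F] : IsMulTorsionFree F := by
  let e := IsFreeGroup.toFreeGroup F
  refine ⟨fun n hn x y hxy => ?_⟩
  apply e.injective
  have : (e x) ^ n = (e y) ^ n := by
    rw [← map_pow, ← map_pow]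
    exact congrArg e hxy
  exact pow_left_injective hn this

private theorem ff_cyclic_sub {F : Type*} [Group F] [IsFreeGroup F] (H : Subgroup F)
    (hcomm : ∀ a ∈ H, ∀ b ∈ H, a * b = b * a) : ∃ g ∈ H, ∀ z ∈ H, z ∈ Subgroup.zpowers g := by
  haveI : IsFreeGroup H := inferInstance
  obtain ⟨g, hg⟩ := ff_cyclic (H := H) (fun a b => Subtype.ext (hcomm a a.2 b b.2))
  refine ⟨g, g.2, fun z hz => ?_⟩
  obtain ⟨k, hk⟩ := Subgroup.mem_zpowers_iff.mp (hg ⟨z, hz⟩)
  refine Subgroup.mem_zpowers_iff.mpr ⟨k, ?_⟩
  have := congrArg Subtype.val hk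
  simpa using this

theorem free_zpow_inj {F : Type*} [Group F] [IsFreeGroup F] {x y : F} {k : ℤ} (hk : k ≠ 0)
    (h : x ^ k = y ^ k) : x = y := by
  haveI := ff_torsionFree F
  have h2 : x ^ k.natAbs = y ^ k.natAbs := by
    rcases Int.natAbs_eq k with h3 | h3
    · rw [h3] at h
      simpa only [zpow_natCast] using h
    · rw [h3] at h
      simpa only [zpow_neg, zpow_natCast, inv_inj] using h
  exact pow_left_injective (Int.natAbs_ne_zero.mpr hk) h2

theorem free_torsion {F : Type*} [Group F] [IsFreeGroup F] {x : F} {k : ℤ} (hk : k ≠ 0)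
    (h : x ^ k = 1) : x = 1 := by
  apply free_zpow_inj hk
  rw [h, one_zpow]

theorem commute_of_zpow {F : Type*} [Group F] [IsFreeGroup F] {x y : F} {k : ℤ} (hk : k ≠ 0)
    (h : Commute x (y ^ k)) : Commute x y := by
  have h1 : (x * y * x⁻¹) ^ k = y ^ k := by
    rw [conj_zpow, h.eq, mul_inv_cancel_right]
  have h2 := free_zpow_inj hk h1
  have h3 : x * y = y * x := by
    calc x * y = x * y * x⁻¹ * x := by group
      _ = y * x := by rw [h2]
  exact h3

private theorem ff_common {F : Type*} [Group F] [IsFreeGroup F] {x y : F} (h : Commute x y) :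
    ∃ g : F, ∃ i j : ℤ, x = g ^ i ∧ y = g ^ j := by
  have hcomm : IsMulCommutative (Subgroup.closure ({x, y} : Set F)) := by
    apply Subgroup.isMulCommutative_closure
    intro a ha b hb
    simp only [Set.mem_insert_iff, Set.mem_singleton_iff] at ha hb
    rcases ha with rfl | rfl <;> rcases hb with rfl | rfl
    · rfl
    · exact h
    · exact h.symm
    · rfl
  obtain ⟨g, -, hg⟩ := ff_cyclic_sub (Subgroup.closure ({x, y} : Set F)) (by
    intro a ha b hb
    have := hcomm.is_comm.comm ⟨a, ha⟩ ⟨b, hb⟩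
    exact congrArg Subtype.val this)
  obtain ⟨i, hi⟩ := Subgroup.mem_zpowers_iff.mp (hg x (Subgroup.subset_closure (by simp)))
  obtain ⟨j, hj⟩ := Subgroup.mem_zpowers_iff.mp (hg y (Subgroup.subset_closure (by simp)))
  exact ⟨g, i, j, hi.symm, hj.symm⟩

/-- commutation is transitive in free groups -/
theorem commute_trans {F : Type*} [Group F] [IsFreeGroup F] {x y z : F} (hy : y ≠ 1)
    (h1 : Commute x y) (h2 : Commute y z) : Commute x z := by
  obtain ⟨g, i, j, hx, hyg⟩ := ff_common h1
  obtain ⟨h, k, l, hyh, hz⟩ := ff_common h2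
  have hk : k ≠ 0 := by
    rintro rfl
    apply hy
    rw [hyh, zpow_zero]
  have h3 : Commute g (h ^ k) := by
    rw [← hyh, hyg]
    exact (Commute.refl g).zpow_right j
  have h4 : Commute g h := commute_of_zpow hk h3
  rw [hx, hz]
  exact h4.zpow_zpow i l

theorem free_cyclic_centralizer {F : Type*} [Group F] [IsFreeGroup F] {a : F} (ha : a ≠ 1) :
    ∃ r : F, ∀ x, Commute x a ↔ x ∈ Subgroup.zpowers r := by
  obtain ⟨g, hg, hg'⟩ := ff_cyclic_sub (Subgroup.centralizer ({a} : Set F)) (by
    intro x hx y hy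
    rw [Subgroup.mem_centralizer_singleton_iff] at hx hy
    have hx' : Commute x a := by first | exact hx | exact hx.symm
    have hy' : Commute y a := by first | exact hy | exact hy.symm
    exact (commute_trans ha hx' hy'.symm).eq)
  refine ⟨g, fun x => ⟨fun hx => hg' x ?_, fun hx => ?_⟩⟩
  · rw [Subgroup.mem_centralizer_singleton_iff]
    exact hx
  · obtain ⟨k, rfl⟩ := Subgroup.mem_zpowers_iff.mp hx
    have h1 : Commute g a := by
      rw [Subgroup.mem_centralizer_singleton_iff] at hg
      exact hg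
    exact h1.zpow_left k

private theorem ff_norm_pow {α : Type*} [DecidableEq α] (v : FreeGroup α) (hv : v ≠ 1) (n : ℕ) :
    n ≤ (v ^ n).norm := by
  rw [FreeGroup.norm, FreeGroup.toWord_pow,
    FreeGroup.reduceCyclically.reduce_flatten_replicate FreeGroup.isReduced_toWord]
  split_ifs with h
  · omega
  · have h1 : FreeGroup.reduceCyclically v.toWord ≠ [] := by
      intro h2
      have h3 := FreeGroup.reduceCyclically.conj_conjugator_reduceCyclically v.toWord
      rw [h2, List.append_nil] at h3
      apply hv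
      have h4 : v = FreeGroup.mk v.toWord := FreeGroup.mk_toWord.symm
      rw [h4, ← h3, ← FreeGroup.mul_mk, ← FreeGroup.inv_mk, mul_inv_cancel]
    have h2 : 1 ≤ (FreeGroup.reduceCyclically v.toWord).length := by
      rw [Nat.one_le_iff_ne_zero]
      simpa using h1
    simp only [List.length_append, List.length_flatten, List.map_replicate, List.sum_replicate,
      smul_eq_mul]
    have h3 : n * 1 ≤ n * (FreeGroup.reduceCyclically v.toWord).length :=
      Nat.mul_le_mul_left _ h2
    omega

theorem norm_zpow {n : ℕ} {a : FreeGroup (Fin n)} (ha : a ≠ 1) (m : ℤ) :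
    m.natAbs ≤ (a ^ m).norm := by
  rcases Int.natAbs_eq m with h | h
  · have h2 : a ^ m = a ^ m.natAbs := by
      conv_lhs => rw [h]
      exact zpow_natCast _ _
    rw [h2]
    exact ff_norm_pow a ha _
  · have h2 : a ^ m = (a ^ m.natAbs)⁻¹ := by
      conv_lhs => rw [h]
      rw [zpow_neg, zpow_natCast]
    rw [h2, FreeGroup.norm_inv_eq]
    exact ff_norm_pow a ha _

theorem conj_commute {F : Type*} [Group F] [IsFreeGroup F] {c v : F}
    (h : Commute c (v * c * v⁻¹)) : Commute v c := by
  by_cases hc : c = 1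
  · rw [hc]; exact Commute.one_right v
  obtain ⟨r, hr⟩ := free_cyclic_centralizer hc
  have hcr : c ∈ Subgroup.zpowers r := (hr c).1 (Commute.refl c)
  obtain ⟨k, hk⟩ := Subgroup.mem_zpowers_iff.mp hcr
  have hcc : v * c * v⁻¹ ∈ Subgroup.zpowers r := (hr _).1 h.symm
  have hc' : v * c * v⁻¹ ≠ 1 := by
    intro h1
    apply hc
    calc c = v⁻¹ * (v * c * v⁻¹) * v := by group
      _ = 1 := by rw [h1]; group
  obtain ⟨l, hl⟩ := Subgroup.mem_zpowers_iff.mp hcc
  have hr1 : r ≠ 1 := by
    rintro rfl
    apply hc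
    rw [← hk, one_zpow]
  have hk0 : k ≠ 0 := by
    rintro rfl
    exact hc (by rw [← hk, zpow_zero])
  have hl0 : l ≠ 0 := by
    rintro rfl
    exact hc' (by rw [← hl, zpow_zero])
  -- centralizer of the conjugate
  have key : ∀ x, Commute x (v * c * v⁻¹) ↔ x ∈ Subgroup.zpowers r := by
    intro x
    constructor
    · intro hx
      exact (hr x).1 (commute_trans hc' hx h.symm)
    · intro hx
      obtain ⟨m, rfl⟩ := Subgroup.mem_zpowers_iff.mp hx
      rw [← hl]
      exact (Commute.refl r).zpow_zpow m l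
  have h1 : v * r * v⁻¹ ∈ Subgroup.zpowers r := by
    apply (key _).1
    have : Commute r c := (hr r).2 (Subgroup.mem_zpowers r)
    exact (Commute.conj_iff v).2 this
  have h2 : v⁻¹ * r * v ∈ Subgroup.zpowers r := by
    apply (hr _).1
    have h3 : Commute r (v * c * v⁻¹) := (key r).2 (Subgroup.mem_zpowers r)
    have h4 := (Commute.conj_iff v⁻¹).2 h3
    have h5 : v⁻¹ * (v * c * v⁻¹) * v⁻¹⁻¹ = c := by group
    rw [h5, inv_inv] at h4
    exact h4
  obtain ⟨i, hi⟩ := Subgroup.mem_zpowers_iff.mp h1
  obtain ⟨j, hj⟩ := Subgroup.mem_zpowers_iff.mp h2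
  have h3 : r ^ (i * j) = r := by
    rw [zpow_mul, hi]
    calc (v * r * v⁻¹) ^ j = v * r ^ j * v⁻¹ := by rw [conj_zpow]
      _ = r := by rw [hj]; group
  have h4 : i * j = 1 := by
    by_contra hne
    have h5 : r ^ (i * j - 1) = 1 := by
      rw [zpow_sub, h3, zpow_one, mul_inv_cancel]
    exact hr1 (free_torsion (sub_ne_zero.2 hne) h5)
  have hvr : Commute v r := by
    rcases Int.eq_one_or_neg_one_of_mul_eq_one h4 with h5 | h5
    · rw [h5, zpow_one] at hi
      have : v * r = r * v := by
        calc v * r = v * r * v⁻¹ * v := by group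
          _ = r * v := by rw [← hi]
      exact this
    · rw [h5, zpow_neg, zpow_one] at hi
      have h6 : Commute r (v ^ (2 : ℤ)) := by
        have h7 : v * (v * r * v⁻¹) * v⁻¹ = r := by
          rw [← hi]
          calc v * r⁻¹ * v⁻¹ = (v * r * v⁻¹)⁻¹ := by group
            _ = r := by rw [← hi, inv_inv]
        have h8 : v ^ (2 : ℤ) * r = r * v ^ (2 : ℤ) := by
          calc v ^ (2 : ℤ) * r = (v * (v * r * v⁻¹) * v⁻¹) * v ^ (2 : ℤ) := by
                rw [zpow_two]; group
            _ = r * v ^ (2 : ℤ) := by rw [h7]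
        exact h8.symm
      exact (commute_of_zpow (by norm_num) h6).symm
  rw [← hk]
  exact hvr.zpow_right k

/-- a nonabelian free group has two non-commuting commutators -/
theorem comm_noncomm {F : Type*} [Group F] [IsFreeGroup F] {u v : F} (h : u * v ≠ v * u) :
    ∃ x y x' y' : F, (x * y * x⁻¹ * y⁻¹) * (x' * y' * x'⁻¹ * y'⁻¹) ≠
      (x' * y' * x'⁻¹ * y'⁻¹) * (x * y * x⁻¹ * y⁻¹) := by
  by_contra hcon
  push Not at hcon
  set c := u * v * u⁻¹ * v⁻¹ with hc
  have hc1 : c ≠ 1 := by
    intro h1
    apply h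
    calc u * v = (u * v * u⁻¹ * v⁻¹) * (v * u) := by group
      _ = v * u := by rw [← hc, h1, one_mul]
  have h1 : Commute c (v * c * v⁻¹) := by
    have h2 : Commute c (u * (v * v) * u⁻¹ * (v * v)⁻¹) := hcon u v u (v * v)
    have h3 : u * (v * v) * u⁻¹ * (v * v)⁻¹ = c * (v * c * v⁻¹) := by rw [hc]; group
    rw [h3] at h2
    have h4 : v * c * v⁻¹ = c⁻¹ * (c * (v * c * v⁻¹)) := by group
    rw [h4]
    exact ((Commute.refl c).inv_right).mul_right h2
  have h2 : Commute c (u * c * u⁻¹) := by
    have h2 : Commute c ((u * u) * v * (u * u)⁻¹ * v⁻¹) := hcon u v (u * u) v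
    have h3 : (u * u) * v * (u * u)⁻¹ * v⁻¹ = (u * c * u⁻¹) * c := by rw [hc]; group
    rw [h3] at h2
    have h4 : u * c * u⁻¹ = ((u * c * u⁻¹) * c) * c⁻¹ := by group
    rw [h4]
    exact h2.mul_right ((Commute.refl c).inv_right)
  exact h (commute_trans hc1 (conj_commute h2) (conj_commute h1).symm).eq

end MC
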