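import Pool.Agent.Helper42.MC.Defs

/-!
# MC-15: averaging

Let `U = {u ∈ ℤ² : |u.1|, |u.2| ≤ B}`, `m = |U|`. For `x, w ∈ ℤ²` let
`F k x w = dist (G x) (G (x + 2^k w)) / 2^k ∈ [0, L B]` (for `w ∈ U`; sup metric on `ℤ × ℤ`) and
`D k x w = F k x w + F k (x + 2^k w) w - 2 F (k+1) x w ≥ 0`; the quantity of the theorem is
`2^k * D k (x + 2^k u) w`. Suppose that for every `x` and every `k < K` there are `u, w ∈ U` with
`D k (x + 2^k u) w > 1`. Sum over the box `Q = [0,S)²`: for every `k < K`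
`|Q| < Σ_{u,w ∈ U} Σ_{x ∈ Q} D k (x + 2^k u) w ≤ Σ_{u,w} (2 Σ_{x∈Q} F k x w - 2 Σ_{x∈Q} F (k+1) x w + e)`,
where `e` bounds the boundary errors: for `|v| ≤ 2^{K+2} B` (sup norm)
`|Σ_{x∈Q} F k (x+v) w - Σ_{x∈Q} F k x w| ≤ |Q Δ (Q+v)| L B ≤ 4 |v| S L B`. Sum over `k < K`, telescope:
`K |Q| ≤ 2 m² L B |Q| + K m² e`, with `e ≤ C(K,B,L) S`. Take `K > 2 m² L B + 1`, then `S` so large that
`K m² e ≤ |Q| = S²`: contradiction.
-/

open Set

namespace MC

/-- the square `[a, b)²` -/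
noncomputable def avBox (a b : ℤ) : Finset (ℤ × ℤ) := Finset.Ico a b ×ˢ Finset.Ico a b

theorem card_avBox (a : ℤ) (n : ℕ) : (avBox a (a + n)).card = n ^ 2 := by
  unfold avBox
  rw [Finset.card_product, Int.card_Ico]
  simp [pow_two]

theorem avBox_sdiff_sum (g : ℤ × ℤ → ℝ) (M0 : ℝ) (hg0 : ∀ x, 0 ≤ g x) (hg1 : ∀ x, g x ≤ M0)
    (A B : Finset (ℤ × ℤ)) (hAB : A ⊆ B) :
    ∑ x ∈ B, g x ≤ ∑ x ∈ A, g x + M0 * ((B.card : ℝ) - A.card) := by
  rw [← Finset.sum_sdiff hAB]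
  have h1 : ∑ x ∈ B \ A, g x ≤ ∑ _x ∈ B \ A, M0 := Finset.sum_le_sum fun x _ => hg1 x
  rw [Finset.sum_const, nsmul_eq_mul, Finset.card_sdiff_of_subset hAB,
    Nat.cast_sub (Finset.card_le_card hAB)] at h1
  linarith [mul_comm M0 ((B.card : ℝ) - A.card)]

theorem avBox_mem (a b : ℤ) (x : ℤ × ℤ) :
    x ∈ avBox a b ↔ (a ≤ x.1 ∧ x.1 < b) ∧ (a ≤ x.2 ∧ x.2 < b) := by
  unfold avBox
  rw [Finset.mem_product, Finset.mem_Ico, Finset.mem_Ico]

theorem av_shift (g : ℤ × ℤ → ℝ) (M0 : ℝ) (hM0 : 0 ≤ M0) (hg0 : ∀ x, 0 ≤ g x)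
    (hg1 : ∀ x, g x ≤ M0) (S R : ℕ) (hS : 2 * R ≤ S) (v : ℤ × ℤ) (hv1 : |v.1| ≤ R)
    (hv2 : |v.2| ≤ R) :
    |∑ x ∈ avBox 0 S, g (x + v) - ∑ x ∈ avBox 0 S, g x| ≤ M0 * (8 * R * S) := by
  have hmap : ∑ x ∈ avBox 0 S, g (x + v) =
      ∑ x ∈ (avBox 0 S).map (addRightEmbedding v), g x := by
    rw [Finset.sum_map]
    rfl
  have hv1' := abs_le.1 hv1
  have hv2' := abs_le.1 hv2
  have hmem : ∀ y, y ∈ (avBox 0 S).map (addRightEmbedding v) ↔
      (v.1 ≤ y.1 ∧ y.1 < S + v.1) ∧ (v.2 ≤ y.2 ∧ y.2 < S + v.2) := by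
    intro y
    rw [Finset.mem_map]
    constructor
    · rintro ⟨x, hx, rfl⟩
      rw [avBox_mem] at hx
      simp only [addRightEmbedding_apply, Prod.fst_add, Prod.snd_add]
      omega
    · intro hy
      refine ⟨y - v, ?_, ?_⟩
      · rw [avBox_mem]
        simp only [Prod.fst_sub, Prod.snd_sub]
        omega
      · simp
  have hcard : ((avBox 0 S).map (addRightEmbedding v)).card = S ^ 2 := by
    rw [Finset.card_map]
    have := card_avBox 0 S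
    rwa [zero_add] at this
  have hcard0 : (avBox 0 S).card = S ^ 2 := by
    have := card_avBox 0 S
    rwa [zero_add] at this
  -- big box
  have hbig : ∑ x ∈ (avBox 0 S).map (addRightEmbedding v), g x ≤
      ∑ x ∈ avBox (-R) (-R + ((S + 2 * R : ℕ) : ℤ)), g x := by
    apply Finset.sum_le_sum_of_subset_of_nonneg
    · intro y hy
      rw [hmem] at hy
      rw [avBox_mem]
      push_cast
      omega
    · intro y _ _
      exact hg0 y
  have hbig2 := avBox_sdiff_sum g M0 hg0 hg1 (avBox 0 S) (avBox (-R) (-R + ((S + 2 * R : ℕ) : ℤ)))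
    (by
      intro y hy
      rw [avBox_mem] at hy ⊢
      push_cast
      omega)
  rw [card_avBox, hcard0] at hbig2
  -- small box
  have hsm : ∑ x ∈ avBox R (R + ((S - 2 * R : ℕ) : ℤ)), g x ≤
      ∑ x ∈ (avBox 0 S).map (addRightEmbedding v), g x := by
    apply Finset.sum_le_sum_of_subset_of_nonneg
    · intro y hy
      rw [avBox_mem] at hy
      rw [hmem]
      omega
    · intro y _ _
      exact hg0 y
  have hsm2 := avBox_sdiff_sum g M0 hg0 hg1 (avBox R (R + ((S - 2 * R : ℕ) : ℤ))) (avBox 0 S)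
    (by
      intro y hy
      rw [avBox_mem] at hy ⊢
      omega)
  rw [card_avBox, hcard0] at hsm2
  have hR0 : (0 : ℝ) ≤ R := Nat.cast_nonneg R
  have hSR : (2 : ℝ) * R ≤ S := by exact_mod_cast hS
  have hS2 : ((S - 2 * R : ℕ) : ℝ) = (S : ℝ) - 2 * R := by
    rw [Nat.cast_sub hS]; push_cast; ring
  rw [hmap, abs_le]
  constructor
  · have h1 : M0 * (((S ^ 2 : ℕ) : ℝ) - (((S - 2 * R : ℕ) ^ 2 : ℕ) : ℝ)) ≤ M0 * (8 * R * S) := by
      apply mul_le_mul_of_nonneg_left _ hM0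
      push_cast
      rw [hS2]
      nlinarith
    linarith
  · have h1 : M0 * ((((S + 2 * R) ^ 2 : ℕ) : ℝ) - ((S ^ 2 : ℕ) : ℝ)) ≤ M0 * (8 * R * S) := by
      apply mul_le_mul_of_nonneg_left _ hM0
      push_cast
      nlinarith
    linarith

theorem av_dist_le {w : ℤ × ℤ} {B : ℕ} (h1 : |w.1| ≤ B) (h2 : |w.2| ≤ B) (x : ℤ × ℤ) (k : ℕ) :
    dist x (x + (2 : ℤ) ^ k • w) ≤ 2 ^ k * B := by
  rw [dist_comm, Prod.dist_eq]
  apply max_le
  · rw [Int.dist_eq]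
    simp only [Prod.fst_add, Prod.smul_fst, smul_eq_mul]
    push_cast
    rw [add_sub_cancel_left, abs_mul, abs_of_nonneg (by positivity : (0 : ℝ) ≤ 2 ^ k)]
    apply mul_le_mul_of_nonneg_left _ (by positivity)
    exact_mod_cast h1
  · rw [Int.dist_eq]
    simp only [Prod.snd_add, Prod.smul_snd, smul_eq_mul]
    push_cast
    rw [add_sub_cancel_left, abs_mul, abs_of_nonneg (by positivity : (0 : ℝ) ≤ 2 ^ k)]
    apply mul_le_mul_of_nonneg_left _ (by positivity)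
    exact_mod_cast h2

theorem averaging {M : Type*} [PseudoMetricSpace M] (G : ℤ × ℤ → M) (L : ℝ)
    (hG : ∀ u v, dist (G u) (G v) ≤ L * dist u v) (B : ℕ) :
    ∃ (x : ℤ × ℤ) (k : ℕ), ∀ u w : ℤ × ℤ, |u.1| ≤ B → |u.2| ≤ B → |w.1| ≤ B → |w.2| ≤ B →
      dist (G (x + (2 : ℤ) ^ k • u)) (G (x + (2 : ℤ) ^ k • (u + w))) +
        dist (G (x + (2 : ℤ) ^ k • (u + w))) (G (x + (2 : ℤ) ^ k • (u + (2 : ℤ) • w))) -
        dist (G (x + (2 : ℤ) ^ k • u)) (G (x + (2 : ℤ) ^ k • (u + (2 : ℤ) • w))) ≤ 2 ^ k := by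
  classical
  by_contra hcon
  push Not at hcon
  set M0 : ℝ := |L| * B with hM0def
  have hM0 : 0 ≤ M0 := by positivity
  -- the set U
  set U : Finset (ℤ × ℤ) := Finset.Icc (-B : ℤ) B ×ˢ Finset.Icc (-B : ℤ) B with hU
  have hUmem : ∀ u : ℤ × ℤ, u ∈ U ↔ |u.1| ≤ B ∧ |u.2| ≤ B := by
    intro u
    rw [hU, Finset.mem_product, Finset.mem_Icc, Finset.mem_Icc, abs_le, abs_le]
  -- the functions F
  let F : ℕ → ℤ × ℤ → ℤ × ℤ → ℝ := fun k w x => dist (G x) (G (x + (2 : ℤ) ^ k • w)) / 2 ^ k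
  have hF0 : ∀ k w x, 0 ≤ F k w x := fun k w x => by positivity
  have hF1 : ∀ k w, w ∈ U → ∀ x, F k w x ≤ M0 := by
    intro k w hw x
    rw [hUmem] at hw
    have h1 := hG x (x + (2 : ℤ) ^ k • w)
    have h2 := av_dist_le hw.1 hw.2 x k
    have h3 : dist (G x) (G (x + (2 : ℤ) ^ k • w)) ≤ |L| * (2 ^ k * B) :=
      h1.trans (mul_le_mul (le_abs_self L) h2 dist_nonneg (abs_nonneg L))
    change dist (G x) (G (x + (2 : ℤ) ^ k • w)) / 2 ^ k ≤ M0
    rw [div_le_iff₀ (by positivity), hM0def]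
    linarith
  -- the defect
  have hD : ∀ k x, ∃ u ∈ U, ∃ w ∈ U, 1 < F k w (x + (2 : ℤ) ^ k • u) +
      F k w (x + (2 : ℤ) ^ k • (u + w)) - 2 * F (k + 1) w (x + (2 : ℤ) ^ k • u) := by
    intro k x
    obtain ⟨u, w, hu1, hu2, hw1, hw2, h⟩ := hcon x k
    refine ⟨u, (hUmem u).2 ⟨hu1, hu2⟩, w, (hUmem w).2 ⟨hw1, hw2⟩, ?_⟩
    have e1 : x + (2 : ℤ) ^ k • u + (2 : ℤ) ^ k • w = x + (2 : ℤ) ^ k • (u + w) := by
      rw [smul_add, add_assoc]
    have e2 : x + (2 : ℤ) ^ k • (u + w) + (2 : ℤ) ^ k • w =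
        x + (2 : ℤ) ^ k • (u + (2 : ℤ) • w) := by
      rw [two_smul]
      module
    have e3 : x + (2 : ℤ) ^ k • u + (2 : ℤ) ^ (k + 1) • w =
        x + (2 : ℤ) ^ k • (u + (2 : ℤ) • w) := by
      rw [pow_succ, two_smul]
      module
    change 1 < dist (G (x + (2 : ℤ) ^ k • u)) (G (x + (2 : ℤ) ^ k • u + (2 : ℤ) ^ k • w)) / 2 ^ k +
      dist (G (x + (2 : ℤ) ^ k • (u + w))) (G (x + (2 : ℤ) ^ k • (u + w) + (2 : ℤ) ^ k • w)) / 2 ^ k -
      2 * (dist (G (x + (2 : ℤ) ^ k • u)) (G (x + (2 : ℤ) ^ k • u + (2 : ℤ) ^ (k + 1) • w)) /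
        2 ^ (k + 1))
    rw [e1, e2, e3]
    have h2k : (0 : ℝ) < 2 ^ k := by positivity
    have h4 : ∀ a b c : ℝ, a / 2 ^ k + b / 2 ^ k - 2 * (c / 2 ^ (k + 1)) = (a + b - c) / 2 ^ k := by
      intro a b c
      rw [pow_succ]
      field_simp
    rw [h4, one_lt_div h2k]
    exact h
  have hDnn : ∀ k w x, 0 ≤ F k w x + F k w (x + (2 : ℤ) ^ k • w) - 2 * F (k + 1) w x := by
    intro k w x
    have e3 : x + (2 : ℤ) ^ (k + 1) • w = x + (2 : ℤ) ^ k • w + (2 : ℤ) ^ k • w := by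
      rw [pow_succ]
      module
    change 0 ≤ dist (G x) (G (x + (2 : ℤ) ^ k • w)) / 2 ^ k +
      dist (G (x + (2 : ℤ) ^ k • w)) (G (x + (2 : ℤ) ^ k • w + (2 : ℤ) ^ k • w)) / 2 ^ k -
      2 * (dist (G x) (G (x + (2 : ℤ) ^ (k + 1) • w)) / 2 ^ (k + 1))
    rw [e3]
    have h4 : ∀ a b c : ℝ, a / 2 ^ k + b / 2 ^ k - 2 * (c / 2 ^ (k + 1)) = (a + b - c) / 2 ^ k := by
      intro a b c
      rw [pow_succ]
      field_simp
    rw [h4]
    apply div_nonneg _ (by positivity)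
    have := dist_triangle (G x) (G (x + (2 : ℤ) ^ k • w))
      (G (x + (2 : ℤ) ^ k • w + (2 : ℤ) ^ k • w))
    linarith
  -- number of scales
  obtain ⟨K, hK⟩ := exists_nat_ge (2 * (U.card : ℝ) ^ 2 * M0 + 1)
  set R : ℕ := 2 ^ K * B with hR
  obtain ⟨S, hSbig⟩ := exists_nat_gt (8 * (4 * K * (U.card : ℝ) ^ 2 * M0) * R + 2 * R)
  have hc0 : 0 ≤ 4 * K * (U.card : ℝ) ^ 2 * M0 := by positivity
  have hS2R : 2 * R ≤ S := by
    have : (2 : ℝ) * R ≤ S := by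
      have : 0 ≤ 8 * (4 * K * (U.card : ℝ) ^ 2 * M0) * R := by positivity
      linarith
    exact_mod_cast this
  set e : ℝ := M0 * (8 * R * S) with he
  set Q := avBox 0 S with hQ
  have hQcard : (Q.card : ℝ) = (S : ℝ) ^ 2 := by
    have := card_avBox 0 S
    rw [zero_add] at this
    rw [hQ, this]
    push_cast
    ring
  -- estimate at a scale
  have hscale : ∀ k < K, (S : ℝ) ^ 2 ≤ (U.card : ℝ) * ∑ w ∈ U,
      (2 * ∑ x ∈ Q, F k w x - 2 * ∑ x ∈ Q, F (k + 1) w x + 4 * e) := by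
    intro k hk
    have hb : ∀ v : ℤ, |v| ≤ B → |(2 : ℤ) ^ k * v| ≤ (2 : ℤ) ^ k * B := by
      intro v hv
      rw [abs_mul, abs_of_nonneg (by positivity : (0 : ℤ) ≤ 2 ^ k)]
      exact mul_le_mul_of_nonneg_left hv (by positivity)
    have h2kK : (2 : ℤ) * 2 ^ k ≤ 2 ^ K := by
      rw [← pow_succ']
      exact pow_le_pow_right₀ (by norm_num) hk
    have hRb : (2 : ℤ) * ((2 : ℤ) ^ k * B) ≤ (R : ℤ) := by
      rw [hR]
      push_cast
      rw [← mul_assoc]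
      exact mul_le_mul_of_nonneg_right h2kK (by positivity)
    have hnn : (0 : ℤ) ≤ (2 : ℤ) ^ k * B := by positivity
    calc (S : ℝ) ^ 2 = ∑ x ∈ Q, (1 : ℝ) := by rw [Finset.sum_const, nsmul_eq_mul, mul_one, hQcard]
      _ ≤ ∑ x ∈ Q, ∑ u ∈ U, ∑ w ∈ U, (F k w (x + (2 : ℤ) ^ k • u) +
          F k w (x + (2 : ℤ) ^ k • (u + w)) - 2 * F (k + 1) w (x + (2 : ℤ) ^ k • u)) := by
        apply Finset.sum_le_sum
        intro x _
        obtain ⟨u, hu, w, hw, h⟩ := hD k x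
        have hnn' : ∀ u w, 0 ≤ F k w (x + (2 : ℤ) ^ k • u) +
            F k w (x + (2 : ℤ) ^ k • (u + w)) - 2 * F (k + 1) w (x + (2 : ℤ) ^ k • u) := by
          intro u w
          have := hDnn k w (x + (2 : ℤ) ^ k • u)
          rwa [add_assoc, ← smul_add] at this
        have h5 : F k w (x + (2 : ℤ) ^ k • u) +
            F k w (x + (2 : ℤ) ^ k • (u + w)) - 2 * F (k + 1) w (x + (2 : ℤ) ^ k • u) ≤
            ∑ w ∈ U, (F k w (x + (2 : ℤ) ^ k • u) +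
            F k w (x + (2 : ℤ) ^ k • (u + w)) - 2 * F (k + 1) w (x + (2 : ℤ) ^ k • u)) :=
          Finset.single_le_sum (f := fun w => F k w (x + (2 : ℤ) ^ k • u) +
            F k w (x + (2 : ℤ) ^ k • (u + w)) - 2 * F (k + 1) w (x + (2 : ℤ) ^ k • u))
            (fun w _ => hnn' u w) hw
        have h6 := Finset.single_le_sum (f := fun u => ∑ w ∈ U, (F k w (x + (2 : ℤ) ^ k • u) +
            F k w (x + (2 : ℤ) ^ k • (u + w)) - 2 * F (k + 1) w (x + (2 : ℤ) ^ k • u)))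
            (fun u _ => Finset.sum_nonneg fun w _ => hnn' u w) hu
        linarith
      _ = ∑ u ∈ U, ∑ w ∈ U, ∑ x ∈ Q, (F k w (x + (2 : ℤ) ^ k • u) +
          F k w (x + (2 : ℤ) ^ k • (u + w)) - 2 * F (k + 1) w (x + (2 : ℤ) ^ k • u)) := by
        rw [Finset.sum_comm]
        apply Finset.sum_congr rfl
        intro u _
        rw [Finset.sum_comm]
      _ ≤ ∑ _u ∈ U, ∑ w ∈ U, (2 * ∑ x ∈ Q, F k w x - 2 * ∑ x ∈ Q, F (k + 1) w x + 4 * e) := by
        apply Finset.sum_le_sum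
        intro u hu
        apply Finset.sum_le_sum
        intro w hw
        have hu' := (hUmem u).1 hu
        have hw' := (hUmem w).1 hw
        have a1 := hb u.1 hu'.1
        have a2 := hb u.2 hu'.2
        have a3 := hb w.1 hw'.1
        have a4 := hb w.2 hw'.2
        have s1 := av_shift (F k w) M0 hM0 (hF0 k w) (hF1 k w hw) S R hS2R ((2 : ℤ) ^ k • u)
          (by simp only [Prod.smul_fst, smul_eq_mul]; linarith)
          (by simp only [Prod.smul_snd, smul_eq_mul]; linarith)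
        have s2 := av_shift (F k w) M0 hM0 (hF0 k w) (hF1 k w hw) S R hS2R ((2 : ℤ) ^ k • (u + w))
          (by
            simp only [Prod.smul_fst, Prod.fst_add, smul_eq_mul, mul_add]
            exact (abs_add_le _ _).trans (by linarith))
          (by
            simp only [Prod.smul_snd, Prod.snd_add, smul_eq_mul, mul_add]
            exact (abs_add_le _ _).trans (by linarith))
        have s3 := av_shift (F (k + 1) w) M0 hM0 (hF0 (k + 1) w) (hF1 (k + 1) w hw) S R hS2R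
          ((2 : ℤ) ^ k • u)
          (by simp only [Prod.smul_fst, smul_eq_mul]; linarith)
          (by simp only [Prod.smul_snd, smul_eq_mul]; linarith)
        rw [Finset.sum_sub_distrib, Finset.sum_add_distrib, ← Finset.mul_sum]
        have t1 := (abs_le.1 s1).2
        have t2 := (abs_le.1 s2).2
        have t3 := (abs_le.1 s3).1
        linarith
      _ = _ := by rw [Finset.sum_const, nsmul_eq_mul]
  -- sum over the scales
  have hsum : (K : ℝ) * (S : ℝ) ^ 2 ≤ ∑ k ∈ Finset.range K, (U.card : ℝ) * ∑ w ∈ U,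
      (2 * ∑ x ∈ Q, F k w x - 2 * ∑ x ∈ Q, F (k + 1) w x + 4 * e) := by
    calc (K : ℝ) * (S : ℝ) ^ 2 = ∑ _k ∈ Finset.range K, (S : ℝ) ^ 2 := by
          rw [Finset.sum_const, nsmul_eq_mul, Finset.card_range]
      _ ≤ _ := Finset.sum_le_sum fun k hk => hscale k (Finset.mem_range.1 hk)
  rw [← Finset.mul_sum, Finset.sum_comm] at hsum
  have htel : ∀ w ∈ U, ∑ k ∈ Finset.range K, (2 * ∑ x ∈ Q, F k w x -
      2 * ∑ x ∈ Q, F (k + 1) w x + 4 * e) ≤ 2 * M0 * (S : ℝ) ^ 2 + K * (4 * e) := by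
    intro w hw
    rw [Finset.sum_add_distrib, Finset.sum_const, nsmul_eq_mul, Finset.card_range]
    have h1 := Finset.sum_range_sub' (fun k => 2 * ∑ x ∈ Q, F k w x) K
    rw [h1]
    have h2 : ∑ x ∈ Q, F 0 w x ≤ M0 * (S : ℝ) ^ 2 := by
      calc ∑ x ∈ Q, F 0 w x ≤ ∑ _x ∈ Q, M0 := Finset.sum_le_sum fun x _ => hF1 0 w hw x
        _ = M0 * (S : ℝ) ^ 2 := by rw [Finset.sum_const, nsmul_eq_mul, hQcard, mul_comm]
    have h3 : 0 ≤ ∑ x ∈ Q, F K w x := Finset.sum_nonneg fun x _ => hF0 K w x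
    linarith
  have hfin : (K : ℝ) * (S : ℝ) ^ 2 ≤
      (U.card : ℝ) * (U.card * (2 * M0 * (S : ℝ) ^ 2 + K * (4 * e))) := by
    refine hsum.trans (mul_le_mul_of_nonneg_left ?_ (Nat.cast_nonneg _))
    calc _ ≤ ∑ _w ∈ U, (2 * M0 * (S : ℝ) ^ 2 + K * (4 * e)) := Finset.sum_le_sum htel
      _ = _ := by rw [Finset.sum_const, nsmul_eq_mul]
  have hS0 : (0 : ℝ) < S := by
    have : 0 ≤ 8 * (4 * K * (U.card : ℝ) ^ 2 * M0) * R + 2 * R := by positivity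
    linarith
  have hmul : (2 * (U.card : ℝ) ^ 2 * M0 + 1) * (S : ℝ) ^ 2 ≤ K * (S : ℝ) ^ 2 :=
    mul_le_mul_of_nonneg_right hK (by positivity)
  have h7 : (S : ℝ) ^ 2 ≤ 4 * K * (U.card : ℝ) ^ 2 * e := by
    have : (U.card : ℝ) * (U.card * (2 * M0 * (S : ℝ) ^ 2 + K * (4 * e))) =
      2 * (U.card : ℝ) ^ 2 * M0 * (S : ℝ) ^ 2 + 4 * K * (U.card : ℝ) ^ 2 * e := by ring
    linarith
  have h8 : 4 * K * (U.card : ℝ) ^ 2 * e =
      8 * (4 * K * (U.card : ℝ) ^ 2 * M0) * R * S := by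
    rw [he]; ring
  have h9 : 8 * (4 * K * (U.card : ℝ) ^ 2 * M0) * R * S < S * S := by
    apply mul_lt_mul_of_pos_right _ hS0
    have : (0 : ℝ) ≤ 2 * R := by positivity
    linarith
  rw [h8] at h7
  nlinarith

end MC
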