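import Pool.Agent.Helper42.MC.Averaging

/-!
# MC-18: blow-up of the plane

Let `E, z, H, C` be as in `FlatData X` and `G u = f (E (u : ℝ × ℝ))` for `u ∈ ℤ × ℤ`; `G` is
`K*C`-Lipschitz. For every `j` apply `averaging` with `B = 4^j`: get `x j ∈ ℤ²`, `k j`. Put
`s j = 2^(k j) * 2^j`, `p j = f (E (x j))`; `s j ≥ 2^j → ∞`.
For `u ∈ ℝ²` let `E' u` be the class of `j ↦ f (E (x j + s j • u))`.
-/

open Filter Topology Set

namespace MC

theorem bl_dist_le {M : Type*} [PseudoMetricSpace M] {ω : Ultrafilter ℕ} {s : ℕ → ℝ} {p : ℕ → M}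
    (hs : ∀ j, 0 < s j) (a b : USeq ω M s p) (c : ℝ)
    (h : ∀ j, dist (a.val j) (b.val j) ≤ c * s j) : dist (UL.mk a) (UL.mk b) ≤ c := by
  refine le_of_tendsto (UL.tendsto a b) (Eventually.of_forall fun j => ?_)
  rw [abs_of_pos (hs j), div_le_iff₀ (hs j)]
  exact h j

theorem bl_le_dist {M : Type*} [PseudoMetricSpace M] {ω : Ultrafilter ℕ} {s : ℕ → ℝ} {p : ℕ → M}
    (hs : ∀ j, 0 < s j) (a b : USeq ω M s p) (c : ℝ)
    (h : ∀ j, c * s j ≤ dist (a.val j) (b.val j)) : c ≤ dist (UL.mk a) (UL.mk b) := by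
  refine ge_of_tendsto (UL.tendsto a b) (Eventually.of_forall fun j => ?_)
  rw [abs_of_pos (hs j), le_div_iff₀ (hs j)]
  exact h j

/-- segments are geodesic as soon as midpoints are between -/
theorem bl_seg {N : Type*} [PseudoMetricSpace N] (E' : ℝ × ℝ → N) (L : ℝ) (hL : 0 < L)
    (lip : ∀ u v, dist (E' u) (E' v) ≤ L * dist u v)
    (mid : ∀ u w, Btw (E' u) (E' (u + w)) (E' (u + (2 : ℝ) • w)))
    (u v : ℝ × ℝ) (t : ℝ) (ht : t ∈ Icc (0 : ℝ) 1) :
    Btw (E' u) (E' (u + t • (v - u))) (E' v) := by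
  have key : ∀ m : ℕ, ∀ u w : ℝ × ℝ, ∀ t ∈ Icc (0 : ℝ) 1,
      dist (E' u) (E' (u + t • w)) + dist (E' (u + t • w)) (E' (u + w)) -
        dist (E' u) (E' (u + w)) ≤ 2 * L * ‖w‖ / 2 ^ m := by
    intro m
    induction m with
    | zero =>
      intro u w t ht
      have h1 : dist (E' u) (E' (u + t • w)) ≤ L * ‖w‖ := by
        refine (lip _ _).trans (mul_le_mul_of_nonneg_left ?_ hL.le)
        rw [dist_eq_norm, ← norm_neg]
        simp only [neg_sub, add_sub_cancel_left]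
        rw [norm_smul, Real.norm_eq_abs, abs_of_nonneg ht.1]
        calc t * ‖w‖ ≤ 1 * ‖w‖ := mul_le_mul_of_nonneg_right ht.2 (norm_nonneg _)
          _ = ‖w‖ := one_mul _
      have h2 : dist (E' (u + t • w)) (E' (u + w)) ≤ L * ‖w‖ := by
        refine (lip _ _).trans (mul_le_mul_of_nonneg_left ?_ hL.le)
        rw [dist_eq_norm, ← norm_neg]
        have e1 : -(u + t • w - (u + w)) = (1 - t) • w := by module
        rw [e1, norm_smul, Real.norm_eq_abs, abs_of_nonneg (by linarith [ht.2])]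
        calc (1 - t) * ‖w‖ ≤ 1 * ‖w‖ :=
              mul_le_mul_of_nonneg_right (by linarith [ht.1]) (norm_nonneg _)
          _ = ‖w‖ := one_mul _
      have h3 : 0 ≤ dist (E' u) (E' (u + w)) := dist_nonneg
      rw [pow_zero, div_one]
      linarith
    | succ m ih =>
      intro u w t ht
      have hm := mid u ((1 / 2 : ℝ) • w)
      have e0 : u + (2 : ℝ) • ((1 / 2 : ℝ) • w) = u + w := by
        rw [smul_smul]; norm_num
      rw [e0] at hm
      unfold Btw at hm
      have hn : ‖(1 / 2 : ℝ) • w‖ = ‖w‖ / 2 := by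
        rw [norm_smul]; norm_num; ring
      have hp : 2 * L * (‖w‖ / 2) / 2 ^ m = 2 * L * ‖w‖ / 2 ^ (m + 1) := by
        rw [pow_succ]; field_simp
      rcases le_total t (1 / 2) with h | h
      · have h1 := ih u ((1 / 2 : ℝ) • w) (2 * t) ⟨by linarith [ht.1], by linarith⟩
        have e1 : u + (2 * t) • ((1 / 2 : ℝ) • w) = u + t • w := by
          rw [smul_smul]; congr 2; ring
        rw [e1, hn, hp] at h1
        have h2 := dist_triangle (E' (u + t • w)) (E' (u + (1 / 2 : ℝ) • w)) (E' (u + w))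
        linarith
      · have h1 := ih (u + (1 / 2 : ℝ) • w) ((1 / 2 : ℝ) • w) (2 * t - 1)
          ⟨by linarith, by linarith [ht.2]⟩
        have e1 : u + (1 / 2 : ℝ) • w + (2 * t - 1) • ((1 / 2 : ℝ) • w) = u + t • w := by
          rw [smul_smul, add_assoc, ← add_smul]; congr 2; ring
        have e2 : u + (1 / 2 : ℝ) • w + (1 / 2 : ℝ) • w = u + w := by
          rw [add_assoc, ← add_smul]; norm_num
        rw [e1, e2, hn, hp] at h1
        have h2 := dist_triangle (E' u) (E' (u + (1 / 2 : ℝ) • w)) (E' (u + t • w))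
        linarith
  have hlim : Tendsto (fun m : ℕ => 2 * L * ‖v - u‖ / 2 ^ m) atTop (𝓝 0) := by
    have h1 : Tendsto (fun m : ℕ => 2 * L * ‖v - u‖ * (1 / 2 : ℝ) ^ m) atTop
        (𝓝 (2 * L * ‖v - u‖ * 0)) :=
      (tendsto_pow_atTop_nhds_zero_of_lt_one (by norm_num) (by norm_num)).const_mul _
    rw [mul_zero] at h1
    refine h1.congr fun m => ?_
    rw [one_div, inv_pow, div_eq_mul_inv]
  have h0 : dist (E' u) (E' (u + t • (v - u))) + dist (E' (u + t • (v - u))) (E' (u + (v - u))) -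
      dist (E' u) (E' (u + (v - u))) ≤ 0 :=
    ge_of_tendsto' hlim fun m => key m u (v - u) t ht
  rw [add_sub_cancel] at h0
  unfold Btw
  have h2 := dist_triangle (E' u) (E' (u + t • (v - u))) (E' v)
  linarith

/-- the real point with the given integer coordinates -/
def blc (u : ℤ × ℤ) : ℝ × ℝ := ((u.1 : ℝ), (u.2 : ℝ))

theorem blc_dist (u v : ℤ × ℤ) : dist (blc u) (blc v) = dist u v := by
  unfold blc
  rw [Prod.dist_eq, Prod.dist_eq, Int.dist_eq, Int.dist_eq, Real.dist_eq, Real.dist_eq]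

/-- componentwise floor -/
noncomputable def blf (u : ℝ × ℝ) : ℤ × ℤ := (⌊u.1⌋, ⌊u.2⌋)

theorem blf_close (u : ℝ × ℝ) : ‖blc (blf u) - u‖ ≤ 1 := by
  unfold blc blf
  rw [Prod.norm_def]
  apply max_le
  · simp only [Prod.fst_sub]
    rw [Real.norm_eq_abs, abs_le]
    constructor
    · linarith [Int.lt_floor_add_one u.1]
    · linarith [Int.floor_le u.1]
  · simp only [Prod.snd_sub]
    rw [Real.norm_eq_abs, abs_le]
    constructor
    · linarith [Int.lt_floor_add_one u.2]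
    · linarith [Int.floor_le u.2]

theorem blc_add (u v : ℤ × ℤ) : blc (u + v) = blc u + blc v := by
  unfold blc
  simp

theorem blc_smul (k : ℕ) (v : ℤ × ℤ) : blc ((2 : ℤ) ^ k • v) = (2 : ℝ) ^ k • blc v := by
  unfold blc
  simp

theorem blf_bound (u : ℝ × ℝ) (j : ℕ) (hj : ‖u‖ + 1 ≤ 2 ^ j) :
    |(blf ((2 : ℝ) ^ j • u)).1| ≤ ((4 ^ j : ℕ) : ℤ) ∧
      |(blf ((2 : ℝ) ^ j • u)).2| ≤ ((4 ^ j : ℕ) : ℤ) := by
  have h1 := blf_close ((2 : ℝ) ^ j • u)
  have h2 : ‖blc (blf ((2 : ℝ) ^ j • u))‖ ≤ 4 ^ j := by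
    have h2j : (1 : ℝ) ≤ 2 ^ j := one_le_pow₀ (by norm_num)
    calc ‖blc (blf ((2 : ℝ) ^ j • u))‖ ≤ ‖blc (blf ((2 : ℝ) ^ j • u)) - (2 : ℝ) ^ j • u‖ +
          ‖(2 : ℝ) ^ j • u‖ := by
            have := norm_add_le (blc (blf ((2 : ℝ) ^ j • u)) - (2 : ℝ) ^ j • u) ((2 : ℝ) ^ j • u)
            rwa [sub_add_cancel] at this
      _ ≤ 1 + 2 ^ j * ‖u‖ := by
            rw [norm_smul, Real.norm_eq_abs, abs_of_nonneg (by positivity)]
            linarith
      _ ≤ 2 ^ j * (‖u‖ + 1) := by linarith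
      _ ≤ 2 ^ j * 2 ^ j := mul_le_mul_of_nonneg_left hj (by positivity)
      _ = 4 ^ j := by rw [← mul_pow]; norm_num
  rw [Prod.norm_def] at h2
  have h3 := (le_max_left _ _).trans h2
  have h4 := (le_max_right _ _).trans h2
  unfold blc at h3 h4
  simp only [Real.norm_eq_abs] at h3 h4
  constructor
  · have : ((|(blf ((2 : ℝ) ^ j • u)).1| : ℤ) : ℝ) ≤ (((4 ^ j : ℕ) : ℤ) : ℝ) := by
      push_cast; exact h3
    exact_mod_cast this
  · have : ((|(blf ((2 : ℝ) ^ j • u)).2| : ℤ) : ℝ) ≤ (((4 ^ j : ℕ) : ℤ) : ℝ) := by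
      push_cast; exact h4
    exact_mod_cast this

theorem blowup {X M : Type*} [PseudoMetricSpace X] [MetricSpace M] (f : X → M) {K : ℝ} (hK : 0 < K)
    (h1 : ∀ x y, dist x y ≤ K * dist (f x) (f y)) (h2 : ∀ x y, dist (f x) (f y) ≤ K * dist x y)
    (E : ℝ × ℝ → X) (z : Fin 3 → ℝ × ℝ) (H : Fin 3 → ℝ × ℝ → ℝ → ℝ → X) (C : ℝ) (hC : 0 < C)
    (e1 : ∀ u v, dist (E u) (E v) ≤ C * dist u v)
    (e2 : ∀ u v, dist u v ≤ C * dist (E u) (E v))
    (e3 : ∀ i p s, H i p s 0 = E (p + s • z i))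
    (e4 : ∀ i p s t s' t', 0 ≤ t → 0 ≤ t' →
      dist (H i p s t) (H i p s' t') ≤ C * (|s - s'| + |t - t'|))
    (e5 : ∀ i p s t u, 0 ≤ t → t ≤ C * dist (H i p s t) (E u)) :
    ∃ (s : ℕ → ℝ) (p : ℕ → M), Tendsto s atTop atTop ∧
      ∀ ω : Ultrafilter ℕ, (ω : Filter ℕ) ≤ atTop →
        ∃ (E' : ℝ × ℝ → UL ω M s p) (L : ℝ) (H' : Fin 3 → ℝ → ℝ → UL ω M s p), Flat E' L ∧
          (∀ i, ContinuousOn (fun q : ℝ × ℝ => H' i q.1 q.2) (Icc (-1) 1 ×ˢ Icc 0 1)) ∧
          (∀ i, ∀ s ∈ Icc (-1 : ℝ) 1, H' i s 0 = E' (s • z i)) ∧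
          ∀ i, ∀ s ∈ Icc (-1 : ℝ) 1, ∀ t ∈ Ioc (0 : ℝ) 1, ∀ u, H' i s t ≠ E' u := by
  have hKC : 0 < K * C := mul_pos hK hC
  have hfE : ∀ u v : ℝ × ℝ, dist (f (E u)) (f (E v)) ≤ K * C * ‖u - v‖ := by
    intro u v
    calc dist (f (E u)) (f (E v)) ≤ K * dist (E u) (E v) := h2 _ _
      _ ≤ K * (C * dist u v) := mul_le_mul_of_nonneg_left (e1 u v) hK.le
      _ = K * C * ‖u - v‖ := by rw [dist_eq_norm]; ring
  have hG : ∀ u v : ℤ × ℤ, dist (f (E (blc u))) (f (E (blc v))) ≤ K * C * dist u v := by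
    intro u v
    have := hfE (blc u) (blc v)
    rwa [← dist_eq_norm, blc_dist] at this
  choose x k hxk using fun j : ℕ => averaging (fun u => f (E (blc u))) (K * C) hG (4 ^ j)
  obtain ⟨s, hsdef⟩ : ∃ s : ℕ → ℝ, ∀ j, s j = 2 ^ (k j) * 2 ^ j := ⟨_, fun j => rfl⟩
  have hs : ∀ j, 0 < s j := fun j => by rw [hsdef]; positivity
  let c : ℕ → ℝ × ℝ := fun j => blc (x j)
  refine ⟨s, fun j => f (E (c j)), ?_, ?_⟩
  · apply tendsto_atTop_mono (f := fun j : ℕ => (2 : ℝ) ^ j)
    · intro j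
      rw [hsdef]
      have : (1 : ℝ) ≤ 2 ^ (k j) := one_le_pow₀ (by norm_num)
      calc (2 : ℝ) ^ j = 1 * 2 ^ j := (one_mul _).symm
        _ ≤ _ := mul_le_mul_of_nonneg_right this (by positivity)
    · exact tendsto_pow_atTop_atTop_of_one_lt (by norm_num)
  intro ω hω
  -- the flat
  have hbE : ∀ u : ℝ × ℝ, ∃ B : ℝ, ∀ᶠ j in (ω : Filter ℕ),
      dist (f (E (c j))) (f (E (c j + s j • u))) / |s j| ≤ B := by
    intro u
    refine ⟨K * C * ‖u‖, Eventually.of_forall fun j => ?_⟩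
    rw [abs_of_pos (hs j), div_le_iff₀ (hs j)]
    refine (hfE _ _).trans ?_
    rw [sub_add_cancel_left, norm_neg, norm_smul, Real.norm_eq_abs, abs_of_pos (hs j)]
    exact le_of_eq (by ring)
  let E' : ℝ × ℝ → UL ω M s (fun j => f (E (c j))) := fun u =>
    UL.mk ⟨fun j => f (E (c j + s j • u)), hbE u⟩
  have hnorm : ∀ j (u v : ℝ × ℝ), ‖(c j + s j • u) - (c j + s j • v)‖ = s j * ‖u - v‖ := by
    intro j u v
    have : (c j + s j • u) - (c j + s j • v) = s j • (u - v) := by module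
    rw [this, norm_smul, Real.norm_eq_abs, abs_of_pos (hs j)]
  have hlip : ∀ u v, dist (E' u) (E' v) ≤ K * C * dist u v := by
    intro u v
    apply bl_dist_le hs
    intro j
    refine (hfE _ _).trans ?_
    rw [hnorm, dist_eq_norm]
    exact le_of_eq (by ring)
  have hlow : ∀ u v, dist u v ≤ K * C * dist (E' u) (E' v) := by
    intro u v
    have h3 : dist u v / (K * C) ≤ dist (E' u) (E' v) := by
      apply bl_le_dist hs
      intro j
      have h4 := e2 (c j + s j • u) (c j + s j • v)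
      have h5 := h1 (E (c j + s j • u)) (E (c j + s j • v))
      rw [dist_eq_norm, hnorm, ← dist_eq_norm] at h4
      rw [div_mul_eq_mul_div, div_le_iff₀ hKC]
      calc dist u v * s j = s j * dist u v := mul_comm _ _
        _ ≤ C * dist (E (c j + s j • u)) (E (c j + s j • v)) := h4
        _ ≤ C * (K * dist (f (E (c j + s j • u))) (f (E (c j + s j • v)))) :=
            mul_le_mul_of_nonneg_left h5 hC.le
        _ = _ := by ring
    rw [div_le_iff₀ hKC] at h3
    linarith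
  have hmid : ∀ u w, Btw (E' u) (E' (u + w)) (E' (u + (2 : ℝ) • w)) := by
    intro u w
    -- the limit of the defect
    have t1 := UL.tendsto (⟨fun j => f (E (c j + s j • u)), hbE u⟩ : USeq ω M s _)
      ⟨fun j => f (E (c j + s j • (u + w))), hbE (u + w)⟩
    have t2 := UL.tendsto (⟨fun j => f (E (c j + s j • (u + w))), hbE (u + w)⟩ : USeq ω M s _)
      ⟨fun j => f (E (c j + s j • (u + (2 : ℝ) • w))), hbE (u + (2 : ℝ) • w)⟩
    have t3 := UL.tendsto (⟨fun j => f (E (c j + s j • u)), hbE u⟩ : USeq ω M s _)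
      ⟨fun j => f (E (c j + s j • (u + (2 : ℝ) • w))), hbE (u + (2 : ℝ) • w)⟩
    have t4 := (t1.add t2).sub t3
    have hle : dist (E' u) (E' (u + w)) + dist (E' (u + w)) (E' (u + (2 : ℝ) • w)) -
        dist (E' u) (E' (u + (2 : ℝ) • w)) ≤ 0 := by
      have hlim : Tendsto (fun j : ℕ => (1 + 12 * (K * C)) * (1 / 2 : ℝ) ^ j) (ω : Filter ℕ)
          (𝓝 0) := by
        have h3 : Tendsto (fun m : ℕ => (1 + 12 * (K * C)) * (1 / 2 : ℝ) ^ m) atTop
            (𝓝 ((1 + 12 * (K * C)) * 0)) :=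
          (tendsto_pow_atTop_nhds_zero_of_lt_one (by norm_num) (by norm_num)).const_mul _
        rw [mul_zero] at h3
        exact h3.mono_left hω
      refine le_of_tendsto_of_tendsto t4 hlim ?_
      have hev : ∀ᶠ j : ℕ in atTop, ‖u‖ + ‖w‖ + 1 ≤ (2 : ℝ) ^ j :=
        (tendsto_pow_atTop_atTop_of_one_lt (by norm_num : (1 : ℝ) < 2)).eventually_ge_atTop _
      filter_upwards [hω hev] with j hj
      set a := blf ((2 : ℝ) ^ j • u) with ha
      set b := blf ((2 : ℝ) ^ j • w) with hb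
      have hab := blf_bound u j (by linarith [norm_nonneg w])
      have hbb := blf_bound w j (by linarith [norm_nonneg u])
      have hav := hxk j a b hab.1 hab.2 hbb.1 hbb.2
      simp only [blc_add, blc_smul] at hav
      have hca := blf_close ((2 : ℝ) ^ j • u)
      have hcb := blf_close ((2 : ℝ) ^ j • w)
      rw [← ha] at hca
      rw [← hb] at hcb
      have h2b : blc ((2 : ℤ) • b) = (2 : ℝ) • blc b := by
        have := blc_smul 1 b
        rwa [pow_one, pow_one] at this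
      rw [h2b] at hav
      have h2k : (0 : ℝ) < 2 ^ (k j) := by positivity
      -- closeness
      have close : ∀ (y v : ℝ × ℝ) (r : ℝ), ‖y - (2 : ℝ) ^ j • v‖ ≤ r →
          dist (f (E (blc (x j) + (2 : ℝ) ^ k j • y))) (f (E (c j + s j • v))) ≤
            K * C * (2 ^ (k j) * r) := by
        intro y v r hr
        refine (hfE _ _).trans (mul_le_mul_of_nonneg_left ?_ hKC.le)
        have e0 : blc (x j) + (2 : ℝ) ^ k j • y - (c j + s j • v) =
            (2 : ℝ) ^ k j • (y - (2 : ℝ) ^ j • v) := by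
          rw [hsdef, smul_sub, smul_smul]
          change blc (x j) + _ - (blc (x j) + _) = _
          abel
        rw [e0, norm_smul, Real.norm_eq_abs, abs_of_pos h2k]
        exact mul_le_mul_of_nonneg_left hr h2k.le
      have c1 := close (blc a) u 1 hca
      have c2 := close (blc a + blc b) (u + w) 2 (by
        have e0 : blc a + blc b - (2 : ℝ) ^ j • (u + w) =
          (blc a - (2 : ℝ) ^ j • u) + (blc b - (2 : ℝ) ^ j • w) := by
            rw [smul_add]; abel
        rw [e0]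
        exact (norm_add_le _ _).trans (by linarith))
      have c3 := close (blc a + (2 : ℝ) • blc b) (u + (2 : ℝ) • w) 3 (by
        have e0 : blc a + (2 : ℝ) • blc b - (2 : ℝ) ^ j • (u + (2 : ℝ) • w) =
          (blc a - (2 : ℝ) ^ j • u) + (2 : ℝ) • (blc b - (2 : ℝ) ^ j • w) := by
            rw [smul_add, smul_sub, smul_comm ((2 : ℝ) ^ j) (2 : ℝ) w]; abel
        rw [e0]
        refine (norm_add_le _ _).trans ?_
        rw [norm_smul, Real.norm_eq_abs, abs_of_pos (by norm_num : (0 : ℝ) < 2)]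
        linarith)
      rw [← add_div, ← sub_div, abs_of_pos (hs j), div_le_iff₀ (hs j)]
      have hr : (1 + 12 * (K * C)) * (1 / 2 : ℝ) ^ j * s j =
          (1 + 12 * (K * C)) * 2 ^ (k j) := by
        rw [hsdef]
        have : (1 / 2 : ℝ) ^ j * 2 ^ j = 1 := by
          rw [← mul_pow]; norm_num
        calc _ = (1 + 12 * (K * C)) * 2 ^ (k j) * ((1 / 2 : ℝ) ^ j * 2 ^ j) := by ring
          _ = _ := by rw [this, mul_one]
      rw [hr]
      -- names
      set P1 := f (E (blc (x j) + (2 : ℝ) ^ k j • blc a))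
      set P2 := f (E (blc (x j) + (2 : ℝ) ^ k j • (blc a + blc b)))
      set P3 := f (E (blc (x j) + (2 : ℝ) ^ k j • (blc a + (2 : ℝ) • blc b)))
      set Q1 := f (E (c j + s j • u))
      set Q2 := f (E (c j + s j • (u + w)))
      set Q3 := f (E (c j + s j • (u + (2 : ℝ) • w)))
      have d1 : dist Q1 Q2 ≤ dist P1 Q1 + dist P1 P2 + dist P2 Q2 := by
        calc dist Q1 Q2 ≤ dist Q1 P1 + dist P1 P2 + dist P2 Q2 := dist_triangle4 _ _ _ _
          _ = _ := by rw [dist_comm Q1 P1]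
      have d2 : dist Q2 Q3 ≤ dist P2 Q2 + dist P2 P3 + dist P3 Q3 := by
        calc dist Q2 Q3 ≤ dist Q2 P2 + dist P2 P3 + dist P3 Q3 := dist_triangle4 _ _ _ _
          _ = _ := by rw [dist_comm Q2 P2]
      have d3 : dist P1 P3 ≤ dist P1 Q1 + dist Q1 Q3 + dist P3 Q3 := by
        calc dist P1 P3 ≤ dist P1 Q1 + dist Q1 Q3 + dist Q3 P3 := dist_triangle4 _ _ _ _
          _ = _ := by rw [dist_comm Q3 P3]
      linarith
    have htri := dist_triangle (E' u) (E' (u + w)) (E' (u + (2 : ℝ) • w))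
    unfold Btw
    linarith
  -- the half planes
  have hHH : ∀ i j σ τ σ' τ', 0 ≤ τ → 0 ≤ τ' → dist (f (H i (c j) (s j * σ) (s j * τ)))
      (f (H i (c j) (s j * σ') (s j * τ'))) ≤ K * C * (|σ - σ'| + |τ - τ'|) * s j := by
    intro i j σ τ σ' τ' h3 h4
    refine (h2 _ _).trans ?_
    have h5 := e4 i (c j) (s j * σ) (s j * τ) (s j * σ') (s j * τ')
      (mul_nonneg (hs j).le h3) (mul_nonneg (hs j).le h4)
    rw [← mul_sub, ← mul_sub, abs_mul, abs_mul, abs_of_pos (hs j)] at h5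
    calc K * dist (H i (c j) (s j * σ) (s j * τ)) (H i (c j) (s j * σ') (s j * τ')) ≤
        K * (C * (s j * |σ - σ'| + s j * |τ - τ'|)) := mul_le_mul_of_nonneg_left h5 hK.le
      _ = _ := by ring
  have hbH : ∀ (i : Fin 3) (σ τ : ℝ), ∃ B : ℝ, ∀ᶠ j in (ω : Filter ℕ),
      dist (f (E (c j))) (f (H i (c j) (s j * σ) (s j * max τ 0))) / |s j| ≤ B := by
    intro i σ τ
    refine ⟨K * C * (|0 - σ| + |0 - max τ 0|), Eventually.of_forall fun j => ?_⟩
    rw [abs_of_pos (hs j), div_le_iff₀ (hs j)]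
    have h3 := hHH i j 0 0 σ (max τ 0) le_rfl (le_max_right _ _)
    rw [mul_zero, e3, zero_smul, add_zero] at h3
    exact h3
  let H' : Fin 3 → ℝ → ℝ → UL ω M s (fun j => f (E (c j))) := fun i σ τ =>
    UL.mk ⟨fun j => f (H i (c j) (s j * σ) (s j * max τ 0)), hbH i σ τ⟩
  refine ⟨E', K * C, H', ⟨hKC, hlip, hlow, fun u v t ht => bl_seg E' (K * C) hKC hlip hmid u v t ht⟩,
    ?_, ?_, ?_⟩
  · intro i
    have hcont : Continuous (fun q : ℝ × ℝ => H' i q.1 q.2) := by
      have hL : LipschitzWith (Real.toNNReal (K * C * 2)) (fun q : ℝ × ℝ => H' i q.1 q.2) := by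
        apply LipschitzWith.of_dist_le_mul
        intro q r
        rw [Real.coe_toNNReal _ (by positivity)]
        apply bl_dist_le hs
        intro j
        refine (hHH i j q.1 (max q.2 0) r.1 (max r.2 0) (le_max_right _ _)
          (le_max_right _ _)).trans (mul_le_mul_of_nonneg_right ?_ (hs j).le)
        have h3 : |q.1 - r.1| ≤ dist q r := by
          rw [Prod.dist_eq, ← Real.dist_eq]; exact le_max_left _ _
        have h4 : |max q.2 0 - max r.2 0| ≤ dist q r := by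
          refine (abs_max_sub_max_le_abs _ _ _).trans ?_
          rw [Prod.dist_eq, ← Real.dist_eq]; exact le_max_right _ _
        calc K * C * (|q.1 - r.1| + |max q.2 0 - max r.2 0|) ≤
            K * C * (dist q r + dist q r) :=
              mul_le_mul_of_nonneg_left (add_le_add h3 h4) hKC.le
          _ = _ := by ring
      exact hL.continuous
    exact hcont.continuousOn
  · intro i σ _
    change UL.mk _ = UL.mk _
    congr 2
    funext j
    rw [max_self, mul_zero, e3, smul_smul]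
  · intro i σ _ τ hτ u heq
    have h3 : τ / (K * C) ≤ dist (H' i σ τ) (E' u) := by
      apply bl_le_dist hs
      intro j
      have hm : max τ 0 = τ := max_eq_left hτ.1.le
      change τ / (K * C) * s j ≤ dist (f (H i (c j) (s j * σ) (s j * max τ 0)))
        (f (E (c j + s j • u)))
      rw [hm]
      have h4 := e5 i (c j) (s j * σ) (s j * τ) (c j + s j • u) (mul_nonneg (hs j).le hτ.1.le)
      have h5 := h1 (H i (c j) (s j * σ) (s j * τ)) (E (c j + s j • u))
      rw [div_mul_eq_mul_div, div_le_iff₀ hKC]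
      calc τ * s j = s j * τ := mul_comm _ _
        _ ≤ C * dist (H i (c j) (s j * σ) (s j * τ)) (E (c j + s j • u)) := h4
        _ ≤ C * (K * dist (f (H i (c j) (s j * σ) (s j * τ))) (f (E (c j + s j • u)))) :=
            mul_le_mul_of_nonneg_left h5 hC.le
        _ = _ := by ring
    rw [heq, dist_self] at h3
    have : 0 < τ / (K * C) := div_pos hτ.1 hKC
    linarith

end MC
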