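import Pool.Agent.Helper42.MC.Len

/-!
# MC-24: uniqueness of fillings (the Cayley 2-complex has no 2-cycles)

Fix a cell `(g0,i0)` and put `ℓ = lev g0`. Let `μ : MT Φ → Option (Fin n) → ℤ`:
`μ (g0 t) (some i0) = 1`; `μ v none = -1` if `v = g0 t f` with `f : FreeGroup (Fin n)` (so `lev v = ℓ+1`) and the
reduced word of `f` starts with the letter `x_{i0}` (positive), all other values are `0`.
Claim: `pv μ g (rel Φ i) = if (g,i) = (g0,i0) then 1 else 0`. Indeed
`pv μ g (rel i) = μ g none + μ (g t) (some i) - μ (g Φ(x_i)) none - pv μ g (hz (Φ x_i))`.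
* `lev g ≠ ℓ, ℓ+1`: all terms are `0`.
* `lev g = ℓ`: the first, third and fourth term are `0`, the second is `1` iff `g t = g0 t`, `i = i0`.
* `lev g = ℓ+1`, `g = g0 t f`: the second term is `0`. For every `u : FreeGroup (Fin n)`:
  `pv μ (g0 t f) (hz u) = [f u starts with x_{i0}] - [f starts with x_{i0}]` (induction on the letters of
  `u`: the reduced words of `f` and `f x^{±1}` differ by appending or deleting the last letter, so
  starting with `x_{i0}` changes iff `f = 1, x^{±} = x_{i0}` or `f = x_{i0}, x^{±} = x_{i0}⁻¹`). So the sum is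
  `-[f starts] + [f Φ(x_i) starts] - ([f Φ(x_i) starts] - [f starts]) = 0`.
Hence `0 = pairing c μ = c (g0,i0)`.
-/

namespace MC

variable {n : ℕ}

/-- the horizontal cochain which is `1` on the edge `(g₀ t, i₀)` and `0` elsewhere -/
private noncomputable def hor (Φ : MulAut (FreeGroup (Fin n))) (g₀ : MT Φ) (i₀ : Fin n) :
    MT Φ → Option (Fin n) → ℤ := by
  classical
  exact fun v o => if v = g₀ * MT.t Φ ∧ o = some i₀ then 1 else 0

/-- the cochain dual to the cell `(g₀, i₀)` -/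
private noncomputable def dual (Φ : MulAut (FreeGroup (Fin n))) (g₀ : MT Φ) (i₀ : Fin n) :
    MT Φ → Option (Fin n) → ℤ := by
  classical
  exact fun v o => match o with
    | some i => hor Φ g₀ i₀ v (some i)
    | none => if h : ∃ f, v = g₀ * MT.t Φ * MT.inc Φ f then
        - pv (hor Φ g₀ i₀) (g₀ * MT.t Φ) (hz h.choose) else 0

private theorem dual_some (Φ : MulAut (FreeGroup (Fin n))) (g₀ : MT Φ) (i₀ : Fin n) (v : MT Φ)
    (i : Fin n) : dual Φ g₀ i₀ v (some i) = hor Φ g₀ i₀ v (some i) := rfl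

private theorem dual_none (Φ : MulAut (FreeGroup (Fin n))) (g₀ : MT Φ) (i₀ : Fin n)
    (f : FreeGroup (Fin n)) : dual Φ g₀ i₀ (g₀ * MT.t Φ * MT.inc Φ f) none =
      - pv (hor Φ g₀ i₀) (g₀ * MT.t Φ) (hz f) := by
  classical
  have h : ∃ f', g₀ * MT.t Φ * MT.inc Φ f = g₀ * MT.t Φ * MT.inc Φ f' := ⟨f, rfl⟩
  have h1 : dual Φ g₀ i₀ (g₀ * MT.t Φ * MT.inc Φ f) none =
      - pv (hor Φ g₀ i₀) (g₀ * MT.t Φ) (hz h.choose) := by
    simp only [dual]
    exact dif_pos h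
  have h2 : h.choose = f := by
    have h3 := h.choose_spec
    exact (inc_injective (mul_left_cancel h3)).symm
  rw [h1, h2]

private theorem dual_none' (Φ : MulAut (FreeGroup (Fin n))) (g₀ : MT Φ) (i₀ : Fin n) (v : MT Φ)
    (hv : ¬ ∃ f, v = g₀ * MT.t Φ * MT.inc Φ f) : dual Φ g₀ i₀ v none = 0 := by
  classical
  simp only [dual]
  exact dif_neg hv

private theorem pv_hz_congr {Φ : MulAut (FreeGroup (Fin n))} (ψ ψ' : MT Φ → Option (Fin n) → ℤ)
    (h : ∀ v i, ψ v (some i) = ψ' v (some i)) (u : FreeGroup (Fin n)) :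
    ∀ g : MT Φ, pv ψ g (hz u) = pv ψ' g (hz u) := by
  have hof : ∀ i : Fin n, (hz (FreeGroup.of i) : FreeGroup (Option (Fin n))) =
      FreeGroup.of (some i) := fun i => FreeGroup.map.of
  induction u using FreeGroup.induction_on with
  | C1 => intro g; simp [pv_one]
  | of i => intro g; rw [hof, pv_of, pv_of, h]
  | inv_of i _ =>
    intro g
    rw [map_inv, hof, pv_inv, pv_inv, pv_of, pv_of, h]
  | mul x y hx hy =>
    intro g
    rw [map_mul, pv_mul, pv_mul, hx, hy]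

private theorem pv_hz_zero {Φ : MulAut (FreeGroup (Fin n))} (g₀ : MT Φ) (i₀ : Fin n)
    (u : FreeGroup (Fin n)) :
    ∀ g : MT Φ, (¬ ∃ f, g = g₀ * MT.t Φ * MT.inc Φ f) → pv (hor Φ g₀ i₀) g (hz u) = 0 := by
  classical
  have hof : ∀ i : Fin n, (hz (FreeGroup.of i) : FreeGroup (Option (Fin n))) =
      FreeGroup.of (some i) := fun i => FreeGroup.map.of
  have hz0 : ∀ g : MT Φ, (¬ ∃ f, g = g₀ * MT.t Φ * MT.inc Φ f) → ∀ o, hor Φ g₀ i₀ g o = 0 := by
    intro g hg o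
    simp only [hor]
    rw [if_neg]
    rintro ⟨h1, -⟩
    exact hg ⟨1, by rw [h1, map_one, mul_one]⟩
  have hstep : ∀ g : MT Φ, (¬ ∃ f, g = g₀ * MT.t Φ * MT.inc Φ f) → ∀ x : FreeGroup (Fin n),
      ¬ ∃ f, g * MT.inc Φ x = g₀ * MT.t Φ * MT.inc Φ f := by
    rintro g hg x ⟨f, hf⟩
    refine hg ⟨f * x⁻¹, ?_⟩
    rw [map_mul, map_inv, ← mul_assoc, ← hf, mul_assoc, mul_inv_cancel, mul_one]
  induction u using FreeGroup.induction_on with
  | C1 => intro g _; simp [pv_one]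
  | of i => intro g hg; rw [hof, pv_of, hz0 g hg]
  | inv_of i _ =>
    intro g hg
    rw [map_inv, hof, pv_inv, pv_of, ← hof, ev_hz, ← map_inv, hz0 _ (hstep g hg _), neg_zero]
  | mul x y hx hy =>
    intro g hg
    rw [map_mul, pv_mul, hx g hg, ev_hz, hy _ (hstep g hg _), add_zero]

private theorem pv_rel {Φ : MulAut (FreeGroup (Fin n))} (ψ : MT Φ → Option (Fin n) → ℤ) (g : MT Φ)
    (i : Fin n) : pv ψ g (rel Φ i) = ψ g none + ψ (g * MT.t Φ) (some i) -
      ψ (g * MT.inc Φ (Φ (FreeGroup.of i))) none - pv ψ g (hz (Φ (FreeGroup.of i))) := by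
  have hof : (hz (FreeGroup.of i) : FreeGroup (Option (Fin n))) =
      FreeGroup.of (some i) := FreeGroup.map.of
  have e1 : ev Φ (tt * hz (FreeGroup.of i) * tt⁻¹) = MT.inc Φ (Φ (FreeGroup.of i)) := by
    rw [map_mul, map_mul, map_inv, ev_tt, ev_hz, MT.t_conj]
  have e2 : g * ev Φ (tt * hz (FreeGroup.of i)) * (ev Φ tt)⁻¹ =
      g * MT.inc Φ (Φ (FreeGroup.of i)) := by
    rw [← e1]
    simp only [map_mul, map_inv, mul_assoc]
  rw [rel, pv_mul, pv_inv, e1, ev_hz, mul_inv_cancel_right, pv_mul, pv_inv, e2, pv_mul, ev_tt, hof,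
    pv_of, show (tt : FreeGroup (Option (Fin n))) = FreeGroup.of none from rfl, pv_of, pv_of]
  ring

private theorem dual_rel {Φ : MulAut (FreeGroup (Fin n))} (g₀ : MT Φ) (i₀ : Fin n) (g : MT Φ)
    (i : Fin n) [Decidable ((g, i) = (g₀, i₀))] :
    pv (dual Φ g₀ i₀) g (rel Φ i) = if (g, i) = (g₀, i₀) then 1 else 0 := by
  classical
  rw [pv_rel, dual_some, pv_hz_congr (dual Φ g₀ i₀) (hor Φ g₀ i₀) (fun v i => dual_some Φ g₀ i₀ v i)]
  by_cases hg : ∃ f, g = g₀ * MT.t Φ * MT.inc Φ f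
  · obtain ⟨f, rfl⟩ := hg
    have hne : ¬ ((g₀ * MT.t Φ * MT.inc Φ f, i) = (g₀, i₀)) := by
      intro h
      have h1 := congrArg (fun q : MT Φ × Fin n => MT.lev q.1) h
      simp only [lev_mul, lev_t, lev_inc] at h1
      omega
    have hne2 : hor Φ g₀ i₀ (g₀ * MT.t Φ * MT.inc Φ f * MT.t Φ) (some i) = 0 := by
      simp only [hor]
      rw [if_neg]
      rintro ⟨h, -⟩
      have h1 := congrArg MT.lev h
      simp only [lev_mul, lev_t, lev_inc] at h1
      omega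
    have h3 : pv (hor Φ g₀ i₀) (g₀ * MT.t Φ) (hz (f * Φ (FreeGroup.of i))) =
        pv (hor Φ g₀ i₀) (g₀ * MT.t Φ) (hz f) +
        pv (hor Φ g₀ i₀) (g₀ * MT.t Φ * MT.inc Φ f) (hz (Φ (FreeGroup.of i))) := by
      rw [map_mul, pv_mul, ev_hz]
    rw [if_neg hne, hne2, dual_none, mul_assoc (g₀ * MT.t Φ), ← map_mul, dual_none, h3]
    ring
  · have hg2 : ¬ ∃ f, g * MT.inc Φ (Φ (FreeGroup.of i)) = g₀ * MT.t Φ * MT.inc Φ f := by
      rintro ⟨f, hf⟩
      refine hg ⟨f * (Φ (FreeGroup.of i))⁻¹, ?_⟩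
      rw [map_mul, map_inv, ← mul_assoc, ← hf, mul_assoc, mul_inv_cancel, mul_one]
    rw [dual_none' _ _ _ _ hg, dual_none' _ _ _ _ hg2, pv_hz_zero _ _ _ _ hg]
    simp only [hor, mul_left_inj, Option.some.injEq, Prod.mk.injEq]
    split_ifs <;> simp

theorem uniq {Φ : MulAut (FreeGroup (Fin n))} (c : MT Φ × Fin n →₀ ℤ)
    (h : ∀ ψ : MT Φ → Option (Fin n) → ℤ, pairing c ψ = 0) : c = 0 := by
  classical
  ext ⟨g₀, i₀⟩
  have h1 := h (dual Φ g₀ i₀)
  unfold pairing at h1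
  have h2 : (c.sum fun q k => k * pv (dual Φ g₀ i₀) q.1 (rel Φ q.2)) =
      c.sum fun q k => if q = (g₀, i₀) then k else 0 := by
    refine Finsupp.sum_congr fun q _ => ?_
    rw [dual_rel g₀ i₀ q.1 q.2]
    simp
  rw [h2, Finsupp.sum_ite_eq'] at h1
  rw [Finsupp.zero_apply]
  by_cases hc : (g₀, i₀) ∈ c.support
  · rwa [if_pos hc] at h1
  · exact Finsupp.notMem_support_iff.1 hc

end MC
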