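import Pool.Agent.Helper42.MC.Fill
import Pool.Agent.Helper42.MC.Uniq

/-!
# MC-36: the 2-chains of a grid box

`C` = four times the constant of `fill`. Edges: if `q` and `q + e a` are in the cube let `W a q` be a word with
`ev = (f q)⁻¹ * f (q + e a)` and norm `len ≤ B` (`exists_word`). The words
`W a q * W b (q + e a) * (W a (q + e b))⁻¹ * (W b q)⁻¹` are closed and of norm `≤ 4B`; `fill` at `f q` gives the
chain; its pairing with `ψ` is computed by `pv_mul`, `pv_inv`. `C * B ≥ C_fill * norm` with the support bound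
(real numbers).
Cube relation: by `uniq` it is enough to pair with every `ψ`: with `E a q = pv ψ (f q) (W a q)`,
`c12 (k+1) - c12 k - (c13 (j+1) - c13 j) + (c23 (i+1) - c23 i)` pairs to `0` (all 24 terms cancel).
`pairing` is additive in the chain (`Finsupp.sum_add_index'`, `Finsupp.sum_sub_index`).
Outside the index ranges define everything as `0` / `1`.
-/

namespace MC

/-- unit vectors -/
def e3 : Fin 3 → ℕ × ℕ × ℕ := ![(1, 0, 0), (0, 1, 0), (0, 0, 1)]

variable {n : ℕ}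

/-- the pairing as a homomorphism -/
def pairingHom {Φ : MulAut (FreeGroup (Fin n))} (ψ : MT Φ → Option (Fin n) → ℤ) :
    (MT Φ × Fin n →₀ ℤ) →+ ℤ where
  toFun c := pairing c ψ
  map_zero' := by simp [pairing]
  map_add' c d := by
    unfold pairing
    rw [Finsupp.sum_add_index' (by simp) (by intros; ring)]

theorem pairingHom_apply {Φ : MulAut (FreeGroup (Fin n))} (ψ : MT Φ → Option (Fin n) → ℤ)
    (c : MT Φ × Fin n →₀ ℤ) : pairingHom ψ c = pairing c ψ := rfl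

theorem box_chains (Φ : MulAut (FreeGroup (Fin n))) :
    ∃ C : ℕ, ∀ (N : ℕ) (B : ℝ) (f : ℕ × ℕ × ℕ → MT Φ), 0 ≤ B →
      (∀ a q, InCube N q → InCube N (q + e3 a) → (len Φ ((f q)⁻¹ * f (q + e3 a)) : ℝ) ≤ B) →
      ∃ (W : Fin 3 → ℕ × ℕ × ℕ → FreeGroup (Option (Fin n)))
        (c12 c13 c23 : ℕ → ℕ → ℕ → (MT Φ × Fin n →₀ ℤ)),
        (∀ a q, InCube N q → InCube N (q + e3 a) →
          ev Φ (W a q) = (f q)⁻¹ * f (q + e3 a) ∧ ((W a q).norm : ℝ) ≤ B) ∧
        (∀ i j k, i < N → j < N → k ≤ N →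
          (∀ ψ, pairing (c12 i j k) ψ = pv ψ (f (i, j, k)) (W 0 (i, j, k)) +
            pv ψ (f (i + 1, j, k)) (W 1 (i + 1, j, k)) - pv ψ (f (i, j + 1, k)) (W 0 (i, j + 1, k)) -
            pv ψ (f (i, j, k)) (W 1 (i, j, k))) ∧
          ∀ σ ∈ (c12 i j k).support, (len Φ ((f (i, j, k))⁻¹ * σ.1) : ℝ) ≤ C * B) ∧
        (∀ i j k, i < N → j ≤ N → k < N →
          ∀ σ ∈ (c13 i j k).support, (len Φ ((f (i, j, k))⁻¹ * σ.1) : ℝ) ≤ C * B) ∧
        (∀ i j k, i ≤ N → j < N → k < N →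
          ∀ σ ∈ (c23 i j k).support, (len Φ ((f (i, j, k))⁻¹ * σ.1) : ℝ) ≤ C * B) ∧
        ∀ i j k, i < N → j < N → k < N → c12 i j (k + 1) - c12 i j k -
          (c13 i (j + 1) k - c13 i j k) + (c23 (i + 1) j k - c23 i j k) = 0 := by
  obtain ⟨Cf, hCf⟩ := fill Φ
  refine ⟨4 * Cf, fun N B f hB hf => ?_⟩
  choose W hW1 hW2 using fun (a : Fin 3) (q : ℕ × ℕ × ℕ) =>
    exists_word (Φ := Φ) ((f q)⁻¹ * f (q + e3 a))
  -- squares
  let sq : Fin 3 → Fin 3 → ℕ × ℕ × ℕ → FreeGroup (Option (Fin n)) := fun a b q =>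
    W a q * W b (q + e3 a) * (W a (q + e3 b))⁻¹ * (W b q)⁻¹
  have hsq1 : ∀ a b q, ev Φ (sq a b q) = 1 := by
    intro a b q
    simp only [sq, map_mul, map_inv, hW1]
    rw [show q + e3 b + e3 a = q + e3 a + e3 b by rw [add_right_comm]]
    group
  choose c hc1 hc2 using fun (a b : Fin 3) (q : ℕ × ℕ × ℕ) => hCf (f q) (sq a b q) (hsq1 a b q)
  have hpv : ∀ a b q ψ, pairing (c a b q) ψ = pv ψ (f q) (W a q) +
      pv ψ (f (q + e3 a)) (W b (q + e3 a)) - pv ψ (f (q + e3 b)) (W a (q + e3 b)) -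
      pv ψ (f q) (W b q) := by
    intro a b q ψ
    rw [← hc1 a b q ψ]
    simp only [sq]
    rw [pv_mul, pv_mul, pv_mul, pv_inv, pv_inv]
    simp only [map_mul, map_inv, hW1]
    rw [show q + e3 b + e3 a = q + e3 a + e3 b by rw [add_right_comm]]
    have h1 : f q * ((f q)⁻¹ * f (q + e3 a)) = f (q + e3 a) := by group
    have h2 : f q * ((f q)⁻¹ * f (q + e3 a) * ((f (q + e3 a))⁻¹ * f (q + e3 a + e3 b))) *
        ((f (q + e3 b))⁻¹ * f (q + e3 a + e3 b))⁻¹ = f (q + e3 b) := by group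
    have h3 : f q * ((f q)⁻¹ * f (q + e3 a) * ((f (q + e3 a))⁻¹ * f (q + e3 a + e3 b)) *
        ((f (q + e3 b))⁻¹ * f (q + e3 a + e3 b))⁻¹) * ((f q)⁻¹ * f (q + e3 b))⁻¹ = f q := by group
    rw [h1, h2, h3]
    ring
  have hnorm : ∀ a q, InCube N q → InCube N (q + e3 a) → ((W a q).norm : ℝ) ≤ B := by
    intro a q h1 h2
    rw [hW2]
    exact hf a q h1 h2
  have hsupp : ∀ a b q, InCube N q → InCube N (q + e3 a) → InCube N (q + e3 b) →
      InCube N (q + e3 a + e3 b) → ∀ σ ∈ (c a b q).support,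
      (len Φ ((f q)⁻¹ * σ.1) : ℝ) ≤ ((4 * Cf : ℕ) : ℝ) * B := by
    intro a b q h0 ha hb hab σ hσ
    have h1 := hc2 a b q σ hσ
    have h2 : (sq a b q).norm ≤ (W a q).norm + (W b (q + e3 a)).norm + (W a (q + e3 b)).norm +
        (W b q).norm := by
      simp only [sq]
      refine (FreeGroup.norm_mul_le _ _).trans ?_
      rw [FreeGroup.norm_inv_eq]
      refine Nat.add_le_add_right ?_ _
      refine (FreeGroup.norm_mul_le _ _).trans ?_
      rw [FreeGroup.norm_inv_eq]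
      exact Nat.add_le_add_right (FreeGroup.norm_mul_le _ _) _
    have h3 : ((sq a b q).norm : ℝ) ≤ 4 * B := by
      have e1 := hnorm a q h0 ha
      have e2 := hnorm b (q + e3 a) ha hab
      have e3' := hnorm a (q + e3 b) hb (by rw [add_right_comm]; exact hab)
      have e4 := hnorm b q h0 hb
      have h4 : ((sq a b q).norm : ℝ) ≤ ((W a q).norm + (W b (q + e3 a)).norm +
        (W a (q + e3 b)).norm + (W b q).norm : ℝ) := by exact_mod_cast h2
      linarith
    calc (len Φ ((f q)⁻¹ * σ.1) : ℝ) ≤ Cf * (sq a b q).norm := by exact_mod_cast h1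
      _ ≤ Cf * (4 * B) := mul_le_mul_of_nonneg_left h3 (Nat.cast_nonneg _)
      _ = ((4 * Cf : ℕ) : ℝ) * B := by push_cast; ring
  refine ⟨W, fun i j k => c 0 1 (i, j, k), fun i j k => c 0 2 (i, j, k),
    fun i j k => c 1 2 (i, j, k), ?_, ?_, ?_, ?_, ?_⟩
  · intro a q h1 h2
    exact ⟨hW1 a q, hnorm a q h1 h2⟩
  · intro i j k hi hj hk
    refine ⟨fun ψ => hpv 0 1 (i, j, k) ψ, ?_⟩
    apply hsupp <;> simp only [InCube, e3, Matrix.cons_val_zero, Matrix.cons_val_one,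
      Prod.mk_add_mk] <;> omega
  · intro i j k hi hj hk
    apply hsupp <;> simp only [InCube, e3, Matrix.cons_val, Prod.mk_add_mk] <;> omega
  · intro i j k hi hj hk
    apply hsupp <;> simp only [InCube, e3, Matrix.cons_val, Prod.mk_add_mk] <;> omega
  · intro i j k _ _ _
    apply uniq
    intro ψ
    rw [← pairingHom_apply, map_add, map_sub, map_sub, map_sub, map_sub]
    simp only [pairingHom_apply, hpv]
    simp only [e3, Matrix.cons_val, Prod.mk_add_mk, add_zero]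
    ring

end MC
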