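import Pool.Agent.Helper42.MC.Defs

/-!
# MC-20: planes and half-planes in the asymptotic cone

`E (x,y)` = class of `k ↦ a^⌊x s_k⌋ z^⌊y s_k⌋`; direction `i`: `(p i, 1)`;
`H i q s t` = class of `k ↦ a^⌊q.1 s_k⌋ z^⌊q.2 s_k⌋ (z a^{p i})^⌊s s_k⌋ (b i)^⌊t s_k⌋` for `t ≥ 0`
(for `t = 0` define it as `E (q + s • (p i, 1))`, or show that this is the same class, see below; for
`t < 0` anything).
* everything is admissible: word lengths are at most linear in the exponents.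
* `e1` (Lipschitz): `dist (a^m z^l) (a^m' z^l') = wl (a^(m'-m) z^(l'-l)) ≤ |m'-m| wl a + |l'-l| wl z`,
  since `a` and `z` commute; `|⌊x s_k⌋ - ⌊x' s_k⌋| ≤ |x-x'| |s_k| + 1`, and `1/|s_k| → 0`.
* `e2`: `h1` with `m = ⌊x' s_k⌋ - ⌊x s_k⌋` etc. (`dist` on `ℝ × ℝ` is the maximum).
* `e3`: `z`, `a` commute, so
  `a^⌊q.1 s_k⌋ z^⌊q.2 s_k⌋ (z a^{p i})^⌊s s_k⌋ = a^(⌊q.1 s_k⌋ + p i ⌊s s_k⌋) z^(⌊q.2 s_k⌋ + ⌊s s_k⌋)`, the exponents
  differ from `⌊(q.1 + s p i) s_k⌋`, `⌊(q.2+s) s_k⌋` by at most `|p i| + 3`: the same class.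
* `e4`: `z a^{p i}` commutes with `b i`; word length of `(z a^{p i})^(..) (b i)^(..)`.
* `e5`: `(a^m z^l (z a^{p i})^r (b i)^t)⁻¹ a^m' z^l' = (b i)^{-t} a^m'' (z a^{p i})^l''` for suitable `m'', l''`
  (all of `a, z` commute); apply `h2`, divide by `|s_k|`, take the limit.
-/

open Filter Topology Set

namespace MC

section wordlength

variable {G : Type*} [Group G] {S : Set G}

private theorem wl_pow_le (hS : Subgroup.closure S = ⊤) (g : G) (n : ℕ) :
    (wl S (g ^ n) : ℝ) ≤ n * wl S g := by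
  induction n with
  | zero => simp [wl_one]
  | succ n ih =>
    have h1 := wl_mul_le hS (g ^ n) g
    have h2 : (wl S (g ^ n * g) : ℝ) ≤ wl S (g ^ n) + wl S g := by exact_mod_cast h1
    rw [pow_succ, Nat.cast_succ]
    linarith

private theorem wl_zpow_le (hS : Subgroup.closure S = ⊤) (g : G) (n : ℤ) :
    (wl S (g ^ n) : ℝ) ≤ |(n : ℝ)| * wl S g := by
  obtain ⟨k, rfl | rfl⟩ := Int.eq_nat_or_neg n
  · rw [zpow_natCast]
    simpa using wl_pow_le hS g k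
  · rw [zpow_neg, zpow_natCast, wl_inv hS]
    simpa using wl_pow_le hS g k

private theorem wl_two_le (hS : Subgroup.closure S = ⊤) (g h : G) (m n : ℤ) {A B : ℝ}
    (hA : |(m : ℝ)| ≤ A) (hB : |(n : ℝ)| ≤ B) :
    (wl S (g ^ m * h ^ n) : ℝ) ≤ A * wl S g + B * wl S h := by
  have h1 : (wl S (g ^ m * h ^ n) : ℝ) ≤ wl S (g ^ m) + wl S (h ^ n) := by
    exact_mod_cast wl_mul_le hS (g ^ m) (h ^ n)
  have h2 := wl_zpow_le hS g m
  have h3 := wl_zpow_le hS h n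
  have h4 : |(m : ℝ)| * (wl S g : ℝ) ≤ A * wl S g := by gcongr
  have h5 : |(n : ℝ)| * (wl S h : ℝ) ≤ B * wl S h := by gcongr
  linarith

private theorem floor_err (x : ℝ) : |(⌊x⌋ : ℝ) - x| ≤ 1 := by
  rw [abs_le]
  constructor
  · linarith [Int.lt_floor_add_one x]
  · linarith [Int.floor_le x]

/-- the difference of the floors -/
private theorem floor_diff (x y : ℝ) : |((⌊y⌋ - ⌊x⌋ : ℤ) : ℝ)| ≤ |y - x| + 1 := by
  push_cast
  rw [abs_le]
  have h1 := Int.lt_floor_add_one x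
  have h2 := Int.floor_le x
  have h3 := Int.lt_floor_add_one y
  have h4 := Int.floor_le y
  have h5 := le_abs_self (y - x)
  have h6 := neg_abs_le (y - x)
  constructor <;> linarith

private theorem floor_diff' (x y : ℝ) : |y - x| - 1 ≤ |((⌊y⌋ - ⌊x⌋ : ℤ) : ℝ)| := by
  push_cast
  have h1 := Int.lt_floor_add_one x
  have h2 := Int.floor_le x
  have h3 := Int.lt_floor_add_one y
  have h4 := Int.floor_le y
  have h5 := le_abs_self ((⌊y⌋ : ℝ) - ⌊x⌋)
  have h6 := neg_abs_le ((⌊y⌋ : ℝ) - ⌊x⌋)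
  rcases abs_cases (y - x) with ⟨h, _⟩ | ⟨h, _⟩ <;> rw [h] <;> linarith

end wordlength

section cone

variable {G : Type*} [Group G] {S : Set G} {hS : Subgroup.closure S = ⊤} {ω : Ultrafilter ℕ}
  {s : ℕ → ℝ}

/-- admissible sequences -/
private def Adm (hS : Subgroup.closure S = ⊤) (ω : Ultrafilter ℕ) (s : ℕ → ℝ) (g : ℕ → G) : Prop :=
  ∃ C : ℝ, ∀ᶠ k in (ω : Filter ℕ),
    dist (show WG G S hS from (1 : G)) (show WG G S hS from g k) / |s k| ≤ C

private noncomputable def cpt (g : ℕ → G) (hg : Adm hS ω s g) : AsymCone G S hS ω s :=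
  UL.mk (⟨g, hg⟩ : USeq ω (WG G S hS) s (fun _ => (1 : G)))

private theorem adm_of (hs : Tendsto s (ω : Filter ℕ) atTop) (g : ℕ → G) (A B : ℝ)
    (h : ∀ᶠ k in (ω : Filter ℕ), (wl S (g k) : ℝ) ≤ A * s k + B) : Adm hS ω s g := by
  refine ⟨A + |B|, ?_⟩
  filter_upwards [h, hs.eventually_ge_atTop 1] with k hk h1
  rw [WG.dist_def, inv_one, one_mul, abs_of_pos (by linarith), div_le_iff₀ (by linarith)]
  have h2 : B ≤ |B| := le_abs_self B
  have h3 : 0 ≤ |B| := abs_nonneg B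
  nlinarith

private theorem tendsto_cpt (g g' : ℕ → G) (hg : Adm hS ω s g) (hg' : Adm hS ω s g') :
    Tendsto (fun k => (wl S ((g k)⁻¹ * g' k) : ℝ) / |s k|) (ω : Filter ℕ)
      (𝓝 (dist (cpt g hg) (cpt g' hg'))) :=
  UL.tendsto (⟨g, hg⟩ : USeq ω (WG G S hS) s (fun _ => (1 : G))) ⟨g', hg'⟩

private theorem tendsto_div (hs : Tendsto s (ω : Filter ℕ) atTop) (B : ℝ) :
    Tendsto (fun k => B / |s k|) (ω : Filter ℕ) (𝓝 0) :=
  (tendsto_abs_atTop_atTop.comp hs).const_div_atTop B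

private theorem dist_le_of (hs : Tendsto s (ω : Filter ℕ) atTop) (g g' : ℕ → G)
    (hg : Adm hS ω s g) (hg' : Adm hS ω s g') (A B : ℝ)
    (h : ∀ᶠ k in (ω : Filter ℕ), (wl S ((g k)⁻¹ * g' k) : ℝ) ≤ A * s k + B) :
    dist (cpt g hg) (cpt g' hg') ≤ A := by
  have h1 : Tendsto (fun k => A + B / |s k|) (ω : Filter ℕ) (𝓝 (A + 0)) :=
    tendsto_const_nhds.add (tendsto_div hs B)
  rw [add_zero] at h1
  refine le_of_tendsto_of_tendsto (tendsto_cpt g g' hg hg') h1 ?_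
  filter_upwards [h, hs.eventually_ge_atTop 1] with k hk h2
  have h3 : 0 < s k := by linarith
  rw [abs_of_pos h3, div_le_iff₀ h3, add_mul, div_mul_cancel₀ _ h3.ne']
  exact hk

private theorem le_dist_of (hs : Tendsto s (ω : Filter ℕ) atTop) (g g' : ℕ → G)
    (hg : Adm hS ω s g) (hg' : Adm hS ω s g') (A B D : ℝ)
    (h : ∀ᶠ k in (ω : Filter ℕ), A * s k - B ≤ D * (wl S ((g k)⁻¹ * g' k) : ℝ)) :
    A ≤ D * dist (cpt g hg) (cpt g' hg') := by
  have h1 : Tendsto (fun k => A - B / |s k|) (ω : Filter ℕ) (𝓝 (A - 0)) :=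
    tendsto_const_nhds.sub (tendsto_div hs B)
  rw [sub_zero] at h1
  refine le_of_tendsto_of_tendsto h1 ((tendsto_cpt g g' hg hg').const_mul D) ?_
  filter_upwards [h, hs.eventually_ge_atTop 1] with k hk h2
  have h3 : 0 < s k := by linarith
  rw [abs_of_pos h3, ← mul_div_assoc, le_div_iff₀ h3, sub_mul, div_mul_cancel₀ _ h3.ne']
  exact hk

end cone

theorem cone_flat {G : Type*} [Group G] {S : Set G} (hS : Subgroup.closure S = ⊤) (a z : G)
    (haz : Commute a z) (p : Fin 3 → ℤ) (hp : Function.Injective p) (b : Fin 3 → G)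
    (hb : ∀ i, Commute (z * a ^ (p i)) (b i)) (C : ℝ) (hC : 0 < C)
    (h1 : ∀ m l : ℤ, |(m : ℝ)| + |(l : ℝ)| ≤ C * wl S (a ^ m * z ^ l))
    (h2 : ∀ i, ∀ (t : ℕ) (m l : ℤ),
      (t : ℝ) ≤ C * wl S (((b i) ^ t)⁻¹ * a ^ m * (z * a ^ (p i)) ^ l) + C)
    (ω : Ultrafilter ℕ) (s : ℕ → ℝ) (hs : Tendsto s (ω : Filter ℕ) atTop) :
    FlatData (AsymCone G S hS ω s) := by
  -- notation
  set Wa : ℝ := (wl S a : ℝ) with hWa
  set Wz : ℝ := (wl S z : ℝ) with hWz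
  set c : Fin 3 → G := fun i => z * a ^ (p i) with hc
  set Wc : Fin 3 → ℝ := fun i => (wl S (c i) : ℝ) with hWc
  set Wb : Fin 3 → ℝ := fun i => (wl S (b i) : ℝ) with hWb
  have hWa0 : 0 ≤ Wa := Nat.cast_nonneg _
  have hWz0 : 0 ≤ Wz := Nat.cast_nonneg _
  have hWc0 : ∀ i, 0 ≤ Wc i := fun i => Nat.cast_nonneg _
  have hWb0 : ∀ i, 0 ≤ Wb i := fun i => Nat.cast_nonneg _
  -- sequences
  set es : ℝ × ℝ → ℕ → G := fun q k => a ^ ⌊q.1 * s k⌋ * z ^ ⌊q.2 * s k⌋ with hes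
  set hq : Fin 3 → ℝ × ℝ → ℝ → ℝ → ℕ → G := fun i q r t k =>
    es q k * c i ^ ⌊r * s k⌋ * b i ^ ⌊t * s k⌋ with hhq
  have hpos : ∀ᶠ k in (ω : Filter ℕ), 1 ≤ s k := hs.eventually_ge_atTop 1
  have hfl0 : ∀ x : ℝ, ∀ k, 1 ≤ s k → |((⌊x * s k⌋ : ℤ) : ℝ)| ≤ |x| * s k + 1 := by
    intro x k hk
    have h3 := floor_diff 0 (x * s k)
    rw [Int.floor_zero, sub_zero, sub_zero, abs_mul, abs_of_pos (by linarith : 0 < s k)] at h3
    exact h3
  have hes_adm : ∀ q, Adm hS ω s (es q) := by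
    intro q
    refine adm_of hs _ (|q.1| * Wa + |q.2| * Wz) (Wa + Wz) ?_
    filter_upwards [hpos] with k hk
    have h3 := wl_two_le hS a z _ _ (hfl0 q.1 k hk) (hfl0 q.2 k hk)
    refine h3.trans (le_of_eq ?_)
    ring
  have hhq_adm : ∀ i q r t, Adm hS ω s (hq i q r t) := by
    intro i q r t
    refine adm_of hs _ (|q.1| * Wa + |q.2| * Wz + (|r| * Wc i + |t| * Wb i))
      (Wa + Wz + (Wc i + Wb i)) ?_
    filter_upwards [hpos] with k hk
    have h3 := wl_two_le hS a z _ _ (hfl0 q.1 k hk) (hfl0 q.2 k hk)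
    have h4 := wl_two_le hS (c i) (b i) _ _ (hfl0 r k hk) (hfl0 t k hk)
    have h5 : (wl S (hq i q r t k) : ℝ) ≤ wl S (es q k) +
        wl S (c i ^ ⌊r * s k⌋ * b i ^ ⌊t * s k⌋) := by
      have h6 : hq i q r t k = es q k * (c i ^ ⌊r * s k⌋ * b i ^ ⌊t * s k⌋) := by
        simp only [hhq, mul_assoc]
      rw [h6]
      exact_mod_cast wl_mul_le hS _ _
    calc (wl S (hq i q r t k) : ℝ) ≤ wl S (es q k) +
        wl S (c i ^ ⌊r * s k⌋ * b i ^ ⌊t * s k⌋) := h5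
      _ ≤ ((|q.1| * s k + 1) * Wa + (|q.2| * s k + 1) * Wz) +
          ((|r| * s k + 1) * Wc i + (|t| * s k + 1) * Wb i) := add_le_add h3 h4
      _ = _ := by ring
  -- the constant
  set D : ℝ := C + Wa + Wz + ∑ i, (Wc i + Wb i) with hD
  have hsum : ∀ i, Wc i + Wb i ≤ ∑ i, (Wc i + Wb i) := fun i =>
    Finset.single_le_sum (f := fun i => Wc i + Wb i)
      (fun j _ => add_nonneg (hWc0 j) (hWb0 j)) (Finset.mem_univ i)
  have hsum0 : 0 ≤ ∑ i, (Wc i + Wb i) :=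
    Finset.sum_nonneg fun j _ => add_nonneg (hWc0 j) (hWb0 j)
  have hDpos : 0 < D := by rw [hD]; linarith
  -- quotients of the sequences
  have hdiff : ∀ m l m' l' : ℤ, (a ^ m * z ^ l)⁻¹ * (a ^ m' * z ^ l') =
      a ^ (m' - m) * z ^ (l' - l) := by
    intro m l m' l'
    have e1 : Commute (z ^ l)⁻¹ (a ^ (m' - m)) := ((haz.symm.zpow_zpow l (m' - m)).inv_left)
    calc (a ^ m * z ^ l)⁻¹ * (a ^ m' * z ^ l')
        = (z ^ l)⁻¹ * ((a ^ m)⁻¹ * a ^ m') * z ^ l' := by group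
      _ = (z ^ l)⁻¹ * a ^ (m' - m) * z ^ l' := by
          rw [← zpow_neg a m, ← zpow_add, neg_add_eq_sub]
      _ = a ^ (m' - m) * ((z ^ l)⁻¹ * z ^ l') := by rw [e1.eq, mul_assoc]
      _ = a ^ (m' - m) * z ^ (l' - l) := by rw [← zpow_neg, ← zpow_add, neg_add_eq_sub]
  have hca : ∀ i (r : ℤ), c i ^ r = a ^ (p i * r) * z ^ r := by
    intro i r
    have e1 : Commute z (a ^ p i) := haz.symm.zpow_right (p i)
    simp only [hc]
    rw [e1.mul_zpow, ← zpow_mul, (haz.symm.zpow_zpow r (p i * r)).eq]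
  refine ⟨fun q => cpt (es q) (hes_adm q), fun i => ((p i : ℝ), 1),
    fun i q r t => cpt (hq i q r t) (hhq_adm i q r t), D, hDpos, ?_, ?_, ?_, ?_, ?_, ?_⟩
  · intro i j hij h
    simp only [mul_one, one_mul] at h
    exact hij (hp (by exact_mod_cast h))
  · -- Lipschitz
    intro u v
    refine (dist_le_of hs _ _ _ _ (dist u v * (Wa + Wz)) (Wa + Wz) ?_).trans ?_
    · filter_upwards [hpos] with k hk
      have hk0 : 0 < s k := by linarith
      have h3 : |((⌊v.1 * s k⌋ - ⌊u.1 * s k⌋ : ℤ) : ℝ)| ≤ dist u v * s k + 1 := by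
        refine (floor_diff _ _).trans ?_
        rw [← sub_mul, abs_mul, abs_of_pos hk0]
        gcongr
        rw [dist_comm]
        exact le_max_left _ _
      have h4 : |((⌊v.2 * s k⌋ - ⌊u.2 * s k⌋ : ℤ) : ℝ)| ≤ dist u v * s k + 1 := by
        refine (floor_diff _ _).trans ?_
        rw [← sub_mul, abs_mul, abs_of_pos hk0]
        gcongr
        rw [dist_comm]
        exact le_max_right _ _
      simp only [hes]
      rw [hdiff]
      refine (wl_two_le hS a z _ _ h3 h4).trans (le_of_eq ?_)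
      ring
    · have h5 : Wa + Wz ≤ D := by rw [hD]; linarith
      have h6 : 0 ≤ dist u v := dist_nonneg
      calc dist u v * (Wa + Wz) ≤ dist u v * D := by gcongr
        _ = D * dist u v := mul_comm _ _
  · -- lower bound
    intro u v
    have h3 : dist u v ≤ C * dist (cpt (es u) (hes_adm u)) (cpt (es v) (hes_adm v)) := by
      refine le_dist_of hs _ _ _ _ _ 1 _ ?_
      filter_upwards [hpos] with k hk
      have hk0 : 0 < s k := by linarith
      simp only [hes]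
      rw [hdiff]
      have h4 := h1 (⌊v.1 * s k⌋ - ⌊u.1 * s k⌋) (⌊v.2 * s k⌋ - ⌊u.2 * s k⌋)
      have h5 := floor_diff' (u.1 * s k) (v.1 * s k)
      have h6 := floor_diff' (u.2 * s k) (v.2 * s k)
      rw [← sub_mul, abs_mul, abs_of_pos hk0] at h5 h6
      have h7 := abs_nonneg (((⌊v.1 * s k⌋ - ⌊u.1 * s k⌋ : ℤ) : ℝ))
      have h8 := abs_nonneg (((⌊v.2 * s k⌋ - ⌊u.2 * s k⌋ : ℤ) : ℝ))
      have h9 : dist u v = max |v.1 - u.1| |v.2 - u.2| := by
        rw [dist_comm]; rfl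
      rw [h9]
      rcases le_total |v.1 - u.1| |v.2 - u.2| with h | h
      · rw [max_eq_right h]; linarith
      · rw [max_eq_left h]; linarith
    refine h3.trans ?_
    have h5 : C ≤ D := by rw [hD]; linarith
    gcongr
  · -- the boundary of the half plane
    intro i q r
    rw [← dist_le_zero]
    refine dist_le_of hs _ _ _ _ 0 ((2 + |(p i : ℝ)|) * Wa + 3 * Wz) ?_
    filter_upwards [hpos] with k hk
    have h3 : hq i q r 0 k = a ^ (⌊q.1 * s k⌋ + p i * ⌊r * s k⌋) * z ^ (⌊q.2 * s k⌋ + ⌊r * s k⌋) := by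
      simp only [hhq, hes]
      rw [zero_mul, Int.floor_zero, zpow_zero, mul_one, hca, zpow_add, zpow_add]
      have e1 := (haz.symm.zpow_zpow ⌊q.2 * s k⌋ (p i * ⌊r * s k⌋)).eq
      calc a ^ ⌊q.1 * s k⌋ * z ^ ⌊q.2 * s k⌋ * (a ^ (p i * ⌊r * s k⌋) * z ^ ⌊r * s k⌋)
          = a ^ ⌊q.1 * s k⌋ * (z ^ ⌊q.2 * s k⌋ * a ^ (p i * ⌊r * s k⌋)) * z ^ ⌊r * s k⌋ := by
            simp only [mul_assoc]
        _ = _ := by rw [e1]; simp only [mul_assoc]
    rw [h3]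
    simp only [hes]
    rw [hdiff]
    have e1 := floor_err (q.1 * s k)
    have e2 := floor_err (q.2 * s k)
    have e3 := floor_err (r * s k)
    have e4 := floor_err ((q.1 + r * (p i : ℝ)) * s k)
    have e5 := floor_err ((q.2 + r) * s k)
    have h4 : |((⌊(q + r • ((p i : ℝ), (1 : ℝ))).1 * s k⌋ - (⌊q.1 * s k⌋ + p i * ⌊r * s k⌋) : ℤ) : ℝ)|
        ≤ 2 + |(p i : ℝ)| := by
      have h5 : ((⌊(q + r • ((p i : ℝ), (1 : ℝ))).1 * s k⌋ -
          (⌊q.1 * s k⌋ + p i * ⌊r * s k⌋) : ℤ) : ℝ) =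
          ((⌊(q.1 + r * (p i : ℝ)) * s k⌋ : ℝ) - (q.1 + r * (p i : ℝ)) * s k) -
          ((⌊q.1 * s k⌋ : ℝ) - q.1 * s k) - (p i : ℝ) * ((⌊r * s k⌋ : ℝ) - r * s k) := by
        simp only [Prod.fst_add, Prod.smul_fst, smul_eq_mul]
        push_cast
        ring
      rw [h5]
      have h6 : |(p i : ℝ) * ((⌊r * s k⌋ : ℝ) - r * s k)| ≤ |(p i : ℝ)| := by
        rw [abs_mul]
        have := abs_nonneg (p i : ℝ)
        nlinarith
      refine (abs_sub _ _).trans ?_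
      have h7 := abs_sub ((⌊(q.1 + r * (p i : ℝ)) * s k⌋ : ℝ) - (q.1 + r * (p i : ℝ)) * s k)
        ((⌊q.1 * s k⌋ : ℝ) - q.1 * s k)
      linarith
    have h8 : |((⌊(q + r • ((p i : ℝ), (1 : ℝ))).2 * s k⌋ - (⌊q.2 * s k⌋ + ⌊r * s k⌋) : ℤ) : ℝ)|
        ≤ 3 := by
      have h5 : ((⌊(q + r • ((p i : ℝ), (1 : ℝ))).2 * s k⌋ -
          (⌊q.2 * s k⌋ + ⌊r * s k⌋) : ℤ) : ℝ) =
          ((⌊(q.2 + r) * s k⌋ : ℝ) - (q.2 + r) * s k) -
          ((⌊q.2 * s k⌋ : ℝ) - q.2 * s k) - ((⌊r * s k⌋ : ℝ) - r * s k) := by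
        simp only [Prod.snd_add, Prod.smul_snd, smul_eq_mul, mul_one]
        push_cast
        ring
      rw [h5]
      refine (abs_sub _ _).trans ?_
      have h7 := abs_sub ((⌊(q.2 + r) * s k⌋ : ℝ) - (q.2 + r) * s k)
        ((⌊q.2 * s k⌋ : ℝ) - q.2 * s k)
      linarith
    refine (wl_two_le hS a z _ _ h4 h8).trans (le_of_eq ?_)
    ring
  · -- Lipschitz on the half plane
    intro i q r t r' t' _ _
    refine (dist_le_of hs _ _ _ _ (|r - r'| * Wc i + |t - t'| * Wb i) (Wc i + Wb i) ?_).trans ?_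
    · filter_upwards [hpos] with k hk
      have hk0 : 0 < s k := by linarith
      have h3 : (hq i q r t k)⁻¹ * hq i q r' t' k =
          c i ^ (⌊r' * s k⌋ - ⌊r * s k⌋) * b i ^ (⌊t' * s k⌋ - ⌊t * s k⌋) := by
        simp only [hhq]
        have e1 : Commute (b i ^ ⌊t * s k⌋)⁻¹ (c i ^ (⌊r' * s k⌋ - ⌊r * s k⌋)) :=
          (((hb i).symm.zpow_zpow _ _).inv_left)
        calc (es q k * c i ^ ⌊r * s k⌋ * b i ^ ⌊t * s k⌋)⁻¹ *
              (es q k * c i ^ ⌊r' * s k⌋ * b i ^ ⌊t' * s k⌋)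
            = (b i ^ ⌊t * s k⌋)⁻¹ * ((c i ^ ⌊r * s k⌋)⁻¹ * c i ^ ⌊r' * s k⌋) * b i ^ ⌊t' * s k⌋ := by
              group
          _ = (b i ^ ⌊t * s k⌋)⁻¹ * c i ^ (⌊r' * s k⌋ - ⌊r * s k⌋) * b i ^ ⌊t' * s k⌋ := by
              rw [← zpow_neg (c i), ← zpow_add, neg_add_eq_sub]
          _ = c i ^ (⌊r' * s k⌋ - ⌊r * s k⌋) * ((b i ^ ⌊t * s k⌋)⁻¹ * b i ^ ⌊t' * s k⌋) := by
              rw [e1.eq, mul_assoc]
          _ = _ := by rw [← zpow_neg, ← zpow_add, neg_add_eq_sub]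
      rw [h3]
      have h4 : |((⌊r' * s k⌋ - ⌊r * s k⌋ : ℤ) : ℝ)| ≤ |r - r'| * s k + 1 := by
        refine (floor_diff _ _).trans ?_
        rw [← sub_mul, abs_mul, abs_of_pos hk0, abs_sub_comm]
      have h5 : |((⌊t' * s k⌋ - ⌊t * s k⌋ : ℤ) : ℝ)| ≤ |t - t'| * s k + 1 := by
        refine (floor_diff _ _).trans ?_
        rw [← sub_mul, abs_mul, abs_of_pos hk0, abs_sub_comm]
      refine (wl_two_le hS _ _ _ _ h4 h5).trans (le_of_eq ?_)
      ring
    · have h3 := hsum i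
      have h4 := hWc0 i
      have h5 := hWb0 i
      have h6 := abs_nonneg (r - r')
      have h7 := abs_nonneg (t - t')
      have h8 : Wc i ≤ D := by rw [hD]; linarith
      have h9 : Wb i ≤ D := by rw [hD]; linarith
      calc |r - r'| * Wc i + |t - t'| * Wb i ≤ |r - r'| * D + |t - t'| * D := by gcongr
        _ = D * (|r - r'| + |t - t'|) := by ring
  · -- distance to the plane
    intro i q r t u ht
    have h3 : t ≤ C * dist (cpt (hq i q r t) (hhq_adm i q r t)) (cpt (es u) (hes_adm u)) := by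
      refine le_dist_of hs _ _ _ _ _ (1 + C) _ ?_
      filter_upwards [hpos] with k hk
      have hk0 : 0 < s k := by linarith
      have hfl : 0 ≤ ⌊t * s k⌋ := Int.floor_nonneg.mpr (by positivity)
      obtain ⟨τ, hτ⟩ := Int.eq_ofNat_of_zero_le hfl
      set m := ⌊q.1 * s k⌋
      set l := ⌊q.2 * s k⌋
      set m' := ⌊u.1 * s k⌋
      set l' := ⌊u.2 * s k⌋
      set ρ := ⌊r * s k⌋
      have h4 : (hq i q r t k)⁻¹ * es u k =
          ((b i) ^ τ)⁻¹ * a ^ (m' - m - p i * (l' - l)) * (z * a ^ (p i)) ^ (l' - l - ρ) := by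
        have e1 : (es q k)⁻¹ * es u k = a ^ (m' - m) * z ^ (l' - l) := hdiff m l m' l'
        have e2 : (c i ^ ρ)⁻¹ * (a ^ (m' - m) * z ^ (l' - l)) =
            a ^ (m' - m - p i * (l' - l)) * c i ^ (l' - l - ρ) := by
          rw [← zpow_neg, hca, hca]
          have f1 := (haz.symm.zpow_zpow (-ρ) (m' - m)).eq
          calc a ^ (p i * -ρ) * z ^ (-ρ) * (a ^ (m' - m) * z ^ (l' - l))
              = a ^ (p i * -ρ) * (z ^ (-ρ) * a ^ (m' - m)) * z ^ (l' - l) := by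
                simp only [mul_assoc]
            _ = a ^ (p i * -ρ) * a ^ (m' - m) * (z ^ (-ρ) * z ^ (l' - l)) := by
                rw [f1]; simp only [mul_assoc]
            _ = a ^ (p i * -ρ + (m' - m)) * z ^ (-ρ + (l' - l)) := by
                rw [← zpow_add, ← zpow_add]
            _ = a ^ (m' - m - p i * (l' - l) + p i * (l' - l - ρ)) * z ^ (l' - l - ρ) := by
                congr 2 <;> ring
            _ = _ := by rw [zpow_add]; simp only [mul_assoc]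
        simp only [hhq]
        rw [hτ]
        calc (es q k * c i ^ ρ * b i ^ (Int.ofNat τ))⁻¹ * es u k
            = (b i ^ (Int.ofNat τ))⁻¹ * ((c i ^ ρ)⁻¹ * ((es q k)⁻¹ * es u k)) := by
              simp only [mul_inv_rev, mul_assoc]
          _ = _ := by
              rw [e1, e2, Int.ofNat_eq_natCast, zpow_natCast, mul_assoc]
      rw [h4]
      have h5 := h2 i τ (m' - m - p i * (l' - l)) (l' - l - ρ)
      have h6 : t * s k - 1 ≤ (τ : ℝ) := by
        have h7 := Int.lt_floor_add_one (t * s k)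
        rw [hτ] at h7
        rw [Int.cast_natCast] at h7
        linarith
      linarith
    refine h3.trans ?_
    have h5 : C ≤ D := by rw [hD]; linarith
    gcongr

end MC
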