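import Pool.Agent.Helper42.MC.Tree
import Pool.Agent.Helper42.MC.FreeFacts

/-!
# MC-31: powers of non-commuting elements diverge

Claim: `gp (b^t) (a^m)` is bounded over `t : ℕ`, `m : ℤ`. Let `R = |a| + |b|` and let `N` be the number
of elements of norm `≤ R`. Suppose `gp (b^t) (a^m) ≥ G`. For `k ≤ G` let `p_k` be the prefix of length `k` of
`b^t` (it is also a prefix of `a^m`, `gp_four`). The powers `b^0, …, b^t` form a `|b|`-chain, the powers
`a^0, …, a^m` an `|a|`-chain: by `chain_near` there are `i_k`, `j_k` with `fd (b^{i_k}) p_k ≤ |b|`,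
`fd (a^{j_k}) p_k ≤ |a|`; so `|b^{-i_k} a^{j_k}| ≤ R`. If `G ≥ (N+1) * (2|b|+2)`, the indices
`k = 0, (2|b|+1), 2(2|b|+1), …` give `N+1` values with pairwise distinct `i_k` (the points `p_k` are more
than `2|b|` apart), so by pigeonhole `b^{-i} a^j = b^{-i'} a^{j'}` with `i ≠ i'`; then
`b^{i'-i} = a^{j'-j}`, a nontrivial power of `b` commutes with `a`, so `a`, `b` commute (`commute_of_zpow`,
`free_torsion`). Contradiction.
Conclusion: `|(b^t)⁻¹ a^m| = |b^t| + |a^m| - 2 gp ≥ t - 2C₀` by `norm_zpow`.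
-/

namespace MC

variable {n : ℕ}

private theorem pw_finite (R : ℕ) : {x : FreeGroup (Fin n) | x.norm ≤ R}.Finite := by
  have h : {l : List (Fin n × Bool) | l.length ≤ R}.Finite := List.finite_length_le _ R
  refine Set.Finite.of_finite_image (f := FreeGroup.toWord) (h.subset ?_)
    (FreeGroup.toWord_injective.injOn)
  rintro _ ⟨x, hx, rfl⟩
  exact hx

private theorem pw_chain (c : FreeGroup (Fin n)) (t : ℕ) {q : FreeGroup (Fin n)}
    (hq : gp q (c ^ t) = q.norm) : ∃ i ≤ t, fd (c ^ i) q ≤ c.norm := by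
  refine chain_near (fun i => c ^ i) (pow_zero c) (fun i _ => ?_) hq
  show fd (c ^ i) (c ^ (i + 1)) ≤ c.norm
  unfold fd
  rw [pow_succ, inv_mul_cancel_left]

private theorem pw_chain_z (a : FreeGroup (Fin n)) (m : ℤ) {q : FreeGroup (Fin n)}
    (hq : gp q (a ^ m) = q.norm) : ∃ j : ℤ, fd (a ^ j) q ≤ a.norm := by
  rcases Int.eq_nat_or_neg m with ⟨k, rfl | rfl⟩
  · rw [zpow_natCast] at hq
    obtain ⟨i, _, hi⟩ := pw_chain a k hq
    exact ⟨i, by rw [zpow_natCast]; exact hi⟩
  · rw [zpow_neg, zpow_natCast, ← inv_pow] at hq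
    obtain ⟨i, _, hi⟩ := pw_chain a⁻¹ k hq
    refine ⟨-(i : ℤ), ?_⟩
    rw [zpow_neg, zpow_natCast, ← inv_pow]
    rwa [FreeGroup.norm_inv_eq] at hi

private theorem pw_norm_le_fd (x y : FreeGroup (Fin n)) : x.norm ≤ y.norm + fd x y := by
  have h := fd_triangle 1 y x
  have h1 : fd 1 x = x.norm := by unfold fd; rw [inv_one, one_mul]
  have h2 : fd 1 y = y.norm := by unfold fd; rw [inv_one, one_mul]
  rw [h1, h2, fd_comm y x] at h
  exact h

theorem powers_div {a b : FreeGroup (Fin n)} (hab : a * b ≠ b * a) :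
    ∃ C : ℕ, ∀ (t : ℕ) (m : ℤ), t ≤ ((b ^ t)⁻¹ * a ^ m).norm + C := by
  have hb : b ≠ 1 := by
    rintro rfl
    exact hab (by rw [mul_one, one_mul])
  set R := a.norm + b.norm with hR
  have hS := pw_finite (n := n) R
  set N := hS.toFinset.card with hN
  set G := N * (2 * b.norm + 1) with hG
  have key : ∀ (t : ℕ) (m : ℤ), gp (b ^ t) (a ^ m) < G + 1 := by
    intro t m
    by_contra hge
    have hge' : G ≤ gp (b ^ t) (a ^ m) := by omega
    -- the points
    have hpt : ∀ s ∈ Finset.range (N + 1), ∃ (q : FreeGroup (Fin n)) (i : ℕ) (j : ℤ),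
        q.norm = s * (2 * b.norm + 1) ∧ fd (b ^ i) q ≤ b.norm ∧ fd (a ^ j) q ≤ a.norm := by
      intro s hs
      have hs' : s ≤ N := by
        have := Finset.mem_range.1 hs; omega
      have hk : s * (2 * b.norm + 1) ≤ G := Nat.mul_le_mul_right _ hs'
      have hk2 : s * (2 * b.norm + 1) ≤ (b ^ t).norm := (hk.trans hge').trans (gp_le_left _ _)
      obtain ⟨q, hq1, hq2⟩ := exists_prefix (b ^ t) hk2
      obtain ⟨i, _, hi⟩ := pw_chain b t (hq2.trans hq1.symm)
      have h3 : gp q (a ^ m) = q.norm := by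
        apply le_antisymm (gp_le_left _ _)
        refine le_trans ?_ (gp_four q (b ^ t) (a ^ m))
        rw [le_min_iff, hq1, hq2]
        exact ⟨le_rfl, hk.trans hge'⟩
      obtain ⟨j, hj⟩ := pw_chain_z a m h3
      exact ⟨q, i, j, hq1, hi, hj⟩
    choose! q i j hq hi hj using hpt
    have hmaps : ∀ s ∈ Finset.range (N + 1), (b ^ (i s))⁻¹ * a ^ (j s) ∈ hS.toFinset := by
      intro s hs
      rw [Set.Finite.mem_toFinset]
      show ((b ^ (i s))⁻¹ * a ^ (j s)).norm ≤ R
      have h1 := fd_triangle (b ^ (i s)) (q s) (a ^ (j s))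
      have h2 := hi s hs
      have h3 := hj s hs
      rw [fd_comm (a ^ (j s)) (q s)] at h3
      have h4 : fd (b ^ (i s)) (a ^ (j s)) ≤ R := by omega
      exact h4
    have hcard : hS.toFinset.card < (Finset.range (N + 1)).card := by
      rw [Finset.card_range]; omega
    obtain ⟨s, hs, s', hs', hne, heq⟩ :=
      Finset.exists_ne_map_eq_of_card_lt_of_maps_to hcard hmaps
    have hine : i s ≠ i s' := by
      intro h
      have h1 := hi s hs
      have h2 := hi s' hs'
      rw [h] at h1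
      have h3 : fd (q s) (q s') ≤ 2 * b.norm := by
        have h4 := fd_triangle (q s) (b ^ (i s')) (q s')
        rw [fd_comm (q s) (b ^ (i s'))] at h4
        omega
      have h5 := pw_norm_le_fd (q s) (q s')
      have h6 := pw_norm_le_fd (q s') (q s)
      rw [fd_comm (q s') (q s)] at h6
      rw [hq s hs, hq s' hs'] at h5 h6
      rcases Nat.lt_or_gt_of_ne hne with h7 | h7
      · have h8 : (s + 1) * (2 * b.norm + 1) ≤ s' * (2 * b.norm + 1) :=
          Nat.mul_le_mul_right _ h7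
        have h9 : (s + 1) * (2 * b.norm + 1) = s * (2 * b.norm + 1) + (2 * b.norm + 1) := by ring
        omega
      · have h8 : (s' + 1) * (2 * b.norm + 1) ≤ s * (2 * b.norm + 1) :=
          Nat.mul_le_mul_right _ h7
        have h9 : (s' + 1) * (2 * b.norm + 1) = s' * (2 * b.norm + 1) + (2 * b.norm + 1) := by ring
        omega
    -- a power of b commutes with a
    have hpow : b ^ ((i s' : ℤ) - (i s : ℤ)) = a ^ (j s' - j s) := by
      have h1 : (b ^ (i s))⁻¹ * a ^ (j s) = (b ^ (i s'))⁻¹ * a ^ (j s') := heq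
      rw [zpow_sub, zpow_sub, zpow_natCast, zpow_natCast]
      have h2 : b ^ (i s') * ((b ^ (i s))⁻¹ * a ^ (j s)) = a ^ (j s') := by
        rw [h1, mul_inv_cancel_left]
      rw [← h2]
      group
    have hcomm : Commute a (b ^ ((i s' : ℤ) - (i s : ℤ))) := by
      rw [hpow]
      exact (Commute.refl a).zpow_right _
    have hk : (i s' : ℤ) - (i s : ℤ) ≠ 0 := by
      intro h
      apply hine
      omega
    exact hab (commute_of_zpow hk hcomm)
  refine ⟨2 * (G + 1), fun t m => ?_⟩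
  have h1 := key t m
  have h2 := gp_spec (b ^ t) (a ^ m)
  have h3 : fd (b ^ t) (a ^ m) = ((b ^ t)⁻¹ * a ^ m).norm := rfl
  have h4 := norm_zpow hb (t : ℤ)
  rw [zpow_natCast, Int.natAbs_natCast] at h4
  omega

end MC
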