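import Pool.Agent.Helper42.MC.Len

/-!
# MC-28: reduction to `F ⋊ ⟨z⟩`

Let `r = lev z ≠ 0` and `S' = {z} ∪ {x_i}`. Every `g` with `r ∣ lev g` is `inc x * z^m`
(`m = lev g / r`, `g z^{-m}` has level 0), hence a product of elements of `S' ∪ S'⁻¹`.
Let `D` be the finite set of all elements `t^k σ t^{-k'}` with `0 ≤ k, k' < |r|`, `σ ∈ {x_i^{±1}, t^{±1}}`,
and level divisible by `r`; let `C` be the maximal length of expressions (in `S' ∪ S'⁻¹`) chosen for the
elements of `D`. Let `r ∣ lev g`, `g = σ_1 … σ_ℓ` with `ℓ = len g` letters, `g_j = σ_1 … σ_j`,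
`k_j = lev g_j mod r` (`Int.emod`, in `[0,|r|)`), `q_j = g_j t^{-k_j}`. `q_0 = 1`, `q_ℓ = g`, and
`q_j⁻¹ q_{j+1} = t^{k_j} σ_{j+1} t^{-k_{j+1}} ∈ D`. Concatenate the expressions.
(A convenient form: induction over words `w : FreeGroup (Option (Fin n))` as lists of letters; claim: for
all lists, `(ev w) t^{-k}` with `k = lev (ev w) mod r` is a product of at most `C * length`.)
-/

namespace MC

variable {n : ℕ}

/-- `g` is a product of at most `L` letters -/
private def RdOk {Φ : MulAut (FreeGroup (Fin n))} (z : MT Φ) (L : ℕ) (g : MT Φ) : Prop :=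
  ∃ l : List (MT Φ), l.length ≤ L ∧ l.prod = g ∧
    ∀ x ∈ l, (x = z ∨ x = z⁻¹) ∨
      ∃ i, x = MT.inc Φ (FreeGroup.of i) ∨ x = (MT.inc Φ (FreeGroup.of i))⁻¹

private theorem rdOk_one {Φ : MulAut (FreeGroup (Fin n))} (z : MT Φ) : RdOk z 0 (1 : MT Φ) :=
  ⟨[], le_rfl, rfl, fun _ hx => absurd hx List.not_mem_nil⟩

private theorem rdOk_mono {Φ : MulAut (FreeGroup (Fin n))} {z : MT Φ} {L L' : ℕ} {g : MT Φ}
    (h : RdOk z L g) (hL : L ≤ L') : RdOk z L' g := by
  obtain ⟨l, h1, h2, h3⟩ := h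
  exact ⟨l, h1.trans hL, h2, h3⟩

private theorem rdOk_mul {Φ : MulAut (FreeGroup (Fin n))} {z : MT Φ} {L L' : ℕ} {g h : MT Φ}
    (hg : RdOk z L g) (hh : RdOk z L' h) : RdOk z (L + L') (g * h) := by
  obtain ⟨l, h1, h2, h3⟩ := hg
  obtain ⟨l', h4, h5, h6⟩ := hh
  refine ⟨l ++ l', ?_, ?_, ?_⟩
  · rw [List.length_append]; omega
  · rw [List.prod_append, h2, h5]
  · intro x hx
    rcases List.mem_append.1 hx with hx | hx
    · exact h3 x hx
    · exact h6 x hx

private theorem rdOk_inv {Φ : MulAut (FreeGroup (Fin n))} {z : MT Φ} {L : ℕ} {g : MT Φ}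
    (hg : RdOk z L g) : RdOk z L g⁻¹ := by
  obtain ⟨l, h1, h2, h3⟩ := hg
  refine ⟨(l.map (fun x => x⁻¹)).reverse, ?_, ?_, ?_⟩
  · rw [List.length_reverse, List.length_map]; exact h1
  · rw [← List.prod_inv_reverse, h2]
  · intro x hx
    rw [List.mem_reverse, List.mem_map] at hx
    obtain ⟨y, hy, rfl⟩ := hx
    rcases h3 y hy with (h | h) | ⟨i, h | h⟩
    · left; right; rw [h]
    · left; left; rw [h, inv_inv]
    · right; exact ⟨i, Or.inr (by rw [h])⟩
    · right; exact ⟨i, Or.inl (by rw [h, inv_inv])⟩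

private theorem rdOk_z {Φ : MulAut (FreeGroup (Fin n))} (z : MT Φ) : RdOk z 1 z :=
  ⟨[z], le_rfl, by simp, fun x hx => Or.inl (Or.inl (List.mem_singleton.1 hx))⟩

private theorem rdOk_of {Φ : MulAut (FreeGroup (Fin n))} (z : MT Φ) (i : Fin n) :
    RdOk z 1 (MT.inc Φ (FreeGroup.of i)) :=
  ⟨[MT.inc Φ (FreeGroup.of i)], le_rfl, by simp,
    fun x hx => Or.inr ⟨i, Or.inl (List.mem_singleton.1 hx)⟩⟩

private theorem rdOk_inc {Φ : MulAut (FreeGroup (Fin n))} (z : MT Φ) (x : FreeGroup (Fin n)) :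
    ∃ L, RdOk z L (MT.inc Φ x) := by
  induction x using FreeGroup.induction_on with
  | C1 => exact ⟨0, by rw [map_one]; exact rdOk_one z⟩
  | of i => exact ⟨1, rdOk_of z i⟩
  | inv_of i _ => exact ⟨1, by rw [map_inv]; exact rdOk_inv (rdOk_of z i)⟩
  | mul x y hx hy =>
    obtain ⟨L, hL⟩ := hx
    obtain ⟨L', hL'⟩ := hy
    exact ⟨L + L', by rw [map_mul]; exact rdOk_mul hL hL'⟩

private theorem rdOk_zpow {Φ : MulAut (FreeGroup (Fin n))} (z : MT Φ) (m : ℤ) :
    ∃ L, RdOk z L (z ^ m) := by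
  have h : ∀ k : ℕ, ∃ L, RdOk z L (z ^ k) := by
    intro k
    induction k with
    | zero => exact ⟨0, by rw [pow_zero]; exact rdOk_one z⟩
    | succ k ih =>
      obtain ⟨L, hL⟩ := ih
      exact ⟨L + 1, by rw [pow_succ]; exact rdOk_mul hL (rdOk_z z)⟩
  rcases Int.eq_nat_or_neg m with ⟨k, rfl | rfl⟩
  · rw [zpow_natCast]; exact h k
  · obtain ⟨L, hL⟩ := h k
    exact ⟨L, by rw [zpow_neg, zpow_natCast]; exact rdOk_inv hL⟩

private theorem rd_lev_zpow {Φ : MulAut (FreeGroup (Fin n))} (g : MT Φ) (l : ℤ) :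
    MT.lev (g ^ l) = l * MT.lev g := by
  have h1 : ∀ k : ℕ, MT.lev (g ^ k) = k * MT.lev g := by
    intro k
    induction k with
    | zero =>
      rw [pow_zero]
      have : MT.lev (1 : MT Φ) = 0 := rfl
      rw [this]; simp
    | succ k ih => rw [pow_succ, lev_mul, ih]; push_cast; ring
  rcases Int.eq_nat_or_neg l with ⟨k, rfl | rfl⟩
  · rw [zpow_natCast, h1]
  · rw [zpow_neg, zpow_natCast, lev_inv, h1]; ring

private theorem rdOk_exists {Φ : MulAut (FreeGroup (Fin n))} {z : MT Φ} {g : MT Φ}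
    (h : MT.lev z ∣ MT.lev g) : ∃ L, RdOk z L g := by
  obtain ⟨m, hm⟩ := h
  have h0 : MT.lev (g * (z ^ m)⁻¹) = 0 := by
    rw [lev_mul, lev_inv, rd_lev_zpow, hm]; ring
  obtain ⟨x, hx⟩ := exists_inc_of_lev_zero h0
  obtain ⟨L, hL⟩ := rdOk_inc (Φ := Φ) z x
  obtain ⟨L', hL'⟩ := rdOk_zpow z m
  refine ⟨L + L', ?_⟩
  have e : g = MT.inc Φ x * z ^ m := by rw [← hx, inv_mul_cancel_right]
  rw [e]
  exact rdOk_mul hL hL'

/-- the letters -/
private def rdLetter (Φ : MulAut (FreeGroup (Fin n))) (q : Option (Fin n) × Bool) : MT Φ :=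
  if q.2 then ev Φ (FreeGroup.of q.1) else (ev Φ (FreeGroup.of q.1))⁻¹

private theorem rd_mk_single {Φ : MulAut (FreeGroup (Fin n))} (q : Option (Fin n) × Bool) :
    ev Φ (FreeGroup.mk [q]) = rdLetter Φ q := by
  obtain ⟨o, e⟩ := q
  cases e with
  | true => rfl
  | false =>
    have : (FreeGroup.mk [(o, false)] : FreeGroup (Option (Fin n))) = (FreeGroup.of o)⁻¹ := by
      rw [FreeGroup.of, FreeGroup.inv_mk]; rfl
    rw [this, map_inv]; rfl

theorem reduct {Φ : MulAut (FreeGroup (Fin n))} {z : MT Φ} (hz : MT.lev z ≠ 0) :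
    ∃ C : ℕ, ∀ g : MT Φ, MT.lev z ∣ MT.lev g →
      ∃ l : List (MT Φ), l.length ≤ C * len Φ g ∧ l.prod = g ∧
        ∀ x ∈ l, (x = z ∨ x = z⁻¹) ∨
          ∃ i, x = MT.inc Φ (FreeGroup.of i) ∨ x = (MT.inc Φ (FreeGroup.of i))⁻¹ := by
  classical
  set r := MT.lev z with hr
  -- the constant
  have hchoose : ∀ d : (Option (Fin n) × Bool) × Fin r.natAbs × Fin r.natAbs, ∃ L : ℕ,
      r ∣ MT.lev ((MT.t Φ) ^ (d.2.1 : ℕ) * rdLetter Φ d.1 * ((MT.t Φ) ^ (d.2.2 : ℕ))⁻¹) →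
        RdOk z L ((MT.t Φ) ^ (d.2.1 : ℕ) * rdLetter Φ d.1 * ((MT.t Φ) ^ (d.2.2 : ℕ))⁻¹) := by
    intro d
    by_cases h : r ∣ MT.lev ((MT.t Φ) ^ (d.2.1 : ℕ) * rdLetter Φ d.1 *
        ((MT.t Φ) ^ (d.2.2 : ℕ))⁻¹)
    · obtain ⟨L, hL⟩ := rdOk_exists (z := z) h
      exact ⟨L, fun _ => hL⟩
    · exact ⟨0, fun h' => absurd h' h⟩
  choose Ld hLd using hchoose
  set C := ∑ d, Ld d with hC
  have hCd : ∀ d, Ld d ≤ C := fun d =>
    Finset.single_le_sum (f := Ld) (fun _ _ => Nat.zero_le _) (Finset.mem_univ d)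
  have hmod : ∀ x : ℤ, (x % r).toNat < r.natAbs := by
    intro x
    have h1 := Int.emod_nonneg x hz
    have h2 := Int.emod_lt_abs x hz
    rw [Int.abs_eq_natAbs] at h2
    omega
  have hlevt : ∀ k : ℕ, MT.lev ((MT.t Φ) ^ k) = k := by
    intro k
    have := rd_lev_zpow (MT.t Φ) (k : ℤ)
    rw [zpow_natCast, lev_t, mul_one] at this
    exact this
  have hclaim : ∀ l : List (Option (Fin n) × Bool),
      RdOk z (C * l.length) (ev Φ (FreeGroup.mk l) *
        ((MT.t Φ) ^ ((MT.lev (ev Φ (FreeGroup.mk l)) % r).toNat))⁻¹) := by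
    intro l
    induction l using List.reverseRecOn with
    | nil =>
      have e : ev Φ (FreeGroup.mk ([] : List (Option (Fin n) × Bool))) = 1 := by
        rw [← FreeGroup.one_eq_mk, map_one]
      have e2 : MT.lev (1 : MT Φ) = 0 := rfl
      rw [e, e2]
      simpa using rdOk_one z
    | append_singleton l q ih =>
      have e : ev Φ (FreeGroup.mk (l ++ [q])) = ev Φ (FreeGroup.mk l) * rdLetter Φ q := by
        rw [← FreeGroup.mul_mk, map_mul, rd_mk_single]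
      rw [e]
      set g := ev Φ (FreeGroup.mk l) with hg
      set k := (MT.lev g % r).toNat with hk
      set k' := (MT.lev (g * rdLetter Φ q) % r).toNat with hk'
      have hdiv : r ∣ MT.lev ((MT.t Φ) ^ k * rdLetter Φ q * ((MT.t Φ) ^ k')⁻¹) := by
        rw [lev_mul, lev_mul, lev_inv, hlevt, hlevt]
        have h1 : (k : ℤ) = MT.lev g % r := Int.toNat_of_nonneg (Int.emod_nonneg _ hz)
        have h2 : (k' : ℤ) = MT.lev (g * rdLetter Φ q) % r :=
          Int.toNat_of_nonneg (Int.emod_nonneg _ hz)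
        rw [h1, h2, lev_mul, Int.dvd_iff_emod_eq_zero]
        have h3 : MT.lev g % r + MT.lev (rdLetter Φ q) +
            -((MT.lev g + MT.lev (rdLetter Φ q)) % r) =
            r * ((MT.lev g + MT.lev (rdLetter Φ q)) / r - MT.lev g / r) := by
          have h4 := Int.emod_add_mul_ediv (MT.lev g) r
          have h5 := Int.emod_add_mul_ediv (MT.lev g + MT.lev (rdLetter Φ q)) r
          linear_combination h4 - h5
        rw [h3]
        exact Int.mul_emod_right _ _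
      have hstep := hLd (q, ⟨k, hmod _⟩, ⟨k', hmod _⟩) hdiv
      have h6 := rdOk_mul ih (rdOk_mono hstep (hCd _))
      have e3 : g * ((MT.t Φ) ^ k)⁻¹ * ((MT.t Φ) ^ k * rdLetter Φ q * ((MT.t Φ) ^ k')⁻¹) =
          g * rdLetter Φ q * ((MT.t Φ) ^ k')⁻¹ := by group
      rw [e3] at h6
      refine rdOk_mono h6 (le_of_eq ?_)
      rw [List.length_append, List.length_singleton]; ring
  refine ⟨C, fun g hdiv => ?_⟩
  obtain ⟨w, hw1, hw2⟩ := exists_word g
  have h := hclaim w.toWord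
  rw [FreeGroup.mk_toWord, hw1] at h
  have e0 : MT.lev g % r = 0 := Int.emod_eq_zero_of_dvd hdiv
  rw [e0] at h
  have e1 : w.toWord.length = len Φ g := hw2
  rw [e1] at h
  have h7 : RdOk z (C * len Φ g) g := by simpa using h
  exact h7

end MC
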