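import Pool.Agent.Helper42.MC.GpStep
import Pool.Agent.Helper42.MC.Reduct

/-!
# MC-29: undistortion

`conjAut`: `z * inc x * z⁻¹` has level 0, so it is `inc (Ψ x)`; `Ψ` is an automorphism (conjugation by
`z⁻¹` is the inverse).
`undist`: `Ψ a = a`, `Ψ b = b`. Let `C1`, `C2` be the constants of `gp_step` for `Ψ`, `Ψ⁻¹`, `C3` the constant of
`reduct`. Let `w ∈ ⟨a,b⟩`, `g = inc w * z^m`; `lev z ∣ lev g`; `g = s_1 … s_ℓ`, `ℓ ≤ C3 len g`. The partial product
`g_j` is `z^{l_j} * inc y_j` (unique `l_j`, `y_j`). `y_0 = 1`, and `y_{j+1} = y_j x_i^{±1}` if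
`s_{j+1} = x_i^{±1}` (then `gp (y_{j+1}) w ≤ gp (y_j) w + 1`, since `fd y_{j+1} y_j ≤ 1` and `gp_four`),
`y_{j+1} = Ψ⁻¹ y_j` if `s_{j+1} = z` (then `gp y_{j+1} w ≤ gp (Ψ y_{j+1}) w + C1 = gp y_j w + C1`),
`y_{j+1} = Ψ y_j` if `s_{j+1} = z⁻¹` (`gp y_{j+1} w ≤ gp y_j w + C2`). At the end `g = inc w * z^m = z^m * inc w`
(`z` commutes with `inc a`, `inc b`), so `y_ℓ = w` and `|w| = gp w w ≤ (1 + C1 + C2) ℓ`.
(Suggested: induction over the list with the statement: if `l.prod = z^k * inc y` then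
`gp y w ≤ (1+C1+C2) l.length`.)
-/

namespace MC

variable {n : ℕ}

theorem conjAut {Φ : MulAut (FreeGroup (Fin n))} (z : MT Φ) :
    ∃ Ψ : MulAut (FreeGroup (Fin n)), ∀ x, z * MT.inc Φ x * z⁻¹ = MT.inc Φ (Ψ x) := by
  have h : ∀ (z : MT Φ) (x : FreeGroup (Fin n)), ∃ y, z * MT.inc Φ x * z⁻¹ = MT.inc Φ y := by
    intro z x
    apply exists_inc_of_lev_zero
    rw [lev_mul, lev_mul, lev_inv, lev_inc]; ring
  choose f hf using h
  refine ⟨
    { toFun := f z
      invFun := f z⁻¹
      left_inv := fun x => inc_injective (Φ := Φ) (by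
        rw [← hf, ← hf]; group)
      right_inv := fun x => inc_injective (Φ := Φ) (by
        rw [← hf, ← hf]; group)
      map_mul' := fun x y => inc_injective (Φ := Φ) (by
        rw [map_mul, ← hf, ← hf, ← hf, map_mul]; group) }, fun x => hf z x⟩

private theorem ud_gp_le (x y w : FreeGroup (Fin n)) : gp x w ≤ gp y w + fd x y := by
  have h1 := gp_spec x w
  have h2 := gp_spec y w
  have h3 := fd_triangle y x w
  rw [fd_comm y x] at h3
  have h4 := fd_triangle 1 y x
  have h5 : fd 1 x = x.norm := by unfold fd; rw [inv_one, one_mul]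
  have h6 : fd 1 y = y.norm := by unfold fd; rw [inv_one, one_mul]
  rw [h5, h6, fd_comm y x] at h4
  omega

private theorem ud_lev_zpow {Φ : MulAut (FreeGroup (Fin n))} (g : MT Φ) (l : ℤ) :
    MT.lev (g ^ l) = l * MT.lev g := by
  have h1 : ∀ k : ℕ, MT.lev (g ^ k) = k * MT.lev g := by
    intro k
    induction k with
    | zero =>
      rw [pow_zero]
      have : MT.lev (1 : MT Φ) = 0 := rfl
      rw [this]; simp
    | succ k ih => rw [pow_succ, lev_mul, ih]; push_cast; ring
  rcases Int.eq_nat_or_neg l with ⟨k, rfl | rfl⟩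
  · rw [zpow_natCast, h1]
  · rw [zpow_neg, zpow_natCast, lev_inv, h1]; ring

theorem undist {Φ : MulAut (FreeGroup (Fin n))} {z : MT Φ} (hz : MT.lev z ≠ 0)
    {a b : FreeGroup (Fin n)} (ha : Commute z (MT.inc Φ a)) (hb : Commute z (MT.inc Φ b)) :
    ∃ C : ℕ, ∀ w ∈ Subgroup.closure {a, b}, ∀ m : ℤ, w.norm ≤ C * len Φ (MT.inc Φ w * z ^ m) := by
  obtain ⟨Ψ, hΨ⟩ := conjAut z
  have hfix : ∀ c : FreeGroup (Fin n), Commute z (MT.inc Φ c) → Ψ c = c := by
    intro c hc
    apply inc_injective (Φ := Φ)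
    rw [← hΨ, hc.eq, mul_inv_cancel_right]
  have hfix' : ∀ c : FreeGroup (Fin n), Commute z (MT.inc Φ c) → Ψ⁻¹ c = c := by
    intro c hc
    have h := hfix c hc
    conv_lhs => rw [← h]
    exact MulAut.inv_apply_self _ _ _
  obtain ⟨C1, hC1⟩ := gp_step Ψ (hfix a ha) (hfix b hb)
  obtain ⟨C2, hC2⟩ := gp_step Ψ⁻¹ (hfix' a ha) (hfix' b hb)
  obtain ⟨C3, hC3⟩ := reduct hz
  set K := 1 + C1 + C2 with hK
  have hinv : ∀ x, z⁻¹ * MT.inc Φ x * z = MT.inc Φ (Ψ⁻¹ x) := by
    intro x
    have h := hΨ (Ψ⁻¹ x)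
    rw [MulAut.apply_inv_self] at h
    rw [← h]; group
  have key : ∀ l : List (MT Φ), (∀ x ∈ l, (x = z ∨ x = z⁻¹) ∨
      ∃ i, x = MT.inc Φ (FreeGroup.of i) ∨ x = (MT.inc Φ (FreeGroup.of i))⁻¹) →
      ∃ (k : ℤ) (y : FreeGroup (Fin n)), l.prod = z ^ k * MT.inc Φ y ∧
        ∀ w ∈ Subgroup.closure {a, b}, gp y w ≤ K * l.length := by
    intro l
    induction l using List.reverseRecOn with
    | nil =>
      intro _
      refine ⟨0, 1, by simp, fun w _ => ?_⟩
      have h := gp_le_left (1 : FreeGroup (Fin n)) w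
      rw [FreeGroup.norm_one] at h
      omega
    | append_singleton l s ih =>
      intro hl
      obtain ⟨k, y, h1, h2⟩ := ih (fun x hx => hl x (List.mem_append_left _ hx))
      have hs := hl s (List.mem_append_right _ (List.mem_singleton_self s))
      have hlen : K * (l ++ [s]).length = K * l.length + K := by
        rw [List.length_append, List.length_singleton]; ring
      rw [hlen, List.prod_append, List.prod_singleton, h1]
      rcases hs with (rfl | rfl) | ⟨i, rfl | rfl⟩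
      · refine ⟨k + 1, Ψ⁻¹ y, ?_, fun w hw => ?_⟩
        · rw [← hinv, zpow_add, zpow_one]; group
        · have h3 := hC1 (Ψ⁻¹ y) w hw
          rw [MulAut.apply_inv_self] at h3
          have := h2 w hw
          omega
      · refine ⟨k - 1, Ψ y, ?_, fun w hw => ?_⟩
        · rw [← hΨ, zpow_sub, zpow_one]; group
        · have h3 := hC2 (Ψ y) w hw
          rw [MulAut.inv_apply_self] at h3
          have := h2 w hw
          omega
      · refine ⟨k, y * FreeGroup.of i, ?_, fun w hw => ?_⟩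
        · rw [map_mul, mul_assoc]
        · have h3 := ud_gp_le (y * FreeGroup.of i) y w
          have h4 : fd (y * FreeGroup.of i) y = 1 := by
            unfold fd
            rw [mul_inv_rev, inv_mul_cancel_right, FreeGroup.norm_inv_eq, FreeGroup.norm_of]
          have := h2 w hw
          omega
      · refine ⟨k, y * (FreeGroup.of i)⁻¹, ?_, fun w hw => ?_⟩
        · rw [map_mul, map_inv, mul_assoc]
        · have h3 := ud_gp_le (y * (FreeGroup.of i)⁻¹) y w
          have h4 : fd (y * (FreeGroup.of i)⁻¹) y = 1 := by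
            unfold fd
            rw [mul_inv_rev, inv_mul_cancel_right, inv_inv, FreeGroup.norm_of]
          have := h2 w hw
          omega
  refine ⟨K * C3, fun w hw m => ?_⟩
  have hcw : Commute z (MT.inc Φ w) := by
    induction hw using Subgroup.closure_induction with
    | mem x hx =>
      rcases hx with rfl | hx
      · exact ha
      · rw [Set.mem_singleton_iff] at hx
        rw [hx]; exact hb
    | one => rw [map_one]; exact Commute.one_right _
    | mul x y _ _ hx hy => rw [map_mul]; exact hx.mul_right hy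
    | inv x _ hx => rw [map_inv]; exact hx.inv_right
  have hcomm : MT.inc Φ w * z ^ m = z ^ m * MT.inc Φ w := ((hcw.zpow_left m).eq).symm
  have hdiv : MT.lev z ∣ MT.lev (MT.inc Φ w * z ^ m) := by
    rw [lev_mul, lev_inc, ud_lev_zpow, zero_add]
    exact Dvd.intro_left _ rfl
  obtain ⟨l, hl1, hl2, hl3⟩ := hC3 _ hdiv
  obtain ⟨k, y, h1, h2⟩ := key l hl3
  have e1 : z ^ m * MT.inc Φ w = z ^ k * MT.inc Φ y := by rw [← hcomm, ← hl2, h1]
  have e2 : m = k := by
    have h3 := congrArg MT.lev e1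
    rw [lev_mul, lev_mul, lev_inc, lev_inc, ud_lev_zpow, ud_lev_zpow, add_zero, add_zero] at h3
    exact mul_right_cancel₀ hz h3
  rw [e2] at e1
  have e3 : w = y := inc_injective (Φ := Φ) (mul_left_cancel e1)
  have h4 := h2 w hw
  rw [← e3, gp_self] at h4
  calc w.norm ≤ K * l.length := h4
    _ ≤ K * (C3 * len Φ (MT.inc Φ w * z ^ m)) := Nat.mul_le_mul_left _ hl1
    _ = K * C3 * len Φ (MT.inc Φ w * z ^ m) := by ring

end MC
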