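import Pool.Agent.Helper42.MC.Len
import Pool.Agent.Helper42.MC.Undist
import Pool.Agent.Helper42.MC.Powers

/-!
# MC-32: the estimates for the flat and the half-flats in the group

(i) Put `z₀ = z * inc a^(p 0)`. `inc a^m * z^l = inc (a^(m - p 0 * l)) * z₀^l` (`z`, `inc a` commute). `undist` for
`z₀, a, b 0` and `w = a^(m - p 0 l)`: `|m - p 0 l| ≤ |w| ≤ C len(..)` (`norm_zpow`), and
`|l| ≤ |l * lev z| = |lev (..)| ≤ len (..)`; so `|m| + |l| ≤ C + |p 0| + 1` times `len`.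
(ii) `(inc b^t)⁻¹ * inc a^m * z_i^l = inc ((b^t)⁻¹ a^m) * z_i^l`; `undist` for `z_i = z * inc a^(p i)`, `a`, `b i`,
`w = (b^t)⁻¹ a^m`, then `powers_div`.
-/

namespace MC

variable {n : ℕ}

private theorem ce_lev_zpow {Φ : MulAut (FreeGroup (Fin n))} (g : MT Φ) (l : ℤ) :
    MT.lev (g ^ l) = l * MT.lev g := by
  have h1 : ∀ k : ℕ, MT.lev (g ^ k) = k * MT.lev g := by
    intro k
    induction k with
    | zero =>
      rw [pow_zero]
      have : MT.lev (1 : MT Φ) = 0 := rfl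
      rw [this]; simp
    | succ k ih => rw [pow_succ, lev_mul, ih]; push_cast; ring
  cases l with
  | ofNat k => rw [Int.ofNat_eq_natCast, zpow_natCast, h1]
  | negSucc k => rw [zpow_negSucc, lev_inv, h1, Int.negSucc_eq]; push_cast; ring

private theorem ce_lev_inc_zpow {Φ : MulAut (FreeGroup (Fin n))} (a : FreeGroup (Fin n)) (q : ℤ) :
    MT.lev (MT.inc Φ a ^ q) = 0 := by
  rw [← map_zpow, lev_inc]

theorem core_est {Φ : MulAut (FreeGroup (Fin n))} {z : MT Φ} (hz : MT.lev z ≠ 0)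
    {a : FreeGroup (Fin n)} (ha : a ≠ 1) (haz : Commute z (MT.inc Φ a)) {p : Fin 3 → ℤ}
    {b : Fin 3 → FreeGroup (Fin n)}
    (hb : ∀ i, Commute (z * MT.inc Φ a ^ (p i)) (MT.inc Φ (b i)) ∧ a * b i ≠ b i * a) :
    ∃ C : ℕ, 0 < C ∧
      (∀ m l : ℤ, m.natAbs + l.natAbs ≤ C * len Φ (MT.inc Φ a ^ m * z ^ l)) ∧
      ∀ i, ∀ (t : ℕ) (m l : ℤ),
        t ≤ C * len Φ (((MT.inc Φ (b i)) ^ t)⁻¹ * MT.inc Φ a ^ m *
          (z * MT.inc Φ a ^ (p i)) ^ l) + C := by
  have hlev : ∀ i, MT.lev (z * MT.inc Φ a ^ (p i)) ≠ 0 := by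
    intro i
    rw [lev_mul, ce_lev_inc_zpow, add_zero]; exact hz
  have hcom : ∀ i, Commute (z * MT.inc Φ a ^ (p i)) (MT.inc Φ a) := by
    intro i
    exact haz.mul_left ((Commute.refl _).zpow_left _)
  choose Cu hCu using fun i => undist (hlev i) (hcom i) (hb i).1
  choose Cd hCd using fun i => powers_div (hb i).2
  refine ⟨(Cu 0 + (p 0).natAbs + 1) + ∑ i, (Cu i + Cd i), by omega, ?_, ?_⟩
  · intro m l
    set g := MT.inc Φ a ^ m * z ^ l with hg
    have e1 : g = MT.inc Φ (a ^ (m - p 0 * l)) * (z * MT.inc Φ a ^ (p 0)) ^ l := by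
      have h1 : Commute z (MT.inc Φ a ^ (p 0)) := haz.zpow_right _
      rw [h1.mul_zpow, ← zpow_mul, map_zpow]
      have h2 : Commute (z ^ l) (MT.inc Φ a ^ (p 0 * l)) := (haz.zpow_left l).zpow_right _
      rw [h2.eq, ← mul_assoc, ← zpow_add, sub_add_cancel]
    have h3 : (a ^ (m - p 0 * l)).norm ≤ Cu 0 * len Φ g := by
      have h4 := hCu 0 (a ^ (m - p 0 * l))
        (Subgroup.zpow_mem _ (Subgroup.subset_closure (Set.mem_insert _ _)) _) l
      rwa [← e1] at h4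
    have h5 := norm_zpow ha (m - p 0 * l)
    have h6 : l.natAbs ≤ len Φ g := by
      have h7 := lev_le_len (Φ := Φ) g
      have h8 : MT.lev g = l * MT.lev z := by
        rw [hg, lev_mul, ce_lev_inc_zpow, zero_add, ce_lev_zpow]
      rw [h8, Int.natAbs_mul] at h7
      have h9 : 1 ≤ (MT.lev z).natAbs := Nat.pos_of_ne_zero (Int.natAbs_ne_zero.2 hz)
      calc l.natAbs = l.natAbs * 1 := (mul_one _).symm
        _ ≤ l.natAbs * (MT.lev z).natAbs := Nat.mul_le_mul_left _ h9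
        _ ≤ _ := h7
    have h10 : m.natAbs ≤ (m - p 0 * l).natAbs + (p 0).natAbs * l.natAbs := by
      rw [← Int.natAbs_mul]
      calc m.natAbs = ((m - p 0 * l) + p 0 * l).natAbs := by rw [sub_add_cancel]
        _ ≤ _ := Int.natAbs_add_le _ _
    have h11 : (p 0).natAbs * l.natAbs ≤ (p 0).natAbs * len Φ g := Nat.mul_le_mul_left _ h6
    have h12 : (Cu 0 + (p 0).natAbs + 1) * len Φ g ≤
        ((Cu 0 + (p 0).natAbs + 1) + ∑ i, (Cu i + Cd i)) * len Φ g :=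
      Nat.mul_le_mul_right _ (Nat.le_add_right _ _)
    refine le_trans ?_ h12
    have h13 : (Cu 0 + (p 0).natAbs + 1) * len Φ g =
        Cu 0 * len Φ g + (p 0).natAbs * len Φ g + len Φ g := by ring
    rw [h13]
    omega
  · intro i t m l
    have e2 : ((MT.inc Φ (b i)) ^ t)⁻¹ * MT.inc Φ a ^ m * (z * MT.inc Φ a ^ (p i)) ^ l =
        MT.inc Φ ((b i ^ t)⁻¹ * a ^ m) * (z * MT.inc Φ a ^ (p i)) ^ l := by
      rw [map_mul, map_inv, map_pow, map_zpow]
    rw [e2]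
    set L := len Φ (MT.inc Φ ((b i ^ t)⁻¹ * a ^ m) * (z * MT.inc Φ a ^ (p i)) ^ l) with hL
    have h3 : ((b i ^ t)⁻¹ * a ^ m).norm ≤ Cu i * L := by
      refine hCu i _ ?_ l
      refine Subgroup.mul_mem _ (Subgroup.inv_mem _ (Subgroup.pow_mem _ ?_ _))
        (Subgroup.zpow_mem _ ?_ _)
      · exact Subgroup.subset_closure (Set.mem_insert_of_mem _ rfl)
      · exact Subgroup.subset_closure (Set.mem_insert _ _)
    have h4 := hCd i t m
    have h5 : Cu i + Cd i ≤ ∑ i, (Cu i + Cd i) :=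
      Finset.single_le_sum (f := fun i => Cu i + Cd i) (fun _ _ => Nat.zero_le _)
        (Finset.mem_univ i)
    have h6 : Cu i * L ≤ ((Cu 0 + (p 0).natAbs + 1) + ∑ i, (Cu i + Cd i)) * L :=
      Nat.mul_le_mul_right _ (by omega)
    omega

end MC
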