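import Pool.Agent.Helper42.MC.Len

/-!
# MC-25: discrete Stokes formulas and potentials

`cubeSum`: sum the hypothesis over `i, j < N` (telescoping in `i` and `j`), then over `k < N`.
`squareSum`: telescoping. `pvPot`: induction over the letters of `w` (the vertices of the path are
within `w.norm` of `g`; do the induction over `w.toWord`, or prove the statement for all lists `l` with
`w = FreeGroup.mk l` and distance `≤ l.length`, then use `l = w.toWord`).
-/

open Finset

namespace MC

theorem cubeSum (c12 c13 c23 : ℕ → ℕ → ℕ → ℤ) (N : ℕ)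
    (h : ∀ i j k, i < N → j < N → k < N →
      c12 i j (k + 1) - c12 i j k - (c13 i (j + 1) k - c13 i j k) +
        (c23 (i + 1) j k - c23 i j k) = 0) :
    ∑ i ∈ range N, ∑ j ∈ range N, c12 i j 0 =
      ∑ i ∈ range N, ∑ j ∈ range N, c12 i j N
        - ∑ k ∈ range N, ∑ i ∈ range N, (c13 i N k - c13 i 0 k)
        + ∑ k ∈ range N, ∑ j ∈ range N, (c23 N j k - c23 0 j k) := by
  have hk : ∀ k ∈ range N, (∑ i ∈ range N, ∑ j ∈ range N, c12 i j (k + 1)) -
      (∑ i ∈ range N, ∑ j ∈ range N, c12 i j k) =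
      ∑ i ∈ range N, (c13 i N k - c13 i 0 k) - ∑ j ∈ range N, (c23 N j k - c23 0 j k) := by
    intro k hk
    rw [mem_range] at hk
    have e1 : ∀ i, c13 i N k - c13 i 0 k = ∑ j ∈ range N, (c13 i (j + 1) k - c13 i j k) :=
      fun i => (sum_range_sub (fun j => c13 i j k) N).symm
    have e2 : ∀ j, c23 N j k - c23 0 j k = ∑ i ∈ range N, (c23 (i + 1) j k - c23 i j k) :=
      fun j => (sum_range_sub (fun i => c23 i j k) N).symm
    simp only [e1, e2]
    rw [sum_comm (f := fun j i => c23 (i + 1) j k - c23 i j k)]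
    rw [← sum_sub_distrib, ← sum_sub_distrib]
    refine sum_congr rfl fun i hi => ?_
    rw [← sum_sub_distrib, ← sum_sub_distrib]
    refine sum_congr rfl fun j hj => ?_
    have := h i j k (mem_range.1 hi) (mem_range.1 hj) hk
    linarith
  have h1 := sum_range_sub (fun k => ∑ i ∈ range N, ∑ j ∈ range N, c12 i j k) N
  rw [sum_congr rfl hk, sum_sub_distrib] at h1
  linarith

theorem squareSum (e1 e2 : ℕ → ℕ → ℤ) (N : ℕ) :
    ∑ i ∈ range N, ∑ j ∈ range N, (e1 i j + e2 (i + 1) j - e1 i (j + 1) - e2 i j) =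
      ∑ i ∈ range N, e1 i 0 + ∑ j ∈ range N, e2 N j - ∑ i ∈ range N, e1 i N
        - ∑ j ∈ range N, e2 0 j := by
  have h1 : ∑ i ∈ range N, ∑ j ∈ range N, (e1 i j + e2 (i + 1) j - e1 i (j + 1) - e2 i j) =
      ∑ j ∈ range N, ∑ i ∈ range N, (e2 (i + 1) j - e2 i j) -
        ∑ i ∈ range N, ∑ j ∈ range N, (e1 i (j + 1) - e1 i j) := by
    rw [sum_comm (f := fun j i => e2 (i + 1) j - e2 i j), ← sum_sub_distrib]
    refine sum_congr rfl fun i _ => ?_
    rw [← sum_sub_distrib]
    refine sum_congr rfl fun j _ => ?_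
    ring
  rw [h1]
  have h2 : ∀ j, ∑ i ∈ range N, (e2 (i + 1) j - e2 i j) = e2 N j - e2 0 j :=
    fun j => sum_range_sub (fun i => e2 i j) N
  have h3 : ∀ i, ∑ j ∈ range N, (e1 i (j + 1) - e1 i j) = e1 i N - e1 i 0 :=
    fun i => sum_range_sub (fun j => e1 i j) N
  simp only [h2, h3]
  rw [sum_sub_distrib, sum_sub_distrib]
  ring

theorem pvPot {n : ℕ} {Φ : MulAut (FreeGroup (Fin n))} (Ψ : MT Φ → Option (Fin n) → ℤ)
    (J : MT Φ → ℤ) (g : MT Φ) (w : FreeGroup (Option (Fin n)))
    (h : ∀ (g' : MT Φ) (o : Option (Fin n)), len Φ (g⁻¹ * g') ≤ w.norm →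
      len Φ (g⁻¹ * (g' * ev Φ (FreeGroup.of o))) ≤ w.norm →
      Ψ g' o = J (g' * ev Φ (FreeGroup.of o)) - J g') :
    pv Ψ g w = J (g * ev Φ w) - J g := by
  have hof : ∀ o : Option (Fin n), len Φ (ev Φ (FreeGroup.of o)) ≤ 1 := by
    intro o
    have := len_ev_le (Φ := Φ) (FreeGroup.of o)
    rwa [FreeGroup.norm_of] at this
  have key : ∀ L : List (Option (Fin n) × Bool), ∀ g0 : MT Φ,
      len Φ (g⁻¹ * g0) + L.length ≤ w.norm →
      pv Ψ g0 (FreeGroup.mk L) = J (g0 * ev Φ (FreeGroup.mk L)) - J g0 := by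
    intro L
    induction L with
    | nil =>
      intro g0 _
      have : (FreeGroup.mk [] : FreeGroup (Option (Fin n))) = 1 := rfl
      rw [this, pv_one, map_one, mul_one, sub_self]
    | cons q L ih =>
      obtain ⟨o, b⟩ := q
      intro g0 hg0
      rw [List.length_cons] at hg0
      have e : (FreeGroup.mk ((o, b) :: L) : FreeGroup (Option (Fin n))) =
          FreeGroup.mk [(o, b)] * FreeGroup.mk L := by
        rw [FreeGroup.mul_mk]
        rfl
      rw [e, pv_mul, map_mul]
      have hlen : len Φ (g⁻¹ * (g0 * ev Φ (FreeGroup.mk [(o, b)]))) ≤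
          len Φ (g⁻¹ * g0) + 1 := by
        rw [← mul_assoc]
        refine (len_mul_le _ _).trans (Nat.add_le_add_left ?_ _)
        rw [mk_letter]
        cases b
        · simp only [Bool.false_eq_true, if_false, map_inv]
          rw [len_inv]
          exact hof o
        · simp only [if_true]
          exact hof o
      have h1 := ih (g0 * ev Φ (FreeGroup.mk [(o, b)])) (by omega)
      rw [h1, mul_assoc]
      have h2 : pv Ψ g0 (FreeGroup.mk [(o, b)]) =
          J (g0 * ev Φ (FreeGroup.mk [(o, b)])) - J g0 := by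
        rw [mk_letter] at hlen ⊢
        cases b
        · simp only [Bool.false_eq_true, if_false] at hlen ⊢
          rw [pv_inv, pv_of]
          rw [map_inv] at hlen ⊢
          have h3 := h (g0 * (ev Φ (FreeGroup.of o))⁻¹) o (by omega)
            (by rw [inv_mul_cancel_right]; omega)
          rw [inv_mul_cancel_right] at h3
          rw [h3]
          ring
        · simp only [if_true] at hlen ⊢
          rw [pv_of]
          exact h g0 o (by omega) (by omega)
      rw [h2]
      ring
  have h1 := key w.toWord g (by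
    rw [inv_mul_cancel, len_one, zero_add]
    exact le_rfl)
  rw [FreeGroup.mk_toWord] at h1
  exact h1

end MC
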