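import Pool.Agent.Helper42.MC.BoxChains
import Pool.Agent.Helper42.MC.Green

/-!
# MC-37: no three-dimensional boxes in free-by-cyclic groups

Notation: `d(g,h) = len (g⁻¹ h)`, `C` the constant of `box_chains`, `m₀ = max_i |rel i|`, `c = N/2` (natural
division). Suppose `f : ℕ × ℕ × ℕ → MT Φ` with `R/L D ≤ d ≤ L R D` on the cube, `R ≥ m₀ + 1`, `N` large
(below). `D` is the sup distance (`dist` on `ℕ × ℕ × ℕ`). Apply `box_chains` with `B = L R`: words `W a q` and
chains `c12, c13, c23`; put `E a q = pv Ψ (f q) (W a q)`.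
By the last clause `cubeSum` holds for the coefficients `c12 i j k σ`, ... at any cell `σ`.
Retraction: `hh g ∈ {0..N}²` minimizes `d(g, f (i,j,0))`. If `d(g, f(i,j,0)) ≤ ρ` for some `i,j ≤ N` then
`d(g, f(hh g,0)) ≤ ρ`; if `g, g'` both have this property, `(R/L) |hh g - hh g'| ≤ 2ρ + d(g,g')`.
`hh (f (i,j,0)) = (i,j)`.
Winding cochain: for `x, y ∈ ℕ²` let `I x = if 2 x.2 > N then 1 else 0` and
`ψ₀ x y = if 2 x.1 > N ∧ 2 y.1 > N then I y - I x else 0`; `Ψ g o = ψ₀ (hh g) (hh (g * ev o))`.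
Call a set `Wd ⊆ ℕ²` good if one of `2x.1 > N`, `2x.1 ≤ N`, `2x.2 > N`, `2x.2 ≤ N` holds for all its points;
then there is `J` (`J = I` in the first case, `0` in the others) with `ψ₀ x y = J y - J x` on `Wd`, and
`pvPot` (with `J ∘ hh`) computes `pv Ψ g w` when the ball of radius `|w|` around `g` is mapped by `hh` to `Wd`.
A set all of whose points are within `w` of `x`, with `|2 x.1 - N| > 2w` or `|2 x.2 - N| > 2w`, is good.

(α) For a boundary edge of the bottom square (`q = (i,0,0)` or `(i,N,0)` in direction 1, `(N,j,0)` or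
`(0,j,0)` in direction 2) all `g'` within `L R` of `f q` have `|hh g' - q| ≤ 2 L²`; `q` is on the boundary, so
the set is good if `N > 4 L²`, and `E a q = ψ₀ q (q+e_a)`.
(β) Let `σ = (g,i)` be a cell in some `c12 (i',j',0)`: `d(f(i',j',0), g) ≤ C L R`. All `g'` within `m₀ ≤ R` of
`g` have `|hh g' - hh g| ≤ (L/R)(2(CLR+R)+R) ≤ 2CL² + 3L =: w`. If this ball is good,
`pv Ψ g (rel i) = J - J = 0` (`ev (rel i) = 1`). If it is not good, `|2x.1 - N|, |2x.2 - N| ≤ 2w` (`x = hh g`), so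
`d(g, f(c,c,0)) ≤ C L R + L R (w+1) =: A R`.
(γ) If `σ` is also in the support of one of `c12 (·,·,N)`, `c13 (i,N,k)`, `c13 (i,0,k)`, `c23 (N,j,k)`,
`c23 (0,j,k)`, which are based at points `f q` with `|q - (c,c,0)| ≥ N/2 - 1`, then
`(R/L)(N/2 - 1) ≤ C L R + A R`, which is false for `N` large. So for the cells `σ` of (β) with a bad ball the
coefficient of `Σ_{i,j<N} c12 (i,j,0)` at `σ` is `0` by `cubeSum`.
(δ) So `pairing (Σ_{i,j<N} c12(i,j,0)) Ψ = 0`. By `squareSum` and (α) it is also equal to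
`Σ_i ψ₀((i,0),(i+1,0)) + Σ_j ψ₀((N,j),(N,j+1)) - Σ_i ψ₀((i,N),(i+1,N)) - Σ_j ψ₀((0,j),(0,j+1))
 = 0 + (I(N) - I(0)) - 0 - 0 = 1`. Contradiction.
-/

namespace MC

variable {n : ℕ}

/-- the upper half -/
private def II (N : ℕ) (x : ℕ × ℕ) : ℤ := if N < 2 * x.2 then 1 else 0

/-- the winding cochain -/
private def psi0 (N : ℕ) (x y : ℕ × ℕ) : ℤ :=
  if N < 2 * x.1 ∧ N < 2 * y.1 then II N y - II N x else 0

private lemma goodBall (N : ℕ) (x : ℕ × ℕ) (w : ℝ)
    (h : 2 * w < |2 * (x.1 : ℝ) - N| ∨ 2 * w < |2 * (x.2 : ℝ) - N|) :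
    ∃ J : ℕ × ℕ → ℤ, ∀ y z : ℕ × ℕ, |(y.1 : ℝ) - x.1| ≤ w → |(y.2 : ℝ) - x.2| ≤ w →
      |(z.1 : ℝ) - x.1| ≤ w → |(z.2 : ℝ) - x.2| ≤ w → psi0 N y z = J z - J y := by
  rcases h with h | h
  · rcases lt_abs.mp h with h | h
    · refine ⟨II N, fun y z h1 h2 h3 h4 => ?_⟩
      rw [abs_le] at h1 h3
      have e1 : (N : ℝ) < 2 * y.1 := by linarith
      have e2 : (N : ℝ) < 2 * z.1 := by linarith
      have e1' : N < 2 * y.1 := by exact_mod_cast e1
      have e2' : N < 2 * z.1 := by exact_mod_cast e2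
      rw [psi0, if_pos ⟨e1', e2'⟩]
    · refine ⟨fun _ => 0, fun y z h1 h2 h3 h4 => ?_⟩
      rw [abs_le] at h1 h3
      have e1 : 2 * (y.1 : ℝ) < N := by linarith
      have e1' : 2 * y.1 < N := by exact_mod_cast e1
      rw [psi0, if_neg (by omega), sub_zero]
  · rcases lt_abs.mp h with h | h
    · refine ⟨fun _ => 0, fun y z h1 h2 h3 h4 => ?_⟩
      rw [abs_le] at h2 h4
      have e1 : (N : ℝ) < 2 * y.2 := by linarith
      have e2 : (N : ℝ) < 2 * z.2 := by linarith
      have e1' : N < 2 * y.2 := by exact_mod_cast e1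
      have e2' : N < 2 * z.2 := by exact_mod_cast e2
      rw [psi0, II, II, if_pos e1', if_pos e2', sub_self, ite_self, sub_zero]
    · refine ⟨fun _ => 0, fun y z h1 h2 h3 h4 => ?_⟩
      rw [abs_le] at h2 h4
      have e1 : 2 * (y.2 : ℝ) < N := by linarith
      have e2 : 2 * (z.2 : ℝ) < N := by linarith
      have e1' : 2 * y.2 < N := by exact_mod_cast e1
      have e2' : 2 * z.2 < N := by exact_mod_cast e2
      have f1 : II N y = 0 := if_neg (by omega)
      have f2 : II N z = 0 := if_neg (by omega)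
      rw [psi0, f1, f2, sub_self, ite_self]

private lemma abs_le_of_dist {p q : ℕ × ℕ × ℕ} :
    |(p.1 : ℝ) - q.1| ≤ dist p q ∧ |(p.2.1 : ℝ) - q.2.1| ≤ dist p q ∧
      |(p.2.2 : ℝ) - q.2.2| ≤ dist p q := by
  simp only [Prod.dist_eq, Nat.dist_eq]
  exact ⟨le_max_left _ _, (le_max_left _ _).trans (le_max_right _ _),
    (le_max_right _ _).trans (le_max_right _ _)⟩

private lemma dist_le_of_abs {p q : ℕ × ℕ × ℕ} {r : ℝ} (h1 : |(p.1 : ℝ) - q.1| ≤ r)
    (h2 : |(p.2.1 : ℝ) - q.2.1| ≤ r) (h3 : |(p.2.2 : ℝ) - q.2.2| ≤ r) : dist p q ≤ r := by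
  simp only [Prod.dist_eq, Nat.dist_eq]
  exact max_le h1 (max_le h2 h3)

private lemma dist_edge (a : Fin 3) (q : ℕ × ℕ × ℕ) : dist q (q + e3 a) ≤ 1 := by
  obtain ⟨i, j, k⟩ := q
  fin_cases a <;> apply dist_le_of_abs <;>
    simp [e3, Matrix.cons_val]

theorem noBox_len (Φ : MulAut (FreeGroup (Fin n))) :
    ∀ L : ℝ, 1 ≤ L → ∃ N : ℕ, ∃ R₀ : ℝ, ∀ R : ℝ, R₀ < R →
      ¬ ∃ f : ℕ × ℕ × ℕ → MT Φ, ∀ p q, InCube N p → InCube N q →
        R / L * dist p q ≤ len Φ ((f p)⁻¹ * f q) ∧ (len Φ ((f p)⁻¹ * f q) : ℝ) ≤ L * R * dist p q := by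
  classical
  intro L hL
  obtain ⟨C, hC⟩ := box_chains Φ
  set m₀ : ℕ := Finset.univ.sup (fun i : Fin n => (rel Φ i).norm) with hm₀
  have hL0 : 0 < L := by linarith
  have hC0 : (0 : ℝ) ≤ C := Nat.cast_nonneg _
  set w : ℝ := 2 * C * L ^ 2 + 3 * L with hw
  set A : ℝ := C * L + L * (w + 1) with hA
  have hw0 : 0 ≤ w := by positivity
  have hA0 : 0 ≤ A := by positivity
  obtain ⟨N, hN⟩ := exists_nat_gt (4 * L ^ 2 + 2 * (L * (C * L + A)) + 10)
  have hLCA : 0 ≤ L * (C * L + A) := by positivity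
  have hN1 : 4 * L ^ 2 < N := by linarith
  have hN2 : L * (C * L + A) < N / 2 - 1 := by
    have : 0 ≤ 4 * L ^ 2 := by positivity
    linarith
  have hN10 : (10 : ℝ) < N := by
    have : 0 ≤ 4 * L ^ 2 := by positivity
    linarith
  have hNpos : 10 < N := by exact_mod_cast hN10
  refine ⟨N, m₀ + 1, fun R hR => ?_⟩
  rintro ⟨f, hf⟩
  have hm₀0 : (0 : ℝ) ≤ m₀ := Nat.cast_nonneg _
  have hR0 : 0 < R := by linarith
  have hmR : (m₀ : ℝ) ≤ R := by linarith
  -- the distance
  set D : MT Φ → MT Φ → ℝ := fun g h => (len Φ (g⁻¹ * h) : ℝ) with hD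
  have hDsymm : ∀ g h, D g h = D h g := by
    intro g h
    simp only [hD]
    rw [← len_inv (g⁻¹ * h)]
    congr 2
    group
  have hDtri : ∀ g h k, D g k ≤ D g h + D h k := by
    intro g h k
    simp only [hD]
    have h1 := len_mul_le (g⁻¹ * h) (h⁻¹ * k)
    rw [show g⁻¹ * h * (h⁻¹ * k) = g⁻¹ * k by group] at h1
    exact_mod_cast h1
  have hDself : ∀ g, D g g = 0 := by
    intro g
    simp only [hD]
    rw [inv_mul_cancel, len_one]
    simp
  have hup : ∀ p q, InCube N p → InCube N q → D (f p) (f q) ≤ L * R * dist p q :=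
    fun p q hp hq => (hf p q hp hq).2
  have hlow : ∀ p q, InCube N p → InCube N q → dist p q ≤ L / R * D (f p) (f q) := by
    intro p q hp hq
    have h1 := (hf p q hp hq).1
    calc dist p q = L / R * (R / L * dist p q) := by field_simp
      _ ≤ L / R * D (f p) (f q) := mul_le_mul_of_nonneg_left h1 (by positivity)
  have hLR : 0 ≤ L * R := by positivity
  obtain ⟨W, c12, c13, c23, hW, h12, h13, h23, hcube⟩ := hC N (L * R) f hLR (by
    intro a q h1 h2
    calc (len Φ ((f q)⁻¹ * f (q + e3 a)) : ℝ) ≤ L * R * dist q (q + e3 a) := hup _ _ h1 h2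
      _ ≤ L * R * 1 := mul_le_mul_of_nonneg_left (dist_edge a q) hLR
      _ = L * R := mul_one _)
  -- the retraction
  have hex : ∀ g : MT Φ, ∃ x : ℕ × ℕ, (x.1 ≤ N ∧ x.2 ≤ N) ∧ ∀ y : ℕ × ℕ, y.1 ≤ N → y.2 ≤ N →
      len Φ (g⁻¹ * f (x.1, x.2, 0)) ≤ len Φ (g⁻¹ * f (y.1, y.2, 0)) := by
    intro g
    obtain ⟨x, hx, hmin⟩ := Finset.exists_min_image (Finset.range (N + 1) ×ˢ Finset.range (N + 1))
      (fun x => len Φ (g⁻¹ * f (x.1, x.2, 0))) ⟨(0, 0), by simp⟩
    rw [Finset.mem_product, Finset.mem_range, Finset.mem_range] at hx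
    refine ⟨x, ⟨by omega, by omega⟩, fun y h1 h2 => ?_⟩
    apply hmin
    rw [Finset.mem_product, Finset.mem_range, Finset.mem_range]
    omega
  choose hh hhN hhmin using hex
  set fz : ℕ × ℕ → MT Φ := fun x => f (x.1, x.2, 0) with hfz
  have hP : ∀ g (x : ℕ × ℕ), x.1 ≤ N → x.2 ≤ N → D g (fz (hh g)) ≤ D g (fz x) := by
    intro g x h1 h2
    have h3 := hhmin g x h1 h2
    simp only [hD, hfz]
    exact_mod_cast h3
  have hcz : ∀ x : ℕ × ℕ, x.1 ≤ N → x.2 ≤ N → InCube N (x.1, x.2, 0) :=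
    fun x h1 h2 => ⟨h1, h2, Nat.zero_le _⟩
  have hQ : ∀ g g' ρ ρ', D g (fz (hh g)) ≤ ρ → D g' (fz (hh g')) ≤ ρ' →
      |((hh g).1 : ℝ) - (hh g').1| ≤ L / R * (ρ + ρ' + D g g') ∧
      |((hh g).2 : ℝ) - (hh g').2| ≤ L / R * (ρ + ρ' + D g g') := by
    intro g g' ρ ρ' h1 h2
    have h3 : D (fz (hh g)) (fz (hh g')) ≤ ρ + ρ' + D g g' := by
      have e1 := hDtri (fz (hh g)) g (fz (hh g'))
      have e2 := hDtri g g' (fz (hh g'))
      have e3' := hDsymm (fz (hh g)) g
      linarith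
    have h4 := hlow _ _ (hcz (hh g) (hhN g).1 (hhN g).2) (hcz (hh g') (hhN g').1 (hhN g').2)
    have h5 : L / R * D (fz (hh g)) (fz (hh g')) ≤ L / R * (ρ + ρ' + D g g') :=
      mul_le_mul_of_nonneg_left h3 (by positivity)
    have h6 := abs_le_of_dist (p := ((hh g).1, (hh g).2, 0)) (q := ((hh g').1, (hh g').2, 0))
    exact ⟨(h6.1.trans h4).trans h5, (h6.2.1.trans h4).trans h5⟩
  have hhz : ∀ x : ℕ × ℕ, x.1 ≤ N → x.2 ≤ N → hh (fz x) = x := by
    intro x h1 h2
    have h3 := hP (fz x) x h1 h2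
    rw [hDself] at h3
    have h4 := hlow _ _ (hcz x h1 h2) (hcz (hh (fz x)) (hhN _).1 (hhN _).2)
    have h5 : L / R * D (fz x) (fz (hh (fz x))) ≤ 0 := by
      have : 0 ≤ L / R := by positivity
      nlinarith
    have h6 := abs_le_of_dist (p := (x.1, x.2, 0)) (q := ((hh (fz x)).1, (hh (fz x)).2, 0))
    have e1 := h6.1.trans (h4.trans h5)
    have e2 := h6.2.1.trans (h4.trans h5)
    have e1' := abs_nonpos_iff.mp e1
    have e2' := abs_nonpos_iff.mp e2
    rw [sub_eq_zero] at e1' e2'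
    have e1'' : x.1 = (hh (fz x)).1 := by exact_mod_cast e1'
    have e2'' : x.2 = (hh (fz x)).2 := by exact_mod_cast e2'
    exact Prod.ext e1''.symm e2''.symm
  -- the cochain
  set Ψ : MT Φ → Option (Fin n) → ℤ := fun g o => psi0 N (hh g) (hh (g * ev Φ (FreeGroup.of o)))
    with hΨ
  -- edges
  have hedge : ∀ (a : Fin 3) (x y : ℕ × ℕ), x.1 ≤ N → x.2 ≤ N → y.1 ≤ N → y.2 ≤ N →
      (x.1, x.2, 0) + e3 a = (y.1, y.2, 0) →
      (x.1 = 0 ∨ x.1 = N ∨ x.2 = 0 ∨ x.2 = N) →
      ((x.1 = 0 ∨ x.1 = N) ∨ (x.2 = 0 ∨ x.2 = N)) →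
      pv Ψ (fz x) (W a (x.1, x.2, 0)) = psi0 N x y := by
    intro a x y hx1 hx2 hy1 hy2 hxy _ hb
    have hW' := hW a (x.1, x.2, 0) (hcz x hx1 hx2) (by rw [hxy]; exact hcz y hy1 hy2)
    rw [hxy] at hW'
    obtain ⟨J, hJ⟩ := goodBall N x (2 * L ^ 2) (by
      rcases hb with (h | h) | (h | h)
      · left; rw [h]; push_cast; rw [mul_zero, zero_sub, abs_neg, abs_of_nonneg (Nat.cast_nonneg N)]
        linarith
      · left; rw [h]
        rw [show 2 * (N : ℝ) - N = N by ring, abs_of_nonneg (Nat.cast_nonneg N)]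
        linarith
      · right; rw [h]; push_cast; rw [mul_zero, zero_sub, abs_neg, abs_of_nonneg (Nat.cast_nonneg N)]
        linarith
      · right; rw [h]
        rw [show 2 * (N : ℝ) - N = N by ring, abs_of_nonneg (Nat.cast_nonneg N)]
        linarith)
    have hnear : ∀ g', len Φ ((fz x)⁻¹ * g') ≤ (W a (x.1, x.2, 0)).norm →
        |((hh g').1 : ℝ) - x.1| ≤ 2 * L ^ 2 ∧ |((hh g').2 : ℝ) - x.2| ≤ 2 * L ^ 2 := by
      intro g' hg'
      have h1 : D (fz x) g' ≤ L * R := by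
        calc D (fz x) g' ≤ ((W a (x.1, x.2, 0)).norm : ℝ) := by
              simp only [hD]
              exact_mod_cast hg'
          _ ≤ L * R := hW'.2
      have h2 : D g' (fz (hh g')) ≤ L * R := by
        refine (hP g' x hx1 hx2).trans ?_
        rw [hDsymm]; exact h1
      have h3 := hQ g' (fz x) (L * R) 0 h2 (by rw [hhz x hx1 hx2, hDself])
      rw [hhz x hx1 hx2] at h3
      have h4 : L / R * (L * R + 0 + D g' (fz x)) ≤ 2 * L ^ 2 := by
        rw [hDsymm g']
        calc L / R * (L * R + 0 + D (fz x) g') ≤ L / R * (L * R + 0 + L * R) := by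
              apply mul_le_mul_of_nonneg_left _ (by positivity)
              linarith
          _ = 2 * L ^ 2 := by field_simp; ring
      exact ⟨h3.1.trans h4, h3.2.trans h4⟩
    have hpot := pvPot Ψ (fun g => J (hh g)) (fz x) (W a (x.1, x.2, 0)) (by
      intro g' o h1 h2
      have e1 := hnear g' h1
      have e2 := hnear _ h2
      exact hJ _ _ e1.1 e1.2 e2.1 e2.2)
    have hend : fz x * ev Φ (W a (x.1, x.2, 0)) = fz y := by
      rw [hW'.1]
      simp only [hfz]
      group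
    rw [hpot, hend, hhz x hx1 hx2, hhz y hy1 hy2]
    have hL2 : (1 : ℝ) ≤ 2 * L ^ 2 := by nlinarith
    have hd : dist (x.1, x.2, 0) (y.1, y.2, 0) ≤ 1 := by rw [← hxy]; exact dist_edge a _
    have h6 := abs_le_of_dist (p := (x.1, x.2, 0)) (q := (y.1, y.2, 0))
    refine (hJ x y ?_ ?_ ?_ ?_).symm
    · rw [sub_self, abs_zero]; positivity
    · rw [sub_self, abs_zero]; positivity
    · rw [abs_sub_comm]; exact (h6.1.trans hd).trans hL2
    · rw [abs_sub_comm]; exact (h6.2.1.trans hd).trans hL2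
  -- cells
  set cc : ℕ := N / 2 with hcc
  have hccN : cc ≤ N := Nat.div_le_self _ _
  have hcc1 : (N : ℝ) / 2 - 1 ≤ cc := by
    have h1 : N ≤ 2 * cc + 1 := by omega
    have h2 : (N : ℝ) ≤ 2 * cc + 1 := by exact_mod_cast h1
    linarith
  have hcc2 : (cc : ℝ) ≤ N / 2 := by
    have h1 : 2 * cc ≤ N := by omega
    have h2 : 2 * (cc : ℝ) ≤ N := by exact_mod_cast h1
    linarith
  have hcell : ∀ (g : MT Φ) (i' j' : ℕ), i' < N → j' < N → D (fz (i', j')) g ≤ C * (L * R) →
      (∀ i, pv Ψ g (rel Φ i) = 0) ∨ D g (fz (cc, cc)) ≤ A * R := by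
    intro g i' j' hi' hj' hg
    have hg1 : D g (fz (hh g)) ≤ C * (L * R) := by
      refine (hP g (i', j') hi'.le hj'.le).trans ?_
      rw [hDsymm]; exact hg
    by_cases hgood : 2 * w < |2 * ((hh g).1 : ℝ) - N| ∨ 2 * w < |2 * ((hh g).2 : ℝ) - N|
    · left
      intro i
      obtain ⟨J, hJ⟩ := goodBall N (hh g) w hgood
      have hrel : ((rel Φ i).norm : ℝ) ≤ R := by
        have : (rel Φ i).norm ≤ m₀ := Finset.le_sup (f := fun i => (rel Φ i).norm)
          (Finset.mem_univ i)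
        have h1 : ((rel Φ i).norm : ℝ) ≤ m₀ := by exact_mod_cast this
        linarith
      have hnear : ∀ g', len Φ (g⁻¹ * g') ≤ (rel Φ i).norm →
          |((hh g').1 : ℝ) - (hh g).1| ≤ w ∧ |((hh g').2 : ℝ) - (hh g).2| ≤ w := by
        intro g' hg'
        have h1 : D g g' ≤ R := by
          calc D g g' ≤ ((rel Φ i).norm : ℝ) := by
                simp only [hD]
                exact_mod_cast hg'
            _ ≤ R := hrel
        have h2 : D g' (fz (hh g')) ≤ C * (L * R) + R := by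
          refine (hP g' (hh g) (hhN g).1 (hhN g).2).trans ?_
          have := hDtri g' g (fz (hh g))
          rw [hDsymm g' g] at this
          linarith
        have h3 := hQ g' g (C * (L * R) + R) (C * (L * R)) h2 hg1
        have h4 : L / R * (C * (L * R) + R + C * (L * R) + D g' g) ≤ w := by
          rw [hDsymm g']
          calc L / R * (C * (L * R) + R + C * (L * R) + D g g') ≤
              L / R * (C * (L * R) + R + C * (L * R) + 2 * R) := by
                apply mul_le_mul_of_nonneg_left _ (by positivity)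
                linarith
            _ = w := by rw [hw]; field_simp; ring
        exact ⟨h3.1.trans h4, h3.2.trans h4⟩
      have hpot := pvPot Ψ (fun g => J (hh g)) g (rel Φ i) (by
        intro g' o h1 h2
        have e1 := hnear g' h1
        have e2 := hnear _ h2
        exact hJ _ _ e1.1 e1.2 e2.1 e2.2)
      have hrel1 : ev Φ (rel Φ i) = 1 := by
        unfold rel
        rw [map_mul, map_mul, map_mul, map_inv, map_inv, ev_tt, ev_hz, ev_hz, MT.t_conj,
          mul_inv_cancel]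
      rw [hpot, hrel1, mul_one, sub_self]
    · right
      push Not at hgood
      have h1 : |((hh g).1 : ℝ) - cc| ≤ w + 1 := by
        have := hgood.1
        rw [abs_le] at this ⊢
        constructor <;> linarith
      have h2 : |((hh g).2 : ℝ) - cc| ≤ w + 1 := by
        have := hgood.2
        rw [abs_le] at this ⊢
        constructor <;> linarith
      have h3 : D (fz (hh g)) (fz (cc, cc)) ≤ L * R * (w + 1) := by
        refine (hup _ _ (hcz _ (hhN g).1 (hhN g).2) (hcz (cc, cc) hccN hccN)).trans ?_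
        apply mul_le_mul_of_nonneg_left _ hLR
        apply dist_le_of_abs h1 h2
        simp only [sub_self, abs_zero]
        positivity
      have h4 := hDtri g (fz (hh g)) (fz (cc, cc))
      calc D g (fz (cc, cc)) ≤ C * (L * R) + L * R * (w + 1) := by linarith
        _ = A * R := by rw [hA]; ring
  have hfar : ∀ (g : MT Φ) (q : ℕ × ℕ × ℕ), InCube N q → D g (fz (cc, cc)) ≤ A * R →
      (N : ℝ) / 2 - 1 ≤ dist q (cc, cc, 0) → ¬ (D (f q) g ≤ C * (L * R)) := by
    intro g q hq h1 h2 h3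
    have h4 := hlow q (cc, cc, 0) hq (hcz (cc, cc) hccN hccN)
    have h5 : D (f q) (f (cc, cc, 0)) ≤ C * (L * R) + A * R :=
      (hDtri _ g _).trans (add_le_add h3 h1)
    have h6 : L / R * D (f q) (f (cc, cc, 0)) ≤ L * (C * L + A) := by
      calc L / R * D (f q) (f (cc, cc, 0)) ≤ L / R * (C * (L * R) + A * R) :=
            mul_le_mul_of_nonneg_left h5 (by positivity)
        _ = L * (C * L + A) := by field_simp
    linarith
  -- the bottom chain
  set S : MT Φ × Fin n →₀ ℤ := ∑ i ∈ Finset.range N, ∑ j ∈ Finset.range N, c12 i j 0 with hS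
  have hScoef : ∀ σ, D σ.1 (fz (cc, cc)) ≤ A * R → S σ = 0 := by
    intro σ hσ
    have hcs := cubeSum (fun i j k => c12 i j k σ) (fun i j k => c13 i j k σ)
      (fun i j k => c23 i j k σ) N (by
        intro i j k hi hj hk
        have h1 := DFunLike.congr_fun (hcube i j k hi hj hk) σ
        simpa only [Finsupp.add_apply, Finsupp.sub_apply, Finsupp.zero_apply] using h1)
    have hS' : S σ = ∑ i ∈ Finset.range N, ∑ j ∈ Finset.range N, c12 i j 0 σ := by
      rw [hS]
      simp only [Finsupp.finsetSum_apply]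
    have hz12 : ∀ i j, i < N → j < N → c12 i j N σ = 0 := by
      intro i j hi hj
      by_contra hne
      have h1 := (h12 i j N hi hj le_rfl).2 σ (Finsupp.mem_support_iff.mpr hne)
      refine hfar σ.1 (i, j, N) ⟨hi.le, hj.le, le_rfl⟩ hσ ?_ h1
      have h6 := (abs_le_of_dist (p := (i, j, N)) (q := (cc, cc, 0))).2.2
      simp only [Nat.cast_zero, sub_zero] at h6
      have := le_abs_self (N : ℝ)
      linarith
    have hz13 : ∀ i j k, i < N → (j = 0 ∨ j = N) → k < N → c13 i j k σ = 0 := by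
      intro i j k hi hj hk
      by_contra hne
      have hj' : j ≤ N := by omega
      have h1 := h13 i j k hi hj' hk σ (Finsupp.mem_support_iff.mpr hne)
      refine hfar σ.1 (i, j, k) ⟨hi.le, hj', hk.le⟩ hσ ?_ h1
      have h6 := (abs_le_of_dist (p := (i, j, k)) (q := (cc, cc, 0))).2.1
      simp only at h6
      rcases hj with hj | hj
      · have h7 := neg_le_abs ((j : ℝ) - cc)
        have h8 : (j : ℝ) = 0 := by exact_mod_cast hj
        linarith
      · have h7 := le_abs_self ((j : ℝ) - cc)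
        have h8 : (j : ℝ) = N := by exact_mod_cast hj
        linarith
    have hz23 : ∀ i j k, (i = 0 ∨ i = N) → j < N → k < N → c23 i j k σ = 0 := by
      intro i j k hi hj hk
      by_contra hne
      have hi' : i ≤ N := by omega
      have h1 := h23 i j k hi' hj hk σ (Finsupp.mem_support_iff.mpr hne)
      refine hfar σ.1 (i, j, k) ⟨hi', hj.le, hk.le⟩ hσ ?_ h1
      have h6 := (abs_le_of_dist (p := (i, j, k)) (q := (cc, cc, 0))).1
      simp only at h6
      rcases hi with hi | hi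
      · have h7 := neg_le_abs ((i : ℝ) - cc)
        have h8 : (i : ℝ) = 0 := by exact_mod_cast hi
        linarith
      · have h7 := le_abs_self ((i : ℝ) - cc)
        have h8 : (i : ℝ) = N := by exact_mod_cast hi
        linarith
    rw [hS', hcs]
    rw [Finset.sum_eq_zero fun i hi => Finset.sum_eq_zero fun j hj =>
      hz12 i j (Finset.mem_range.mp hi) (Finset.mem_range.mp hj)]
    rw [Finset.sum_eq_zero (s := Finset.range N)
      (f := fun k => ∑ i ∈ Finset.range N, (c13 i N k σ - c13 i 0 k σ))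
      fun k hk => Finset.sum_eq_zero fun i hi => by
        rw [hz13 i N k (Finset.mem_range.mp hi) (Or.inr rfl) (Finset.mem_range.mp hk),
          hz13 i 0 k (Finset.mem_range.mp hi) (Or.inl rfl) (Finset.mem_range.mp hk), sub_zero]]
    rw [Finset.sum_eq_zero (s := Finset.range N)
      (f := fun k => ∑ j ∈ Finset.range N, (c23 N j k σ - c23 0 j k σ))
      fun k hk => Finset.sum_eq_zero fun j hj => by
        rw [hz23 N j k (Or.inr rfl) (Finset.mem_range.mp hj) (Finset.mem_range.mp hk),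
          hz23 0 j k (Or.inl rfl) (Finset.mem_range.mp hj) (Finset.mem_range.mp hk), sub_zero]]
    rfl
  have hpair0 : pairing S Ψ = 0 := by
    unfold pairing
    apply Finset.sum_eq_zero
    intro σ hσ
    rw [Finsupp.mem_support_iff] at hσ
    have hne : ∃ i j, i < N ∧ j < N ∧ c12 i j 0 σ ≠ 0 := by
      by_contra hcon
      push Not at hcon
      apply hσ
      rw [hS]
      simp only [Finsupp.finsetSum_apply]
      exact Finset.sum_eq_zero fun i hi => Finset.sum_eq_zero fun j hj =>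
        hcon i j (Finset.mem_range.mp hi) (Finset.mem_range.mp hj)
    obtain ⟨i, j, hi, hj, hne⟩ := hne
    have h1 := (h12 i j 0 hi hj (Nat.zero_le _)).2 σ (Finsupp.mem_support_iff.mpr hne)
    rcases hcell σ.1 i j hi hj h1 with h | h
    · simp only
      rw [h σ.2, mul_zero]
    · exact absurd (hScoef σ h) hσ
  -- the boundary
  have hpairS : pairing S Ψ = ∑ i ∈ Finset.range N, ∑ j ∈ Finset.range N,
      (pv Ψ (fz (i, j)) (W 0 (i, j, 0)) + pv Ψ (fz (i + 1, j)) (W 1 (i + 1, j, 0)) -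
        pv Ψ (fz (i, j + 1)) (W 0 (i, j + 1, 0)) - pv Ψ (fz (i, j)) (W 1 (i, j, 0))) := by
    rw [← pairingHom_apply, hS, map_sum]
    refine Finset.sum_congr rfl fun i hi => ?_
    rw [map_sum]
    refine Finset.sum_congr rfl fun j hj => ?_
    rw [pairingHom_apply]
    exact (h12 i j 0 (Finset.mem_range.mp hi) (Finset.mem_range.mp hj) (Nat.zero_le _)).1 Ψ
  have hsq := squareSum (fun i j => pv Ψ (fz (i, j)) (W 0 (i, j, 0)))
    (fun i j => pv Ψ (fz (i, j)) (W 1 (i, j, 0))) N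
  rw [hpair0] at hpairS
  rw [hsq] at hpairS
  have hE1 : ∀ i < N, pv Ψ (fz (i, 0)) (W 0 (i, 0, 0)) = 0 := by
    intro i hi
    have h1 := hedge 0 (i, 0) (i + 1, 0) hi.le (Nat.zero_le _) hi (Nat.zero_le _)
      (by simp [e3]) (Or.inr (Or.inr (Or.inl rfl))) (Or.inr (Or.inl rfl))
    rw [h1]
    simp [psi0, II]
  have hE2 : ∀ j < N, pv Ψ (fz (N, j)) (W 1 (N, j, 0)) = II N (N, j + 1) - II N (N, j) := by
    intro j hj
    have h1 := hedge 1 (N, j) (N, j + 1) le_rfl hj.le le_rfl hj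
      (by simp [e3]) (Or.inr (Or.inl rfl)) (Or.inl (Or.inr rfl))
    rw [h1, psi0, if_pos ⟨by simp only; omega, by simp only; omega⟩]
  have hE3 : ∀ i < N, pv Ψ (fz (i, N)) (W 0 (i, N, 0)) = 0 := by
    intro i hi
    have h1 := hedge 0 (i, N) (i + 1, N) hi.le le_rfl hi le_rfl
      (by simp [e3]) (Or.inr (Or.inr (Or.inr rfl))) (Or.inr (Or.inr rfl))
    have f1 : ∀ i : ℕ, II N (i, N) = 1 := fun i => if_pos (show N < 2 * N by omega)
    rw [h1, psi0, f1, f1, sub_self, ite_self]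
  have hE4 : ∀ j < N, pv Ψ (fz (0, j)) (W 1 (0, j, 0)) = 0 := by
    intro j hj
    have h1 := hedge 1 (0, j) (0, j + 1) (Nat.zero_le _) hj.le (Nat.zero_le _) hj
      (by simp [e3]) (Or.inl rfl) (Or.inl (Or.inl rfl))
    rw [h1, psi0, if_neg (by simp)]
  rw [Finset.sum_eq_zero fun i hi => hE1 i (Finset.mem_range.mp hi),
    Finset.sum_congr rfl fun j hj => hE2 j (Finset.mem_range.mp hj),
    Finset.sum_eq_zero fun i hi => hE3 i (Finset.mem_range.mp hi),
    Finset.sum_eq_zero fun j hj => hE4 j (Finset.mem_range.mp hj),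
    Finset.sum_range_sub (fun j => II N (N, j))] at hpairS
  have hI1 : II N (N, N) = 1 := by rw [II, if_pos (by simp only; omega)]
  have hI0 : II N (N, 0) = 0 := by rw [II, if_neg (by simp)]
  rw [hI1, hI0] at hpairS
  norm_num at hpairS

end MC
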