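import Pool.Agent.Helper42.MC.Defs

/-!
# MC-19: chains in word metrics

`x, y : G`; let `l` be a list of length `m = wl S (x⁻¹ y)` with product `x⁻¹ y` (`exists_wl`). For `i ≤ n` let
`c i = x * (l.take (i * m / n)).prod` (natural number division). Then `c 0 = x`, `c n = y` and
`dist (c i) (c (i+1)) ≤ (i+1)*m/n - i*m/n ≤ m/n + 1` (`wl_le` for the corresponding piece of `l`).
-/

namespace MC

theorem wg_chains {G : Type*} [Group G] {S : Set G} (hS : Subgroup.closure S = ⊤) :
    Chains (WG G S hS) 1 1 := by
  intro x y n hn
  let x' : G := x
  let y' : G := y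
  obtain ⟨l, h1, h2, h3⟩ := exists_wl hS (x'⁻¹ * y')
  refine ⟨fun i => (x' * (l.take (i * l.length / n)).prod : G), ?_, ?_, ?_⟩
  · change x' * (l.take (0 * l.length / n)).prod = x'
    rw [zero_mul, Nat.zero_div, List.take_zero, List.prod_nil, mul_one]
  · change x' * (l.take (n * l.length / n)).prod = y'
    rw [Nat.mul_div_cancel_left _ hn, List.take_length, h3, mul_inv_cancel_left]
  · intro i _
    set a := i * l.length / n with ha
    set b := (i + 1) * l.length / n with hb
    have hab : a ≤ b := Nat.div_le_div_right (Nat.mul_le_mul_right _ (Nat.le_succ i))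
    have hpiece : (l.take b).prod = (l.take a).prod * ((l.take b).drop a).prod := by
      conv_lhs => rw [← List.take_append_drop a (l.take b)]
      rw [List.prod_append, List.take_take, min_eq_left hab]
    have hdist : dist (show WG G S hS from (x' * (l.take a).prod : G))
        (show WG G S hS from (x' * (l.take b).prod : G)) =
        (wl S ((l.take b).drop a).prod : ℝ) := by
      rw [WG.dist_def, hpiece]
      congr 2
      group
    have hle : wl S ((l.take b).drop a).prod ≤ b - a := by
      refine (wl_le _ ?_).trans ?_
      · intro z hz
        exact h2 z (List.mem_of_mem_take (List.mem_of_mem_drop hz))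
      · rw [List.length_drop, List.length_take]
        omega
    have hd : dist x y = (l.length : ℝ) := by
      rw [h1]
      rfl
    change dist (show WG G S hS from (x' * (l.take a).prod : G))
        (show WG G S hS from (x' * (l.take b).prod : G)) ≤ _
    rw [hdist, hd, one_mul]
    have hn' : (0 : ℝ) < n := by exact_mod_cast hn
    have h4 : (b : ℝ) ≤ (i + 1) * l.length / n := by
      rw [le_div_iff₀ hn']
      have := Nat.div_mul_le_self ((i + 1) * l.length) n
      rw [← hb] at this
      exact_mod_cast this
    have h5 : (i : ℝ) * l.length / n < a + 1 := by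
      rw [div_lt_iff₀ hn']
      have := Nat.lt_div_mul_add (a := i * l.length) hn
      rw [← ha] at this
      have h6 : i * l.length < (a + 1) * n := by
        rw [add_mul, one_mul]
        exact this
      exact_mod_cast h6
    have h7 : (wl S ((l.take b).drop a).prod : ℝ) ≤ (b : ℝ) - a := by
      rw [← Nat.cast_sub hab]
      exact_mod_cast hle
    have h8 : ((i : ℝ) + 1) * l.length / n = i * l.length / n + l.length / n := by ring
    linarith

end MC
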