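import Pool.Agent.Helper42.MC.ULChains
import Pool.Agent.Helper42.MC.WordGeod
import Pool.Agent.Helper42.MC.ConeFlat
import Pool.Agent.Helper42.MC.NoBoxMT
import Pool.Agent.Helper42.MC.CoreEst

/-!
# The asymptotic cones of a free-by-cyclic group with core data satisfy `ConeData`
-/

open Filter Topology Set

namespace MC

variable {n : ℕ} {Φ : MulAut (FreeGroup (Fin n))}

theorem noBox_WG {S : Set (MT Φ)} (hf : S.Finite) (hS : Subgroup.closure S = ⊤) :
    NoBox (WG (MT Φ) S hS) := by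
  obtain ⟨K, hK0, hK⟩ := wl_len hf hS
  have hK1 : (1 : ℝ) ≤ K := by exact_mod_cast hK0
  intro L hL
  have hL0 : 0 < L := lt_of_lt_of_le one_pos hL
  obtain ⟨N, R₀, hN⟩ := noBox_len Φ (L * K) (by nlinarith)
  refine ⟨N, max R₀ 0, fun R hR ⟨f, hfb⟩ => ?_⟩
  have hR0 : R₀ < R := lt_of_le_of_lt (le_max_left _ _) hR
  have hRp : 0 < R := lt_of_le_of_lt (le_max_right _ _) hR
  refine hN R hR0 ⟨fun q => (show MT Φ from f q), fun p q hp hq => ?_⟩
  obtain ⟨h1, h2⟩ := hfb p q hp hq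
  have hd : dist (f p) (f q) =
      (wl S ((show MT Φ from f p)⁻¹ * (show MT Φ from f q)) : ℝ) := rfl
  rw [hd] at h1 h2
  obtain ⟨k1, k2⟩ := hK ((show MT Φ from f p)⁻¹ * (show MT Φ from f q))
  have k1' : (wl S ((show MT Φ from f p)⁻¹ * (show MT Φ from f q)) : ℝ) ≤
      K * len Φ ((show MT Φ from f p)⁻¹ * (show MT Φ from f q)) := by exact_mod_cast k1
  have k2' : (len Φ ((show MT Φ from f p)⁻¹ * (show MT Φ from f q)) : ℝ) ≤
      K * wl S ((show MT Φ from f p)⁻¹ * (show MT Φ from f q)) := by exact_mod_cast k2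
  have hKp : (0 : ℝ) < K := lt_of_lt_of_le one_pos hK1
  constructor
  · have h3 : R / L * dist p q ≤ K * len Φ ((show MT Φ from f p)⁻¹ * (show MT Φ from f q)) :=
      h1.trans k1'
    have h4 : R / (L * K) * dist p q = (R / L * dist p q) / K := by field_simp
    rw [h4, div_le_iff₀ hKp]
    linarith [mul_comm (K : ℝ) (len Φ ((show MT Φ from f p)⁻¹ * (show MT Φ from f q)) : ℝ)]
  · calc (len Φ ((show MT Φ from f p)⁻¹ * (show MT Φ from f q)) : ℝ)
        ≤ K * wl S ((show MT Φ from f p)⁻¹ * (show MT Φ from f q)) := k2'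
      _ ≤ K * (L * R * dist p q) := by gcongr
      _ = L * K * R * dist p q := by ring

theorem cone_data (h : CoreData Φ) {S : Set (MT Φ)} (hf : S.Finite)
    (hS : Subgroup.closure S = ⊤) (ω : Ultrafilter ℕ) (s : ℕ → ℝ)
    (hs : Tendsto s (ω : Filter ℕ) atTop) : ConeData (AsymCone (MT Φ) S hS ω s) := by
  refine ⟨⟨1, ul_chains (wg_chains hS) hs _⟩, ul_noBox (noBox_WG hf hS) hs _, ?_⟩
  obtain ⟨z, a, p, b, hz, ha, haz, hp, hb⟩ := h
  obtain ⟨C, hC0, hC1, hC2⟩ := core_est hz ha haz hb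
  obtain ⟨K, hK0, hK⟩ := wl_len hf hS
  have hK1 : (1 : ℝ) ≤ K := by exact_mod_cast hK0
  have hC1' : (1 : ℝ) ≤ C := by exact_mod_cast hC0
  refine cone_flat hS (MT.inc Φ a) z haz.symm p hp (fun i => MT.inc Φ (b i))
    (fun i => (hb i).1) (C * K) (by positivity) ?_ ?_ ω s hs
  · intro m l
    have h1 := hC1 m l
    have h2 := (hK (MT.inc Φ a ^ m * z ^ l)).2
    have h3 : ((m.natAbs + l.natAbs : ℕ) : ℝ) ≤ C * (K * wl S (MT.inc Φ a ^ m * z ^ l)) := by
      have : m.natAbs + l.natAbs ≤ C * (K * wl S (MT.inc Φ a ^ m * z ^ l)) :=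
        h1.trans (Nat.mul_le_mul_left _ h2)
      exact_mod_cast this
    have h4 : |(m : ℝ)| + |(l : ℝ)| = ((m.natAbs + l.natAbs : ℕ) : ℝ) := by
      push_cast [Nat.cast_natAbs]
      simp
    rw [h4, mul_assoc]
    exact h3
  · intro i t m l
    have h1 := hC2 i t m l
    have h2 := (hK (((MT.inc Φ (b i)) ^ t)⁻¹ * MT.inc Φ a ^ m *
          (z * MT.inc Φ a ^ (p i)) ^ l)).2
    have h3 : (t : ℝ) ≤ C * (K * wl S (((MT.inc Φ (b i)) ^ t)⁻¹ * MT.inc Φ a ^ m *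
          (z * MT.inc Φ a ^ (p i)) ^ l)) + C := by
      have : t ≤ C * (K * wl S (((MT.inc Φ (b i)) ^ t)⁻¹ * MT.inc Φ a ^ m *
          (z * MT.inc Φ a ^ (p i)) ^ l)) + C :=
        h1.trans (Nat.add_le_add_right (Nat.mul_le_mul_left _ h2) _)
      exact_mod_cast this
    have h4 : (C : ℝ) ≤ C * K := by nlinarith
    calc (t : ℝ) ≤ C * (K * wl S (((MT.inc Φ (b i)) ^ t)⁻¹ * MT.inc Φ a ^ m *
          (z * MT.inc Φ a ^ (p i)) ^ l)) + C := h3
      _ ≤ C * K * wl S (((MT.inc Φ (b i)) ^ t)⁻¹ * MT.inc Φ a ^ m *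
          (z * MT.inc Φ a ^ (p i)) ^ l) + C * K := by
        rw [← mul_assoc]; linarith

end MC
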