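import Pool.Agent.Helper42.MC.Med

/-!
# MC-5: three pairwise crossing halfspaces give a corner

Let `H 0, H 1, H 2` be pairwise crossing halfspaces. Every triple intersection
`H 0^± ∩ H 1^± ∩ H 2^±` is nonempty: take points of the three pairwise intersections; their median
lies in all three (`Cvx.med_mem`). Choose `a` in the three complements, `b` in the three halfspaces,
`c i` in `H i` and in the two other complements, and put `x i = m(a,b,c i) ∈ I(a,b)`; still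
`x i ∈ H i` (`b, c i ∈ H i`) and `x i ∉ H j` for `j ≠ i` (`a, c i ∉ H j`).
Put `o = m(x 0, x 1, x 2)`: for every `i`, two of the `x j` are outside `H i`, so `o ∉ H i`.
`u i = m(b, o, x i) ∈ H i`, so `u i ≠ o`. `o ∈ I(a,b)` (convexity), `u i ∈ I(b,o)`.
`m(o, u i, u j) = o` for `i ≠ j`: with `g = m(b,o,·)`: by `med_distrib`,
`m(b,o,m(x 0,x 1,x 2)) = m(u 0,u 1,u 2)`, and the left side is `o`; so
`o = m(u 0,u 1,u 2) ∈ I(u i,u j)`, that is `m(o,u i,u j) = o`.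
-/

open Set

namespace MC

variable {M : Type*} [MetricSpace M]

theorem corner (h : IsMedian M) (hr : ¬ Rank2 M) :
    ∃ (o b : M) (u : Fin 3 → M), (∀ i, u i ≠ o) ∧ (∀ i, Btw o (u i) b) ∧
      ∀ i j, i ≠ j → med h o (u i) (u j) = o := by
  -- triple intersections of convex sets with pairwise intersections
  have trip : ∀ A B C : Set M, Cvx A → Cvx B → Cvx C → (A ∩ B).Nonempty → (A ∩ C).Nonempty →
      (B ∩ C).Nonempty → ∃ m, m ∈ A ∧ m ∈ B ∧ m ∈ C := by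
    rintro A B C hA hB hC ⟨p, hp1, hp2⟩ ⟨q, hq1, hq2⟩ ⟨r, hr1, hr2⟩
    exact ⟨med h p q r, (hA.med_mem h hp1 hq1 r).1, (hB.med_mem h hp2 hr1 q).2.1,
      (hC.med_mem h hq2 hr2 p).2.2⟩
  simp only [Rank2, not_forall] at hr
  obtain ⟨A, B, C, hA, hB, hC, ⟨ab1, ab2, ab3, ab4⟩, ⟨ac1, ac2, ac3, ac4⟩,
    ⟨bc1, bc2, bc3, bc4⟩, -⟩ := hr
  obtain ⟨a, haA, haB, haC⟩ := trip Aᶜ Bᶜ Cᶜ hA.2 hB.2 hC.2 ab4 ac4 bc4
  obtain ⟨b, hbA, hbB, hbC⟩ := trip A B C hA.1 hB.1 hC.1 ab1 ac1 bc1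
  obtain ⟨c0, h0A, h0B, h0C⟩ := trip A Bᶜ Cᶜ hA.1 hB.2 hC.2 ab2 ac2 bc4
  obtain ⟨c1, h1A, h1B, h1C⟩ := trip Aᶜ B Cᶜ hA.2 hB.1 hC.2 ab3 ac4 bc2
  obtain ⟨c2, h2A, h2B, h2C⟩ := trip Aᶜ Bᶜ C hA.2 hB.2 hC.1 ab4 ac3 bc3
  obtain ⟨x0, hx0⟩ : ∃ x0, x0 = med h a b c0 := ⟨_, rfl⟩
  obtain ⟨x1, hx1⟩ : ∃ x1, x1 = med h a b c1 := ⟨_, rfl⟩
  obtain ⟨x2, hx2⟩ : ∃ x2, x2 = med h a b c2 := ⟨_, rfl⟩
  have x0A : x0 ∈ A := hx0 ▸ (hA.1.med_mem h hbA h0A a).2.2
  have x0B : x0 ∈ Bᶜ := hx0 ▸ (hB.2.med_mem h haB h0B b).2.1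
  have x0C : x0 ∈ Cᶜ := hx0 ▸ (hC.2.med_mem h haC h0C b).2.1
  have x1A : x1 ∈ Aᶜ := hx1 ▸ (hA.2.med_mem h haA h1A b).2.1
  have x1B : x1 ∈ B := hx1 ▸ (hB.1.med_mem h hbB h1B a).2.2
  have x1C : x1 ∈ Cᶜ := hx1 ▸ (hC.2.med_mem h haC h1C b).2.1
  have x2A : x2 ∈ Aᶜ := hx2 ▸ (hA.2.med_mem h haA h2A b).2.1
  have x2B : x2 ∈ Bᶜ := hx2 ▸ (hB.2.med_mem h haB h2B b).2.1
  have x2C : x2 ∈ C := hx2 ▸ (hC.1.med_mem h hbC h2C a).2.2
  obtain ⟨o, ho⟩ : ∃ o, o = med h x0 x1 x2 := ⟨_, rfl⟩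
  have oA : o ∈ Aᶜ := ho ▸ (hA.2.med_mem h x1A x2A x0).2.2
  have oB : o ∈ Bᶜ := ho ▸ (hB.2.med_mem h x0B x2B x1).2.1
  have oC : o ∈ Cᶜ := ho ▸ (hC.2.med_mem h x0C x1C x2).1
  have hgo : med h b o o = o := med_of_btw h (by unfold Btw; simp)
  have hd := med_distrib h b o x0 x1 x2
  rw [← ho, hgo] at hd
  have u0 : med h b o x0 ∈ A := (hA.1.med_mem h hbA x0A o).2.1
  have u1 : med h b o x1 ∈ B := (hB.1.med_mem h hbB x1B o).2.1
  have u2 : med h b o x2 ∈ C := (hC.1.med_mem h hbC x2C o).2.1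
  have b0 : Btw o (med h b o x0) b := (med_btw12 h b o x0).symm
  have b1 : Btw o (med h b o x1) b := (med_btw12 h b o x1).symm
  have b2 : Btw o (med h b o x2) b := (med_btw12 h b o x2).symm
  have d01 : Btw (med h b o x0) o (med h b o x1) := by
    have := med_btw12 h (med h b o x0) (med h b o x1) (med h b o x2)
    rwa [← hd] at this
  have d12 : Btw (med h b o x1) o (med h b o x2) := by
    have := med_btw23 h (med h b o x0) (med h b o x1) (med h b o x2)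
    rwa [← hd] at this
  have d02 : Btw (med h b o x0) o (med h b o x2) := by
    have := med_btw13 h (med h b o x0) (med h b o x1) (med h b o x2)
    rwa [← hd] at this
  have key : ∀ {s t : M}, Btw s o t → med h o s t = o := by
    intro s t hst
    rw [med_swap12, med_swap23]
    exact med_of_btw h hst
  refine ⟨o, b, ![med h b o x0, med h b o x1, med h b o x2], ?_, ?_, ?_⟩
  · intro i
    fin_cases i
    · intro e; exact oA (e ▸ u0)
    · intro e; exact oB (e ▸ u1)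
    · intro e; exact oC (e ▸ u2)
  · intro i
    fin_cases i
    · exact b0
    · exact b1
    · exact b2
  · intro i j hij
    fin_cases i <;> fin_cases j
    · exact absurd rfl hij
    · exact key d01
    · exact key d02
    · exact key d01.symm
    · exact absurd rfl hij
    · exact key d12
    · exact key d02.symm
    · exact key d12.symm
    · exact absurd rfl hij

end MC
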