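import Pool.Agent.Helper42.MC.Defs

/-!
# MC-7: a convex set of the plane with convex complement is a half plane

If both interiors are empty then both sets lie in their frontiers, which are null sets.
Separate the open convex set
`interior T` from `Tᶜ` (`geometric_hahn_banach_open`): `f a < c ≤ f b` for `a ∈ interior T`, `b ∈ Tᶜ`. So
`f u < c → u ∈ T`; and `T ⊆ closure (interior T) ⊆ {f ≤ c}`.
-/

open Set

namespace MC

lemma halfPlane_aux (T : Set (ℝ × ℝ)) (h1 : Convex ℝ T) (h2 : Convex ℝ Tᶜ)
    (h4 : Tᶜ.Nonempty) (hi : (interior T).Nonempty) :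
    ∃ α β c : ℝ, (α ≠ 0 ∨ β ≠ 0) ∧ (∀ u : ℝ × ℝ, α * u.1 + β * u.2 < c → u ∈ T) ∧
      (∀ u : ℝ × ℝ, c < α * u.1 + β * u.2 → u ∉ T) := by
  obtain ⟨f, c, hf, hg⟩ := geometric_hahn_banach_open h1.interior isOpen_interior h2
    (disjoint_compl_right.mono_left interior_subset)
  have hfu : ∀ u : ℝ × ℝ, f u = f (1, 0) * u.1 + f (0, 1) * u.2 := by
    intro u
    have : u = u.1 • ((1 : ℝ), (0 : ℝ)) + u.2 • ((0 : ℝ), (1 : ℝ)) := by
      ext <;> simp
    conv_lhs => rw [this, map_add, map_smul, map_smul]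
    simp only [smul_eq_mul]
    ring
  refine ⟨f (1, 0), f (0, 1), c, ?_, ?_, ?_⟩
  · by_contra hcon
    push Not at hcon
    obtain ⟨x, hx⟩ := hi
    obtain ⟨y, hy⟩ := h4
    have e1 := hf x hx
    have e2 := hg y hy
    rw [hfu, hcon.1, hcon.2] at e1 e2
    linarith
  · intro u hu
    by_contra hcon
    have := hg u hcon
    rw [hfu] at this
    linarith
  · intro u hu huT
    have hcl : u ∈ closure (interior T) := by
      rw [h1.closure_interior_eq_closure_of_nonempty_interior hi]
      exact subset_closure huT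
    have hsub : closure (interior T) ⊆ {v | f v ≤ c} := by
      apply closure_minimal
      · intro v hv
        exact (hf v hv).le
      · exact isClosed_le f.continuous continuous_const
    have := hsub hcl
    rw [Set.mem_ofPred_eq, hfu] at this
    linarith

theorem halfPlane (T : Set (ℝ × ℝ)) (h1 : Convex ℝ T) (h2 : Convex ℝ Tᶜ) (h3 : T.Nonempty)
    (h4 : Tᶜ.Nonempty) :
    ∃ α β c : ℝ, (α ≠ 0 ∨ β ≠ 0) ∧ (∀ u : ℝ × ℝ, α * u.1 + β * u.2 < c → u ∈ T) ∧
      (∀ u : ℝ × ℝ, c < α * u.1 + β * u.2 → u ∉ T) := by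
  by_cases hi : (interior T).Nonempty
  · exact halfPlane_aux T h1 h2 h4 hi
  by_cases hi' : (interior Tᶜ).Nonempty
  · obtain ⟨α, β, c, hne, ha, hb⟩ := halfPlane_aux Tᶜ h2 (by rwa [compl_compl])
      (by rwa [compl_compl]) hi'
    refine ⟨-α, -β, -c, ?_, ?_, ?_⟩
    · rcases hne with h | h
      · exact Or.inl (neg_ne_zero.mpr h)
      · exact Or.inr (neg_ne_zero.mpr h)
    · intro u hu
      have := hb u (by linarith)
      rwa [Set.mem_compl_iff, not_not] at this
    · intro u hu
      exact ha u (by linarith)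
  · exfalso
    rw [Set.not_nonempty_iff_eq_empty] at hi hi'
    have hf1 : T ⊆ frontier T := by
      intro x hx
      rw [frontier, hi]
      exact ⟨subset_closure hx, Set.notMem_empty x⟩
    have hf2 : Tᶜ ⊆ frontier Tᶜ := by
      intro x hx
      rw [frontier, hi']
      exact ⟨subset_closure hx, Set.notMem_empty x⟩
    have m1 : MeasureTheory.volume T = 0 :=
      MeasureTheory.measure_mono_null hf1 (h1.addHaar_frontier MeasureTheory.volume)
    have m2 : MeasureTheory.volume Tᶜ = 0 :=
      MeasureTheory.measure_mono_null hf2 (h2.addHaar_frontier MeasureTheory.volume)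
    have m3 : MeasureTheory.volume (Set.univ : Set (ℝ × ℝ)) = 0 := by
      rw [← Set.union_compl_self T]
      exact MeasureTheory.measure_union_null m1 m2
    have m4 : MeasureTheory.volume (Set.univ : Set (ℝ × ℝ)) ≠ 0 := by
      rw [Ne, MeasureTheory.Measure.measure_univ_eq_zero]
      exact NeZero.ne _
    exact m4 m3

end MC
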