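import Pool.Agent.Helper42.MC.Sep
import Pool.Agent.Helper42.MC.HalfPlane

/-!
# MC-8: traces on a flat plane, nondegenerate separation

`trace`: `T = E ⁻¹' H` is convex with convex complement by `Flat.seg`; apply `halfPlane`.

`nondeg`: suppose not. Then for every halfspace `H` with `E u ∈ H`, `E v ∉ H`, the trace `(α,β,c)`,
`f = αx+βy`, has `f u ≤ c ≤ f v` and so `f u = c = f v`. Let `η = (-(v-u).2, (v-u).1)`; `f (v-u) = 0`,
`(α,β) ≠ 0` give `f η ≠ 0`, so for `ε > 0` the points `u' = u+εη`, `v' = v+εη` are strictly on one side of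
the line: (*) `H` contains both of `E u'`, `E v'` or none. Let `ga = m(E u,E v,E u')`,
`gb = m(E u,E v,E v')`. Claim `ga = gb`: otherwise there is a halfspace `H ∋ ga`, `gb ∉ H`; since
`ga, gb ∈ I(E u,E v)`, exactly one of `E u, E v` is in `H`. If `E u ∈ H`, `E v ∉ H`: `E u' ∈ H` (else
`ga ∈ I(E v,E u') ⊆ Hᶜ`), `E v' ∉ H` (else `gb ∈ I(E u,E v') ⊆ H`), contradicting (*). Otherwise the same
with `Hᶜ`. So `ga = gb` and `d(E u,E v) ≤ d(E u,ga)+d(gb,E v) ≤ d(E u,E u')+d(E v,E v') ≤ 2Lε‖η‖`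
(`gate_lip`, `m(a,b,a) = a`). As `ε → 0`, `E u = E v`, contradiction with `Flat.low`.
-/

open Set

namespace MC

variable {M : Type*} [MetricSpace M]

theorem trace {E : ℝ × ℝ → M} {L : ℝ} (hE : Flat E L) {H : Set M} (hH : Half H)
    (h1 : ∃ u, E u ∈ H) (h2 : ∃ u, E u ∉ H) :
    ∃ α β c : ℝ, (α ≠ 0 ∨ β ≠ 0) ∧ Thr E H α β c := by
  have key : ∀ A : Set M, Cvx A → Convex ℝ (E ⁻¹' A) := by
    intro A hA x hx y hy a b ha hb hab
    have h3 : a • x + b • y = x + b • (y - x) := by
      have h4 : a = 1 - b := by linarith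
      rw [h4, sub_smul, one_smul, smul_sub]
      abel
    rw [h3]
    exact hA _ hx _ hy _ (hE.seg x y b ⟨hb, by linarith⟩)
  obtain ⟨α, β, c, h5, h6, h7⟩ := halfPlane (E ⁻¹' H) (key H hH.1) (key Hᶜ hH.2) h1 h2
  exact ⟨α, β, c, h5, h6, h7⟩

theorem nondeg (hM : IsMedian M) {E : ℝ × ℝ → M} {L : ℝ} (hE : Flat E L) {u v : ℝ × ℝ}
    (huv : u ≠ v) :
    ∃ H : Set M, Half H ∧ ∃ α β c : ℝ, Thr E H α β c ∧ α * u.1 + β * u.2 ≤ c ∧
      c ≤ α * v.1 + β * v.2 ∧ α * u.1 + β * u.2 < α * v.1 + β * v.2 := by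
  by_contra hcon
  push Not at hcon
  set η : ℝ × ℝ := (-(v.2 - u.2), v.1 - u.1) with hη
  -- (*)
  have star : ∀ H : Set M, Half H → E u ∈ H → E v ∉ H → ∀ ε : ℝ, 0 < ε →
      (E (u + ε • η) ∈ H ↔ E (v + ε • η) ∈ H) := by
    intro H hH hu hv ε hε
    obtain ⟨α, β, c, hαβ, hT1, hT2⟩ := trace hE hH ⟨u, hu⟩ ⟨v, hv⟩
    have h1 : α * u.1 + β * u.2 ≤ c := by
      by_contra h
      exact hT2 u (not_le.1 h) hu
    have h2 : c ≤ α * v.1 + β * v.2 := by
      by_contra h
      exact hv (hT1 v (not_le.1 h))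
    have h3 := hcon H hH α β c ⟨hT1, hT2⟩ h1 h2
    have h4 : α * u.1 + β * u.2 = c := le_antisymm h1 (by linarith)
    have h5 : α * v.1 + β * v.2 = c := le_antisymm (by linarith) h2
    have hne : -α * (v.2 - u.2) + β * (v.1 - u.1) ≠ 0 := by
      intro h0
      have h6 : α * (v.1 - u.1) + β * (v.2 - u.2) = 0 := by linarith
      have h7 : (α ^ 2 + β ^ 2) * ((v.1 - u.1) ^ 2 + (v.2 - u.2) ^ 2) = 0 := by
        have : (α ^ 2 + β ^ 2) * ((v.1 - u.1) ^ 2 + (v.2 - u.2) ^ 2) =
            (α * (v.1 - u.1) + β * (v.2 - u.2)) ^ 2 +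
              (-α * (v.2 - u.2) + β * (v.1 - u.1)) ^ 2 := by ring
        rw [this, h0, h6]
        ring
      rcases mul_eq_zero.1 h7 with h8 | h8
      · have h9 : α = 0 := by nlinarith [sq_nonneg α, sq_nonneg β]
        have h10 : β = 0 := by nlinarith [sq_nonneg α, sq_nonneg β]
        rcases hαβ with h | h
        · exact h h9
        · exact h h10
      · have h9 : v.1 - u.1 = 0 := by nlinarith [sq_nonneg (v.1 - u.1), sq_nonneg (v.2 - u.2)]
        have h10 : v.2 - u.2 = 0 := by nlinarith [sq_nonneg (v.1 - u.1), sq_nonneg (v.2 - u.2)]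
        exact huv (Prod.ext (by linarith) (by linarith))
    have e1 : α * (u + ε • η).1 + β * (u + ε • η).2 =
        c + ε * (-α * (v.2 - u.2) + β * (v.1 - u.1)) := by
      rw [← h4, hη]
      simp only [Prod.smul_mk, smul_eq_mul, Prod.fst_add, Prod.snd_add]
      ring
    have e2 : α * (v + ε • η).1 + β * (v + ε • η).2 =
        c + ε * (-α * (v.2 - u.2) + β * (v.1 - u.1)) := by
      rw [← h5, hη]
      simp only [Prod.smul_mk, smul_eq_mul, Prod.fst_add, Prod.snd_add]
      ring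
    rcases lt_or_gt_of_ne hne with hlt | hgt
    · have h6 := mul_neg_of_pos_of_neg hε hlt
      exact ⟨fun _ => hT1 _ (by rw [e2]; linarith), fun _ => hT1 _ (by rw [e1]; linarith)⟩
    · have h6 := mul_pos hε hgt
      exact ⟨fun h => absurd h (hT2 _ (by rw [e1]; linarith)),
        fun h => absurd h (hT2 _ (by rw [e2]; linarith))⟩
  have bound : ∀ ε : ℝ, 0 < ε → dist (E u) (E v) ≤ 2 * L * ‖η‖ * ε := by
    intro ε hε
    have hg : med hM (E u) (E v) (E (u + ε • η)) = med hM (E u) (E v) (E (v + ε • η)) := by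
      by_contra hne
      obtain ⟨H, hH, ha, hb⟩ := sep hM hne
      have hau := med_btw13 hM (E u) (E v) (E (u + ε • η))
      have hav := med_btw23 hM (E u) (E v) (E (u + ε • η))
      have hauv := med_btw12 hM (E u) (E v) (E (u + ε • η))
      have hbu := med_btw13 hM (E u) (E v) (E (v + ε • η))
      have hbv := med_btw23 hM (E u) (E v) (E (v + ε • η))
      have hbuv := med_btw12 hM (E u) (E v) (E (v + ε • η))
      by_cases hu : E u ∈ H
      · have hv : E v ∉ H := fun h => hb (hH.1 _ hu _ h _ hbuv)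
        have hu' : E (u + ε • η) ∈ H := by
          by_contra h
          exact hH.2 _ hv _ h _ hav ha
        have hv' : E (v + ε • η) ∉ H := fun h => hb (hH.1 _ hu _ h _ hbu)
        exact hv' ((star H hH hu hv ε hε).1 hu')
      · have hv : E v ∈ H := by
          by_contra h
          exact hH.2 _ hu _ h _ hauv ha
        have hu' : E (u + ε • η) ∈ H := by
          by_contra h
          exact hH.2 _ hu _ h _ hau ha
        have hv' : E (v + ε • η) ∉ H := fun h => hb (hH.1 _ hv _ h _ hbv)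
        have h3 := star Hᶜ hH.compl hu (fun h => h hv) ε hε
        exact (h3.2 hv') hu'
    have hdu : dist (E u) (med hM (E u) (E v) (E (u + ε • η))) ≤ L * (ε * ‖η‖) := by
      have h1 := gate_lip hM (E u) (E v) (E u) (E (u + ε • η))
      rw [med_of_btw hM (a := E u) (p := E u) (b := E v) (by simp [Btw])] at h1
      refine h1.trans ((hE.lip _ _).trans ?_)
      rw [dist_self_add_right, norm_smul, Real.norm_eq_abs, abs_of_pos hε]
    have hdv : dist (med hM (E u) (E v) (E (v + ε • η))) (E v) ≤ L * (ε * ‖η‖) := by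
      have h1 := gate_lip hM (E u) (E v) (E v) (E (v + ε • η))
      rw [med_of_btw hM (a := E u) (p := E v) (b := E v) (by simp [Btw])] at h1
      rw [dist_comm]
      refine h1.trans ((hE.lip _ _).trans ?_)
      rw [dist_self_add_right, norm_smul, Real.norm_eq_abs, abs_of_pos hε]
    have h3 := dist_triangle (E u) (med hM (E u) (E v) (E (u + ε • η))) (E v)
    rw [hg] at h3 hdu
    linarith
  have hd : 0 < dist (E u) (E v) := by
    have h1 := hE.low u v
    have h2 : 0 < dist u v := dist_pos.2 huv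
    by_contra h
    have h3 : dist (E u) (E v) = 0 := le_antisymm (not_lt.1 h) dist_nonneg
    rw [h3, mul_zero] at h1
    linarith
  have hL : 0 ≤ 2 * L * ‖η‖ := by
    have := hE.pos
    positivity
  have h1 := bound (dist (E u) (E v) / (2 * (2 * L * ‖η‖ + 1))) (by positivity)
  have h2 : 2 * L * ‖η‖ * (dist (E u) (E v) / (2 * (2 * L * ‖η‖ + 1))) ≤ dist (E u) (E v) / 2 := by
    rw [mul_div_assoc', div_le_div_iff₀ (by positivity) (by norm_num)]
    nlinarith
  linarith

end MC
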