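import Pool.Agent.Helper42.MC.SepDist
import Pool.Agent.Helper42.MC.Nondeg

/-!
# MC-11: intervals between points of the flat are rectangles

Let `w ∈ I(E a,E b)`. Let `c1 = sup {c | ∃ H, Half H ∧ VThr E H c ∧ w ∉ H}`, `c2` the same with `HThr`.
* If `VThr E H c` and `c < min a.1 b.1` then `E a, E b ∉ H`, so `w ∉ H`; if `max a.1 b.1 < c` then
  `E a, E b ∈ H`, so `w ∈ H`. With `denseV`: `c1` exists and `min a.1 b.1 ≤ c1 ≤ max a.1 b.1`.
* If `VThr E H c`, `w ∉ H` then `c ≤ c1`.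
* If `VThr E H c`, `w ∈ H` then `c1 ≤ c`: otherwise there is `H'`, `VThr E H' c'`, `w ∉ H'`, `c < c'`. Then
  `H, H'` cross (`E (c-1,0)`, `E ((c+c')/2,0)`, `E (c'+1,0)` and `w`), and any `H''` with `HThr E H'' d`
  (`denseH`) crosses both; contradiction with `Rank2`.
Put `u = (c1,c2) ∈ Rect a b`. Claim `d(w, E u) ≤ d(E (u-(ε,ε)), E (u+(ε,ε))) ≤ 2Lε` for every `ε > 0`, by
`sepDist`: let `H` be a halfspace, `w ∈ H`, `E u ∉ H`. Not both of `E a, E b` are outside `H`, so the trace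
is nontrivial; `Axes.thr`. If `VThr E H c`: `c1 ≤ c` (as `w ∈ H`) and `c ≤ c1` (as `E u ∉ H`), so `c = c1`
and `H` separates `E (u ∓ (ε,ε))`. If `VThr E Hᶜ c`: `c ≤ c1` as `w ∉ Hᶜ`, and `E u ∈ Hᶜ` gives `c1 ≤ c`;
so `c = c1` again. Same for horizontal ones.
-/

open Set

namespace MC

variable {M : Type*} [MetricSpace M]

/-- half planes with respect to a coordinate function -/
def IrThr (π : ℝ × ℝ → ℝ) (E : ℝ × ℝ → M) (H : Set M) (c : ℝ) : Prop :=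
  (∀ u : ℝ × ℝ, π u < c → E u ∈ H) ∧ (∀ u : ℝ × ℝ, c < π u → E u ∉ H)

omit [MetricSpace M] in
theorem ir_cross {π π' : ℝ × ℝ → ℝ} (mk : ℝ → ℝ → ℝ × ℝ) (h1 : ∀ x y, π (mk x y) = x)
    (h2 : ∀ x y, π' (mk x y) = y) {E : ℝ × ℝ → M} {H K : Set M} {c d : ℝ}
    (hH : IrThr π E H c) (hK : IrThr π' E K d) : Cross H K := by
  refine ⟨⟨E (mk (c - 1) (d - 1)), ?_, ?_⟩, ⟨E (mk (c - 1) (d + 1)), ?_, ?_⟩,
    ⟨E (mk (c + 1) (d - 1)), ?_, ?_⟩, ⟨E (mk (c + 1) (d + 1)), ?_, ?_⟩⟩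
  · apply hH.1; rw [h1]; linarith
  · apply hK.1; rw [h2]; linarith
  · apply hH.1; rw [h1]; linarith
  · apply hK.2; rw [h2]; linarith
  · apply hH.2; rw [h1]; linarith
  · apply hK.1; rw [h2]; linarith
  · apply hH.2; rw [h1]; linarith
  · apply hK.2; rw [h2]; linarith

omit [MetricSpace M] in
theorem ir_cross' {π π' : ℝ × ℝ → ℝ} (mk : ℝ → ℝ → ℝ × ℝ) (h1 : ∀ x y, π (mk x y) = x)
    (h2 : ∀ x y, π' (mk x y) = y) {E : ℝ × ℝ → M} {H K : Set M} {c c' : ℝ} {w : M}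
    (hH : IrThr π E H c) (hK : IrThr π E K c') (hc : c < c') (hwH : w ∈ H) (hwK : w ∉ K) :
    Cross H K := by
  refine ⟨⟨E (mk (c - 1) 0), ?_, ?_⟩, ⟨w, hwH, hwK⟩,
    ⟨E (mk ((c + c') / 2) 0), ?_, ?_⟩, ⟨E (mk (c' + 1) 0), ?_, ?_⟩⟩
  · apply hH.1; rw [h1]; linarith
  · apply hK.1; rw [h1]; linarith
  · apply hH.2; rw [h1]; linarith
  · apply hK.1; rw [h1]; linarith
  · apply hH.2; rw [h1]; linarith
  · apply hK.2; rw [h1]; linarith

/-- the coordinate of `w` -/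
theorem ir_coord (hR : Rank2 M) {π π' : ℝ × ℝ → ℝ} (mk : ℝ → ℝ → ℝ × ℝ)
    (h1 : ∀ x y, π (mk x y) = x) (h2 : ∀ x y, π' (mk x y) = y) {E : ℝ × ℝ → M}
    (hd : ∀ x y : ℝ, x < y → ∃ H : Set M, Half H ∧ ∃ c, x ≤ c ∧ c ≤ y ∧ IrThr π E H c)
    (hd' : ∀ x y : ℝ, x < y → ∃ H : Set M, Half H ∧ ∃ c, x ≤ c ∧ c ≤ y ∧ IrThr π' E H c)
    {a b : ℝ × ℝ} {w : M} (hw : Btw (E a) w (E b)) :
    ∃ c₁ : ℝ, c₁ ∈ uIcc (π a) (π b) ∧ (∀ H c, Half H → IrThr π E H c → w ∉ H → c ≤ c₁) ∧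
      (∀ H c, Half H → IrThr π E H c → w ∈ H → c₁ ≤ c) := by
  let S : Set ℝ := {c | ∃ H : Set M, Half H ∧ IrThr π E H c ∧ w ∉ H}
  have hout : ∀ H c, Half H → IrThr π E H c → c < min (π a) (π b) → w ∉ H := by
    intro H c hH hT hc
    have ha : E a ∉ H := hT.2 a (lt_of_lt_of_le hc (min_le_left _ _))
    have hb : E b ∉ H := hT.2 b (lt_of_lt_of_le hc (min_le_right _ _))
    exact hH.2 _ ha _ hb w hw
  have hin : ∀ H c, Half H → IrThr π E H c → max (π a) (π b) < c → w ∈ H := by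
    intro H c hH hT hc
    have ha : E a ∈ H := hT.1 a (lt_of_le_of_lt (le_max_left _ _) hc)
    have hb : E b ∈ H := hT.1 b (lt_of_le_of_lt (le_max_right _ _) hc)
    exact hH.1 _ ha _ hb w hw
  have hub : ∀ c ∈ S, c ≤ max (π a) (π b) := by
    rintro c ⟨H, hH, hT, hwH⟩
    by_contra hlt
    push Not at hlt
    exact hwH (hin H c hH hT hlt)
  have hbdd : BddAbove S := ⟨_, hub⟩
  have hmem : ∀ ε : ℝ, 0 < ε → ∃ c ∈ S, min (π a) (π b) - ε ≤ c := by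
    intro ε hε
    obtain ⟨H, hH, c, hc1, hc2, hT⟩ := hd (min (π a) (π b) - ε) (min (π a) (π b) - ε / 2)
      (by linarith)
    exact ⟨c, ⟨H, hH, hT, hout H c hH hT (by linarith)⟩, hc1⟩
  have hne : S.Nonempty := by
    obtain ⟨c, hc, _⟩ := hmem 1 one_pos
    exact ⟨c, hc⟩
  refine ⟨sSup S, ⟨?_, csSup_le hne hub⟩, ?_, ?_⟩
  · apply le_of_forall_pos_le_add
    intro ε hε
    obtain ⟨c, hc, hc'⟩ := hmem ε hε
    have := le_csSup hbdd hc
    show min (π a) (π b) ≤ sSup S + ε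
    linarith
  · intro H c hH hT hwH
    exact le_csSup hbdd ⟨H, hH, hT, hwH⟩
  · intro H c hH hT hwH
    apply csSup_le hne
    rintro c' ⟨H', hH', hT', hwH'⟩
    by_contra hlt
    push Not at hlt
    obtain ⟨K, hK, d, _, _, hKT⟩ := hd' 0 1 one_pos
    exact hR H H' K hH hH' hK (ir_cross' mk h1 h2 hT hT' hlt hwH hwH')
      (ir_cross mk h1 h2 hT hKT) (ir_cross mk h1 h2 hT' hKT)

/-- separation of two points near the point with the coordinates of `w` -/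
theorem ir_sep {π : ℝ × ℝ → ℝ} {E : ℝ × ℝ → M} {w : M} {c₁ : ℝ} {u p q : ℝ × ℝ}
    (hu : π u = c₁) (hp : π p < c₁) (hq : c₁ < π q)
    (h1 : ∀ H c, Half H → IrThr π E H c → w ∉ H → c ≤ c₁)
    (h2 : ∀ H c, Half H → IrThr π E H c → w ∈ H → c₁ ≤ c) {H : Set M} (hH : Half H)
    (hw : w ∈ H) (huH : E u ∉ H) {c : ℝ} (hc : IrThr π E H c ∨ IrThr π E Hᶜ c) :
    (E p ∈ H ∧ E q ∉ H) ∨ (E p ∉ H ∧ E q ∈ H) := by
  rcases hc with hc | hc
  · left
    have e1 := h2 H c hH hc hw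
    have e2 : c ≤ c₁ := by
      by_contra hlt
      push Not at hlt
      exact huH (hc.1 u (by rw [hu]; exact hlt))
    exact ⟨hc.1 p (lt_of_lt_of_le hp e1), hc.2 q (lt_of_le_of_lt e2 hq)⟩
  · right
    have e1 := h1 Hᶜ c hH.compl hc (fun h => h hw)
    have e2 : c₁ ≤ c := by
      by_contra hlt
      push Not at hlt
      exact hc.2 u (by rw [hu]; exact hlt) huH
    exact ⟨hc.1 p (lt_of_lt_of_le hp e2), not_not.mp (hc.2 q (lt_of_le_of_lt e1 hq))⟩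

theorem interval_rect (hM : IsMedian M) (hR : Rank2 M) {E : ℝ × ℝ → M} {L : ℝ} (hE : Flat E L)
    (hA : Axes E) {a b : ℝ × ℝ} {w : M} (hw : Btw (E a) w (E b)) :
    ∃ u ∈ Rect a b, E u = w := by
  have hdV : ∀ x y : ℝ, x < y → ∃ H : Set M, Half H ∧ ∃ c, x ≤ c ∧ c ≤ y ∧ IrThr Prod.fst E H c :=
    hA.denseV
  have hdH : ∀ x y : ℝ, x < y → ∃ H : Set M, Half H ∧ ∃ c, x ≤ c ∧ c ≤ y ∧ IrThr Prod.snd E H c :=
    hA.denseH
  obtain ⟨c₁, hc1, h11, h12⟩ := ir_coord hR (π := Prod.fst) (π' := Prod.snd)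
    (fun x y => (x, y)) (fun _ _ => rfl) (fun _ _ => rfl) hdV hdH hw
  obtain ⟨c₂, hc2, h21, h22⟩ := ir_coord hR (π := Prod.snd) (π' := Prod.fst)
    (fun x y => (y, x)) (fun _ _ => rfl) (fun _ _ => rfl) hdH hdV hw
  refine ⟨(c₁, c₂), ⟨hc1, hc2⟩, ?_⟩
  have key : ∀ ε : ℝ, 0 < ε → dist w (E (c₁, c₂)) ≤ 2 * L * ε := by
    intro ε hε
    have h1 : dist w (E (c₁, c₂)) ≤ dist (E (c₁ - ε, c₂ - ε)) (E (c₁ + ε, c₂ + ε)) := by
      apply sepDist hM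
      intro H hH hwH huH
      have hin : ∃ u, E u ∈ H := by
        by_contra hno
        push Not at hno
        exact hH.2 _ (hno a) _ (hno b) w hw hwH
      obtain ⟨c, hc⟩ := hA.thr H hH hin ⟨_, huH⟩
      rcases hc with hc | hc | hc | hc
      · exact ir_sep (π := Prod.fst) (c₁ := c₁) rfl (by show c₁ - ε < c₁; linarith)
          (by show c₁ < c₁ + ε; linarith) h11 h12 hH hwH huH (Or.inl hc)
      · exact ir_sep (π := Prod.fst) (c₁ := c₁) rfl (by show c₁ - ε < c₁; linarith)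
          (by show c₁ < c₁ + ε; linarith) h11 h12 hH hwH huH (Or.inr hc)
      · exact ir_sep (π := Prod.snd) (c₁ := c₂) rfl (by show c₂ - ε < c₂; linarith)
          (by show c₂ < c₂ + ε; linarith) h21 h22 hH hwH huH (Or.inl hc)
      · exact ir_sep (π := Prod.snd) (c₁ := c₂) rfl (by show c₂ - ε < c₂; linarith)
          (by show c₂ < c₂ + ε; linarith) h21 h22 hH hwH huH (Or.inr hc)
    have h2 := hE.lip (c₁ - ε, c₂ - ε) (c₁ + ε, c₂ + ε)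
    have h3 : dist (c₁ - ε, c₂ - ε) (c₁ + ε, c₂ + ε) = 2 * ε := by
      rw [Prod.dist_eq, Real.dist_eq, Real.dist_eq]
      have e1 : |c₁ - ε - (c₁ + ε)| = 2 * ε := by
        rw [show c₁ - ε - (c₁ + ε) = -(2 * ε) by ring, abs_neg, abs_of_pos (by linarith)]
      have e2 : |c₂ - ε - (c₂ + ε)| = 2 * ε := by
        rw [show c₂ - ε - (c₂ + ε) = -(2 * ε) by ring, abs_neg, abs_of_pos (by linarith)]
      show max |c₁ - ε - (c₁ + ε)| |c₂ - ε - (c₂ + ε)| = 2 * ε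
      rw [e1, e2, max_self]
    rw [h3] at h2
    calc _ ≤ _ := h1
      _ ≤ _ := h2
      _ = 2 * L * ε := by ring
  have hL := hE.pos
  have h0 : dist w (E (c₁, c₂)) ≤ 0 := by
    apply le_of_forall_pos_le_add
    intro δ hδ
    have := key (δ / (2 * L)) (by positivity)
    have e : 2 * L * (δ / (2 * L)) = δ := by field_simp
    linarith
  exact (dist_le_zero.mp h0).symm

end MC
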