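import Pool.Agent.Helper42.MC.Nondeg

/-!
# MC-12: the star property

Let `π w = m(E a,E b,w) = E u`, `π w' = E u'`, and suppose `u.1 ≠ u'.1` and `u.2 ≠ u'.2`. By `denseV` there is
a halfspace `V1`, `VThr E V1 c` with `c` strictly between `u.1` and `u'.1`; by `denseH` a `V2` with the
threshold strictly between `u.2` and `u'.2`. `V1` separates `π w` from `π w'`.
A halfspace `V` separating `π w` from `π w'` (both in `I(E a,E b)`) separates `E a` from `E b`, and then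
`w ∈ V ↔ π w ∈ V` (if `w ∈ V`, one of `E a,E b` is in `V`, so `π w ∈ V` by convexity; same for `Vᶜ`), and the
same for `w'`. So `V1`, `V2` separate `w` and `w'` in the same way.
Let `r = π w`, `n = m(w,w',r)`. If `n = r` then `d(w,w') = d(w,r)+d(r,w') ≥ d(w,r)`, contradiction. So there is
a halfspace `W ∋ n`, `r ∉ W`. `n ∈ I(w',r)`: `w' ∈ W`; `n ∈ I(w,r)`: `w ∈ W`. `r = m(E a,E b,w) ∉ W` and `w ∈ W`
give `E a, E b ∉ W`; so `π w' ∈ I(E a,E b) ⊆ Wᶜ`. So `w, w', π w, π w'` show that `V1, W` cross and that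
`V2, W` cross; `V1, V2` cross by their traces. Contradiction with `Rank2`.
-/

open Set

namespace MC

variable {M : Type*} [MetricSpace M]

theorem star_cross_compl {M : Type*} {A B : Set M} (h : Cross A B) : Cross Aᶜ B := by
  obtain ⟨h1, h2, h3, h4⟩ := h
  refine ⟨h3, h4, ?_, ?_⟩
  · rwa [compl_compl]
  · rwa [compl_compl]

theorem star_cross_symm {M : Type*} {A B : Set M} (h : Cross A B) : Cross B A := by
  obtain ⟨h1, h2, h3, h4⟩ := h
  refine ⟨?_, ?_, ?_, ?_⟩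
  · rwa [inter_comm]
  · rwa [inter_comm]
  · rwa [inter_comm]
  · rwa [inter_comm]

theorem star_cross_thr {M : Type*} {E : ℝ × ℝ → M} {A B : Set M} {c d : ℝ} (hA : VThr E A c)
    (hB : HThr E B d) : Cross A B := by
  refine ⟨⟨E (c - 1, d - 1), hA.1 _ ?_, hB.1 _ ?_⟩, ⟨E (c - 1, d + 1), hA.1 _ ?_, hB.2 _ ?_⟩,
    ⟨E (c + 1, d - 1), hA.2 _ ?_, hB.1 _ ?_⟩, ⟨E (c + 1, d + 1), hA.2 _ ?_, hB.2 _ ?_⟩⟩ <;>
  simp

theorem star_sepV {E : ℝ × ℝ → M} (hA : Axes E) {u u' : ℝ × ℝ} (h : u.1 ≠ u'.1) :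
    ∃ V : Set M, Half V ∧ E u ∈ V ∧ E u' ∉ V ∧ ∃ c, VThr E V c ∨ VThr E Vᶜ c := by
  rcases lt_or_gt_of_ne h with h | h
  · obtain ⟨V, hV, c, hc1, hc2, hc⟩ := hA.denseV ((2 * u.1 + u'.1) / 3) ((u.1 + 2 * u'.1) / 3)
      (by linarith)
    exact ⟨V, hV, hc.1 u (by linarith), hc.2 u' (by linarith), c, Or.inl hc⟩
  · obtain ⟨V, hV, c, hc1, hc2, hc⟩ := hA.denseV ((2 * u'.1 + u.1) / 3) ((u'.1 + 2 * u.1) / 3)
      (by linarith)
    refine ⟨Vᶜ, hV.compl, hc.2 u (by linarith), ?_, c, Or.inr ?_⟩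
    · rw [notMem_compl_iff]
      exact hc.1 u' (by linarith)
    · rwa [compl_compl]

theorem star_sepH {E : ℝ × ℝ → M} (hA : Axes E) {u u' : ℝ × ℝ} (h : u.2 ≠ u'.2) :
    ∃ V : Set M, Half V ∧ E u ∈ V ∧ E u' ∉ V ∧ ∃ c, HThr E V c ∨ HThr E Vᶜ c := by
  rcases lt_or_gt_of_ne h with h | h
  · obtain ⟨V, hV, c, hc1, hc2, hc⟩ := hA.denseH ((2 * u.2 + u'.2) / 3) ((u.2 + 2 * u'.2) / 3)
      (by linarith)
    exact ⟨V, hV, hc.1 u (by linarith), hc.2 u' (by linarith), c, Or.inl hc⟩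
  · obtain ⟨V, hV, c, hc1, hc2, hc⟩ := hA.denseH ((2 * u'.2 + u.2) / 3) ((u'.2 + 2 * u.2) / 3)
      (by linarith)
    refine ⟨Vᶜ, hV.compl, hc.2 u (by linarith), ?_, c, Or.inr ?_⟩
    · rw [notMem_compl_iff]
      exact hc.1 u' (by linarith)
    · rwa [compl_compl]

theorem star_gate (hM : IsMedian M) {x y w w' : M} {V : Set M} (hV : Half V)
    (h1 : med hM x y w ∈ V) (h2 : med hM x y w' ∉ V) : w ∈ V ∧ w' ∉ V := by
  constructor
  · by_contra hw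
    by_cases hx : x ∈ V
    · by_cases hy : y ∈ V
      · exact h2 (hV.1 x hx y hy _ (med_btw12 hM x y w'))
      · exact hV.2 y hy w hw _ (med_btw23 hM x y w) h1
    · exact hV.2 x hx w hw _ (med_btw13 hM x y w) h1
  · intro hw'
    by_cases hx : x ∈ V
    · exact h2 (hV.1 x hx w' hw' _ (med_btw13 hM x y w'))
    · by_cases hy : y ∈ V
      · exact h2 (hV.1 y hy w' hw' _ (med_btw23 hM x y w'))
      · exact hV.2 x hx y hy _ (med_btw12 hM x y w) h1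

theorem star (hM : IsMedian M) (hR : Rank2 M) {E : ℝ × ℝ → M} (hA : Axes E)
    {a b : ℝ × ℝ} {w w' : M} (hd : dist w w' < dist w (med hM (E a) (E b) w)) {u u' : ℝ × ℝ}
    (hu : E u = med hM (E a) (E b) w) (hu' : E u' = med hM (E a) (E b) w') :
    u.1 = u'.1 ∨ u.2 = u'.2 := by
  by_contra hcon
  push Not at hcon
  obtain ⟨hc1, hc2⟩ := hcon
  obtain ⟨V₁, hV₁, h1u, h1u', c₁, hc₁⟩ := star_sepV hA hc1
  obtain ⟨V₂, hV₂, h2u, h2u', c₂, hc₂⟩ := star_sepH hA hc2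
  have hcr : Cross V₁ V₂ := by
    rcases hc₁ with h1 | h1 <;> rcases hc₂ with h2 | h2
    · exact star_cross_thr h1 h2
    · have := star_cross_symm (star_cross_compl (star_cross_symm (star_cross_thr h1 h2)))
      rwa [compl_compl] at this
    · have := star_cross_compl (star_cross_thr h1 h2)
      rwa [compl_compl] at this
    · have := star_cross_symm (star_cross_compl (star_cross_symm (star_cross_compl (star_cross_thr h1 h2))))
      rwa [compl_compl, compl_compl] at this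
  rw [hu] at h1u h2u
  rw [hu'] at h1u' h2u'
  obtain ⟨hw1, hw1'⟩ := star_gate hM hV₁ h1u h1u'
  obtain ⟨hw2, hw2'⟩ := star_gate hM hV₂ h2u h2u'
  obtain ⟨r, hr⟩ : ∃ r, r = med hM (E a) (E b) w := ⟨_, rfl⟩
  obtain ⟨r', hr'⟩ : ∃ r', r' = med hM (E a) (E b) w' := ⟨_, rfl⟩
  rw [← hr] at hd h1u h2u
  rw [← hr'] at h1u' h2u'
  have hnr : med hM w w' r ≠ r := by
    intro h0
    have h1 := med_btw12 hM w w' r
    rw [h0] at h1
    unfold Btw at h1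
    have h2 : 0 ≤ dist r w' := dist_nonneg
    linarith
  obtain ⟨W, hW, hnW, hrW⟩ := sep hM hnr
  have hwW : w ∈ W := by
    by_contra hw
    exact hW.2 w hw r hrW _ (med_btw13 hM w w' r) hnW
  have hw'W : w' ∈ W := by
    by_contra hw
    exact hW.2 w' hw r hrW _ (med_btw23 hM w w' r) hnW
  have haW : E a ∉ W := by
    intro ha
    exact hrW (hr ▸ hW.1 _ ha w hwW _ (med_btw13 hM (E a) (E b) w))
  have hbW : E b ∉ W := by
    intro hb
    exact hrW (hr ▸ hW.1 _ hb w hwW _ (med_btw23 hM (E a) (E b) w))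
  have hr'W : r' ∉ W := hW.2 _ haW _ hbW r' (hr' ▸ med_btw12 hM (E a) (E b) w')
  refine hR V₁ V₂ W hV₁ hV₂ hW hcr ⟨⟨w, hw1, hwW⟩, ⟨r, h1u, hrW⟩, ⟨w', hw1', hw'W⟩,
    ⟨r', h1u', hr'W⟩⟩ ⟨⟨w, hw2, hwW⟩, ⟨r, h2u, hrW⟩, ⟨w', hw2', hw'W⟩, ⟨r', h2u', hr'W⟩⟩

end MC
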