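import Pool.Agent.Helper42.MC.Rect
import Pool.Agent.Helper42.MC.Interval
import Pool.Agent.Helper42.MC.Star

/-!
# MC-13: the gate projection of a half-plane lies in countably many lines

Let `a = (-|z.1|,-|z.2|)`, `b = (|z.1|,|z.2|)`, `π w = m(E a,E b,w)`. By `interval_rect` choose
`p w ∈ Rect a b` with `E (p w) = π w`; `φ (s,t) = p (H s t)`.
* continuity: `dist (φ q) (φ q') ≤ L dist (π H q) (π H q') ≤ L dist (H q) (H q')`.
* `φ (s,0) = s • z`: `s • z ∈ Rect a b`, so `E (s • z) ∈ I(E a,E b)` by `rect_btw` and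
  `π (E (s•z)) = E (s•z)`; `E` is injective by `Flat.low`.
* For `q = (s,t)`, `t > 0`: `δ q = dist (H q) (π (H q)) > 0` since `H q ≠ E (φ q)`. By continuity there is a
  neighbourhood of `q` (within the domain) where `dist (H q) (H q') < δ q`; there by `star`
  `(φ q').1 = (φ q).1 ∨ (φ q').2 = (φ q).2`. By Lindelöf (`TopologicalSpace.countable_cover_nhdsWithin`)
  countably many such neighbourhoods cover `Icc (-1) 1 ×ˢ Ioc 0 1`; `X`, `Y` are the sets of
  coordinates of `φ q` for the countably many centres.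
-/

open Set

namespace MC

variable {M : Type*} [MetricSpace M]

lemma mc13_abs {x y : ℝ} : |x| ≤ y ↔ x ∈ Icc (-y) y := abs_le

theorem countLines (hM : IsMedian M) (hR : Rank2 M) {E : ℝ × ℝ → M} {L : ℝ} (hE : Flat E L)
    (hA : Axes E) (z : ℝ × ℝ) (H : ℝ → ℝ → M)
    (hc : ContinuousOn (fun q : ℝ × ℝ => H q.1 q.2) (Icc (-1) 1 ×ˢ Icc 0 1))
    (h0 : ∀ s ∈ Icc (-1 : ℝ) 1, H s 0 = E (s • z))
    (h1 : ∀ s ∈ Icc (-1 : ℝ) 1, ∀ t ∈ Ioc (0 : ℝ) 1, ∀ u, H s t ≠ E u) :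
    ∃ (φ : ℝ × ℝ → ℝ × ℝ) (X Y : Set ℝ), X.Countable ∧ Y.Countable ∧
      ContinuousOn φ (Icc (-1) 1 ×ˢ Icc 0 1) ∧ (∀ s ∈ Icc (-1 : ℝ) 1, φ (s, 0) = s • z) ∧
      ∀ s ∈ Icc (-1 : ℝ) 1, ∀ t ∈ Ioc (0 : ℝ) 1, (φ (s, t)).1 ∈ X ∨ (φ (s, t)).2 ∈ Y := by
  classical
  set a : ℝ × ℝ := (-|z.1|, -|z.2|) with ha
  set b : ℝ × ℝ := (|z.1|, |z.2|) with hb
  have hex : ∀ w : M, ∃ u ∈ Rect a b, E u = med hM (E a) (E b) w := fun w =>
    interval_rect hM hR hE hA (med_btw12 hM (E a) (E b) w)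
  choose p hpR hpE using hex
  have hinj : Function.Injective E := by
    intro u v huv
    have := hE.low u v
    rw [huv, dist_self, mul_zero] at this
    exact dist_le_zero.mp this
  have hplip : ∀ w w', dist (p w) (p w') ≤ L * dist w w' := by
    intro w w'
    calc dist (p w) (p w') ≤ L * dist (E (p w)) (E (p w')) := hE.low _ _
      _ = L * dist (med hM (E a) (E b) w) (med hM (E a) (E b) w') := by rw [hpE, hpE]
      _ ≤ L * dist w w' := mul_le_mul_of_nonneg_left (gate_lip hM _ _ _ _) hE.pos.le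
  have hpc : Continuous p := by
    have : LipschitzWith (Real.toNNReal L) p := by
      apply LipschitzWith.of_dist_le_mul
      intro w w'
      rw [Real.coe_toNNReal L hE.pos.le]
      exact hplip w w'
    exact this.continuous
  set D : Set (ℝ × ℝ) := Icc (-1) 1 ×ˢ Icc 0 1 with hD
  set D' : Set (ℝ × ℝ) := Icc (-1) 1 ×ˢ Ioc 0 1 with hD'
  have hDD : D' ⊆ D := Set.prod_mono le_rfl Set.Ioc_subset_Icc_self
  let U : ℝ × ℝ → Set (ℝ × ℝ) := fun q => {q' | dist (H q.1 q.2) (H q'.1 q'.2) <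
    dist (H q.1 q.2) (med hM (E a) (E b) (H q.1 q.2))}
  have hU : ∀ q ∈ D', U q ∈ nhdsWithin q D' := by
    intro q hq
    have hpos : 0 < dist (H q.1 q.2) (med hM (E a) (E b) (H q.1 q.2)) := by
      rw [dist_pos, ← hpE]
      exact h1 q.1 hq.1 q.2 hq.2 _
    have hcq : ContinuousWithinAt (fun q : ℝ × ℝ => H q.1 q.2) D' q :=
      (hc q (hDD hq)).mono hDD
    have h2 : Filter.Tendsto (fun q' : ℝ × ℝ => dist (H q.1 q.2) (H q'.1 q'.2))
        (nhdsWithin q D') (nhds (dist (H q.1 q.2) (H q.1 q.2))) :=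
      Filter.Tendsto.dist tendsto_const_nhds hcq
    rw [dist_self] at h2
    exact h2.eventually (gt_mem_nhds hpos)
  obtain ⟨t, htD, htc, hcov⟩ := TopologicalSpace.countable_cover_nhdsWithin hU
  refine ⟨fun q => p (H q.1 q.2), (fun q : ℝ × ℝ => (p (H q.1 q.2)).1) '' t,
    (fun q : ℝ × ℝ => (p (H q.1 q.2)).2) '' t, htc.image _, htc.image _, ?_, ?_, ?_⟩
  · exact hpc.comp_continuousOn hc
  · intro s hs
    apply hinj
    show E (p (H s 0)) = E (s • z)
    rw [hpE, h0 s hs]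
    apply med_of_btw
    apply rect_btw hM hE hA
    have habs : |s| ≤ 1 := abs_le.mpr hs
    constructor
    · show s * z.1 ∈ uIcc (-|z.1|) |z.1|
      rw [uIcc_of_le (by linarith [abs_nonneg z.1]), ← mc13_abs, abs_mul]
      exact mul_le_of_le_one_left (abs_nonneg _) habs
    · show s * z.2 ∈ uIcc (-|z.2|) |z.2|
      rw [uIcc_of_le (by linarith [abs_nonneg z.2]), ← mc13_abs, abs_mul]
      exact mul_le_of_le_one_left (abs_nonneg _) habs
  · intro s hs t' ht'
    have hmem : ((s, t') : ℝ × ℝ) ∈ D' := ⟨hs, ht'⟩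
    have := hcov hmem
    simp only [mem_iUnion] at this
    obtain ⟨q, hqt, hq⟩ := this
    have hst := star hM hR hA (w := H q.1 q.2) (w' := H s t') (a := a) (b := b) hq
      (u := p (H q.1 q.2)) (u' := p (H s t')) (hpE _) (hpE _)
    rcases hst with h | h
    · exact Or.inl ⟨q, hqt, h⟩
    · exact Or.inr ⟨q, hqt, h⟩

end MC
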