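import Mathlib

/-!
# Median structures on asymptotic cones of branched free-by-cyclic groups: definitions
-/

open Filter Topology Set

namespace MC

/-! ## Median metric spaces -/

/-- metric betweenness: `y` is between `x` and `z` -/
def Btw {M : Type*} [PseudoMetricSpace M] (x y z : M) : Prop := dist x y + dist y z = dist x z

/-- a metric space is median if every triple has exactly one median point -/
def IsMedian (M : Type*) [MetricSpace M] : Prop :=
  ∀ x y z : M, ∃! m, Btw x m y ∧ Btw y m z ∧ Btw x m z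

/-- the median -/
noncomputable def med {M : Type*} [MetricSpace M] (h : IsMedian M) (x y z : M) : M :=
  (h x y z).choose

/-- convex sets -/
def Cvx {M : Type*} [PseudoMetricSpace M] (A : Set M) : Prop :=
  ∀ x ∈ A, ∀ y ∈ A, ∀ z, Btw x z y → z ∈ A

/-- halfspaces -/
def Half {M : Type*} [PseudoMetricSpace M] (A : Set M) : Prop := Cvx A ∧ Cvx Aᶜ

/-- crossing sets -/
def Cross {M : Type*} (A B : Set M) : Prop :=
  (A ∩ B).Nonempty ∧ (A ∩ Bᶜ).Nonempty ∧ (Aᶜ ∩ B).Nonempty ∧ (Aᶜ ∩ Bᶜ).Nonempty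

/-- no three pairwise crossing halfspaces -/
def Rank2 (M : Type*) [PseudoMetricSpace M] : Prop :=
  ∀ A B C : Set M, Half A → Half B → Half C → Cross A B → Cross A C → Cross B C → False

/-- chains with `n` steps, multiplicative constant `K` and additive constant `A` -/
def Chains (M : Type*) [PseudoMetricSpace M] (K A : ℝ) : Prop :=
  ∀ x y : M, ∀ n : ℕ, 0 < n → ∃ c : ℕ → M, c 0 = x ∧ c n = y ∧
    ∀ i < n, dist (c i) (c (i + 1)) ≤ K * dist x y / n + A

/-- the points of the grid cube `{0,…,N}³`; the distance of `ℕ × ℕ × ℕ` is the sup distance -/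
def InCube (N : ℕ) (p : ℕ × ℕ × ℕ) : Prop := p.1 ≤ N ∧ p.2.1 ≤ N ∧ p.2.2 ≤ N

/-- a grid cube of side `N` embedded at scale `R` with constant `L` -/
def Box (M : Type*) [PseudoMetricSpace M] (L : ℝ) (N : ℕ) (R : ℝ) : Prop :=
  ∃ f : ℕ × ℕ × ℕ → M, ∀ p q, InCube N p → InCube N q →
    R / L * dist p q ≤ dist (f p) (f q) ∧ dist (f p) (f q) ≤ L * R * dist p q

/-- for every constant `L` large cubes are not embedded at large scale -/
def NoBox (M : Type*) [PseudoMetricSpace M] : Prop :=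
  ∀ L : ℝ, 1 ≤ L → ∃ N : ℕ, ∃ R₀ : ℝ, ∀ R : ℝ, R₀ < R → ¬ Box M L N R

/-- for every constant `L` large cubes are not embedded at any scale -/
def NoBox0 (M : Type*) [PseudoMetricSpace M] : Prop :=
  ∀ L : ℝ, 1 ≤ L → ∃ N : ℕ, ∀ R : ℝ, 0 < R → ¬ Box M L N R

/-- a bilipschitz plane in which straight segments are geodesic -/
structure Flat {M : Type*} [PseudoMetricSpace M] (E : ℝ × ℝ → M) (L : ℝ) : Prop where
  pos : 0 < L
  lip : ∀ u v, dist (E u) (E v) ≤ L * dist u v
  low : ∀ u v, dist u v ≤ L * dist (E u) (E v)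
  seg : ∀ u v : ℝ × ℝ, ∀ t ∈ Icc (0 : ℝ) 1, Btw (E u) (E (u + t • (v - u))) (E v)

/-- `H` contains the left half plane `x < c` of `E` and misses `x > c` -/
def VThr {M : Type*} (E : ℝ × ℝ → M) (H : Set M) (c : ℝ) : Prop :=
  (∀ u : ℝ × ℝ, u.1 < c → E u ∈ H) ∧ (∀ u : ℝ × ℝ, c < u.1 → E u ∉ H)

/-- `H` contains the lower half plane `y < c` of `E` and misses `y > c` -/
def HThr {M : Type*} (E : ℝ × ℝ → M) (H : Set M) (c : ℝ) : Prop :=
  (∀ u : ℝ × ℝ, u.2 < c → E u ∈ H) ∧ (∀ u : ℝ × ℝ, c < u.2 → E u ∉ H)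

/-- the trace of `H` on `E` is the half plane `α x + β y < c` up to the boundary line -/
def Thr {M : Type*} (E : ℝ × ℝ → M) (H : Set M) (α β c : ℝ) : Prop :=
  (∀ u : ℝ × ℝ, α * u.1 + β * u.2 < c → E u ∈ H) ∧ (∀ u : ℝ × ℝ, c < α * u.1 + β * u.2 → E u ∉ H)

/-- all halfspaces cut the plane `E` along vertical or horizontal lines,
and both kinds are dense -/
structure Axes {M : Type*} [PseudoMetricSpace M] (E : ℝ × ℝ → M) : Prop where
  thr : ∀ H : Set M, Half H → (∃ u, E u ∈ H) → (∃ u, E u ∉ H) →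
    ∃ c, VThr E H c ∨ VThr E Hᶜ c ∨ HThr E H c ∨ HThr E Hᶜ c
  denseV : ∀ x y : ℝ, x < y → ∃ H : Set M, Half H ∧ ∃ c, x ≤ c ∧ c ≤ y ∧ VThr E H c
  denseH : ∀ x y : ℝ, x < y → ∃ H : Set M, Half H ∧ ∃ c, x ≤ c ∧ c ≤ y ∧ HThr E H c

/-- the closed rectangle spanned by `a` and `b` -/
def Rect (a b : ℝ × ℝ) : Set (ℝ × ℝ) := uIcc a.1 b.1 ×ˢ uIcc a.2 b.2

/-! ## Ultralimits -/

/-- sequences at bounded rescaled distance from the base points `p k` -/
structure USeq (ω : Ultrafilter ℕ) (X : Type*) [PseudoMetricSpace X] (s : ℕ → ℝ) (p : ℕ → X) where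
  val : ℕ → X
  bdd : ∃ C : ℝ, ∀ᶠ k in (ω : Filter ℕ), dist (p k) (val k) / |s k| ≤ C

/-- the limit of the rescaled distances along the ultrafilter -/
noncomputable def udist {X : Type*} [PseudoMetricSpace X] (ω : Ultrafilter ℕ) (s : ℕ → ℝ)
    (x y : ℕ → X) : ℝ :=
  limUnder (ω : Filter ℕ) (fun k => dist (x k) (y k) / |s k|)

theorem exists_tendsto_of_bdd {ω : Ultrafilter ℕ} {f : ℕ → ℝ} (C : ℝ)
    (h0 : ∀ k, 0 ≤ f k) (h : ∀ᶠ k in (ω : Filter ℕ), f k ≤ C) :
    ∃ a, Tendsto f (ω : Filter ℕ) (𝓝 a) := by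
  have hK : IsCompact (Icc (0 : ℝ) C) := isCompact_Icc
  have hle : (ω.map f : Filter ℝ) ≤ 𝓟 (Icc (0 : ℝ) C) := by
    rw [Ultrafilter.coe_map, le_principal_iff, mem_map]
    filter_upwards [h] with k hk
    exact ⟨h0 k, hk⟩
  obtain ⟨a, -, ha⟩ := hK.ultrafilter_le_nhds (ω.map f) hle
  exact ⟨a, ha⟩

theorem USeq.bdd₂ {ω : Ultrafilter ℕ} {X : Type*} [PseudoMetricSpace X] {s : ℕ → ℝ} {p : ℕ → X}
    (x y : USeq ω X s p) : ∃ C : ℝ, ∀ᶠ k in (ω : Filter ℕ), dist (x.val k) (y.val k) / |s k| ≤ C := by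
  obtain ⟨C, hC⟩ := x.bdd
  obtain ⟨D, hD⟩ := y.bdd
  refine ⟨C + D, ?_⟩
  filter_upwards [hC, hD] with k h1 h2
  calc dist (x.val k) (y.val k) / |s k| ≤ (dist (p k) (x.val k) + dist (p k) (y.val k)) / |s k| := by
        gcongr
        rw [dist_comm (p k) (x.val k)]
        exact dist_triangle _ _ _
    _ = dist (p k) (x.val k) / |s k| + dist (p k) (y.val k) / |s k| := add_div _ _ _
    _ ≤ C + D := add_le_add h1 h2

theorem udist_tendsto {ω : Ultrafilter ℕ} {X : Type*} [PseudoMetricSpace X] {s : ℕ → ℝ} {p : ℕ → X}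
    (x y : USeq ω X s p) :
    Tendsto (fun k => dist (x.val k) (y.val k) / |s k|) (ω : Filter ℕ) (𝓝 (udist ω s x.val y.val)) := by
  obtain ⟨C, hC⟩ := x.bdd₂ y
  exact tendsto_nhds_limUnder (exists_tendsto_of_bdd C (fun k => by positivity) hC)

noncomputable instance {ω : Ultrafilter ℕ} {X : Type*} [PseudoMetricSpace X] {s : ℕ → ℝ} {p : ℕ → X} :
    PseudoMetricSpace (USeq ω X s p) where
  dist x y := udist ω s x.val y.val
  dist_self x := by
    refine tendsto_nhds_unique (udist_tendsto x x) ?_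
    simp
  dist_comm x y := by
    refine tendsto_nhds_unique (udist_tendsto x y) ?_
    simpa only [dist_comm] using udist_tendsto y x
  dist_triangle x y z := by
    refine le_of_tendsto_of_tendsto' (udist_tendsto x z)
      ((udist_tendsto x y).add (udist_tendsto y z)) fun k => ?_
    rw [← add_div]
    gcongr
    exact dist_triangle _ _ _

/-- the ultralimit of the based spaces `(X, d / |s k|, p k)` along `ω` -/
def UL (ω : Ultrafilter ℕ) (X : Type*) [PseudoMetricSpace X] (s : ℕ → ℝ) (p : ℕ → X) : Type _ :=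
  SeparationQuotient (USeq ω X s p)

noncomputable instance {ω : Ultrafilter ℕ} {X : Type*} [PseudoMetricSpace X] {s : ℕ → ℝ} {p : ℕ → X} :
    MetricSpace (UL ω X s p) :=
  inferInstanceAs (MetricSpace (SeparationQuotient (USeq ω X s p)))

/-- the point of the ultralimit given by a sequence -/
noncomputable def UL.mk {ω : Ultrafilter ℕ} {X : Type*} [PseudoMetricSpace X] {s : ℕ → ℝ} {p : ℕ → X}
    (x : USeq ω X s p) : UL ω X s p := SeparationQuotient.mk x

theorem UL.mk_surjective {ω : Ultrafilter ℕ} {X : Type*} [PseudoMetricSpace X] {s : ℕ → ℝ}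
    {p : ℕ → X} : Function.Surjective (UL.mk (ω := ω) (X := X) (s := s) (p := p)) :=
  SeparationQuotient.surjective_mk

theorem UL.tendsto {ω : Ultrafilter ℕ} {X : Type*} [PseudoMetricSpace X] {s : ℕ → ℝ} {p : ℕ → X}
    (x y : USeq ω X s p) :
    Tendsto (fun k => dist (x.val k) (y.val k) / |s k|) (ω : Filter ℕ)
      (𝓝 (dist (UL.mk x) (UL.mk y))) := udist_tendsto x y

/-! ## Word metrics and asymptotic cones -/

/-- the word length of `g` with respect to `S ∪ S⁻¹` -/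
noncomputable def wl {G : Type*} [Group G] (S : Set G) (g : G) : ℕ :=
  sInf {n | ∃ l : List G, l.length = n ∧ (∀ x ∈ l, x ∈ S ∨ x⁻¹ ∈ S) ∧ l.prod = g}

theorem exists_list_of_closure {G : Type*} [Group G] {S : Set G} (hS : Subgroup.closure S = ⊤)
    (g : G) : ∃ l : List G, (∀ x ∈ l, x ∈ S ∨ x⁻¹ ∈ S) ∧ l.prod = g := by
  have hg : g ∈ Submonoid.closure (S ∪ S⁻¹) := by
    rw [← Subgroup.closure_toSubmonoid, hS]; trivial
  obtain ⟨l, h1, h2⟩ := Submonoid.exists_list_of_mem_closure hg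
  exact ⟨l, fun x hx => by simpa using h1 x hx, h2⟩

theorem exists_wl {G : Type*} [Group G] {S : Set G} (hS : Subgroup.closure S = ⊤) (g : G) :
    ∃ l : List G, l.length = wl S g ∧ (∀ x ∈ l, x ∈ S ∨ x⁻¹ ∈ S) ∧ l.prod = g := by
  have : wl S g ∈ {n | ∃ l : List G, l.length = n ∧ (∀ x ∈ l, x ∈ S ∨ x⁻¹ ∈ S) ∧ l.prod = g} := by
    apply Nat.sInf_mem
    obtain ⟨l, h1, h2⟩ := exists_list_of_closure hS g
    exact ⟨l.length, l, rfl, h1, h2⟩
  exact this

theorem wl_le {G : Type*} [Group G] {S : Set G} (l : List G) (hl : ∀ x ∈ l, x ∈ S ∨ x⁻¹ ∈ S) :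
    wl S l.prod ≤ l.length := Nat.sInf_le ⟨l, rfl, hl, rfl⟩

theorem wl_one {G : Type*} [Group G] (S : Set G) : wl S (1 : G) = 0 := by
  have := wl_le (S := S) ([] : List G) (by simp)
  simpa using this

theorem wl_mul_le {G : Type*} [Group G] {S : Set G} (hS : Subgroup.closure S = ⊤) (g h : G) :
    wl S (g * h) ≤ wl S g + wl S h := by
  obtain ⟨l, h1, h2, h3⟩ := exists_wl hS g
  obtain ⟨m, h4, h5, h6⟩ := exists_wl hS h
  have := wl_le (S := S) (l ++ m) (by
    intro x hx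
    rcases List.mem_append.1 hx with hx | hx
    · exact h2 x hx
    · exact h5 x hx)
  rw [List.prod_append, h3, h6, List.length_append, h1, h4] at this
  exact this

theorem wl_inv {G : Type*} [Group G] {S : Set G} (hS : Subgroup.closure S = ⊤) (g : G) :
    wl S g⁻¹ = wl S g := by
  have key : ∀ g : G, wl S g⁻¹ ≤ wl S g := by
    intro g
    obtain ⟨l, h1, h2, h3⟩ := exists_wl hS g
    have := wl_le (S := S) (l.map (fun x => x⁻¹)).reverse (by
      intro x hx
      simp only [List.mem_reverse, List.mem_map] at hx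
      obtain ⟨y, hy, rfl⟩ := hx
      rw [inv_inv]
      exact (h2 y hy).symm)
    rw [← List.prod_inv_reverse, h3] at this
    simpa [h1] using this
  refine le_antisymm (key g) ?_
  have := key g⁻¹
  rwa [inv_inv] at this

/-- the group `G` with the word metric of the generating set `S` -/
def WG (G : Type*) [Group G] (S : Set G) (_ : Subgroup.closure S = ⊤) : Type _ := G

noncomputable instance {G : Type*} [Group G] {S : Set G} {hS : Subgroup.closure S = ⊤} :
    PseudoMetricSpace (WG G S hS) where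
  dist x y := (wl S ((show G from x)⁻¹ * (show G from y)) : ℝ)
  dist_self x := by simp [wl_one]
  dist_comm x y := by
    rw [← wl_inv hS]
    simp
  dist_triangle x y z := by
    have := wl_mul_le hS ((show G from x)⁻¹ * (show G from y)) ((show G from y)⁻¹ * (show G from z))
    rw [show (show G from x)⁻¹ * (show G from y) * ((show G from y)⁻¹ * (show G from z)) =
      (show G from x)⁻¹ * (show G from z) by group] at this
    exact_mod_cast this

theorem WG.dist_def {G : Type*} [Group G] {S : Set G} {hS : Subgroup.closure S = ⊤}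
    (x y : G) : dist (show WG G S hS from x) (show WG G S hS from y) = (wl S (x⁻¹ * y) : ℝ) := rfl

/-- the asymptotic cone of `G` (word metric of `S`, ultrafilter `ω`, scaling sequence `s`) -/
abbrev AsymCone (G : Type*) [Group G] (S : Set G) (hS : Subgroup.closure S = ⊤)
    (ω : Ultrafilter ℕ) (s : ℕ → ℝ) : Type _ :=
  UL ω (WG G S hS) s (fun _ => (1 : G))

/-- a bilipschitz plane with half-planes attached in three directions at every point -/
def FlatData (X : Type*) [PseudoMetricSpace X] : Prop :=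
  ∃ (E : ℝ × ℝ → X) (z : Fin 3 → ℝ × ℝ) (H : Fin 3 → ℝ × ℝ → ℝ → ℝ → X) (C : ℝ), 0 < C ∧
    (∀ i j, i ≠ j → (z i).1 * (z j).2 ≠ (z i).2 * (z j).1) ∧
    (∀ u v, dist (E u) (E v) ≤ C * dist u v) ∧
    (∀ u v, dist u v ≤ C * dist (E u) (E v)) ∧
    (∀ i p s, H i p s 0 = E (p + s • z i)) ∧
    (∀ i p s t s' t', 0 ≤ t → 0 ≤ t' → dist (H i p s t) (H i p s' t') ≤ C * (|s - s'| + |t - t'|)) ∧
    (∀ i p s t u, 0 ≤ t → t ≤ C * dist (H i p s t) (E u))

/-- what is used about an asymptotic cone -/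
def ConeData (X : Type*) [PseudoMetricSpace X] : Prop :=
  (∃ K : ℝ, Chains X K 0) ∧ NoBox0 X ∧ FlatData X

/-! ## Free-by-cyclic groups -/

/-- the free-by-cyclic group `F ⋊ ℤ` with `t x t⁻¹ = Φ x` -/
abbrev MT {n : ℕ} (Φ : MulAut (FreeGroup (Fin n))) : Type :=
  FreeGroup (Fin n) ⋊[zpowersHom (MulAut (FreeGroup (Fin n))) Φ] Multiplicative ℤ

/-- the stable letter -/
def MT.t {n : ℕ} (Φ : MulAut (FreeGroup (Fin n))) : MT Φ :=
  SemidirectProduct.inr (Multiplicative.ofAdd 1)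

/-- the inclusion of the free group -/
def MT.inc {n : ℕ} (Φ : MulAut (FreeGroup (Fin n))) : FreeGroup (Fin n) →* MT Φ :=
  SemidirectProduct.inl

/-- the level (exponent of the stable letter) -/
def MT.lev {n : ℕ} {Φ : MulAut (FreeGroup (Fin n))} (g : MT Φ) : ℤ :=
  Multiplicative.toAdd g.right

theorem MT.t_conj {n : ℕ} (Φ : MulAut (FreeGroup (Fin n))) (x : FreeGroup (Fin n)) :
    MT.t Φ * MT.inc Φ x * (MT.t Φ)⁻¹ = MT.inc Φ (Φ x) := by
  unfold MT.t MT.inc
  rw [← map_inv SemidirectProduct.inr, ← SemidirectProduct.inl_aut]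
  simp

/-- `P` is virtually `F' × ℤ` with `F'` free and nonabelian -/
def VirtFxZ {G : Type*} [Group G] (P : Subgroup G) : Prop :=
  ∃ Q : Subgroup G, Q ≤ P ∧ Q.relIndex P ≠ 0 ∧
    ∃ (F' : Type) (_ : Group F'), IsFreeGroup F' ∧ (∃ u v : F', u * v ≠ v * u) ∧
      Nonempty (Q ≃* F' × Multiplicative ℤ)

/-- `P` is maximal among the subgroups of this kind -/
def MaxVirtFxZ {G : Type*} [Group G] (P : Subgroup G) : Prop :=
  VirtFxZ P ∧ ∀ P' : Subgroup G, VirtFxZ P' → P ≤ P' → P' = P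

/-- branched: three pairwise incommensurable maximal virtually `F' × ℤ` subgroups meet in a
non-cyclic subgroup -/
def Branched (G : Type*) [Group G] : Prop :=
  ∃ P₁ P₂ P₃ : Subgroup G, MaxVirtFxZ P₁ ∧ MaxVirtFxZ P₂ ∧ MaxVirtFxZ P₃ ∧
    ¬ Subgroup.Commensurable P₁ P₂ ∧ ¬ Subgroup.Commensurable P₁ P₃ ∧
    ¬ Subgroup.Commensurable P₂ P₃ ∧ ¬ IsCyclic (P₁ ⊓ P₂ ⊓ P₃ : Subgroup G)

/-- the algebraic data extracted from branching -/
def CoreData {n : ℕ} (Φ : MulAut (FreeGroup (Fin n))) : Prop :=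
  ∃ (z : MT Φ) (a : FreeGroup (Fin n)) (p : Fin 3 → ℤ) (b : Fin 3 → FreeGroup (Fin n)),
    MT.lev z ≠ 0 ∧ a ≠ 1 ∧ Commute z (MT.inc Φ a) ∧ Function.Injective p ∧
    ∀ i, Commute (z * MT.inc Φ a ^ (p i)) (MT.inc Φ (b i)) ∧ a * b i ≠ b i * a

/-! ## The tree metric of the free group -/

/-- the distance in the Cayley tree of the free group -/
def fd {n : ℕ} (x y : FreeGroup (Fin n)) : ℕ := (x⁻¹ * y).norm

/-- the Gromov product (length of the common prefix) based at `1` -/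
def gp {n : ℕ} (x y : FreeGroup (Fin n)) : ℕ := (x.norm + y.norm - fd x y) / 2

/-! ## Words and cochains on the Cayley graph -/

/-- evaluation of words in the letters `t` (`none`) and `x i` (`some i`) -/
def ev {n : ℕ} (Φ : MulAut (FreeGroup (Fin n))) : FreeGroup (Option (Fin n)) →* MT Φ :=
  FreeGroup.lift (fun o => o.elim (MT.t Φ) (fun i => MT.inc Φ (FreeGroup.of i)))

/-- length in `F ⋊ ℤ` with respect to the letters `t, x i` -/
noncomputable def len {n : ℕ} (Φ : MulAut (FreeGroup (Fin n))) (g : MT Φ) : ℕ :=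
  sInf {m | ∃ w : FreeGroup (Option (Fin n)), w.norm = m ∧ ev Φ w = g}

/-- horizontal words -/
def hz {n : ℕ} : FreeGroup (Fin n) →* FreeGroup (Option (Fin n)) := FreeGroup.map some

/-- the word `t` -/
def tt {n : ℕ} : FreeGroup (Option (Fin n)) := FreeGroup.of none

/-- the step along the letter `o`: moves from `g` to `g * ev o` and adds the value of the
cochain `ψ` on this edge -/
def stepPerm {n : ℕ} {Φ : MulAut (FreeGroup (Fin n))} (ψ : MT Φ → Option (Fin n) → ℤ)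
    (o : Option (Fin n)) : Equiv.Perm (MT Φ × ℤ) where
  toFun q := (q.1 * ev Φ (FreeGroup.of o), q.2 + ψ q.1 o)
  invFun q := (q.1 * (ev Φ (FreeGroup.of o))⁻¹, q.2 - ψ (q.1 * (ev Φ (FreeGroup.of o))⁻¹) o)
  left_inv q := by simp
  right_inv q := by simp

/-- the action of words -/
def wact {n : ℕ} {Φ : MulAut (FreeGroup (Fin n))} (ψ : MT Φ → Option (Fin n) → ℤ)
    (w : FreeGroup (Option (Fin n))) : Equiv.Perm (MT Φ × ℤ) :=
  FreeGroup.lift (fun o => (stepPerm ψ o)⁻¹) w⁻¹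

/-- the value of the cochain `ψ` on the path which starts at `g` and is labelled by `w` -/
def pv {n : ℕ} {Φ : MulAut (FreeGroup (Fin n))} (ψ : MT Φ → Option (Fin n) → ℤ)
    (g : MT Φ) (w : FreeGroup (Option (Fin n))) : ℤ := (wact ψ w (g, 0)).2

variable {n : ℕ} {Φ : MulAut (FreeGroup (Fin n))}

theorem wact_mul (ψ : MT Φ → Option (Fin n) → ℤ) (v w : FreeGroup (Option (Fin n)))
    (q : MT Φ × ℤ) : wact ψ (v * w) q = wact ψ w (wact ψ v q) := by
  simp [wact]

theorem wact_one (ψ : MT Φ → Option (Fin n) → ℤ) (q : MT Φ × ℤ) : wact ψ 1 q = q := by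
  simp [wact]

theorem wact_of (ψ : MT Φ → Option (Fin n) → ℤ) (o : Option (Fin n)) (q : MT Φ × ℤ) :
    wact ψ (FreeGroup.of o) q = (q.1 * ev Φ (FreeGroup.of o), q.2 + ψ q.1 o) := by
  simp [wact, stepPerm]

theorem wact_inv_of (ψ : MT Φ → Option (Fin n) → ℤ) (o : Option (Fin n)) (q : MT Φ × ℤ) :
    wact ψ (FreeGroup.of o)⁻¹ q =
      (q.1 * (ev Φ (FreeGroup.of o))⁻¹, q.2 - ψ (q.1 * (ev Φ (FreeGroup.of o))⁻¹) o) := by
  simp only [wact, inv_inv, FreeGroup.lift_apply_of]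
  rfl

theorem wact_eq (ψ : MT Φ → Option (Fin n) → ℤ) (w : FreeGroup (Option (Fin n))) :
    ∀ g v, wact ψ w (g, v) = (g * ev Φ w, v + pv ψ g w) := by
  induction w using FreeGroup.induction_on with
  | C1 => intro g v; simp [wact_one, pv]
  | of o => intro g v; simp [wact_of, pv]
  | inv_of o _ => intro g v; simp [wact_inv_of, pv, sub_eq_add_neg]
  | mul x y hx hy =>
    intro g v
    have h1 : pv ψ g (x * y) = pv ψ g x + pv ψ (g * ev Φ x) y := by
      unfold pv
      rw [wact_mul, hx, hy]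
      simp [pv]
    rw [wact_mul, hx, hy, h1, map_mul, mul_assoc, add_assoc]

theorem pv_one (ψ : MT Φ → Option (Fin n) → ℤ) (g : MT Φ) : pv ψ g 1 = 0 := by
  simp [pv, wact_one]

theorem pv_mul (ψ : MT Φ → Option (Fin n) → ℤ) (g : MT Φ) (v w : FreeGroup (Option (Fin n))) :
    pv ψ g (v * w) = pv ψ g v + pv ψ (g * ev Φ v) w := by
  unfold pv
  rw [wact_mul, wact_eq, wact_eq]
  simp [pv]

theorem pv_inv (ψ : MT Φ → Option (Fin n) → ℤ) (g : MT Φ) (w : FreeGroup (Option (Fin n))) :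
    pv ψ g w⁻¹ = - pv ψ (g * (ev Φ w)⁻¹) w := by
  have h := pv_mul ψ g w⁻¹ w
  rw [inv_mul_cancel, pv_one, map_inv] at h
  linarith

theorem pv_of (ψ : MT Φ → Option (Fin n) → ℤ) (g : MT Φ) (o : Option (Fin n)) :
    pv ψ g (FreeGroup.of o) = ψ g o := by
  simp [pv, wact_of]

/-- the boundary word `t x_i t⁻¹ Φ(x_i)⁻¹` of the cell `(g, i)`, read from `g` -/
def rel (Φ : MulAut (FreeGroup (Fin n))) (i : Fin n) : FreeGroup (Option (Fin n)) :=
  tt * hz (FreeGroup.of i) * tt⁻¹ * (hz (Φ (FreeGroup.of i)))⁻¹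

/-- the pairing of a 2-chain with the coboundary of `ψ` -/
def pairing (c : MT Φ × Fin n →₀ ℤ) (ψ : MT Φ → Option (Fin n) → ℤ) : ℤ :=
  c.sum fun q k => k * pv ψ q.1 (rel Φ q.2)

end MC
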