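import Pool.Agent.Helper42.MC.Len
import Pool.Agent.Helper42.MC.FreeFacts

/-!
# MC-34: centralizers are virtually `F' × ℤ`

Let `A = {x : FreeGroup (Fin n) | Commute c (inc x)}` (a subgroup of a free group, so free by
Nielsen-Schreier, and nonabelian by `u, v`). `Q = {inc x * c^m | x ∈ A}` is a subgroup of the centralizer of `c`,
isomorphic to `A × ℤ` (`(x,m) ↦ inc x * c^m` is a homomorphism, injective by levels); it has finite
index in the centralizer: `g ∈ C(c)` with `lev c ∣ lev g` is in `Q`, so `Q` is the preimage of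
`lev c ℤ` under the level homomorphism restricted to `C(c)` (index divides `|lev c|`).
`F' : Type` is `A` as a type.
-/

namespace MC

variable {n : ℕ}

theorem virtFxZ_centralizer {Φ : MulAut (FreeGroup (Fin n))} {c : MT Φ} (hc : MT.lev c ≠ 0)
    {u v : FreeGroup (Fin n)} (hu : Commute c (MT.inc Φ u)) (hv : Commute c (MT.inc Φ v))
    (huv : u * v ≠ v * u) : VirtFxZ (Subgroup.centralizer {c}) := by
  classical
  have hAc : ∀ x : FreeGroup (Fin n), x ∈ (Subgroup.centralizer {c}).comap (MT.inc Φ) ↔
      Commute c (MT.inc Φ x) := by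
    intro x
    rw [Subgroup.mem_comap, Subgroup.mem_centralizer_singleton_iff]
    exact ⟨fun h => h.symm, fun h => h.symm⟩
  have hcomm : ∀ x ∈ (Subgroup.centralizer {c}).comap (MT.inc Φ), ∀ m : ℤ,
      Commute (c ^ m) (MT.inc Φ x) := by
    intro x hx m
    exact ((hAc x).1 hx).zpow_left m
  let f : ((Subgroup.centralizer {c}).comap (MT.inc Φ)) × Multiplicative ℤ →* MT Φ :=
    { toFun := fun q => MT.inc Φ q.1 * c ^ (Multiplicative.toAdd q.2)
      map_one' := by simp
      map_mul' := by
        rintro ⟨x, m⟩ ⟨y, k⟩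
        have h := hcomm y.1 y.2 (Multiplicative.toAdd m)
        simp only [Prod.mk_mul_mk, Subgroup.coe_mul, map_mul, toAdd_mul, zpow_add]
        calc MT.inc Φ x.1 * MT.inc Φ y.1 * (c ^ Multiplicative.toAdd m * c ^ Multiplicative.toAdd k)
            = MT.inc Φ x.1 * (MT.inc Φ y.1 * c ^ Multiplicative.toAdd m) *
              c ^ Multiplicative.toAdd k := by group
          _ = MT.inc Φ x.1 * (c ^ Multiplicative.toAdd m * MT.inc Φ y.1) *
              c ^ Multiplicative.toAdd k := by rw [h.eq]
          _ = _ := by group }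
  have hf : ∀ q, f q = MT.inc Φ q.1 * c ^ (Multiplicative.toAdd q.2) := fun q => rfl
  have hlev : ∀ m : ℤ, MT.lev (c ^ m) = m * MT.lev c := by
    intro m
    have : ∀ k : ℕ, MT.lev (c ^ k) = k * MT.lev c := by
      intro k
      induction k with
      | zero => simp [MT.lev]
      | succ k ih => rw [pow_succ, lev_mul, ih]; push_cast; ring
    rcases m with k | k
    · simpa using this k
    · rw [zpow_negSucc, lev_inv, this]
      push_cast
      rw [Int.negSucc_eq]
      ring
  have hinj : Function.Injective f := by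
    rw [injective_iff_map_eq_one]
    rintro ⟨x, m⟩ h
    rw [hf] at h
    have h1 : MT.lev (MT.inc Φ x.1 * c ^ (Multiplicative.toAdd m)) = 0 := by
      rw [h]; simp [MT.lev]
    rw [lev_mul, lev_inc, hlev, zero_add] at h1
    have h2 : Multiplicative.toAdd m = 0 := by
      rcases mul_eq_zero.1 h1 with h | h
      · exact h
      · exact absurd h hc
    have h3 : m = 1 := by
      rw [← toAdd_one] at h2
      exact Multiplicative.toAdd.injective h2
    subst h3
    simp only [toAdd_one, zpow_zero, mul_one] at h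
    have h4 : x.1 = 1 := inc_injective (Φ := Φ) (by rw [h, map_one])
    have h5 : x = 1 := Subtype.ext h4
    rw [h5]
    rfl
  refine ⟨f.range, ?_, ?_, _, inferInstance, ?_, ?_, ⟨(MonoidHom.ofInjective hinj).symm⟩⟩
  · rintro _ ⟨⟨x, m⟩, rfl⟩
    rw [hf, Subgroup.mem_centralizer_singleton_iff]
    have h1 : Commute (MT.inc Φ x.1) c := ((hAc _).1 x.2).symm
    have h2 : Commute (c ^ (Multiplicative.toAdd m)) c := (Commute.refl c).zpow_left _
    exact h1.mul_left h2
  · let g : MT Φ →* Multiplicative (ZMod (MT.lev c).natAbs) :=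
      (AddMonoidHom.toMultiplicative (Int.castAddHom (ZMod (MT.lev c).natAbs))).comp
        SemidirectProduct.rightHom
    have hg : ∀ x : MT Φ, x ∈ g.ker → MT.lev c ∣ MT.lev x := by
      intro x hx
      rw [MonoidHom.mem_ker] at hx
      have : ((MT.lev x : ℤ) : ZMod (MT.lev c).natAbs) = 0 := hx
      rw [ZMod.intCast_zmod_eq_zero_iff_dvd] at this
      exact Int.natAbs_dvd.1 this
    have : NeZero (MT.lev c).natAbs := ⟨by simpa using hc⟩
    have h1 : g.ker.index ≠ 0 := by
      rw [Subgroup.index_ker]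
      exact Nat.card_pos.ne'
    have h2 : g.ker ⊓ Subgroup.centralizer {c} ≤ f.range := by
      rintro x ⟨hx, hx'⟩
      obtain ⟨k, hk⟩ := hg x hx
      have h3 : MT.lev (x * (c ^ k)⁻¹) = 0 := by
        rw [lev_mul, lev_inv, hlev, hk]; ring
      obtain ⟨y, hy⟩ := exists_inc_of_lev_zero h3
      have hx2 : x * c = c * x := Subgroup.mem_centralizer_singleton_iff.1 hx'
      have h4 : y ∈ (Subgroup.centralizer {c}).comap (MT.inc Φ) := by
        rw [hAc, ← hy]
        have h5 : Commute c x := hx2.symm
        exact h5.mul_right ((Commute.refl c).zpow_right k).inv_right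
      refine ⟨⟨⟨y, h4⟩, Multiplicative.ofAdd k⟩, ?_⟩
      rw [hf]
      simp only [toAdd_ofAdd]
      rw [← hy]
      group
    have h3 : f.range.relIndex (Subgroup.centralizer {c}) ∣ g.ker.index := by
      refine (Subgroup.relIndex_dvd_of_le_left _ h2).trans ?_
      rw [Subgroup.inf_relIndex_right]
      exact Subgroup.relIndex_dvd_index_of_normal _ _
    intro h
    rw [h] at h3
    exact h1 (Nat.eq_zero_of_zero_dvd h3)
  · exact subgroupIsFreeOfIsFree _
  · refine ⟨⟨u, (hAc u).2 hu⟩, ⟨v, (hAc v).2 hv⟩, ?_⟩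
    intro h
    exact huv (congrArg Subtype.val h)

end MC
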