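import Pool.Agent.Helper42.MC.VirtCenter
import Pool.Agent.Helper42.MC.MaxCent

/-!
# MC-35: extraction of the core data from branching

Let `c_i, u_i, v_i` be given by `virt_center` for `P_i`.
(1) If `c_i^r = c_j^s =: d` with `r, s ≠ 0` then `P_i = P_j`: `lev d ≠ 0`, `P_i, P_j ≤ C(d)` and
`C(d)` is `VirtFxZ` by `virtFxZ_centralizer` (with `u_i, v_i`), so both are equal to `C(d)` by maximality.
And `P_i = P_j` contradicts non-commensurability (`Subgroup.Commensurable.refl`).
(2) `I = P₁ ⊓ P₂ ⊓ P₃` contains some `inc a₀`, `a₀ ≠ 1`: otherwise the level homomorphism is injective on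
`I`, so `I` embeds into `ℤ` and is cyclic.
(3) Let `r_i ≠ 0` with `r_i * lev c_i = λ` independent of `i` (`λ = Π lev c_j`), `z_i = c_i^{r_i}`,
`z = z_0`. `z⁻¹ z_i` has level 0: `= inc d_i`, and it commutes with `inc a₀` (`c_i` commutes with `P_i ∋ inc a₀`).
Let `r` generate the centralizer of `a₀` (`free_cyclic_centralizer`), `d_i = r^{p i}`, `p 0 = 0`;
put `a = r ≠ 1`. `z` commutes with `inc a`: `z inc r z⁻¹ = inc r'`, `r'^k = r^k` where `a₀ = r^k`, `k ≠ 0`, so
`r' = r` by `free_zpow_inj`. So `z_i = z * inc a^{p i}`.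
`p` is injective: if `p i = p j` then `z_i = z_j`, contradiction with (1).
(4) `u_i, v_i` commute with `z_i`; one of them does not commute with `a` (`commute_trans`): `b i`.
-/

namespace MC

variable {n : ℕ}

theorem lev_zpow' {Φ : MulAut (FreeGroup (Fin n))} (g : MT Φ) (m : ℤ) :
    MT.lev (g ^ m) = m * MT.lev g := by
  have h : ∀ x : MT Φ, MT.lev x = Multiplicative.toAdd (SemidirectProduct.rightHom x) := fun x => rfl
  rw [h, h, map_zpow, toAdd_zpow, smul_eq_mul]

theorem commute_inc_iff {Φ : MulAut (FreeGroup (Fin n))} {x y : FreeGroup (Fin n)} :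
    Commute (MT.inc Φ x) (MT.inc Φ y) ↔ Commute x y := by
  constructor
  · intro h
    apply inc_injective (Φ := Φ)
    rw [map_mul, map_mul]
    exact h
  · intro h
    exact h.map _

theorem max_eq_centralizer {Φ : MulAut (FreeGroup (Fin n))} {P : Subgroup (MT Φ)}
    (hP : MaxVirtFxZ P) {c : MT Φ} (hlev : MT.lev c ≠ 0)
    (hcen : ∀ g ∈ P, Commute c g) {u v : FreeGroup (Fin n)} (hu : MT.inc Φ u ∈ P)
    (hv : MT.inc Φ v ∈ P) (huv : u * v ≠ v * u) {r : ℤ} (hr : r ≠ 0) :
    P = Subgroup.centralizer {c ^ r} := by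
  have h1 : VirtFxZ (Subgroup.centralizer {c ^ r}) := by
    refine virtFxZ_centralizer (u := u) (v := v) ?_ ?_ ?_ huv
    · rw [lev_zpow']
      exact mul_ne_zero hr hlev
    · exact (hcen _ hu).zpow_left r
    · exact (hcen _ hv).zpow_left r
  symm
  apply hP.2 _ h1
  intro g hg
  rw [Subgroup.mem_centralizer_iff]
  intro x hx
  rw [Set.mem_singleton_iff] at hx
  subst hx
  exact ((hcen g hg).zpow_left r).eq

theorem extract {Φ : MulAut (FreeGroup (Fin n))} (h : Branched (MT Φ)) : CoreData Φ := by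
  obtain ⟨P₁, P₂, P₃, hM1, hM2, hM3, h12, h13, h23, hcyc⟩ := h
  obtain ⟨P, hPdef⟩ : ∃ P : Fin 3 → Subgroup (MT Φ), P = ![P₁, P₂, P₃] := ⟨_, rfl⟩
  have hM : ∀ i, MaxVirtFxZ (P i) := by
    intro i
    rw [hPdef]
    fin_cases i
    · exact hM1
    · exact hM2
    · exact hM3
  have hne12 : P₁ ≠ P₂ := fun e => h12 (e ▸ Subgroup.Commensurable.refl P₁)
  have hne13 : P₁ ≠ P₃ := fun e => h13 (e ▸ Subgroup.Commensurable.refl P₁)
  have hne23 : P₂ ≠ P₃ := fun e => h23 (e ▸ Subgroup.Commensurable.refl P₂)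
  have hinj : Function.Injective P := by
    intro i j hij
    rw [hPdef] at hij
    fin_cases i <;> fin_cases j <;> simp_all
  -- data
  have hv := fun i => virt_center (hM i).1
  choose c hcP hclev hccen u v hu hv' huv using hv
  -- (2)
  obtain ⟨a₀, ha₀1, ha₀P⟩ : ∃ a₀ : FreeGroup (Fin n), a₀ ≠ 1 ∧ ∀ i, MT.inc Φ a₀ ∈ P i := by
    by_contra hcon
    push Not at hcon
    apply hcyc
    refine isCyclic_of_injective
      ((SemidirectProduct.rightHom (N := FreeGroup (Fin n))).comp (P₁ ⊓ P₂ ⊓ P₃ : Subgroup (MT Φ)).subtype) ?_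
    rw [injective_iff_map_eq_one]
    rintro ⟨g, hg⟩ hg1
    have hg0 : MT.lev g = 0 := by
      have : (SemidirectProduct.rightHom g) = (1 : Multiplicative ℤ) := hg1
      unfold MT.lev
      exact congrArg Multiplicative.toAdd this
    obtain ⟨x, hx⟩ := exists_inc_of_lev_zero hg0
    by_cases hx1 : x = 1
    · subst hx1
      rw [map_one] at hx
      exact Subtype.ext hx
    · exfalso
      obtain ⟨i, hi⟩ := hcon x hx1
      apply hi
      rw [← hx]
      rw [hPdef]
      have h123 := hg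
      rw [Subgroup.mem_inf, Subgroup.mem_inf] at h123
      fin_cases i
      · exact h123.1.1
      · exact h123.1.2
      · exact h123.2
  -- (3)
  obtain ⟨r, hr⟩ := free_cyclic_centralizer ha₀1
  obtain ⟨k, hk⟩ : ∃ k : ℤ, r ^ k = a₀ := by
    have := (hr a₀).1 (Commute.refl _)
    rwa [Subgroup.mem_zpowers_iff] at this
  have hk0 : k ≠ 0 := by
    rintro rfl
    rw [zpow_zero] at hk
    exact ha₀1 hk.symm
  have hr1 : r ≠ 1 := by
    rintro rfl
    rw [one_zpow] at hk
    exact ha₀1 hk.symm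
  obtain ⟨e, he⟩ : ∃ e : Fin 3 → ℤ, e = fun i => ∏ j ∈ Finset.univ.erase i, MT.lev (c j) := ⟨_, rfl⟩
  have he0 : ∀ i, e i ≠ 0 := by
    intro i
    rw [he]
    exact Finset.prod_ne_zero_iff.2 fun j _ => hclev j
  have helev : ∀ i, e i * MT.lev (c i) = ∏ j, MT.lev (c j) := by
    intro i
    rw [he, mul_comm]
    exact Finset.mul_prod_erase Finset.univ (fun j => MT.lev (c j)) (Finset.mem_univ i)
  obtain ⟨z, hz⟩ : ∃ z : Fin 3 → MT Φ, z = fun i => c i ^ e i := ⟨_, rfl⟩
  have hzlev : ∀ i, MT.lev (z i) = ∏ j, MT.lev (c j) := by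
    intro i
    rw [hz]
    show MT.lev (c i ^ e i) = _
    rw [lev_zpow', helev]
  have hL0 : ∏ j, MT.lev (c j) ≠ 0 := Finset.prod_ne_zero_iff.2 fun j _ => hclev j
  have hzcen : ∀ i, ∀ g ∈ P i, Commute (z i) g := by
    intro i g hg
    rw [hz]
    exact (hccen i g hg).zpow_left _
  -- z i commutes with inc r
  have hzr : ∀ i, Commute (z i) (MT.inc Φ r) := by
    intro i
    have hl : MT.lev (z i * MT.inc Φ r * (z i)⁻¹) = 0 := by
      rw [lev_mul, lev_mul, lev_inv, lev_inc]
      ring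
    obtain ⟨r', hr'⟩ := exists_inc_of_lev_zero hl
    have h1 : r' ^ k = r ^ k := by
      apply inc_injective (Φ := Φ)
      rw [map_zpow, ← hr', conj_zpow, ← map_zpow, hk]
      have := hzcen i _ (ha₀P i)
      rw [this.eq, mul_assoc, mul_inv_cancel, mul_one]
    have h2 : r' = r := free_zpow_inj hk0 h1
    rw [h2] at hr'
    exact mul_inv_eq_iff_eq_mul.1 hr'
  -- the difference of z i and z 0
  have hd : ∀ i, ∃ m : ℤ, z i = z 0 * MT.inc Φ r ^ m := by
    intro i
    have hl : MT.lev ((z 0)⁻¹ * z i) = 0 := by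
      rw [lev_mul, lev_inv, hzlev, hzlev]
      ring
    obtain ⟨d, hd⟩ := exists_inc_of_lev_zero hl
    have hc : Commute d a₀ := by
      rw [← commute_inc_iff (Φ := Φ), ← hd]
      exact ((hzcen 0 _ (ha₀P 0)).inv_left).mul_left (hzcen i _ (ha₀P i))
    obtain ⟨m, hm⟩ := Subgroup.mem_zpowers_iff.1 ((hr d).1 hc)
    refine ⟨m, ?_⟩
    rw [← map_zpow, hm, ← hd]
    group
  choose p hp using hd
  have hpinj : Function.Injective p := by
    intro i j hij
    have hzz : z i = z j := by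
      rw [hp i, hp j, hij]
    have h1 := max_eq_centralizer (hM i) (hclev i) (hccen i) (hu i) (hv' i) (huv i) (he0 i)
    have h2 := max_eq_centralizer (hM j) (hclev j) (hccen j) (hu j) (hv' j) (huv j) (he0 j)
    apply hinj
    rw [h1, h2]
    have h3 : c i ^ e i = c j ^ e j := by
      rw [hz] at hzz
      exact hzz
    rw [h3]
  -- (4)
  have hb : ∀ i, ∃ b : FreeGroup (Fin n), Commute (z i) (MT.inc Φ b) ∧ r * b ≠ b * r := by
    intro i
    by_cases h1 : Commute r (u i)
    · refine ⟨v i, hzcen i _ (hv' i), ?_⟩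
      intro h2
      exact huv i (commute_trans hr1 h1.symm h2)
    · exact ⟨u i, hzcen i _ (hu i), h1⟩
  choose b hb1 hb2 using hb
  refine ⟨z 0, r, p, b, ?_, hr1, hzr 0, hpinj, fun i => ⟨?_, hb2 i⟩⟩
  · rw [hzlev]; exact hL0
  · rw [← hp i]; exact hb1 i

end MC
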