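import Pool.Agent.Helper42.MC.Push

/-!
# MC-23: local filling of closed words

By induction on the length of the word `w` (a list of letters; e.g. induction on `w.norm` or on
`w.toWord` reversed): for every `g` there are `f : FreeGroup (Fin n)` and a chain `c` with
`ev w = inc f * t^h`, `h = lev (ev w)`, and for all `ψ`
`pv g w = pv g (hz f) + pv (g f) t^h + pairing c ψ`, all cells within `C' |w|` of `g`.
Step `w σ`, `σ = t^{±1}`: `pv (g f) t^h + pv (g f t^h) t^{±1} = pv (g f) t^{h±1}`.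
Step `σ = x_i^{±1} = hz u`: by `push` (for `h`, `u`, `v = g f t^h`)
`pv (g f t^h) (hz u) = pv (g f t^h) t^{-h} + pv (g f) (hz (Φ^h u)) + pv (g f t^h u t^{-h}) t^h + pairing c' ψ`;
the first term cancels `pv (g f) t^h`, `t^h u t^{-h} = Φ^h u` in the group, so the total is
`pv g (hz (f Φ^h u)) + pv (g f Φ^h(u)) t^h + pairing (c + c') ψ`; `|h| ≤ |w|`; cells of `c'` are within
`|w| + C(|w|+1)` of `g`.
If `ev w = 1` then `h = 0`, `f = 1` and `pv g w = pairing c ψ`.
-/

namespace MC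

variable {n : ℕ}

/-- the inductive statement -/
def FillP (Φ : MulAut (FreeGroup (Fin n))) (C m : ℕ) (w : FreeGroup (Option (Fin n))) : Prop :=
  ∀ g : MT Φ, ∃ (f : FreeGroup (Fin n)) (h : ℤ) (c : MT Φ × Fin n →₀ ℤ),
    ev Φ w = MT.inc Φ f * MT.t Φ ^ h ∧ h.natAbs ≤ m ∧
    (∀ ψ : MT Φ → Option (Fin n) → ℤ,
      pv ψ g w = pv ψ g (hz f) + pv ψ (g * MT.inc Φ f) (tt ^ h) + pairing c ψ) ∧
    ∀ q ∈ c.support, len Φ (g⁻¹ * q.1) ≤ C * m

theorem fillP_t {Φ : MulAut (FreeGroup (Fin n))} {C m : ℕ} {w : FreeGroup (Option (Fin n))}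
    (hw : FillP Φ C m w) (ε : ℤ) (hε : ε.natAbs ≤ 1) : FillP Φ C (m + 1) (w * tt ^ ε) := by
  intro g
  obtain ⟨f, h, c, h1, h2, h3, h4⟩ := hw g
  refine ⟨f, h + ε, c, ?_, ?_, ?_, ?_⟩
  · rw [map_mul, h1, ev_tt_zpow, zpow_add, mul_assoc]
  · exact (Int.natAbs_add_le h ε).trans (by omega)
  · intro ψ
    rw [pv_mul, h3, h1, zpow_add, pv_mul, ev_tt_zpow, mul_assoc]
    ring
  · intro q hq
    exact (h4 q hq).trans (Nat.mul_le_mul_left _ (Nat.le_succ m))

theorem fillP_hz {Φ : MulAut (FreeGroup (Fin n))} {C : ℕ}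
    (hC : ∀ (h : ℤ) (u : FreeGroup (Fin n)) (v : MT Φ), ∃ c : MT Φ × Fin n →₀ ℤ,
      (∀ ψ : MT Φ → Option (Fin n) → ℤ,
        pv ψ v (hz u) = pv ψ v (tt ^ (-h)) + pv ψ (v * MT.t Φ ^ (-h)) (hz ((Φ ^ h) u)) +
          pv ψ (v * MT.inc Φ u * MT.t Φ ^ (-h)) (tt ^ h) + pairing c ψ) ∧
      ∀ q ∈ c.support, len Φ (v⁻¹ * q.1) ≤ C * (h.natAbs + u.norm))
    {m : ℕ} {w : FreeGroup (Option (Fin n))} (hwm : w.norm ≤ m)
    (hw : FillP Φ (C + 1) m w) (u : FreeGroup (Fin n)) (hu : u.norm ≤ 1) :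
    FillP Φ (C + 1) (m + 1) (w * hz u) := by
  intro g
  obtain ⟨f, h, c, h1, h2, h3, h4⟩ := hw g
  obtain ⟨c', h5, h6⟩ := hC h u (g * ev Φ w)
  have e1 : g * ev Φ w * MT.t Φ ^ (-h) = g * MT.inc Φ f := by
    rw [h1, zpow_neg, mul_assoc, mul_assoc (MT.inc Φ f), mul_inv_cancel, mul_one]
  have e2 : g * ev Φ w * MT.inc Φ u * MT.t Φ ^ (-h) = g * MT.inc Φ (f * (Φ ^ h) u) := by
    rw [map_mul, ← t_zpow_conj, h1, zpow_neg]
    group
  refine ⟨f * (Φ ^ h) u, h, c + c', ?_, by omega, ?_, ?_⟩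
  · rw [map_mul, h1, ev_hz, map_mul, ← t_zpow_conj]
    group
  · intro ψ
    have e3 : pv ψ (g * ev Φ w) (tt ^ (-h)) = - pv ψ (g * MT.inc Φ f) (tt ^ h) := by
      rw [zpow_neg, pv_inv, ev_tt_zpow, ← zpow_neg, e1]
    have e4 : pv ψ g (hz (f * (Φ ^ h) u)) =
        pv ψ g (hz f) + pv ψ (g * MT.inc Φ f) (hz ((Φ ^ h) u)) := by
      rw [map_mul, pv_mul, ev_hz]
    rw [pv_mul, h3, h5, e3, e1, e2, e4, pairing_add]
    ring
  · intro q hq
    classical
    rcases Finset.mem_union.1 (Finsupp.support_add hq) with hq | hq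
    · exact (h4 q hq).trans (Nat.mul_le_mul_left _ (Nat.le_succ m))
    · have h7 := h6 q hq
      have h8 : len Φ (g⁻¹ * q.1) ≤ len Φ (ev Φ w) + len Φ ((g * ev Φ w)⁻¹ * q.1) := by
        refine le_of_eq_of_le ?_ (len_mul_le _ _)
        congr 1
        group
      have h9 : len Φ (ev Φ w) ≤ m := (len_ev_le w).trans hwm
      have h10 : C * (h.natAbs + u.norm) ≤ C * (m + 1) := Nat.mul_le_mul_left _ (by omega)
      calc len Φ (g⁻¹ * q.1) ≤ m + C * (m + 1) := by omega
        _ ≤ (C + 1) * (m + 1) := by nlinarith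

theorem fill (Φ : MulAut (FreeGroup (Fin n))) :
    ∃ C : ℕ, ∀ (g : MT Φ) (w : FreeGroup (Option (Fin n))), ev Φ w = 1 →
      ∃ c : MT Φ × Fin n →₀ ℤ, (∀ ψ : MT Φ → Option (Fin n) → ℤ, pv ψ g w = pairing c ψ) ∧
        ∀ q ∈ c.support, len Φ (g⁻¹ * q.1) ≤ C * w.norm := by
  obtain ⟨C, hC⟩ := push Φ
  have key : ∀ L : List (Option (Fin n) × Bool), FillP Φ (C + 1) L.length (FreeGroup.mk L) := by
    intro L
    induction L using List.reverseRecOn with
    | nil =>
      intro g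
      refine ⟨1, 0, 0, ?_, ?_, ?_, ?_⟩
      · rw [← FreeGroup.one_eq_mk]; simp
      · simp
      · intro ψ
        rw [← FreeGroup.one_eq_mk]
        simp [pv_one, pairing]
      · intro q hq
        simp at hq
    | append_singleton L a ih =>
      rw [← FreeGroup.mul_mk, List.length_append, List.length_singleton]
      obtain ⟨o, b⟩ := a
      have hn : (FreeGroup.mk L).norm ≤ L.length := FreeGroup.norm_mk_le
      cases o with
      | none =>
        cases b with
        | true =>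
          have := fillP_t ih 1 (by simp)
          rw [zpow_one] at this
          exact this
        | false =>
          have := fillP_t ih (-1) (by simp)
          rw [zpow_neg_one] at this
          exact this
      | some i =>
        cases b with
        | true =>
          have := fillP_hz hC hn ih (FreeGroup.of i) (by simp)
          exact this
        | false =>
          have := fillP_hz hC hn ih (FreeGroup.of i)⁻¹ (by simp)
          exact this
  refine ⟨C + 1, fun g w hw => ?_⟩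
  obtain ⟨f, h, c, h1, h2, h3, h4⟩ := key w.toWord g
  rw [FreeGroup.mk_toWord] at h1 h3
  have hh : h = 0 := by
    have := congrArg MT.lev h1
    rw [hw, lev_mul, lev_inc] at this
    have h5 : MT.lev (1 : MT Φ) = 0 := rfl
    have h6 : MT.lev (MT.t Φ ^ h) = h := by
      have h7 : ∀ x : MT Φ, MT.lev x = Multiplicative.toAdd (SemidirectProduct.rightHom x) :=
        fun x => rfl
      rw [h7, map_zpow, toAdd_zpow, ← h7, lev_t, smul_eq_mul, mul_one]
    rw [h5, h6] at this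
    omega
  subst hh
  have hf : f = 1 := by
    apply inc_injective (Φ := Φ)
    rw [map_one]
    rw [hw, zpow_zero, mul_one] at h1
    exact h1.symm
  subst hf
  refine ⟨c, fun ψ => ?_, h4⟩
  rw [h3, map_one, pv_one, zpow_zero, pv_one]
  ring

end MC
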