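import Pool.Agent.Helper42.MC.Tree

/-!
# MC-27: bounded cancellation for an automorphism fixing `a` and `b`

`norm_aut_le`: `K = max_i |Ψ (x_i)|` (at least 1).
`gp_step`: let `K1, K2` be the constants of `Ψ`, `Ψ⁻¹`, `K0 = max |a| |b|`. Let `w ∈ ⟨a,b⟩`, `k = gp y w`.
Let `p` be the prefix of `w` of length `k`: `gp p w = k = |p|`, and `gp p y ≥ min (gp p w) (gp w y) = k`, so
`gp p y = |p|` as well.
(a) `w` is a product of elements `a^{±1}, b^{±1}`; the partial products are a `K0`-chain from `1` to `w` in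
`⟨a,b⟩`; by `chain_near` there is `h ∈ ⟨a,b⟩` with `fd h p ≤ K0`. As `Ψ h = h`:
`fd (Ψ p) p ≤ fd (Ψ p) (Ψ h) + fd h p ≤ K1 K0 + K0`.
(b) Let `q_0 = 1, ..., q_m = Ψ y` be the geodesic (`exists_geod`). `Ψ⁻¹ q_i` is a `K2`-chain from `1` to `y`;
by `chain_near` there is `i` with `fd (Ψ⁻¹ q_i) p ≤ K2`, so `fd (q_i) (Ψ p) ≤ K1 K2`; let `q = q_i`,
`gp q (Ψ y) = |q|`.
So `fd q p ≤ K3 = K1 K2 + K1 K0 + K0`, `2 gp q p = |q| + |p| - fd q p ≥ 2|p| - 2 K3`, `|q| ≥ |p| - K3` and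
`gp (Ψ y) w ≥ min (gp (Ψ y) q) (min (gp q p) (gp p w)) ≥ |p| - K3`.
-/

namespace MC

variable {n : ℕ}

theorem norm_aut_le (Ψ : MulAut (FreeGroup (Fin n))) :
    ∃ K : ℕ, ∀ x : FreeGroup (Fin n), (Ψ x).norm ≤ K * x.norm := by
  classical
  refine ⟨Finset.univ.sup fun i => (Ψ (FreeGroup.of i)).norm, ?_⟩
  set K := Finset.univ.sup fun i => (Ψ (FreeGroup.of i)).norm with hK
  have h1 : ∀ i : Fin n, (Ψ (FreeGroup.of i)).norm ≤ K := fun i =>
    Finset.le_sup (f := fun i => (Ψ (FreeGroup.of i)).norm) (Finset.mem_univ i)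
  have h2 : ∀ l : List (Fin n × Bool), (Ψ (FreeGroup.mk l)).norm ≤ K * l.length := by
    intro l
    induction l with
    | nil =>
      have h3 : (FreeGroup.mk ([] : List (Fin n × Bool))) = 1 := rfl
      rw [h3, map_one, FreeGroup.norm_one]
      exact Nat.zero_le _
    | cons a l ih =>
      rw [mk_cons, map_mul, List.length_cons, Nat.mul_succ, Nat.add_comm]
      refine (FreeGroup.norm_mul_le _ _).trans (Nat.add_le_add ?_ ih)
      obtain ⟨i, s⟩ := a
      cases s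
      · have h3 : FreeGroup.mk [(i, false)] = (FreeGroup.of i)⁻¹ := rfl
        rw [h3, map_inv, FreeGroup.norm_inv_eq]
        exact h1 i
      · exact h1 i
  intro x
  have h3 := h2 x.toWord
  rwa [FreeGroup.mk_toWord] at h3

theorem exists_chain {a b w : FreeGroup (Fin n)} (hw : w ∈ Subgroup.closure {a, b}) :
    ∃ (m : ℕ) (c : ℕ → FreeGroup (Fin n)), c 0 = 1 ∧ c m = w ∧
      (∀ i, c i ∈ Subgroup.closure {a, b}) ∧ ∀ i < m, fd (c i) (c (i + 1)) ≤ max a.norm b.norm := by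
  have hw' : w ∈ Submonoid.closure (({a, b} : Set (FreeGroup (Fin n))) ∪ ({a, b} : Set _)⁻¹) := by
    rw [← Subgroup.closure_toSubmonoid]
    exact hw
  obtain ⟨l, hl0, hlw⟩ := Submonoid.exists_list_of_mem_closure hw'
  have hl : ∀ x ∈ l, x ∈ ({a, b} : Set (FreeGroup (Fin n))) ∨
      x⁻¹ ∈ ({a, b} : Set (FreeGroup (Fin n))) := fun x hx => hl0 x hx
  refine ⟨l.length, fun i => (l.take i).prod, by simp, by simp [hlw], ?_, ?_⟩
  · intro i
    apply Subgroup.list_prod_mem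
    intro x hx
    rcases hl x (List.mem_of_mem_take hx) with h | h
    · exact Subgroup.subset_closure h
    · exact (Subgroup.inv_mem_iff _).1 (Subgroup.subset_closure h)
  · intro i hi
    show fd (l.take i).prod (l.take (i + 1)).prod ≤ _
    have h1 : l.take (i + 1) = l.take i ++ [l[i]] := by
      rw [List.take_append_getElem]
    have h2 : (l.take i).prod⁻¹ * (l.take (i + 1)).prod = l[i] := by
      rw [h1, List.prod_append, List.prod_singleton]
      group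
    rw [fd, h2]
    have h3 : ∀ x, x ∈ ({a, b} : Set (FreeGroup (Fin n))) → x.norm ≤ max a.norm b.norm := by
      rintro x (rfl | rfl)
      · exact le_max_left _ _
      · exact le_max_right _ _
    rcases hl l[i] (List.getElem_mem hi) with h | h
    · exact h3 _ h
    · rw [← FreeGroup.norm_inv_eq]
      exact h3 _ h

theorem fd_aut {K : ℕ} {Ψ : MulAut (FreeGroup (Fin n))}
    (hK : ∀ x : FreeGroup (Fin n), (Ψ x).norm ≤ K * x.norm) (x y : FreeGroup (Fin n)) :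
    fd (Ψ x) (Ψ y) ≤ K * fd x y := by
  rw [fd, fd, ← map_inv, ← map_mul]
  exact hK _

theorem gp_step (Ψ : MulAut (FreeGroup (Fin n))) {a b : FreeGroup (Fin n)} (ha : Ψ a = a)
    (hb : Ψ b = b) :
    ∃ C : ℕ, ∀ y : FreeGroup (Fin n), ∀ w ∈ Subgroup.closure {a, b}, gp y w ≤ gp (Ψ y) w + C := by
  obtain ⟨K1, hK1⟩ := norm_aut_le Ψ
  obtain ⟨K2, hK2⟩ := norm_aut_le Ψ⁻¹
  set K0 := max a.norm b.norm with hK0
  refine ⟨K1 * K2 + (K1 * K0 + K0), ?_⟩
  intro y w hw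
  have hfix : ∀ h ∈ Subgroup.closure {a, b}, Ψ h = h := by
    intro h hh
    induction hh using Subgroup.closure_induction with
    | mem x hx =>
      rcases hx with rfl | rfl
      · exact ha
      · exact hb
    | one => exact map_one _
    | mul x y _ _ hx hy => rw [map_mul, hx, hy]
    | inv x _ hx => rw [map_inv, hx]
  obtain ⟨p, hp1, hp2⟩ := exists_prefix w (gp_le_right y w)
  have hp3 : gp p y = p.norm := by
    have h1 := gp_four p w y
    have h2 := gp_le_left p y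
    have h3 := gp_comm w y
    have h4 : gp y w ≤ gp p y := le_trans (le_min hp2.ge h3.ge) h1
    omega
  -- (a)
  obtain ⟨m, c, c0, cm, cH, cs⟩ := exists_chain hw
  obtain ⟨i, -, hi⟩ := chain_near c c0 cs (p := p) (by rw [cm, hp2, hp1])
  have hA : fd (Ψ p) p ≤ K1 * K0 + K0 := by
    have h1 := fd_triangle (Ψ p) (Ψ (c i)) p
    have h2 := fd_aut hK1 p (c i)
    rw [hfix _ (cH i)] at h1 h2
    rw [fd_comm p (c i)] at h2
    have h3 : K1 * fd (c i) p ≤ K1 * K0 := Nat.mul_le_mul le_rfl hi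
    omega
  -- (b)
  obtain ⟨q, q0, qm, qs, qn⟩ := exists_geod (Ψ y)
  have hinv : ∀ x, Ψ⁻¹ (Ψ x) = x := fun x => by
    rw [← MulAut.mul_apply, inv_mul_cancel, MulAut.one_apply]
  have hinv' : ∀ x, Ψ (Ψ⁻¹ x) = x := fun x => by
    rw [← MulAut.mul_apply, mul_inv_cancel, MulAut.one_apply]
  obtain ⟨j, hj, hj2⟩ := chain_near (K := K2) (m := (Ψ y).norm) (fun i => Ψ⁻¹ (q i))
    (by show Ψ⁻¹ (q 0) = 1; rw [q0, map_one])
    (by
      intro i _
      refine (fd_aut hK2 _ _).trans ?_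
      calc K2 * fd (q i) (q (i + 1)) ≤ K2 * 1 := Nat.mul_le_mul le_rfl (qs i)
        _ = K2 := Nat.mul_one _)
    (p := p) (by show gp p (Ψ⁻¹ (q (Ψ y).norm)) = p.norm; rw [qm, hinv, hp3])
  have hB : fd (q j) (Ψ p) ≤ K1 * K2 := by
    have h1 := fd_aut hK1 (Ψ⁻¹ (q j)) p
    rw [hinv'] at h1
    exact h1.trans (Nat.mul_le_mul le_rfl hj2)
  obtain ⟨hq1, hq2⟩ := qn j hj
  have hC := fd_triangle (q j) (Ψ p) p
  have s1 := gp_spec (q j) p
  have s2 := gp_le_left (q j) p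
  have s3 := gp_four (Ψ y) (q j) w
  have s4 := gp_four (q j) p w
  have s5 := gp_comm (Ψ y) (q j)
  have s6 : gp y w ≤ (q j).norm + (fd (q j) (Ψ p) + fd (Ψ p) p) := by omega
  have s7 : gp y w ≤ gp (q j) p + (fd (q j) (Ψ p) + fd (Ψ p) p) := by omega
  have s8 : gp y w ≤ gp (q j) w + (fd (q j) (Ψ p) + fd (Ψ p) p) := by omega
  have s9 : gp y w ≤ gp (Ψ y) w + (fd (q j) (Ψ p) + fd (Ψ p) p) := by omega
  omega

end MC
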