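import Pool.Agent.Helper42.MC.Med

/-!
# MC-4: monotone chains

`ladder`: `y 0 = a`, `y (i+1) = m(b, y i, c (i+1))`. All `y i ∈ I(a,b)` (induction: `y (i+1) ∈ I(y i, b)`,
so `a - y i - y (i+1) - b`). Invariant `y i ∈ I(b, c i)` (so `m(b, y i, c i) = y i`); hence
`d(y i, y (i+1)) = d(m(b,y i,c i), m(b,y i,c (i+1))) ≤ d(c i, c (i+1)) ≤ δ` by `gate_lip`.
`y n = m(b,_,b) = b` (for `n = 0` we have `a = b`).

`marks`: put `d = dist a b`, choose `n > 0` with `K * d / n ≤ r/4`, take a chain and its ladder `y'`;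
`t k = d(a, y' k)` is nondecreasing with steps `≤ r/4`, from `0` to `d ≥ N r`. For `i ≤ N` let `k i` be the
least index with `t (k i) ≥ i r`; then `i r ≤ t (k i) ≤ i r + r/4`, and
`d(y' (k i), y' (k j)) = |t (k i) - t (k j)|` by monotonicity.
-/

open Set

namespace MC

variable {M : Type*} [MetricSpace M]

theorem ladder (h : IsMedian M) {a b : M} {n : ℕ} {δ : ℝ} (c : ℕ → M) (c0 : c 0 = a)
    (cn : c n = b) (hc : ∀ i < n, dist (c i) (c (i + 1)) ≤ δ) :
    ∃ y : ℕ → M, y 0 = a ∧ y n = b ∧ (∀ i < n, dist (y i) (y (i + 1)) ≤ δ) ∧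
      (∀ i ≤ n, Btw a (y i) b) ∧ ∀ i j, i ≤ j → j ≤ n → Btw a (y i) (y j) := by
  obtain ⟨y, y0, ys⟩ : ∃ y : ℕ → M, y 0 = a ∧ ∀ i, y (i + 1) = med h b (y i) (c (i + 1)) :=
    ⟨fun i => Nat.rec a (fun i yi => med h b yi (c (i + 1))) i, rfl, fun i => rfl⟩
  have h1 : ∀ i, Btw b (y i) (c i) := by
    intro i
    cases i with
    | zero => rw [y0, c0]; simp [Btw]
    | succ i => rw [ys]; exact med_btw13 h b (y i) (c (i + 1))
  have h2 : ∀ i, Btw b (y (i + 1)) (y i) := by
    intro i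
    rw [ys]
    exact med_btw12 h b (y i) (c (i + 1))
  have h3 : ∀ i, Btw b (y i) a := by
    intro i
    induction i with
    | zero => rw [y0]; simp [Btw]
    | succ i ih => exact ((h2 i).trans_left ih).1
  have h4 : ∀ i, Btw a (y i) (y (i + 1)) := fun i => ((h2 i).trans_left (h3 i)).2.symm
  have h5 : ∀ i j, i ≤ j → Btw a (y i) (y j) := by
    intro i j hij
    induction j, hij using Nat.le_induction with
    | base => simp [Btw]
    | succ j hij ih => exact (ih.trans_left (h4 j)).1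
  refine ⟨y, y0, ?_, ?_, fun i _ => (h3 i).symm, fun i j hij _ => h5 i j hij⟩
  · cases n with
    | zero => rw [y0, ← c0, cn]
    | succ m =>
      have h6 := h1 (m + 1)
      rw [cn] at h6
      exact h6.eq_of_self
  · intro i hi
    have h6 : med h b (y i) (c i) = y i := by
      refine (med_unique h ?_ ?_ (h1 i)).symm
      · simp [Btw]
      · simp [Btw]
    have h7 := gate_lip h b (y i) (c i) (c (i + 1))
    rw [h6, ← ys i] at h7
    exact h7.trans (hc i hi)

theorem marks (h : IsMedian M) {K : ℝ} (hC : Chains M K 0) {a b : M} {N : ℕ} {r : ℝ}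
    (hr : 0 < r) (hab : N * r ≤ dist a b) :
    ∃ y : ℕ → M, (∀ i ≤ N, Btw a (y i) b) ∧ ∀ i j : ℕ, i ≤ N → j ≤ N →
      r / 2 * |(i : ℝ) - j| ≤ dist (y i) (y j) ∧ dist (y i) (y j) ≤ 3 / 2 * r * |(i : ℝ) - j| := by
  obtain ⟨n, hn0, hn⟩ : ∃ n : ℕ, 0 < n ∧ K * dist a b / n ≤ r / 4 := by
    obtain ⟨m, hm⟩ := exists_nat_gt (K * dist a b / (r / 4))
    refine ⟨m + 1, Nat.succ_pos m, ?_⟩
    have hr4 : 0 < r / 4 := by linarith
    rw [div_lt_iff₀ hr4] at hm
    have hm0 : (0 : ℝ) < ((m + 1 : ℕ) : ℝ) := by positivity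
    rw [div_le_iff₀ hm0]
    push_cast
    nlinarith
  obtain ⟨c, c0, cn, hc⟩ := hC a b n hn0
  obtain ⟨y, y0, yn, hy1, hy2, hy3⟩ := ladder h c c0 cn hc
  have hstep : ∀ i < n, dist a (y (i + 1)) ≤ dist a (y i) + r / 4 := by
    intro i hi
    have h1 := hy1 i hi
    have h2 := dist_triangle a (y i) (y (i + 1))
    linarith
  have hk : ∀ i : ℕ, ∃ k : ℕ, i ≤ N → k ≤ n ∧ i * r ≤ dist a (y k) ∧
      dist a (y k) ≤ i * r + r / 4 := by
    intro i
    by_cases hi : i ≤ N
    · have hex : ∃ k, i * r ≤ dist a (y k) := by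
        refine ⟨n, ?_⟩
        rw [yn]
        refine le_trans ?_ hab
        have : (i : ℝ) ≤ N := by exact_mod_cast hi
        exact mul_le_mul_of_nonneg_right this hr.le
      classical
      have hle : Nat.find hex ≤ n := by
        apply Nat.find_min'
        rw [yn]
        refine le_trans ?_ hab
        have : (i : ℝ) ≤ N := by exact_mod_cast hi
        exact mul_le_mul_of_nonneg_right this hr.le
      refine ⟨Nat.find hex, fun _ => ⟨hle, Nat.find_spec hex, ?_⟩⟩
      rcases Nat.eq_zero_or_pos (Nat.find hex) with h0 | h0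
      · rw [h0, y0, dist_self]
        positivity
      · obtain ⟨m, hm⟩ : ∃ m, Nat.find hex = m + 1 := ⟨Nat.find hex - 1, by omega⟩
        have hmin := Nat.find_min hex (show m < Nat.find hex by omega)
        rw [not_le] at hmin
        have := hstep m (by omega)
        rw [hm]
        linarith
    · exact ⟨0, fun h' => absurd h' hi⟩
  choose k hk using hk
  have key : ∀ i j : ℕ, i ≤ N → j ≤ N → i < j →
      r / 2 * ((j : ℝ) - i) ≤ dist (y (k i)) (y (k j)) ∧
        dist (y (k i)) (y (k j)) ≤ 3 / 2 * r * ((j : ℝ) - i) := by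
    intro i j hi hj hij
    obtain ⟨h1, h2, h3⟩ := hk i hi
    obtain ⟨h4, h5, h6⟩ := hk j hj
    have hij' : (i : ℝ) + 1 ≤ j := by exact_mod_cast hij
    have hkij : k i ≤ k j := by
      by_contra hcon
      push Not at hcon
      have h7 : Btw a (y (k j)) (y (k i)) := hy3 _ _ hcon.le h1
      unfold Btw at h7
      have h8 : 0 ≤ dist (y (k j)) (y (k i)) := dist_nonneg
      nlinarith
    have h7 : Btw a (y (k i)) (y (k j)) := hy3 _ _ hkij h4
    unfold Btw at h7
    constructor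
    · nlinarith
    · nlinarith
  refine ⟨fun i => y (k i), fun i hi => hy2 _ (hk i hi).1, fun i j hi hj => ?_⟩
  rcases lt_trichotomy i j with hij | hij | hij
  · have hij' : (i : ℝ) < j := by exact_mod_cast hij
    rw [abs_sub_comm, abs_of_pos (sub_pos.2 hij')]
    exact key i j hi hj hij
  · subst hij
    simp
  · have hij' : (j : ℝ) < i := by exact_mod_cast hij
    rw [abs_of_pos (sub_pos.2 hij'), dist_comm]
    exact key j i hj hi hij

end MC
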