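import Pool.Agent.Helper42.MC.Defs

/-!
# MC-21: basics of `len`, levels, change of generators

`ev` is surjective: every element of `F ⋊ ℤ` is `inc x * t^m`. The rest is routine
(`FreeGroup.norm_mul_le`, `FreeGroup.norm_inv_eq`). `|lev g| ≤ len g`: each letter changes the level by
at most one. `wl_len`: each generator of one finite set is a word in the other one, take the
maximum of the lengths; `S` finite with closure `⊤`.
-/

namespace MC

variable {n : ℕ} {Φ : MulAut (FreeGroup (Fin n))}

/-- induction over the letters of a word, for length estimates -/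
theorem norm_bound {α : Type*} [DecidableEq α] (F : FreeGroup α → ℕ) (K : ℕ) (h1 : F 1 = 0)
    (h : ∀ (o : α) (b : Bool) (w : FreeGroup α), F (FreeGroup.mk [(o, b)] * w) ≤ K + F w)
    (w : FreeGroup α) : F w ≤ K * w.norm := by
  have key : ∀ L : List (α × Bool), F (FreeGroup.mk L) ≤ K * L.length := by
    intro L
    induction L with
    | nil =>
      have : (FreeGroup.mk [] : FreeGroup α) = 1 := rfl
      rw [this, h1]
      simp
    | cons q L ih =>
      obtain ⟨o, b⟩ := q
      have e : (FreeGroup.mk ((o, b) :: L) : FreeGroup α) =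
          FreeGroup.mk [(o, b)] * FreeGroup.mk L := by
        rw [FreeGroup.mul_mk]
        rfl
      rw [e, List.length_cons, Nat.mul_succ]
      have := h o b (FreeGroup.mk L)
      omega
  have := key w.toWord
  rw [FreeGroup.mk_toWord] at this
  exact this

theorem mk_letter {α : Type*} (o : α) (b : Bool) :
    (FreeGroup.mk [(o, b)] : FreeGroup α) = if b then FreeGroup.of o else (FreeGroup.of o)⁻¹ := by
  cases b <;> rfl

theorem norm_map_le {α β : Type*} [DecidableEq α] [DecidableEq β] (f : α → β)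
    (x : FreeGroup α) : (FreeGroup.map f x).norm ≤ x.norm := by
  have h1 : FreeGroup.map f x = FreeGroup.mk (x.toWord.map fun q => (f q.1, q.2)) := by
    conv_lhs => rw [← FreeGroup.mk_toWord (x := x)]
    rw [FreeGroup.map.mk]
  rw [h1]
  refine FreeGroup.norm_mk_le.trans ?_
  rw [List.length_map]
  exact le_rfl

theorem ev_hz (x : FreeGroup (Fin n)) : ev Φ (hz x) = MT.inc Φ x := by
  have h : (ev Φ).comp hz = MT.inc Φ := by
    apply FreeGroup.ext_hom
    intro i
    simp [ev, hz]
  exact DFunLike.congr_fun h x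

theorem ev_tt : ev Φ tt = MT.t Φ := by
  simp [ev, tt]

theorem norm_hz (x : FreeGroup (Fin n)) : (hz x).norm = x.norm := by
  refine le_antisymm (norm_map_le _ _) ?_
  rcases Nat.eq_zero_or_pos n with h0 | h0
  · subst h0
    have : x = 1 := Subsingleton.elim _ _
    subst this
    simp
  · have h1 : FreeGroup.map (fun o : Option (Fin n) => o.getD ⟨0, h0⟩) (hz x) = x := by
      unfold hz
      rw [FreeGroup.map.comp]
      have : ((fun o : Option (Fin n) => o.getD ⟨0, h0⟩) ∘ some) = id := by
        funext i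
        rfl
      rw [this, FreeGroup.map.id]
    conv_lhs => rw [← h1]
    exact norm_map_le _ _

theorem lev_mul (g h : MT Φ) : MT.lev (g * h) = MT.lev g + MT.lev h := by
  unfold MT.lev
  rw [SemidirectProduct.mul_right, toAdd_mul]

theorem lev_inv (g : MT Φ) : MT.lev g⁻¹ = - MT.lev g := by
  unfold MT.lev
  rw [SemidirectProduct.inv_right, toAdd_inv]

theorem lev_inc (x : FreeGroup (Fin n)) : MT.lev (MT.inc Φ x) = 0 := by
  unfold MT.lev MT.inc
  rw [SemidirectProduct.right_inl, toAdd_one]

theorem lev_t : MT.lev (MT.t Φ) = 1 := by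
  unfold MT.lev MT.t
  rw [SemidirectProduct.right_inr, toAdd_ofAdd]

theorem exists_inc_of_lev_zero {g : MT Φ} (h : MT.lev g = 0) : ∃ x, g = MT.inc Φ x := by
  refine ⟨g.left, ?_⟩
  conv_lhs => rw [← SemidirectProduct.inl_left_mul_inr_right g]
  have h1 : g.right = 1 := by
    apply Multiplicative.toAdd.injective
    exact h
  rw [h1, map_one, mul_one]
  rfl

theorem inc_injective : Function.Injective (MT.inc Φ) := SemidirectProduct.inl_injective

theorem t_zpow (m : ℤ) : MT.t Φ ^ m = SemidirectProduct.inr (Multiplicative.ofAdd m) := by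
  unfold MT.t
  rw [← map_zpow, ← ofAdd_zsmul, smul_eq_mul, mul_one]

theorem exists_inc_mul_t (g : MT Φ) : ∃ x, g = MT.inc Φ x * MT.t Φ ^ (MT.lev g) := by
  refine ⟨g.left, ?_⟩
  rw [t_zpow]
  conv_lhs => rw [← SemidirectProduct.inl_left_mul_inr_right g]
  rfl

theorem t_zpow_conj (m : ℤ) (x : FreeGroup (Fin n)) :
    MT.t Φ ^ m * MT.inc Φ x * (MT.t Φ ^ m)⁻¹ = MT.inc Φ ((Φ ^ m) x) := by
  rw [t_zpow]
  unfold MT.inc
  rw [← map_inv SemidirectProduct.inr, ← SemidirectProduct.inl_aut]
  simp

theorem ev_surjective : Function.Surjective (ev Φ) := by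
  intro g
  obtain ⟨x, hx⟩ := exists_inc_mul_t g
  refine ⟨hz x * tt ^ (MT.lev g), ?_⟩
  rw [map_mul, map_zpow, ev_hz, ev_tt]
  exact hx.symm

theorem exists_word (g : MT Φ) : ∃ w, ev Φ w = g ∧ w.norm = len Φ g := by
  have : len Φ g ∈ {m | ∃ w : FreeGroup (Option (Fin n)), w.norm = m ∧ ev Φ w = g} := by
    apply Nat.sInf_mem
    obtain ⟨w, hw⟩ := ev_surjective g
    exact ⟨w.norm, w, rfl, hw⟩
  obtain ⟨w, h1, h2⟩ := this
  exact ⟨w, h2, h1⟩

theorem len_ev_le (w : FreeGroup (Option (Fin n))) : len Φ (ev Φ w) ≤ w.norm :=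
  Nat.sInf_le ⟨w, rfl, rfl⟩

theorem len_one : len Φ (1 : MT Φ) = 0 := by
  have := len_ev_le (Φ := Φ) 1
  rw [map_one, FreeGroup.norm_one] at this
  omega

theorem len_mul_le (g h : MT Φ) : len Φ (g * h) ≤ len Φ g + len Φ h := by
  obtain ⟨v, hv, hv'⟩ := exists_word g
  obtain ⟨w, hw, hw'⟩ := exists_word h
  rw [← hv', ← hw', ← hv, ← hw, ← map_mul]
  exact (len_ev_le _).trans (FreeGroup.norm_mul_le _ _)

theorem len_inv (g : MT Φ) : len Φ g⁻¹ = len Φ g := by
  have key : ∀ g : MT Φ, len Φ g⁻¹ ≤ len Φ g := by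
    intro g
    obtain ⟨w, hw, hw'⟩ := exists_word g
    rw [← hw', ← hw, ← map_inv, ← FreeGroup.norm_inv_eq]
    exact len_ev_le _
  refine le_antisymm (key g) ?_
  have := key g⁻¹
  rwa [inv_inv] at this

theorem len_inc_le (x : FreeGroup (Fin n)) : len Φ (MT.inc Φ x) ≤ x.norm := by
  rw [← ev_hz, ← norm_hz]
  exact len_ev_le _

theorem lev_le_len (g : MT Φ) : (MT.lev g).natAbs ≤ len Φ g := by
  obtain ⟨w, hw, hw'⟩ := exists_word g
  rw [← hw', ← hw]
  have := norm_bound (fun w => (MT.lev (ev Φ w)).natAbs) 1 ?_ ?_ w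
  · simpa using this
  · have e : MT.lev (1 : MT Φ) = 0 := by
      have := lev_mul (1 : MT Φ) 1
      rw [mul_one] at this
      omega
    simp only [map_one, e, Int.natAbs_zero]
  · intro o b w
    simp only [map_mul, lev_mul]
    have h1 : (MT.lev (ev Φ (FreeGroup.mk [(o, b)]))).natAbs ≤ 1 := by
      rw [mk_letter]
      cases o with
      | none =>
        have e : MT.lev (ev Φ (FreeGroup.of none)) = 1 := by
          have := ev_tt (Φ := Φ)
          unfold tt at this
          rw [this, lev_t]
        cases b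
        · simp [lev_inv, e]
        · simp [e]
      | some i =>
        have e : MT.lev (ev Φ (FreeGroup.of (some i))) = 0 := by
          have := ev_hz (Φ := Φ) (FreeGroup.of i)
          unfold hz at this
          rw [FreeGroup.map.of] at this
          rw [this, lev_inc]
        cases b
        · simp [lev_inv, e]
        · simp [e]
    omega

theorem wl_len {S : Set (MT Φ)} (hf : S.Finite) (hS : Subgroup.closure S = ⊤) :
    ∃ K : ℕ, 0 < K ∧ ∀ g : MT Φ, wl S g ≤ K * len Φ g ∧ len Φ g ≤ K * wl S g := by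
  classical
  set K1 : ℕ := ∑ o : Option (Fin n), wl S (ev Φ (FreeGroup.of o)) with hK1
  obtain ⟨K2, hK2⟩ := (hf.image (len Φ)).bddAbove
  have hK1' : ∀ o : Option (Fin n), wl S (ev Φ (FreeGroup.of o)) ≤ K1 := fun o =>
    Finset.single_le_sum (f := fun o => wl S (ev Φ (FreeGroup.of o))) (fun _ _ => Nat.zero_le _)
      (Finset.mem_univ o)
  refine ⟨K1 + K2 + 1, by omega, fun g => ⟨?_, ?_⟩⟩
  · obtain ⟨w, hw, hw'⟩ := exists_word g
    rw [← hw', ← hw]
    have := norm_bound (fun w => wl S (ev Φ w)) K1 ?_ ?_ w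
    · refine this.trans (Nat.mul_le_mul_right _ (by omega))
    · simp only [map_one, wl_one]
    · intro o b w
      simp only [map_mul]
      refine (wl_mul_le hS _ _).trans (Nat.add_le_add_right ?_ _)
      rw [mk_letter]
      cases b
      · simp only [Bool.false_eq_true, if_false, map_inv]
        rw [wl_inv hS]
        exact hK1' o
      · simp only [if_true]
        exact hK1' o
  · obtain ⟨l, h1, h2, h3⟩ := exists_wl hS g
    rw [← h1, ← h3]
    have key : ∀ l : List (MT Φ), (∀ x ∈ l, x ∈ S ∨ x⁻¹ ∈ S) →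
        len Φ l.prod ≤ K2 * l.length := by
      intro l
      induction l with
      | nil => intro _; simp [len_one]
      | cons x l ih =>
        intro hl
        rw [List.prod_cons, List.length_cons, Nat.mul_succ]
        have h4 := ih fun y hy => hl y (List.mem_cons_of_mem _ hy)
        have h5 : len Φ x ≤ K2 := by
          rcases hl x (List.mem_cons_self) with hx | hx
          · exact hK2 ⟨x, hx, rfl⟩
          · rw [← len_inv]
            exact hK2 ⟨_, hx, rfl⟩
        have := len_mul_le x l.prod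
        omega
    exact (key l h2).trans (Nat.mul_le_mul_right _ (by omega))

end MC
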