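import Pool.Agent.Helper42.MC.Defs
import Pool.Agent.Helper83.OP.Inc

/-!
# MC-14: plane topology

Tools: argument increments, `Pool/Agent/Helper83/OP/Inc.lean` (`IsInc`, `inc_exists`, `inc_unique`,
`inc_square`), import it if useful; or use `Complex.log`/lifts directly.

Identify `ℝ × ℝ` with `ℂ`. Bad lines: `x ∈ X`, `y ∈ Y`. The diagonal `{s z}` is neither vertical nor
horizontal, so it meets the bad lines in a countable set: choose `s₀ ∈ (-1,1)` such that `q = s₀ z` is on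
no bad line. Let `γ` be the path `(-1,0) → (-1,1) → (1,1) → (1,0)` (the other three sides); `φ ∘ γ` is
compact and does not contain `q`: for `t > 0` it is in the bad lines, the end points are `∓z ≠ q`. So a
ball `B(q,ρ)` is disjoint from `φ ∘ γ`. For `η ∈ (0, ρ')` outside a countable set the two points
`y_± = q ± i η z` are on no bad line (the line `q + i ℝ z` is neither vertical nor horizontal either),
and they are not on the diagonal. So `φ - y_±` has no zero on the whole closed rectangle, and by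
`inc_square` the argument increment of `φ - y_±` along the bottom side (the segment from `-z` to `z`)
equals that along `γ`. The increments of the segment around `y_+` and `y_-` have opposite signs and
absolute value `→ π` as `η → 0` (it is the angle of the triangle: `arctan((1-s₀)/η)+arctan((1+s₀)/η)`),
so they differ by more than `π` for `η` small. The increments along `γ` differ by the
increment of `(φ-y_+)/(φ-y_-) = 1 - (y_+ - y_-)/(φ - y_-)`, which stays in the disc of radius `1/2` around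
`1` for `η` small, so it is less than `π` in absolute value. Contradiction.
-/

open Set

namespace MC

open Pool.Agent.Helper83.OP (IsInc inc_square)

private lemma pt_inc_of_re_pos (g : ℝ → ℂ) (hg : ContinuousOn g (Icc 0 1))
    (hre : ∀ t ∈ Icc (0 : ℝ) 1, 0 < (g t).re) :
    IsInc g (Complex.arg (g 1) - Complex.arg (g 0)) := by
  refine ⟨fun t => Complex.arg (g t), ?_, fun t _ => ?_, rfl⟩
  · intro t ht
    have h1 : g t ∈ Complex.slitPlane := Or.inl (hre t ht)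
    exact (Complex.continuousAt_arg h1).comp_continuousWithinAt (hg t ht)
  · exact (Complex.norm_mul_exp_arg_mul_I (g t)).symm

private lemma pt_arg_small {x η : ℝ} (hη : 0 < η) (hx : 2 * η ≤ x) :
    Complex.arg (x + η * Complex.I) ≤ Real.pi / 6 := by
  have hre : ((x : ℂ) + η * Complex.I).re = x := by simp
  have him : ((x : ℂ) + η * Complex.I).im = η := by simp
  have hx0 : 0 < x := by linarith
  rw [Complex.arg_of_re_nonneg (by rw [hre]; exact hx0.le), him]
  have hnorm : 2 * η ≤ ‖(x : ℂ) + η * Complex.I‖ := by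
    have := Complex.abs_re_le_norm ((x : ℂ) + η * Complex.I)
    rw [hre, abs_of_pos hx0] at this
    linarith
  have hn0 : 0 < ‖(x : ℂ) + η * Complex.I‖ := by linarith
  rw [Real.arcsin_le_iff_le_sin' ⟨by linarith [Real.pi_pos], by linarith [Real.pi_pos]⟩,
    Real.sin_pi_div_six, div_le_iff₀ hn0]
  linarith

private lemma pt_arg_large {x η : ℝ} (hη : 0 < η) (hx : 2 * η ≤ x) :
    5 * Real.pi / 6 ≤ Complex.arg (-x + η * Complex.I) := by
  have hre : (-(x : ℂ) + η * Complex.I).re = -x := by simp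
  have him : (-(x : ℂ) + η * Complex.I).im = η := by simp
  have hx0 : 0 < x := by linarith
  rw [Complex.arg_of_re_neg_of_im_nonneg (by rw [hre]; linarith) (by rw [him]; exact hη.le)]
  have hnorm : 2 * η ≤ ‖-(x : ℂ) + η * Complex.I‖ := by
    have := Complex.abs_re_le_norm (-(x : ℂ) + η * Complex.I)
    rw [hre, abs_neg, abs_of_pos hx0] at this
    linarith
  have hn0 : 0 < ‖-(x : ℂ) + η * Complex.I‖ := by linarith
  have h1 : -(Real.pi / 6) ≤ Real.arcsin ((-(-(x : ℂ) + η * Complex.I)).im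
      / ‖-(x : ℂ) + η * Complex.I‖) := by
    rw [Complex.neg_im, him, Real.le_arcsin_iff_sin_le'
      ⟨by linarith [Real.pi_pos], by linarith [Real.pi_pos]⟩, Real.sin_neg,
      Real.sin_pi_div_six, le_div_iff₀ hn0]
    linarith
  linarith

private lemma pt_core (F : ℝ → ℝ → ℂ)
    (hF : ContinuousOn (fun p : ℝ × ℝ => F p.1 p.2) (Icc (0 : ℝ) 1 ×ˢ Icc (0 : ℝ) 1))
    (s₀ η : ℝ) (hη : 0 < η) (hs1 : 2 * η ≤ 1 - s₀) (hs2 : 2 * η ≤ 1 + s₀)
    (hbot : ∀ s ∈ Icc (0 : ℝ) 1, F s 0 = ((2 * s - 1 : ℝ) : ℂ))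
    (ha : ∀ s ∈ Icc (0 : ℝ) 1, ∀ t ∈ Icc (0 : ℝ) 1, F s t - (s₀ + η * Complex.I) ≠ 0)
    (hb : ∀ s ∈ Icc (0 : ℝ) 1, ∀ t ∈ Icc (0 : ℝ) 1, F s t - (s₀ - η * Complex.I) ≠ 0)
    (hl : ∀ t ∈ Icc (0 : ℝ) 1,
      0 < ((F 0 t - (s₀ + η * Complex.I)) / (F 0 t - (s₀ - η * Complex.I))).re)
    (hr : ∀ t ∈ Icc (0 : ℝ) 1,
      0 < ((F 1 t - (s₀ + η * Complex.I)) / (F 1 t - (s₀ - η * Complex.I))).re)
    (ht : ∀ s ∈ Icc (0 : ℝ) 1,
      0 < ((F s 1 - (s₀ + η * Complex.I)) / (F s 1 - (s₀ - η * Complex.I))).re) : False := by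
  have m0 : (0 : ℝ) ∈ Icc (0 : ℝ) 1 := ⟨le_refl _, zero_le_one⟩
  have m1 : (1 : ℝ) ∈ Icc (0 : ℝ) 1 := ⟨zero_le_one, le_refl _⟩
  set h : ℝ → ℝ → ℂ := fun s t =>
    (F s t - (s₀ + η * Complex.I)) / (F s t - (s₀ - η * Complex.I)) with hh
  have hhc : ContinuousOn (fun p : ℝ × ℝ => h p.1 p.2) (Icc (0 : ℝ) 1 ×ˢ Icc (0 : ℝ) 1) := by
    refine ContinuousOn.div (hF.sub continuousOn_const) (hF.sub continuousOn_const) ?_
    intro p hp
    exact hb p.1 hp.1 p.2 hp.2
  have hh0 : ∀ s ∈ Icc (0 : ℝ) 1, ∀ t ∈ Icc (0 : ℝ) 1, h s t ≠ 0 := fun s hs t ht' =>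
    div_ne_zero (ha s hs t ht') (hb s hs t ht')
  have cl : ContinuousOn (fun t => h 0 t) (Icc 0 1) :=
    hhc.comp (f := fun t : ℝ => ((0 : ℝ), t)) (by fun_prop) (fun t ht' => ⟨m0, ht'⟩)
  have cr : ContinuousOn (fun t => h 1 t) (Icc 0 1) :=
    hhc.comp (f := fun t : ℝ => ((1 : ℝ), t)) (by fun_prop) (fun t ht' => ⟨m1, ht'⟩)
  have ct : ContinuousOn (fun s => h s 1) (Icc 0 1) :=
    hhc.comp (f := fun s : ℝ => (s, (1 : ℝ))) (by fun_prop) (fun s hs => ⟨hs, m1⟩)
  have il := pt_inc_of_re_pos (fun t => h 0 t) cl hl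
  have ir := pt_inc_of_re_pos (fun t => h 1 t) cr hr
  have it := pt_inc_of_re_pos (fun s => h s 1) ct ht
  -- the bottom side
  let w : ℝ → ℂ := fun s => ((2 * s - 1 - s₀ : ℝ) : ℂ) + η * Complex.I
  have hwim : ∀ s, (w s).im = η := fun s => by simp [w]
  have hw0 : ∀ s, w s ≠ 0 := fun s h0 => by
    have := hwim s
    rw [h0, Complex.zero_im] at this
    exact hη.ne this
  have hwc : Continuous w := by fun_prop
  have ib : IsInc (fun s => h s 0) ((-2) * Complex.arg (w 1) - (-2) * Complex.arg (w 0)) := by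
    refine ⟨fun s => (-2) * Complex.arg (w s), ?_, ?_, rfl⟩
    · refine Continuous.continuousOn ?_
      refine continuous_const.mul ?_
      rw [continuous_iff_continuousAt]
      intro s
      have h1 : w s ∈ Complex.slitPlane := Or.inr (by rw [hwim]; exact hη.ne')
      exact (Complex.continuousAt_arg h1).comp hwc.continuousAt
    · intro s hs
      have e1 : h s 0 = (starRingEnd ℂ) (w s) / w s := by
        simp only [hh, w]
        rw [hbot s hs]
        simp only [map_add, map_mul, Complex.conj_ofReal, Complex.conj_I]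
        push_cast
        congr 1 <;> ring
      have e2 : ‖h s 0‖ = 1 := by
        rw [e1, norm_div, Complex.norm_conj, div_self (norm_ne_zero_iff.mpr (hw0 s))]
      have e3 := Complex.norm_mul_exp_arg_mul_I (w s)
      have e4 : (starRingEnd ℂ) (w s)
          = (‖w s‖ : ℂ) * Complex.exp (-(Complex.arg (w s) * Complex.I)) := by
        conv_lhs => rw [← e3]
        rw [map_mul, Complex.conj_ofReal, ← Complex.exp_conj, map_mul, Complex.conj_ofReal,
          Complex.conj_I, mul_neg]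
      show h s 0 = (‖h s 0‖ : ℂ) * Complex.exp (((-2 * Complex.arg (w s) : ℝ) : ℂ) * Complex.I)
      rw [e2, e1]
      have hn : (‖w s‖ : ℂ) ≠ 0 := by
        rw [Complex.ofReal_ne_zero]; exact norm_ne_zero_iff.mpr (hw0 s)
      rw [div_eq_iff (hw0 s), e4]
      nth_rewrite 4 [← e3]
      push_cast
      have e5 : Complex.exp (-2 * ↑(w s).arg * Complex.I)
          * Complex.exp (↑(w s).arg * Complex.I) = Complex.exp (-(↑(w s).arg * Complex.I)) := by
        rw [← Complex.exp_add]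
        congr 1
        ring
      rw [← e5]
      ring
  have key := inc_square h hhc hh0 _ _ _ _ ib ir it il
  have b1 := (Complex.abs_arg_lt_pi_div_two_iff.mpr (Or.inl (hr 0 m0)))
  have b2 := (Complex.abs_arg_lt_pi_div_two_iff.mpr (Or.inl (hl 0 m0)))
  have b3 := (abs_lt.mp b1).2
  have b4 := (abs_lt.mp b2).1
  have k1 : Complex.arg (w 1) ≤ Real.pi / 6 := by
    have : w 1 = ((1 - s₀ : ℝ) : ℂ) + η * Complex.I := by
      simp only [w]; norm_num
    rw [this]
    exact pt_arg_small hη hs1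
  have k2 : 5 * Real.pi / 6 ≤ Complex.arg (w 0) := by
    have : w 0 = -((1 + s₀ : ℝ) : ℂ) + η * Complex.I := by
      simp only [w]; push_cast; ring
    rw [this]
    exact pt_arg_large hη hs2
  have hpi := Real.pi_pos
  simp only [hh] at key b3 b4
  linarith

private lemma pt_countable_pre (X : Set ℝ) (hX : X.Countable) (a b : ℝ) (ha : a ≠ 0) :
    {s : ℝ | b + s * a ∈ X}.Countable := by
  refine (hX.preimage (f := fun s : ℝ => b + s * a) ?_)
  intro s t hst
  have h1 : s * a = t * a := add_left_cancel hst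
  exact mul_right_cancel₀ ha h1

private lemma pt_pick (B : Set ℝ) (hB : B.Countable) (a b : ℝ) (hab : a < b) :
    ∃ s, a < s ∧ s < b ∧ s ∉ B := by
  have hd : Dense Bᶜ := hB.dense_compl ℝ
  obtain ⟨s, hs, hs'⟩ := hd.exists_between hab
  exact ⟨s, hs'.1, hs'.2, hs⟩

theorem planeTop (z : ℝ × ℝ) (hz1 : z.1 ≠ 0) (hz2 : z.2 ≠ 0) (φ : ℝ × ℝ → ℝ × ℝ)
    (hφ : ContinuousOn φ (Icc (-1) 1 ×ˢ Icc 0 1)) (h0 : ∀ s ∈ Icc (-1 : ℝ) 1, φ (s, 0) = s • z)
    (X Y : Set ℝ) (hX : X.Countable) (hY : Y.Countable)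
    (h1 : ∀ s ∈ Icc (-1 : ℝ) 1, ∀ t ∈ Ioc (0 : ℝ) 1, (φ (s, t)).1 ∈ X ∨ (φ (s, t)).2 ∈ Y) :
    False := by
  -- the point `q = s₀ z`
  obtain ⟨s₀, hs0a, hs0b, hs0⟩ := pt_pick
    ({s | 0 + s * z.1 ∈ X} ∪ {s | 0 + s * z.2 ∈ Y})
    ((pt_countable_pre X hX _ _ hz1).union (pt_countable_pre Y hY _ _ hz2)) (-1) 1 (by norm_num)
  have hs0X : s₀ * z.1 ∉ X := fun h => hs0 (Or.inl (by simpa using h))
  have hs0Y : s₀ * z.2 ∉ Y := fun h => hs0 (Or.inr (by simpa using h))
  -- complex coordinates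
  let Z : ℂ := ⟨z.1, z.2⟩
  have hZ : Z ≠ 0 := by
    intro h
    exact hz1 (by have := congrArg Complex.re h; simpa [Z] using this)
  let c : ℝ × ℝ → ℂ := fun p => (⟨p.1, p.2⟩ : ℂ) / Z
  have hcc : Continuous c := by
    refine Continuous.div_const ?_ _
    have : (fun p : ℝ × ℝ => (⟨p.1, p.2⟩ : ℂ)) = fun p => (p.1 : ℂ) + p.2 * Complex.I := by
      funext p; apply Complex.ext <;> simp
    rw [this]
    fun_prop
  have hcval : ∀ (p : ℝ × ℝ) (x y : ℝ), c p = x + y * Complex.I →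
      p.1 = x * z.1 - y * z.2 ∧ p.2 = x * z.2 + y * z.1 := by
    intro p x y h
    have h2 : (⟨p.1, p.2⟩ : ℂ) = (x + y * Complex.I) * Z := by
      rw [← h, div_mul_cancel₀ _ hZ]
    constructor
    · have := congrArg Complex.re h2
      simpa [Z] using this
    · have := congrArg Complex.im h2
      simpa [Z] using this
  have hcz : ∀ s : ℝ, c (s • z) = (s : ℂ) := by
    intro s
    show (⟨(s • z).1, (s • z).2⟩ : ℂ) / Z = s
    rw [div_eq_iff hZ]
    apply Complex.ext <;> simp [Z]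
  let F : ℝ → ℝ → ℂ := fun s t => c (φ (2 * s - 1, t))
  have hmem : ∀ s ∈ Icc (0 : ℝ) 1, 2 * s - 1 ∈ Icc (-1 : ℝ) 1 := by
    intro s hs
    constructor <;> linarith [hs.1, hs.2]
  have hF : ContinuousOn (fun p : ℝ × ℝ => F p.1 p.2) (Icc (0 : ℝ) 1 ×ˢ Icc (0 : ℝ) 1) := by
    refine hcc.comp_continuousOn ?_
    refine hφ.comp (f := fun p : ℝ × ℝ => (2 * p.1 - 1, p.2)) (by fun_prop) ?_
    intro p hp
    exact ⟨hmem p.1 hp.1, hp.2⟩
  have hbot : ∀ s ∈ Icc (0 : ℝ) 1, F s 0 = ((2 * s - 1 : ℝ) : ℂ) := by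
    intro s hs
    show c (φ (2 * s - 1, 0)) = _
    rw [h0 _ (hmem s hs), hcz]
  -- avoiding a point `x + i y`
  have havoid : ∀ x y : ℝ, x * z.1 - y * z.2 ∉ X → x * z.2 + y * z.1 ∉ Y →
      ∀ s ∈ Icc (0 : ℝ) 1, ∀ t ∈ Icc (0 : ℝ) 1, F s t = x + y * Complex.I → t = 0 := by
    intro x y hx hy s hs t ht h
    by_contra hne
    have ht' : t ∈ Ioc (0 : ℝ) 1 := ⟨lt_of_le_of_ne ht.1 (Ne.symm hne), ht.2⟩
    obtain ⟨e1, e2⟩ := hcval _ x y h
    rcases h1 _ (hmem s hs) t ht' with h3 | h3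
    · exact hx (by rwa [← e1])
    · exact hy (by rwa [← e2])
  have m0 : (0 : ℝ) ∈ Icc (0 : ℝ) 1 := ⟨le_refl _, zero_le_one⟩
  have m1 : (1 : ℝ) ∈ Icc (0 : ℝ) 1 := ⟨zero_le_one, le_refl _⟩
  -- the three other sides stay away from `s₀`
  let K : Set ℂ := (fun t => F 0 t) '' Icc 0 1 ∪ (fun t => F 1 t) '' Icc 0 1
    ∪ (fun s => F s 1) '' Icc 0 1
  have hKc : IsCompact K := by
    refine ((isCompact_Icc.image_of_continuousOn ?_).union
      (isCompact_Icc.image_of_continuousOn ?_)).union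
      (isCompact_Icc.image_of_continuousOn ?_)
    · exact hF.comp (f := fun t : ℝ => ((0 : ℝ), t)) (by fun_prop) (fun t ht' => ⟨m0, ht'⟩)
    · exact hF.comp (f := fun t : ℝ => ((1 : ℝ), t)) (by fun_prop) (fun t ht' => ⟨m1, ht'⟩)
    · exact hF.comp (f := fun s : ℝ => (s, (1 : ℝ))) (by fun_prop) (fun s hs => ⟨hs, m1⟩)
  have hs0K : ((s₀ : ℝ) : ℂ) ∉ K := by
    have hav := havoid s₀ 0 (by simpa using hs0X) (by simpa using hs0Y)
    rintro ((⟨t, ht, h⟩ | ⟨t, ht, h⟩) | ⟨s, hs, h⟩)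
    · have h2 : F 0 t = (s₀ : ℂ) + ((0 : ℝ) : ℂ) * Complex.I := by simpa using h
      have h3 := hav 0 m0 t ht h2
      rw [h3, hbot 0 m0] at h2
      have := congrArg Complex.re h2
      simp at this
      linarith
    · have h2 : F 1 t = (s₀ : ℂ) + ((0 : ℝ) : ℂ) * Complex.I := by simpa using h
      have h3 := hav 1 m1 t ht h2
      rw [h3, hbot 1 m1] at h2
      have := congrArg Complex.re h2
      simp at this
      linarith
    · have h2 : F s 1 = (s₀ : ℂ) + ((0 : ℝ) : ℂ) * Complex.I := by simpa using h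
      have h3 := hav s hs 1 m1 h2
      norm_num at h3
  obtain ⟨ρ, hρ, hball⟩ := Metric.isOpen_iff.mp hKc.isClosed.isOpen_compl (s₀ : ℂ) hs0K
  have hfar : ∀ v ∈ K, ρ ≤ ‖v - s₀‖ := by
    intro v hv
    by_contra hlt
    push Not at hlt
    have : v ∈ Metric.ball (s₀ : ℂ) ρ := by rw [Metric.mem_ball, dist_eq_norm]; exact hlt
    exact hball this hv
  -- choose `η`
  have hη₁ : 0 < min (min ((1 - s₀) / 2) ((1 + s₀) / 2)) (ρ / 4) := by
    refine lt_min (lt_min ?_ ?_) ?_ <;> linarith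
  obtain ⟨η, hη0, hη1, hηB⟩ := pt_pick
    (({η | s₀ * z.1 + η * (-z.2) ∈ X} ∪ {η | s₀ * z.2 + η * z.1 ∈ Y}) ∪
      ({η | s₀ * z.1 + η * z.2 ∈ X} ∪ {η | s₀ * z.2 + η * (-z.1) ∈ Y}))
    (((pt_countable_pre X hX _ _ (neg_ne_zero.mpr hz2)).union
      (pt_countable_pre Y hY _ _ hz1)).union
      ((pt_countable_pre X hX _ _ hz2).union
      (pt_countable_pre Y hY _ _ (neg_ne_zero.mpr hz1)))) 0 _ hη₁
  have hηa : η < (1 - s₀) / 2 := lt_of_lt_of_le hη1 ((min_le_left _ _).trans (min_le_left _ _))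
  have hηb : η < (1 + s₀) / 2 := lt_of_lt_of_le hη1 ((min_le_left _ _).trans (min_le_right _ _))
  have hηc : η < ρ / 4 := lt_of_lt_of_le hη1 (min_le_right _ _)
  have n1 : s₀ * z.1 - η * z.2 ∉ X := fun h => hηB (Or.inl (Or.inl (by
    show s₀ * z.1 + η * (-z.2) ∈ X
    rwa [mul_neg, ← sub_eq_add_neg])))
  have n2 : s₀ * z.2 + η * z.1 ∉ Y := fun h => hηB (Or.inl (Or.inr h))
  have n3 : s₀ * z.1 - (-η) * z.2 ∉ X := fun h => hηB (Or.inr (Or.inl (by
    show s₀ * z.1 + η * z.2 ∈ X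
    rwa [neg_mul, sub_neg_eq_add] at h)))
  have n4 : s₀ * z.2 + (-η) * z.1 ∉ Y := fun h => hηB (Or.inr (Or.inr (by
    show s₀ * z.2 + η * (-z.1) ∈ Y
    rwa [neg_mul, ← mul_neg] at h)))
  have hne : ∀ y : ℝ, y ≠ 0 → s₀ * z.1 - y * z.2 ∉ X → s₀ * z.2 + y * z.1 ∉ Y →
      ∀ s ∈ Icc (0 : ℝ) 1, ∀ t ∈ Icc (0 : ℝ) 1, F s t ≠ (s₀ : ℂ) + (y : ℂ) * Complex.I := by
    intro y hy hX' hY' s hs t ht h
    have h3 := havoid s₀ y hX' hY' s hs t ht h
    rw [h3, hbot s hs] at h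
    have := congrArg Complex.im h
    simp at this
    exact hy this.symm
  have ha : ∀ s ∈ Icc (0 : ℝ) 1, ∀ t ∈ Icc (0 : ℝ) 1, F s t - (s₀ + η * Complex.I) ≠ 0 :=
    fun s hs t ht => sub_ne_zero.mpr (hne η hη0.ne' n1 n2 s hs t ht)
  have hb : ∀ s ∈ Icc (0 : ℝ) 1, ∀ t ∈ Icc (0 : ℝ) 1, F s t - (s₀ - η * Complex.I) ≠ 0 := by
    intro s hs t ht
    have := hne (-η) (neg_ne_zero.mpr hη0.ne') n3 n4 s hs t ht
    rw [sub_ne_zero]
    intro h
    apply this
    rw [h]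
    push_cast
    ring
  -- positivity of the real part on the three sides
  have hpos : ∀ v ∈ K, v - (s₀ - η * Complex.I) ≠ 0 →
      0 < ((v - (s₀ + η * Complex.I)) / (v - (s₀ - η * Complex.I))).re := by
    intro v hv hvb
    have h2 := hfar v hv
    have hI : ‖(η : ℂ) * Complex.I‖ = η := by
      rw [norm_mul, Complex.norm_I, mul_one, Complex.norm_real, Real.norm_of_nonneg hη0.le]
    have h3 : ρ - η ≤ ‖v - (s₀ - η * Complex.I)‖ := by
      have h4 : v - (s₀ : ℂ) = (v - (s₀ - η * Complex.I)) - η * Complex.I := by ring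
      have h5 : ‖v - (s₀ : ℂ)‖ ≤ ‖v - (s₀ - η * Complex.I)‖ + ‖(η : ℂ) * Complex.I‖ := by
        rw [h4]; exact norm_sub_le _ _
      rw [hI] at h5
      linarith
    have h6 : (v - (s₀ + η * Complex.I)) / (v - (s₀ - η * Complex.I))
        = 1 - 2 * (η * Complex.I) / (v - (s₀ - η * Complex.I)) := by
      field_simp
      ring
    have h7 : ‖2 * (η * Complex.I) / (v - (s₀ - η * Complex.I))‖ < 1 := by
      have h8 : 0 < ‖v - (s₀ - η * Complex.I)‖ := norm_pos_iff.mpr hvb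
      rw [norm_div, norm_mul, hI, div_lt_one h8]
      have : ‖(2 : ℂ)‖ = 2 := by simp
      rw [this]
      linarith
    rw [h6, Complex.sub_re, Complex.one_re]
    have h9 := (Complex.abs_re_le_norm (2 * (η * Complex.I) / (v - (s₀ - η * Complex.I))))
    have h10 := (abs_le.mp h9).2
    linarith
  refine pt_core F hF s₀ η hη0 (by linarith) (by linarith) hbot ha hb ?_ ?_ ?_
  · intro t ht
    exact hpos _ (Or.inl (Or.inl ⟨t, ht, rfl⟩)) (hb 0 m0 t ht)
  · intro t ht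
    exact hpos _ (Or.inl (Or.inr ⟨t, ht, rfl⟩)) (hb 1 m1 t ht)
  · intro s hs
    exact hpos _ (Or.inr ⟨s, hs, rfl⟩) (hb s hs 1 m1)

end MC
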