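import Pool.Agent.Helper42.MC.TwoDir
import Pool.Agent.Helper42.MC.CountLines
import Pool.Agent.Helper42.MC.PlaneTop

/-!
# Median side: a rank two median space contains no flat with transversal half-planes in three directions
-/

open Set

namespace MC

variable {M : Type*} [MetricSpace M]

theorem exists_transversal (A : (ℝ × ℝ) ≃ₗ[ℝ] (ℝ × ℝ)) (z : Fin 3 → ℝ × ℝ)
    (hz : ∀ i j, i ≠ j → (z i).1 * (z j).2 ≠ (z i).2 * (z j).1) :
    ∃ i, (A.symm (z i)).1 ≠ 0 ∧ (A.symm (z i)).2 ≠ 0 := by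
  -- two vectors with the same vanishing coordinate are parallel
  have par : ∀ i j : Fin 3, i ≠ j → ∀ u v : ℝ × ℝ, A.symm (z i) = u → A.symm (z j) = v →
      ¬ (∃ α β : ℝ, (α ≠ 0 ∨ β ≠ 0) ∧ α • u = β • v) := by
    rintro i j hij u v rfl rfl ⟨α, β, hαβ, h⟩
    have h1 : α • z i = β • z j := by
      have := congrArg A h
      simpa using this
    have h2 : α * (z i).1 = β * (z j).1 := by simpa using congrArg Prod.fst h1
    have h3 : α * (z i).2 = β * (z j).2 := by simpa using congrArg Prod.snd h1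
    apply hz i j hij
    rcases hαβ with ha | hb
    · have : α * ((z i).1 * (z j).2) = α * ((z i).2 * (z j).1) := by
        calc α * ((z i).1 * (z j).2) = (α * (z i).1) * (z j).2 := by ring
          _ = β * (z j).1 * (z j).2 := by rw [h2]
          _ = (α * (z i).2) * (z j).1 := by rw [h3]; ring
          _ = α * ((z i).2 * (z j).1) := by ring
      exact mul_left_cancel₀ ha this
    · have : β * ((z i).1 * (z j).2) = β * ((z i).2 * (z j).1) := by
        calc β * ((z i).1 * (z j).2) = (z i).1 * (β * (z j).2) := by ring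
          _ = (z i).1 * (α * (z i).2) := by rw [h3]
          _ = (z i).2 * (α * (z i).1) := by ring
          _ = (z i).2 * (β * (z j).1) := by rw [h2]
          _ = β * ((z i).2 * (z j).1) := by ring
      exact mul_left_cancel₀ hb this
  have ne0 : ∀ i, A.symm (z i) ≠ 0 := by
    intro i h0
    have hzi : z i = 0 := by
      have := congrArg A h0
      simpa using this
    obtain ⟨j, hj⟩ : ∃ j : Fin 3, i ≠ j := by
      fin_cases i
      · exact ⟨1, by decide⟩
      · exact ⟨0, by decide⟩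
      · exact ⟨0, by decide⟩
    apply hz i j hj
    rw [hzi]; simp
  have key1 : ∀ i j : Fin 3, i ≠ j → (A.symm (z i)).1 = 0 → (A.symm (z j)).1 ≠ 0 := by
    intro i j hij h1 h2
    refine par i j hij _ _ rfl rfl ⟨(A.symm (z j)).2, (A.symm (z i)).2, ?_, ?_⟩
    · right
      intro h3
      exact ne0 i (Prod.ext h1 h3)
    · ext
      · simp [h1, h2]
      · simp [mul_comm]
  have key2 : ∀ i j : Fin 3, i ≠ j → (A.symm (z i)).2 = 0 → (A.symm (z j)).2 ≠ 0 := by
    intro i j hij h1 h2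
    refine par i j hij _ _ rfl rfl ⟨(A.symm (z j)).1, (A.symm (z i)).1, ?_, ?_⟩
    · right
      intro h3
      exact ne0 i (Prod.ext h3 h1)
    · ext
      · simp [mul_comm]
      · simp [h1, h2]
  by_contra hcon
  push Not at hcon
  -- pigeonhole
  have c0 := hcon 0
  have c1 := hcon 1
  have c2 := hcon 2
  by_cases h0 : (A.symm (z 0)).1 = 0
  · have h1 := key1 0 1 (by decide) h0
    have h2 := key1 0 2 (by decide) h0
    exact key2 1 2 (by decide) (c1 h1) (c2 h2)
  · have h0' := c0 h0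
    by_cases h1 : (A.symm (z 1)).1 = 0
    · have h2 := key1 1 2 (by decide) h1
      exact key2 0 2 (by decide) h0' (c2 h2)
    · exact key2 0 1 (by decide) h0' (c1 h1)

theorem median_side (hM : IsMedian M) (hR : Rank2 M) {E : ℝ × ℝ → M} {L : ℝ} (hE : Flat E L)
    (z : Fin 3 → ℝ × ℝ) (hz : ∀ i j, i ≠ j → (z i).1 * (z j).2 ≠ (z i).2 * (z j).1)
    (H : Fin 3 → ℝ → ℝ → M)
    (hc : ∀ i, ContinuousOn (fun q : ℝ × ℝ => H i q.1 q.2) (Icc (-1) 1 ×ˢ Icc 0 1))
    (h0 : ∀ i, ∀ s ∈ Icc (-1 : ℝ) 1, H i s 0 = E (s • z i))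
    (h1 : ∀ i, ∀ s ∈ Icc (-1 : ℝ) 1, ∀ t ∈ Ioc (0 : ℝ) 1, ∀ u, H i s t ≠ E u) : False := by
  obtain ⟨A, L', hF, hA⟩ := twoDir hM hR hE
  obtain ⟨i, hi1, hi2⟩ := exists_transversal A z hz
  obtain ⟨φ, X, Y, hX, hY, hφ, hφ0, hφ1⟩ := countLines hM hR hF hA (A.symm (z i)) (H i) (hc i)
    (by
      intro s hs
      rw [h0 i s hs]
      simp)
    (by
      intro s hs t ht u
      exact h1 i s hs t ht _)
  exact planeTop _ hi1 hi2 φ hφ hφ0 X Y hX hY hφ1

end MC
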