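import Pool.Agent.Helper42.MC.Defs

/-!
# MC-17: chains and boxes in ultralimits; bilipschitz invariance

`ul_chains`: representatives `x k, y k`; for every `k` a chain `c k : ℕ → X`. The points
`[k ↦ c k i]` (`i ≤ n`, and `y` for `i > n`) are admissible (`dist (x k) (c k i) ≤ i (|K| dist (x k)(y k)/n + |A|)`,
and `|A|/|s k| → 0`), and the steps pass to the limit.

`ul_noBox`: given `L`, take `N, R₀` for `2L`. Suppose `f : Box (UL ..) L N R`, `R > 0`; representatives
`F p : USeq`. For `p ≠ q` in the cube (finitely many pairs) `R/(2L) D < dist (f p) (f q) < 2 L R D`, so for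
`ω`-almost all `k`: `R |s k|/(2L) D ≤ dist (F p k) (F q k) ≤ 2 L R |s k| D` (for `p = q` both sides are `0`),
i.e. `Box X (2L) N (R |s k|)`, and `R |s k| > R₀` for almost all `k`. Contradiction.
(Outside the cube the map can be anything.)

`bilip_chains`: image of a chain; new constant `K * K'^2` (with `0 ≤ K`).
`bilip_noBox`: a box in `M` with constant `L`, pulled back by surjectivity, gives a box in `X` with
constant `L * K'` (`K' ≥ 1`).
-/

open Filter Topology Set

namespace MC

theorem ul_chains {X : Type*} [PseudoMetricSpace X] {K A : ℝ} (h : Chains X K A)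
    {ω : Ultrafilter ℕ} {s : ℕ → ℝ} (hs : Tendsto s (ω : Filter ℕ) atTop) (p : ℕ → X) :
    Chains (UL ω X s p) K 0 := by
  intro X' Y' n hn
  obtain ⟨x, rfl⟩ := UL.mk_surjective X'
  obtain ⟨y, rfl⟩ := UL.mk_surjective Y'
  choose c hc0 hcn hc using fun k => h (x.val k) (y.val k) n hn
  have hA : Tendsto (fun k => A / |s k|) (ω : Filter ℕ) (𝓝 0) :=
    (tendsto_const_nhds (x := A)).div_atTop (tendsto_abs_atTop_atTop.comp hs)
  -- the steps, rescaled
  have hstep : ∀ i < n, ∀ k, dist (c k i) (c k (i + 1)) / |s k| ≤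
      K * (dist (x.val k) (y.val k) / |s k|) / n + A / |s k| := by
    intro i hi k
    have h1 := hc k i hi
    calc dist (c k i) (c k (i + 1)) / |s k|
        ≤ (K * dist (x.val k) (y.val k) / n + A) / |s k| := by gcongr
      _ = K * (dist (x.val k) (y.val k) / |s k|) / n + A / |s k| := by
          rw [add_div]
          congr 1
          ring
  have hbnd : ∀ i ≤ n, ∃ C : ℝ, ∀ᶠ k in (ω : Filter ℕ), dist (p k) (c k i) / |s k| ≤ C := by
    intro i
    induction i with
    | zero =>
      intro _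
      obtain ⟨C, hC⟩ := x.bdd
      refine ⟨C, ?_⟩
      filter_upwards [hC] with k hk
      rw [hc0]
      exact hk
    | succ i ih =>
      intro hi
      obtain ⟨C, hC⟩ := ih (by omega)
      obtain ⟨D, hD⟩ := x.bdd₂ y
      have hA1 : ∀ᶠ k in (ω : Filter ℕ), A / |s k| ≤ 1 :=
        (hA.eventually (eventually_le_nhds zero_lt_one))
      refine ⟨C + (|K| * D / n + 1), ?_⟩
      filter_upwards [hC, hD, hA1] with k h1 h2 h3
      have h4 := hstep i (by omega) k
      calc dist (p k) (c k (i + 1)) / |s k|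
          ≤ (dist (p k) (c k i) + dist (c k i) (c k (i + 1))) / |s k| := by
            gcongr
            exact dist_triangle _ _ _
        _ = dist (p k) (c k i) / |s k| + dist (c k i) (c k (i + 1)) / |s k| := add_div _ _ _
        _ ≤ C + (|K| * D / n + 1) := by
            refine add_le_add h1 (h4.trans (add_le_add ?_ h3))
            gcongr
            · exact le_abs_self K
  let cc : ℕ → USeq ω X s p := fun i => if hi : i ≤ n then ⟨fun k => c k i, hbnd i hi⟩ else y
  have hcc : ∀ i (hi : i ≤ n), cc i = ⟨fun k => c k i, hbnd i hi⟩ := fun i hi => dif_pos hi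
  refine ⟨fun i => UL.mk (cc i), ?_, ?_, ?_⟩
  · change UL.mk (cc 0) = UL.mk x
    congr 1
    rw [hcc 0 (Nat.zero_le n)]
    obtain ⟨xv, xb⟩ := x
    congr 1
    ext k
    exact hc0 k
  · change UL.mk (cc n) = UL.mk y
    congr 1
    rw [hcc n le_rfl]
    obtain ⟨yv, yb⟩ := y
    congr 1
    ext k
    exact hcn k
  · intro i hi
    have h1 := UL.tendsto (cc i) (cc (i + 1))
    have h2 : Tendsto (fun k => K * (dist (x.val k) (y.val k) / |s k|) / n + A / |s k|)
        (ω : Filter ℕ) (𝓝 (K * dist (UL.mk x) (UL.mk y) / n + 0)) :=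
      (((UL.tendsto x y).const_mul K).div_const (n : ℝ)).add hA
    refine le_of_tendsto_of_tendsto h1 h2 (Eventually.of_forall fun k => ?_)
    rw [hcc i hi.le, hcc (i + 1) hi]
    exact hstep i hi k

theorem ul_noBox {X : Type*} [PseudoMetricSpace X] (h : NoBox X)
    {ω : Ultrafilter ℕ} {s : ℕ → ℝ} (hs : Tendsto s (ω : Filter ℕ) atTop) (p : ℕ → X) :
    NoBox0 (UL ω X s p) := by
  intro L hL
  obtain ⟨N, R₀, hN⟩ := h (2 * L) (by linarith)
  refine ⟨N, fun R hR hbox => ?_⟩
  obtain ⟨f, hf⟩ := hbox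
  choose F hF using fun q => UL.mk_surjective (f q)
  have hsabs : Tendsto (fun k => |s k|) (ω : Filter ℕ) atTop := tendsto_abs_atTop_atTop.comp hs
  have hLpos : 0 < L := by linarith
  -- the finitely many pairs
  have hfin : (Set.Finite {pq : (ℕ × ℕ × ℕ) × (ℕ × ℕ × ℕ) | InCube N pq.1 ∧ InCube N pq.2}) := by
    have hc : Set.Finite {q : ℕ × ℕ × ℕ | InCube N q} := by
      refine ((Set.finite_Iic N).prod ((Set.finite_Iic N).prod (Set.finite_Iic N))).subset ?_
      rintro ⟨a, b, c⟩ ⟨h1, h2, h3⟩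
      exact ⟨h1, h2, h3⟩
    exact (hc.prod hc).subset fun pq hpq => ⟨hpq.1, hpq.2⟩
  have hpair : ∀ pq ∈ {pq : (ℕ × ℕ × ℕ) × (ℕ × ℕ × ℕ) | InCube N pq.1 ∧ InCube N pq.2},
      ∀ᶠ k in (ω : Filter ℕ), R * |s k| / (2 * L) * dist pq.1 pq.2 ≤
        dist ((F pq.1).val k) ((F pq.2).val k) ∧
        dist ((F pq.1).val k) ((F pq.2).val k) ≤ 2 * L * (R * |s k|) * dist pq.1 pq.2 := by
    rintro ⟨a, b⟩ ⟨ha, hb⟩
    by_cases hab : a = b
    · subst hab
      exact Eventually.of_forall fun k => by simp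
    · have hd : 0 < dist a b := dist_pos.mpr hab
      have ht := UL.tendsto (F a) (F b)
      rw [hF a, hF b] at ht
      have h1 := hf a b ha hb
      have e1 : R / (2 * L) * dist a b < dist (f a) (f b) := by
        refine lt_of_lt_of_le ?_ h1.1
        gcongr
        linarith
      have e2 : dist (f a) (f b) < 2 * L * R * dist a b := by
        refine lt_of_le_of_lt h1.2 ?_
        have : 0 < L * R * dist a b := by positivity
        linarith
      filter_upwards [ht.eventually (eventually_gt_nhds e1), ht.eventually (eventually_lt_nhds e2),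
        hsabs.eventually_gt_atTop 0] with k k1 k2 k3
      have k1' : R / (2 * L) * dist a b * |s k| < dist ((F a).val k) ((F b).val k) := by
        rwa [lt_div_iff₀ k3] at k1
      have k2' : dist ((F a).val k) ((F b).val k) < 2 * L * R * dist a b * |s k| := by
        rwa [div_lt_iff₀ k3] at k2
      constructor
      · refine le_of_eq_of_le ?_ k1'.le
        ring
      · refine k2'.le.trans (le_of_eq ?_)
        ring
  have hall := (hfin.eventually_all).mpr hpair
  have hR₀ : ∀ᶠ k in (ω : Filter ℕ), R₀ < R * |s k| :=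
    (hsabs.const_mul_atTop hR).eventually_gt_atTop R₀
  obtain ⟨k, hk1, hk2⟩ := (hall.and hR₀).exists
  refine hN (R * |s k|) hk2 ⟨fun q => (F q).val k, fun a b ha hb => ?_⟩
  exact hk1 (a, b) ⟨ha, hb⟩

theorem bilip_chains {X M : Type*} [PseudoMetricSpace X] [PseudoMetricSpace M] (f : X → M)
    (hf : Function.Surjective f) {K' : ℝ} (hK' : 1 ≤ K')
    (h1 : ∀ x y, dist x y ≤ K' * dist (f x) (f y)) (h2 : ∀ x y, dist (f x) (f y) ≤ K' * dist x y)
    (h : ∃ K : ℝ, Chains X K 0) : ∃ K : ℝ, Chains M K 0 := by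
  obtain ⟨K, hK⟩ := h
  have hK'0 : 0 < K' := by linarith
  refine ⟨K' * (|K| * K'), fun u v n hn => ?_⟩
  obtain ⟨x, rfl⟩ := hf u
  obtain ⟨y, rfl⟩ := hf v
  obtain ⟨c, c0, cn, hc⟩ := hK x y n hn
  refine ⟨fun i => f (c i), by simp only [c0], by simp only [cn], fun i hi => ?_⟩
  have e1 := hc i hi
  rw [add_zero] at e1 ⊢
  calc dist (f (c i)) (f (c (i + 1))) ≤ K' * dist (c i) (c (i + 1)) := h2 _ _
    _ ≤ K' * (K * dist x y / n) := by gcongr
    _ ≤ K' * (|K| * (K' * dist (f x) (f y)) / n) := by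
        gcongr
        · exact le_abs_self K
        · exact h1 x y
    _ = K' * (|K| * K') * dist (f x) (f y) / n := by ring

theorem bilip_noBox {X M : Type*} [PseudoMetricSpace X] [PseudoMetricSpace M] (f : X → M)
    (hf : Function.Surjective f) {K' : ℝ} (hK' : 1 ≤ K')
    (h1 : ∀ x y, dist x y ≤ K' * dist (f x) (f y)) (h2 : ∀ x y, dist (f x) (f y) ≤ K' * dist x y)
    (h : NoBox0 X) : NoBox0 M := by
  have hK'0 : 0 < K' := by linarith
  intro L hL
  have hL0 : 0 < L := by linarith
  obtain ⟨N, hN⟩ := h (L * K') (by nlinarith)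
  refine ⟨N, fun R hR hbox => ?_⟩
  obtain ⟨g, hg⟩ := hbox
  choose G hG using fun q => hf (g q)
  refine hN R hR ⟨G, fun a b ha hb => ?_⟩
  have e := hg a b ha hb
  rw [← hG a, ← hG b] at e
  constructor
  · have e1 : R / L * dist a b ≤ K' * dist (G a) (G b) := e.1.trans (h2 _ _)
    have e2 : R / (L * K') * dist a b = (R / L * dist a b) / K' := by
      field_simp
    rw [e2, div_le_iff₀ hK'0]
    linarith
  · calc dist (G a) (G b) ≤ K' * dist (f (G a)) (f (G b)) := h1 _ _
      _ ≤ K' * (L * R * dist a b) := by gcongr; exact e.2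
      _ = L * K' * R * dist a b := by ring

end MC
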