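import Pool.Agent.Helper42.MC.Med

/-!
# MC-16: ultralimits of median spaces are median

Existence: `m k = med (x k) (y k) (z k)`; admissible since
`dist (p k) (m k) ≤ dist (p k) (x k) + dist (x k) (y k)`; betweenness passes to the limit
(`UL.tendsto`, uniqueness of limits). Uniqueness: if `n` is a median of the classes then
the three defects of `n k` divided by `|s k|` tend to `0`; by `med_approx` with `ε` = the maximum of the three
defects, `dist (n k) (m k) / |s k| ≤ 5/2 · ε/|s k| → 0`, so `dist (mk n) (mk m) = 0`.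
-/

open Filter Topology Set

namespace MC

/-- betweenness passes to the ultralimit -/
theorem ul_btw {X : Type*} [PseudoMetricSpace X] {ω : Ultrafilter ℕ} {s : ℕ → ℝ} {p : ℕ → X}
    {a b c : USeq ω X s p} (h : ∀ᶠ k in (ω : Filter ℕ), Btw (a.val k) (b.val k) (c.val k)) :
    Btw (UL.mk a) (UL.mk b) (UL.mk c) := by
  unfold Btw
  have h1 := (UL.tendsto a b).add (UL.tendsto b c)
  have h2 := UL.tendsto a c
  refine tendsto_nhds_unique (h1.congr' ?_) h2
  filter_upwards [h] with k hk
  unfold Btw at hk
  rw [← add_div, hk]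

/-- the defects tend to zero -/
theorem ul_defect {X : Type*} [PseudoMetricSpace X] {ω : Ultrafilter ℕ} {s : ℕ → ℝ} {p : ℕ → X}
    {a b c : USeq ω X s p} (h : Btw (UL.mk a) (UL.mk b) (UL.mk c)) :
    Tendsto (fun k => (dist (a.val k) (b.val k) + dist (b.val k) (c.val k) -
      dist (a.val k) (c.val k)) / |s k|) (ω : Filter ℕ) (𝓝 0) := by
  have h1 := ((UL.tendsto a b).add (UL.tendsto b c)).sub (UL.tendsto a c)
  unfold Btw at h
  rw [h, sub_self] at h1
  refine h1.congr fun k => ?_
  rw [← add_div, ← sub_div]

theorem ul_median {M : Type*} [MetricSpace M] (hM : IsMedian M) (ω : Ultrafilter ℕ) (s : ℕ → ℝ)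
    (p : ℕ → M) : IsMedian (UL ω M s p) := by
  intro X Y Z
  obtain ⟨x, rfl⟩ := UL.mk_surjective X
  obtain ⟨y, rfl⟩ := UL.mk_surjective Y
  obtain ⟨z, rfl⟩ := UL.mk_surjective Z
  have hb : ∃ C : ℝ, ∀ᶠ k in (ω : Filter ℕ),
      dist (p k) (med hM (x.val k) (y.val k) (z.val k)) / |s k| ≤ C := by
    obtain ⟨C, hC⟩ := x.bdd
    obtain ⟨D, hD⟩ := x.bdd₂ y
    refine ⟨C + D, ?_⟩
    filter_upwards [hC, hD] with k h1 h2
    have h3 : dist (x.val k) (med hM (x.val k) (y.val k) (z.val k)) ≤
        dist (x.val k) (y.val k) := by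
      have := med_btw12 hM (x.val k) (y.val k) (z.val k)
      unfold Btw at this
      linarith [dist_nonneg (x := med hM (x.val k) (y.val k) (z.val k)) (y := y.val k)]
    calc dist (p k) (med hM (x.val k) (y.val k) (z.val k)) / |s k|
        ≤ (dist (p k) (x.val k) + dist (x.val k) (y.val k)) / |s k| := by
          gcongr
          refine (dist_triangle _ (x.val k) _).trans ?_
          linarith
      _ = dist (p k) (x.val k) / |s k| + dist (x.val k) (y.val k) / |s k| := add_div _ _ _
      _ ≤ C + D := add_le_add h1 h2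
  let m : USeq ω M s p := ⟨fun k => med hM (x.val k) (y.val k) (z.val k), hb⟩
  refine ⟨UL.mk m, ⟨?_, ?_, ?_⟩, ?_⟩
  · exact ul_btw (Eventually.of_forall fun k => med_btw12 hM _ _ _)
  · exact ul_btw (Eventually.of_forall fun k => med_btw23 hM _ _ _)
  · exact ul_btw (Eventually.of_forall fun k => med_btw13 hM _ _ _)
  · rintro N ⟨h1, h2, h3⟩
    obtain ⟨n, rfl⟩ := UL.mk_surjective N
    have d1 := ul_defect h1
    have d2 := ul_defect h2
    have d3 := ul_defect h3
    have d := ((d1.add d2).add d3).const_mul (5 / 2 : ℝ)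
    simp only [add_zero, mul_zero] at d
    have hle : dist (UL.mk n) (UL.mk m) ≤ 0 := by
      refine le_of_tendsto_of_tendsto (UL.tendsto n m) d ?_
      refine Eventually.of_forall fun k => ?_
      have t1 := dist_triangle (x.val k) (n.val k) (y.val k)
      have t2 := dist_triangle (y.val k) (n.val k) (z.val k)
      have t3 := dist_triangle (x.val k) (n.val k) (z.val k)
      have key := med_approx hM (x := x.val k) (y := y.val k) (z := z.val k) (n := n.val k)
        (ε := (dist (x.val k) (n.val k) + dist (n.val k) (y.val k) - dist (x.val k) (y.val k)) +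
          (dist (y.val k) (n.val k) + dist (n.val k) (z.val k) - dist (y.val k) (z.val k)) +
          (dist (x.val k) (n.val k) + dist (n.val k) (z.val k) - dist (x.val k) (z.val k)))
        (by linarith) (by linarith) (by linarith)
      change dist (n.val k) (med hM (x.val k) (y.val k) (z.val k)) / |s k| ≤ _
      beta_reduce
      rw [← add_div, ← add_div, ← mul_div_assoc]
      gcongr
    exact dist_le_zero.mp hle

end MC
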