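import Pool.Agent.Helper42.MC.RankBox
import Pool.Agent.Helper42.MC.MedianSide
import Pool.Agent.Helper42.MC.ULMedian
import Pool.Agent.Helper42.MC.ULChains
import Pool.Agent.Helper42.MC.Blowup

/-!
# Limit side: a space with the properties `ConeData` is not bilipschitz to a median space
-/

open Filter Topology Set

namespace MC

theorem NoBox0.noBox {M : Type*} [PseudoMetricSpace M] (h : NoBox0 M) : NoBox M := by
  intro L hL
  obtain ⟨N, hN⟩ := h L hL
  exact ⟨N, 0, hN⟩

theorem limit_side {X M : Type*} [PseudoMetricSpace X] [MetricSpace M] (hX : ConeData X)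
    (hM : IsMedian M) (f : X → M) (hf : Function.Surjective f) {K : ℝ}
    (h1 : ∀ x y, dist x y ≤ K * dist (f x) (f y)) (h2 : ∀ x y, dist (f x) (f y) ≤ K * dist x y) :
    False := by
  obtain ⟨hch, hnb, E, z, H, C, hC, hz, e1, e2, e3, e4, e5⟩ := hX
  set K' := max K 1 with hK'
  have hK1 : 1 ≤ K' := le_max_right _ _
  have hKK : K ≤ K' := le_max_left _ _
  have h1' : ∀ x y, dist x y ≤ K' * dist (f x) (f y) := fun x y =>
    (h1 x y).trans (mul_le_mul_of_nonneg_right hKK dist_nonneg)
  have h2' : ∀ x y, dist (f x) (f y) ≤ K' * dist x y := fun x y =>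
    (h2 x y).trans (mul_le_mul_of_nonneg_right hKK dist_nonneg)
  obtain ⟨s, p, hs, hω⟩ := blowup f (lt_of_lt_of_le one_pos hK1) h1' h2' E z H C hC e1 e2 e3 e4 e5
  let ω : Ultrafilter ℕ := hyperfilter ℕ
  have hle : (ω : Filter ℕ) ≤ atTop := by
    rw [← Nat.cofinite_eq_atTop]
    exact hyperfilter_le_cofinite
  have hsω : Tendsto s (ω : Filter ℕ) atTop := hs.mono_left hle
  obtain ⟨E', L, H', hF, hc, g0, g1⟩ := hω ω hle
  obtain ⟨K₁, hK₁⟩ := bilip_chains f hf hK1 h1' h2' hch
  have hnb' := bilip_noBox f hf hK1 h1' h2' hnb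
  have med' := ul_median hM ω s p
  have ch' := ul_chains hK₁ hsω p
  have nb' := ul_noBox hnb'.noBox hsω p
  have r2 := rank2_of_noBox0 med' ch' nb'
  exact median_side med' r2 hF z hz H' hc g0 g1

end MC
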