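import Pool.Agent.Helper42.MC.Defs

/-!
# MC-1: median basics (from the metric definition only)

Everything follows from the triangle inequality and the uniqueness of medians.

* `Btw.trans_left`: `d(a,b) = d(a,m) + d(m,b) = d(a,u) + d(u,m) + d(m,b)`.
* `gate`: let `m(a,b,x)` be the median. For `p ∈ I(a,b)` put `p' = m(a,x,p)`, `q' = m(b,x,p)`,
  `r = m(x,p',q')`. Then `r ∈ I(a,x)` since `d(a,x) = d(a,p')+d(p',x) = d(a,p')+d(p',r)+d(r,x)`,
  likewise `r ∈ I(b,x)`, and `r ∈ I(a,b)` since
  `d(a,b) = d(a,p)+d(p,b) = d(a,p')+d(p',p)+d(p,q')+d(q',b) ≥ d(a,p')+d(p',q')+d(q',b)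
   = d(a,p')+d(p',r)+d(r,q')+d(q',b) ≥ d(a,r)+d(r,b)`. So `r = m(a,b,x)`, and `r ∈ I(x,p')`,
  `p' ∈ I(x,p)` give `r ∈ I(x,p)`.
* `interval_cvx`: `u, v ∈ I(a,b)`, `w ∈ I(u,v)`, `g = m(a,b,w)`. By `gate`, `g ∈ I(w,u) ∩ I(w,v)`, so
  `d(u,v) = d(u,w)+d(w,v) = d(u,g)+2d(g,w)+d(g,v) ≥ d(u,v)+2d(g,w)`, so `g = w`.
* `btw_med`: `v ∈ I(a,b) ∩ I(a,c)`; put `m' = m(v,b,c)`. Then `m' ∈ I(v,b)` gives
  `m' ∈ I(a,b)` and `v ∈ I(a,m')`, the same for `c`, and `m' ∈ I(b,c)`; so `m' = m(a,b,c)`.
* `gate_lip`: `gx = m(a,b,x)`, `gy = m(a,b,y)`. By `gate`, `d(x,gy) = d(x,gx)+d(gx,gy)`,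
  `d(y,gx) = d(y,gy)+d(gy,gx)`; add and use `d(x,gy) ≤ d(x,y)+d(y,gy)`, `d(y,gx) ≤ d(y,x)+d(x,gx)`.
* `gate_btw`: `w ∈ I(x,y)`, `g = m(a,b,·)`, `u = m(gx,gy,gw)`. `u ∈ I(a,b)` by convexity.
  `u ∈ I(gx,gw)` and `gx ∈ I(x,gw)` (gate) give `u ∈ I(x,gw)`, likewise `u ∈ I(y,gw)`, so
  `u ∈ I(gw, m(gw,x,y))` by `btw_med`. And `m(x,y,gw) ∈ I(gw,w)` by `gate` for the interval
  `I(x,y) ∋ w`. So `u ∈ I(gw,w)`; but `gw ∈ I(w,u)` by `gate`; hence `u = gw`.
* `med_distrib`: `gate_btw` for the three pairs and uniqueness.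
* `med_approx`: `p = m(x,y,n)`: `d(n,x)+d(n,y) = 2d(n,p)+d(x,y)`, so `d(n,p) ≤ ε/2`. With
  `m = m(x,y,z)` the gate of `z` in `I(x,y) ∋ p`: `d(z,p) = d(z,m)+d(m,p)`.
  `d(x,p)+d(p,z) ≤ d(x,n)+d(n,z)+2·ε/2 ≤ d(x,z)+2ε` and `d(x,z) = d(x,m)+d(m,z)`, so
  `d(x,p)+d(p,m) ≤ d(x,m)+2ε`, the same for `y`; add: `2d(p,m) ≤ 4ε`.
-/

open Set

namespace MC

variable {M : Type*} [MetricSpace M]

theorem Btw.symm {x y z : M} (h : Btw x y z) : Btw z y x := by
  unfold Btw at *
  rw [dist_comm z y, dist_comm y x, dist_comm z x, add_comm]; exact h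

/-- `a - u - m - b` -/
theorem Btw.trans_left {a u m b : M} (h1 : Btw a u m) (h2 : Btw a m b) : Btw a u b ∧ Btw u m b := by
  unfold Btw at *
  have e1 := dist_triangle a u b
  have e2 := dist_triangle u m b
  constructor <;> linarith

theorem Btw.eq_of_self {a u : M} (h : Btw a u a) : u = a := by
  unfold Btw at h
  rw [dist_self, dist_comm u a] at h
  have : dist a u = 0 := by linarith [dist_nonneg (x := a) (y := u)]
  exact (dist_eq_zero.mp this).symm

theorem Btw.antisymm {a u v : M} (h1 : Btw a u v) (h2 : Btw a v u) : u = v := by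
  unfold Btw at *
  rw [dist_comm v u] at h2
  have : dist u v = 0 := by linarith
  exact dist_eq_zero.mp this

theorem med_btw12 (h : IsMedian M) (x y z : M) : Btw x (med h x y z) y :=
  (h x y z).choose_spec.1.1

theorem med_btw23 (h : IsMedian M) (x y z : M) : Btw y (med h x y z) z :=
  (h x y z).choose_spec.1.2.1

theorem med_btw13 (h : IsMedian M) (x y z : M) : Btw x (med h x y z) z :=
  (h x y z).choose_spec.1.2.2

theorem med_unique (h : IsMedian M) {x y z m : M} (h1 : Btw x m y) (h2 : Btw y m z)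
    (h3 : Btw x m z) : m = med h x y z :=
  (h x y z).choose_spec.2 m ⟨h1, h2, h3⟩

theorem med_swap12 (h : IsMedian M) (x y z : M) : med h x y z = med h y x z :=
  med_unique h (med_btw12 h x y z).symm (med_btw13 h x y z) (med_btw23 h x y z)

theorem med_swap23 (h : IsMedian M) (x y z : M) : med h x y z = med h x z y :=
  med_unique h (med_btw13 h x y z) (med_btw23 h x y z).symm (med_btw12 h x y z)

/-- the median of three points one of which is between the two others -/
theorem med_of_btw (h : IsMedian M) {a p b : M} (hp : Btw a p b) : med h a b p = p := by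
  refine (med_unique h hp ?_ ?_).symm
  · unfold Btw; rw [dist_self, add_zero]
  · unfold Btw; rw [dist_self, add_zero]

theorem gate (h : IsMedian M) {a b p : M} (hp : Btw a p b) (x : M) : Btw x (med h a b x) p := by
  set p' := med h a x p with hp'
  set q' := med h b x p with hq'
  set r := med h x p' q' with hr
  have a1 : Btw a p' x := med_btw12 h a x p
  have a2 : Btw x p' p := med_btw23 h a x p
  have a3 : Btw a p' p := med_btw13 h a x p
  have b1 : Btw b q' x := med_btw12 h b x p
  have b2 : Btw x q' p := med_btw23 h b x p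
  have b3 : Btw b q' p := med_btw13 h b x p
  have r1 : Btw x r p' := med_btw12 h x p' q'
  have r2 : Btw p' r q' := med_btw23 h x p' q'
  have r3 : Btw x r q' := med_btw13 h x p' q'
  -- r between a and x
  have c1 : Btw a r x := ((r1.trans_left a1.symm).1).symm
  have c2 : Btw b r x := ((r3.trans_left b1.symm).1).symm
  have c3 : Btw a r b := by
    unfold Btw at *
    have t1 := dist_triangle p' p q'
    have t2 := dist_triangle a p' r
    have t3 := dist_triangle r q' b
    have t4 := dist_triangle a r b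
    have s1 := dist_comm p q'
    have s2 := dist_comm b q'
    have s3 := dist_comm b p
    linarith
  have hrm : r = med h a b x := med_unique h c3 c2 c1
  rw [← hrm]
  exact (r1.trans_left a2).1

theorem interval_cvx (h : IsMedian M) (a b : M) : Cvx {w | Btw a w b} := by
  intro u hu v hv w hw
  have g1 : Btw w (med h a b w) u := gate h hu w
  have g2 : Btw w (med h a b w) v := gate h hv w
  have hgw : med h a b w = w := by
    unfold Btw at g1 g2 hw
    have t := dist_triangle u (med h a b w) v
    have s1 := dist_comm u w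
    have s2 := dist_comm u (med h a b w)
    have : dist w (med h a b w) = 0 := by
      linarith [dist_nonneg (x := w) (y := med h a b w)]
    exact (dist_eq_zero.mp this).symm
  have := med_btw12 h a b w
  rw [hgw] at this
  exact this

theorem btw_med (h : IsMedian M) {a b c v : M} (h1 : Btw a v b) (h2 : Btw a v c) :
    Btw a v (med h a b c) := by
  set m' := med h v b c with hm'
  have m1 : Btw v m' b := med_btw12 h v b c
  have m2 : Btw b m' c := med_btw23 h v b c
  have m3 : Btw v m' c := med_btw13 h v b c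
  -- a - v - m' - b
  have c1 : Btw b m' a ∧ Btw m' v a := m1.symm.trans_left h1.symm
  have c2 : Btw c m' a ∧ Btw m' v a := m3.symm.trans_left h2.symm
  have : m' = med h a b c := med_unique h c1.1.symm m2 c2.1.symm
  rw [← this]
  exact c1.2.symm

theorem gate_lip (h : IsMedian M) (a b x y : M) :
    dist (med h a b x) (med h a b y) ≤ dist x y := by
  have g1 : Btw x (med h a b x) (med h a b y) := gate h (med_btw12 h a b y) x
  have g2 : Btw y (med h a b y) (med h a b x) := gate h (med_btw12 h a b x) y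
  unfold Btw at g1 g2
  have t1 := dist_triangle x y (med h a b y)
  have t2 := dist_triangle y x (med h a b x)
  have s1 := dist_comm x y
  have s2 := dist_comm (med h a b x) (med h a b y)
  linarith

theorem gate_btw (h : IsMedian M) (a b : M) {x w y : M} (hw : Btw x w y) :
    Btw (med h a b x) (med h a b w) (med h a b y) := by
  set gx := med h a b x with hgx
  set gy := med h a b y with hgy
  set gw := med h a b w with hgw
  set u := med h gx gy gw with hu
  have ix : Btw a gx b := med_btw12 h a b x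
  have iy : Btw a gy b := med_btw12 h a b y
  have iw : Btw a gw b := med_btw12 h a b w
  have u12 : Btw gx u gy := med_btw12 h gx gy gw
  have u23 : Btw gy u gw := med_btw23 h gx gy gw
  have u13 : Btw gx u gw := med_btw13 h gx gy gw
  have iu : Btw a u b := interval_cvx h a b gx ix gy iy u u12
  have gxw : Btw x gx gw := gate h iw x
  have gyw : Btw y gy gw := gate h iw y
  -- u in I(x, gw), I(y, gw)
  have ux : Btw gw u x := (u13.symm.trans_left gxw.symm).1
  have uy : Btw gw u y := (u23.symm.trans_left gyw.symm).1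
  have k1 : Btw gw u (med h gw x y) := btw_med h ux uy
  have k2 : Btw gw (med h x y gw) w := gate h hw gw
  have k3 : med h gw x y = med h x y gw := by
    rw [med_swap12, med_swap23]
  rw [k3] at k1
  have k4 : Btw gw u w := (k1.trans_left k2).1
  have k5 : Btw w gw u := gate h iu w
  have k6 : u = gw := by
    have := Btw.antisymm k4.symm k5
    exact this
  rw [← k6]
  exact u12

theorem med_distrib (h : IsMedian M) (a b x y z : M) :
    med h a b (med h x y z) = med h (med h a b x) (med h a b y) (med h a b z) :=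
  med_unique h (gate_btw h a b (med_btw12 h x y z)) (gate_btw h a b (med_btw23 h x y z))
    (gate_btw h a b (med_btw13 h x y z))

theorem med_approx (h : IsMedian M) {x y z n : M} {ε : ℝ}
    (h1 : dist x n + dist n y ≤ dist x y + ε) (h2 : dist y n + dist n z ≤ dist y z + ε)
    (h3 : dist x n + dist n z ≤ dist x z + ε) : dist n (med h x y z) ≤ 5 / 2 * ε := by
  set p := med h x y n with hp
  set m := med h x y z with hm
  have p12 : Btw x p y := med_btw12 h x y n
  have p23 : Btw y p n := med_btw23 h x y n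
  have p13 : Btw x p n := med_btw13 h x y n
  have m12 : Btw x m y := med_btw12 h x y z
  have m23 : Btw y m z := med_btw23 h x y z
  have m13 : Btw x m z := med_btw13 h x y z
  have g : Btw z m p := gate h p12 z
  unfold Btw at *
  have s1 := dist_comm p n
  have s2 := dist_comm y n
  have s3 := dist_comm y p
  have s4 := dist_comm m z
  have s5 := dist_comm m p
  have s6 := dist_comm y m
  have hnp : dist n p ≤ ε / 2 := by linarith
  have t1 := dist_triangle p n z
  have t2 := dist_comm z p
  have t3 := dist_triangle n p m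
  have t4 := dist_nonneg (x := n) (y := p)
  linarith

theorem Half.compl {A : Set M} (hA : Half A) : Half Aᶜ := by
  refine ⟨hA.2, ?_⟩
  rw [compl_compl]; exact hA.1

theorem Cvx.med_mem (h : IsMedian M) {A : Set M} (hA : Cvx A) {x y : M} (hx : x ∈ A) (hy : y ∈ A)
    (z : M) : med h x y z ∈ A ∧ med h x z y ∈ A ∧ med h z x y ∈ A := by
  refine ⟨hA x hx y hy _ (med_btw12 h x y z), hA x hx y hy _ (med_btw13 h x z y),
    hA x hx y hy _ (med_btw23 h z x y)⟩

end MC
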