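import Pool.Agent.Helper42.MC.Len

/-!
# MC-22: pushing horizontal words to another level

Statement `P h u v`: there is a chain `c` with, for all `ψ`,
`pv v (hz u) = pv v t^{-h} + pv (v t^{-h}) (hz (Φ^h u)) + pv (v u t^{-h}) t^h + pairing c ψ`
and all cells of `c` are based within `len`-distance `C |h| + |u|` of `v`.

* If `P h` holds for letters `x_i` at every `v`, it holds for inverse letters and for words, by
  induction on the word.
* `h = 1`, letter: one cell.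
* `h → -h`: solve for the value on the pushed word.
* composition: `P h₁ u v` and `P h₂ (Φ^h₁ u) (v t^{-h₁})` give `P (h₁ + h₂) u v`.
-/

namespace MC

variable {n : ℕ} {Φ : MulAut (FreeGroup (Fin n))}

theorem pairing_add (c c' : MT Φ × Fin n →₀ ℤ) (ψ : MT Φ → Option (Fin n) → ℤ) :
    pairing (c + c') ψ = pairing c ψ + pairing c' ψ := by
  classical
  unfold pairing
  rw [Finsupp.sum_add_index']
  · intro q; simp
  · intro q a b; ring

theorem pairing_zero (ψ : MT Φ → Option (Fin n) → ℤ) :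
    pairing (0 : MT Φ × Fin n →₀ ℤ) ψ = 0 := by
  unfold pairing
  rw [Finsupp.sum_zero_index]

theorem pairing_neg (c : MT Φ × Fin n →₀ ℤ) (ψ : MT Φ → Option (Fin n) → ℤ) :
    pairing (-c) ψ = - pairing c ψ := by
  have h := pairing_add c (-c) ψ
  rw [add_neg_cancel, pairing_zero] at h
  linarith

theorem pairing_single (q : MT Φ × Fin n) (ψ : MT Φ → Option (Fin n) → ℤ) :
    pairing (Finsupp.single q 1) ψ = pv ψ q.1 (rel Φ q.2) := by
  unfold pairing
  rw [Finsupp.sum_single_index]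
  · ring
  · ring

/-- the pushing statement -/
def PP (Φ : MulAut (FreeGroup (Fin n))) (h : ℤ) (u : FreeGroup (Fin n)) (v : MT Φ) (R : ℕ) :
    Prop :=
  ∃ c : MT Φ × Fin n →₀ ℤ,
    (∀ ψ : MT Φ → Option (Fin n) → ℤ,
      pv ψ v (hz u) = pv ψ v (tt ^ (-h)) + pv ψ (v * MT.t Φ ^ (-h)) (hz ((Φ ^ h) u)) +
        pv ψ (v * MT.inc Φ u * MT.t Φ ^ (-h)) (tt ^ h) + pairing c ψ) ∧
    ∀ q ∈ c.support, len Φ (v⁻¹ * q.1) ≤ R

theorem PP.mono {h : ℤ} {u : FreeGroup (Fin n)} {v : MT Φ} {R R' : ℕ} (H : PP Φ h u v R)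
    (hR : R ≤ R') : PP Φ h u v R' := by
  obtain ⟨c, h1, h2⟩ := H
  exact ⟨c, h1, fun q hq => (h2 q hq).trans hR⟩

theorem ev_tt_zpow (m : ℤ) : ev Φ (tt ^ m) = MT.t Φ ^ m := by
  rw [map_zpow, ev_tt]

theorem pv_tt_add (ψ : MT Φ → Option (Fin n) → ℤ) (g : MT Φ) (a b : ℤ) :
    pv ψ g (tt ^ (a + b)) = pv ψ g (tt ^ a) + pv ψ (g * MT.t Φ ^ a) (tt ^ b) := by
  rw [zpow_add, pv_mul, ev_tt_zpow]

theorem pv_tt_cancel (ψ : MT Φ → Option (Fin n) → ℤ) (g : MT Φ) (a : ℤ) :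
    pv ψ (g * MT.t Φ ^ a) (tt ^ (-a)) = - pv ψ g (tt ^ a) := by
  have h := pv_tt_add ψ g a (-a)
  rw [add_neg_cancel, zpow_zero, pv_one] at h
  linarith

theorem pv_hz_mul (ψ : MT Φ → Option (Fin n) → ℤ) (g : MT Φ) (x y : FreeGroup (Fin n)) :
    pv ψ g (hz (x * y)) = pv ψ g (hz x) + pv ψ (g * MT.inc Φ x) (hz y) := by
  rw [map_mul, pv_mul, ev_hz]

theorem pv_hz_inv (ψ : MT Φ → Option (Fin n) → ℤ) (g : MT Φ) (x : FreeGroup (Fin n)) :
    pv ψ g (hz x⁻¹) = - pv ψ (g * MT.inc Φ x⁻¹) (hz x) := by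
  have h := pv_hz_mul ψ g x⁻¹ x
  rw [inv_mul_cancel, map_one, pv_one] at h
  linarith

/-- moving a power of `t` over a horizontal element -/
theorem t_inc (h : ℤ) (u : FreeGroup (Fin n)) :
    MT.t Φ ^ (-h) * MT.inc Φ ((Φ ^ h) u) = MT.inc Φ u * MT.t Φ ^ (-h) := by
  rw [← t_zpow_conj h u, zpow_neg]
  group

theorem PP.one (h : ℤ) (v : MT Φ) : PP Φ h 1 v 0 := by
  refine ⟨0, fun ψ => ?_, by simp⟩
  have h1 := pv_tt_cancel ψ v (-h)
  rw [neg_neg] at h1
  rw [map_one, map_one, map_one, pv_one, pv_one, map_one, mul_one, h1, pairing_zero]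
  ring

theorem PP.mul {h : ℤ} {u u' : FreeGroup (Fin n)} {v : MT Φ} {R : ℕ}
    (H : PP Φ h u v R) {R' : ℕ} (H' : PP Φ h u' (v * MT.inc Φ u) R')
    (hR : u.norm + R' ≤ R) : PP Φ h (u * u') v R := by
  obtain ⟨c, h1, h2⟩ := H
  obtain ⟨c', h1', h2'⟩ := H'
  refine ⟨c + c', fun ψ => ?_, ?_⟩
  · rw [pv_hz_mul, h1 ψ, h1' ψ, pairing_add, map_mul (Φ ^ h), pv_hz_mul, map_mul (MT.inc Φ)]
    have e1 := pv_tt_cancel ψ (v * MT.inc Φ u) (-h)
    rw [neg_neg] at e1
    rw [e1]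
    have e2 : v * MT.t Φ ^ (-h) * MT.inc Φ ((Φ ^ h) u) =
        v * MT.inc Φ u * MT.t Φ ^ (-h) := by
      rw [mul_assoc, t_inc, ← mul_assoc]
    rw [e2, ← mul_assoc]
    ring
  · intro q hq
    rcases Finset.mem_union.1 (Finsupp.support_add hq) with hq | hq
    · exact h2 q hq
    · have h3 := h2' q hq
      have e : v⁻¹ * q.1 = MT.inc Φ u * ((v * MT.inc Φ u)⁻¹ * q.1) := by group
      rw [e]
      refine (len_mul_le _ _).trans ?_
      have := len_inc_le (Φ := Φ) u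
      omega

theorem PP.inv {h : ℤ} {u : FreeGroup (Fin n)} {v : MT Φ} {R : ℕ}
    (H : PP Φ h u (v * MT.inc Φ u⁻¹) R) : PP Φ h u⁻¹ v (u.norm + R) := by
  obtain ⟨c, h1, h2⟩ := H
  refine ⟨-c, fun ψ => ?_, ?_⟩
  · rw [pv_hz_inv, h1 ψ, map_inv (Φ ^ h), pv_hz_inv ψ (v * MT.t Φ ^ (-h)), pairing_neg]
    have e1 := pv_tt_cancel ψ (v * MT.inc Φ u⁻¹) (-h)
    rw [neg_neg] at e1
    have e2 := pv_tt_cancel ψ v (-h)
    rw [neg_neg] at e2
    have e3 : v * MT.t Φ ^ (-h) * MT.inc Φ ((Φ ^ h) u)⁻¹ =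
        v * MT.inc Φ u⁻¹ * MT.t Φ ^ (-h) := by
      rw [← map_inv (Φ ^ h), mul_assoc, t_inc, ← mul_assoc]
    have e4 : v * MT.inc Φ u⁻¹ * MT.inc Φ u = v := by
      rw [mul_assoc, ← map_mul, inv_mul_cancel, map_one, mul_one]
    rw [e3, e1, e4, e2]
    ring
  · intro q hq
    rw [Finsupp.support_neg] at hq
    have h3 := h2 q hq
    have e : v⁻¹ * q.1 = MT.inc Φ u⁻¹ * ((v * MT.inc Φ u⁻¹)⁻¹ * q.1) := by group
    rw [e]
    refine (len_mul_le _ _).trans ?_
    have := len_inc_le (Φ := Φ) u⁻¹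
    rw [FreeGroup.norm_inv_eq] at this
    omega

theorem len_t_zpow (h : ℤ) : len Φ (MT.t Φ ^ h) ≤ h.natAbs := by
  have key : ∀ k : ℕ, len Φ (MT.t Φ ^ k) ≤ k := by
    intro k
    induction k with
    | zero => simp [len_one]
    | succ k ih =>
      rw [pow_succ]
      refine (len_mul_le _ _).trans (Nat.add_le_add ih ?_)
      rw [← ev_tt]
      refine (len_ev_le _).trans ?_
      unfold tt
      rw [FreeGroup.norm_of]
  rcases Int.natAbs_eq h with h1 | h1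
  · rw [h1, zpow_natCast, Int.natAbs_natCast]
    exact key _
  · rw [h1, zpow_neg, len_inv, zpow_natCast, Int.natAbs_neg, Int.natAbs_natCast]
    exact key _

theorem PP.neg {h : ℤ} {y : FreeGroup (Fin n)} {v : MT Φ} {R : ℕ}
    (H : PP Φ h y (v * MT.t Φ ^ h) R) : PP Φ (-h) ((Φ ^ h) y) v (h.natAbs + R) := by
  obtain ⟨c, h1, h2⟩ := H
  refine ⟨-c, fun ψ => ?_, ?_⟩
  · have h3 := h1 ψ
    have e0 : v * MT.t Φ ^ h * MT.t Φ ^ (-h) = v := by
      rw [mul_assoc, ← zpow_add, add_neg_cancel, zpow_zero, mul_one]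
    have e1 : v * MT.t Φ ^ h * MT.inc Φ y * MT.t Φ ^ (-h) = v * MT.inc Φ ((Φ ^ h) y) := by
      rw [← t_zpow_conj h y, zpow_neg]
      group
    have e2 : (Φ ^ (-h)) ((Φ ^ h) y) = y := by
      rw [← MulAut.mul_apply, ← zpow_add, neg_add_cancel, zpow_zero, MulAut.one_apply]
    rw [e0, e1, pv_tt_cancel ψ v h] at h3
    rw [neg_neg, e2, pairing_neg, pv_tt_cancel ψ (v * MT.inc Φ ((Φ ^ h) y)) h]
    linarith
  · intro q hq
    rw [Finsupp.support_neg] at hq
    have h3 := h2 q hq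
    have e : v⁻¹ * q.1 = MT.t Φ ^ h * ((v * MT.t Φ ^ h)⁻¹ * q.1) := by group
    rw [e]
    refine (len_mul_le _ _).trans ?_
    have := len_t_zpow (Φ := Φ) h
    omega

theorem PP.comp {h k : ℤ} {u : FreeGroup (Fin n)} {v : MT Φ} {R R' : ℕ}
    (H : PP Φ h u v R) (H' : PP Φ k ((Φ ^ h) u) (v * MT.t Φ ^ (-h)) R')
    (hR : h.natAbs + R' ≤ R) : PP Φ (h + k) u v R := by
  obtain ⟨c, h1, h2⟩ := H
  obtain ⟨c', h1', h2'⟩ := H'
  refine ⟨c + c', fun ψ => ?_, ?_⟩
  · rw [h1 ψ, h1' ψ, pairing_add]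
    have e0 : v * MT.t Φ ^ (-h) * MT.t Φ ^ (-k) = v * MT.t Φ ^ (-(h + k)) := by
      rw [mul_assoc, ← zpow_add]
      congr 2
      ring
    have e1 : (Φ ^ k) ((Φ ^ h) u) = (Φ ^ (h + k)) u := by
      rw [← MulAut.mul_apply, ← zpow_add, add_comm]
    have e2 : v * MT.t Φ ^ (-h) * MT.inc Φ ((Φ ^ h) u) * MT.t Φ ^ (-k) =
        v * MT.inc Φ u * MT.t Φ ^ (-(h + k)) := by
      rw [mul_assoc v, t_inc, ← mul_assoc, mul_assoc _ (MT.t Φ ^ (-h)), ← zpow_add]
      congr 2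
      ring
    have e3 : pv ψ v (tt ^ (-(h + k))) = pv ψ v (tt ^ (-h)) +
        pv ψ (v * MT.t Φ ^ (-h)) (tt ^ (-k)) := by
      rw [← pv_tt_add]
      congr 2
      ring
    have e4 : pv ψ (v * MT.inc Φ u * MT.t Φ ^ (-(h + k))) (tt ^ (h + k)) =
        pv ψ (v * MT.inc Φ u * MT.t Φ ^ (-(h + k))) (tt ^ k) +
        pv ψ (v * MT.inc Φ u * MT.t Φ ^ (-h)) (tt ^ h) := by
      rw [add_comm h k, pv_tt_add]
      congr 2
      rw [mul_assoc _ (MT.t Φ ^ (-(k + h))), ← zpow_add]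
      congr 2
      ring
    rw [e0, e1, e2, e3, e4]
    ring
  · intro q hq
    rcases Finset.mem_union.1 (Finsupp.support_add hq) with hq | hq
    · exact h2 q hq
    · have h3 := h2' q hq
      have e : v⁻¹ * q.1 = MT.t Φ ^ (-h) * ((v * MT.t Φ ^ (-h))⁻¹ * q.1) := by group
      rw [e]
      refine (len_mul_le _ _).trans ?_
      have := len_t_zpow (Φ := Φ) (-h)
      rw [Int.natAbs_neg] at this
      omega

/-- one letter, one step -/
theorem PP.letter (i : Fin n) (v : MT Φ) : PP Φ 1 (FreeGroup.of i) v 1 := by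
  refine ⟨Finsupp.single (v * (MT.t Φ)⁻¹, i) 1, fun ψ => ?_, ?_⟩
  · rw [pairing_single]
    unfold rel
    simp only [pv_mul]
    rw [← zpow_neg_one (tt : FreeGroup (Option (Fin n)))]
    have e0 : (tt : FreeGroup (Option (Fin n))) = tt ^ (1 : ℤ) := (zpow_one _).symm
    have a1 : ev Φ tt = MT.t Φ := ev_tt
    have e1 : v * (MT.t Φ)⁻¹ * ev Φ tt = v := by rw [a1, inv_mul_cancel_right]
    have e2 : v * (MT.t Φ)⁻¹ * ev Φ (tt * hz (FreeGroup.of i)) =
        v * MT.inc Φ (FreeGroup.of i) := by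
      rw [map_mul, a1, ev_hz]
      group
    have e3 : v * (MT.t Φ)⁻¹ * ev Φ (tt * hz (FreeGroup.of i) * tt ^ (-1 : ℤ)) =
        v * MT.inc Φ (FreeGroup.of i) * (MT.t Φ)⁻¹ := by
      rw [map_mul, map_mul, a1, ev_hz, ev_tt_zpow]
      group
    rw [e1, e2, e3, ← map_inv hz, pv_hz_inv]
    have e4 : v * MT.inc Φ (FreeGroup.of i) * (MT.t Φ)⁻¹ * MT.inc Φ (Φ (FreeGroup.of i))⁻¹ =
        v * (MT.t Φ)⁻¹ := by
      rw [map_inv, ← MT.t_conj]
      group
    rw [e4]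
    have e5 := pv_tt_cancel ψ v (-1)
    have e6 := pv_tt_cancel ψ (v * MT.inc Φ (FreeGroup.of i)) (-1)
    rw [neg_neg] at e5 e6
    rw [zpow_neg_one (MT.t Φ)] at e5 e6 ⊢
    rw [e6]
    rw [zpow_one] at e5
    rw [e5, zpow_one Φ]
    ring
  · intro q hq
    have hq' := Finsupp.support_single_subset hq
    rw [Finset.mem_singleton] at hq'
    subst hq'
    have e : v⁻¹ * (v * (MT.t Φ)⁻¹) = MT.t Φ ^ (-1 : ℤ) := by
      rw [zpow_neg_one]
      group
    simp only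
    rw [e]
    exact len_t_zpow _

/-- from letters to words -/
theorem PP.word {h : ℤ} {R : ℕ} (H : ∀ (i : Fin n) (v : MT Φ), PP Φ h (FreeGroup.of i) v R)
    (u : FreeGroup (Fin n)) (v : MT Φ) : PP Φ h u v (R + u.norm) := by
  have key : ∀ L : List (Fin n × Bool), ∀ v : MT Φ,
      PP Φ h (FreeGroup.mk L) v (R + L.length) := by
    intro L
    induction L with
    | nil => intro v; exact (PP.one h v).mono (Nat.zero_le _)
    | cons q L ih =>
      obtain ⟨i, b⟩ := q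
      intro v
      have e : (FreeGroup.mk ((i, b) :: L) : FreeGroup (Fin n)) =
          FreeGroup.mk [(i, b)] * FreeGroup.mk L := by
        rw [FreeGroup.mul_mk]
        rfl
      rw [e, List.length_cons]
      have h1 : PP Φ h (FreeGroup.mk [(i, b)]) v (R + 1) := by
        rw [mk_letter]
        cases b
        · simp only [Bool.false_eq_true, if_false]
          have := (H i (v * MT.inc Φ (FreeGroup.of i)⁻¹)).inv
          rw [FreeGroup.norm_of, add_comm] at this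
          exact this
        · simp only [if_true]
          exact (H i v).mono (by omega)
      refine (h1.mono (by omega)).mul (ih _) ?_
      have : (FreeGroup.mk [(i, b)] : FreeGroup (Fin n)).norm ≤ 1 := FreeGroup.norm_mk_le
      omega
  have := key u.toWord v
  rw [FreeGroup.mk_toWord] at this
  exact this

theorem push (Φ : MulAut (FreeGroup (Fin n))) :
    ∃ C : ℕ, ∀ (h : ℤ) (u : FreeGroup (Fin n)) (v : MT Φ), ∃ c : MT Φ × Fin n →₀ ℤ,
      (∀ ψ : MT Φ → Option (Fin n) → ℤ,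
        pv ψ v (hz u) = pv ψ v (tt ^ (-h)) + pv ψ (v * MT.t Φ ^ (-h)) (hz ((Φ ^ h) u)) +
          pv ψ (v * MT.inc Φ u * MT.t Φ ^ (-h)) (tt ^ h) + pairing c ψ) ∧
      ∀ q ∈ c.support, len Φ (v⁻¹ * q.1) ≤ C * (h.natAbs + u.norm) := by
  classical
  set C : ℕ := 2 + ∑ i : Fin n, ((Φ (FreeGroup.of i)).norm + (Φ⁻¹ (FreeGroup.of i)).norm)
    with hC
  have hCi : ∀ i : Fin n, 2 + ((Φ (FreeGroup.of i)).norm + (Φ⁻¹ (FreeGroup.of i)).norm) ≤ C :=
    fun i => Nat.add_le_add_left (Finset.single_le_sum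
      (f := fun i => (Φ (FreeGroup.of i)).norm + (Φ⁻¹ (FreeGroup.of i)).norm)
      (fun _ _ => Nat.zero_le _) (Finset.mem_univ i)) _
  have hC2 : 2 ≤ C := Nat.le_add_right _ _
  have hm1 : ∀ (i : Fin n) (v : MT Φ), PP Φ (-1) (FreeGroup.of i) v
      (2 + (Φ⁻¹ (FreeGroup.of i)).norm) := by
    intro i v
    have h1 := (PP.word (fun i v => PP.letter i v) (Φ⁻¹ (FreeGroup.of i))
      (v * MT.t Φ ^ (1 : ℤ))).neg
    have e : (Φ ^ (1 : ℤ)) (Φ⁻¹ (FreeGroup.of i)) = FreeGroup.of i := by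
      rw [zpow_one, ← MulAut.mul_apply, mul_inv_cancel, MulAut.one_apply]
    rw [e] at h1
    refine h1.mono ?_
    have : (1 : ℤ).natAbs = 1 := rfl
    omega
  have hpos : ∀ (k : ℕ) (i : Fin n) (v : MT Φ),
      PP Φ (k : ℤ) (FreeGroup.of i) v (C * k) := by
    intro k
    induction k with
    | zero =>
      intro i v
      refine ⟨0, fun ψ => ?_, by simp⟩
      simp [pv_one, pairing_zero]
    | succ k ih =>
      intro i v
      have h1 := PP.word ih (Φ (FreeGroup.of i)) (v * MT.t Φ ^ (-1 : ℤ))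
      have e : Φ (FreeGroup.of i) = (Φ ^ (1 : ℤ)) (FreeGroup.of i) := by rw [zpow_one]
      rw [e] at h1
      have h2 := ((PP.letter i v).mono
        (R' := C * (k + 1)) (by nlinarith)).comp h1 (by
          have := hCi i
          rw [← e]
          have : (1 : ℤ).natAbs = 1 := rfl
          rw [Nat.mul_succ]
          omega)
      rw [add_comm] at h2
      push_cast
      exact h2
  have hneg : ∀ (k : ℕ) (i : Fin n) (v : MT Φ),
      PP Φ (-(k : ℤ)) (FreeGroup.of i) v (C * k) := by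
    intro k
    induction k with
    | zero =>
      intro i v
      refine ⟨0, fun ψ => ?_, by simp⟩
      simp [pv_one, pairing_zero]
    | succ k ih =>
      intro i v
      have h1 := PP.word ih (Φ⁻¹ (FreeGroup.of i)) (v * MT.t Φ ^ (-(-1) : ℤ))
      have e : Φ⁻¹ (FreeGroup.of i) = (Φ ^ (-1 : ℤ)) (FreeGroup.of i) := by rw [zpow_neg_one]
      have hle : 2 + (Φ⁻¹ (FreeGroup.of i)).norm ≤ C * (k + 1) := by
        have := hCi i
        rw [Nat.mul_succ]
        omega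
      rw [e] at h1
      have h2 := ((hm1 i v).mono hle).comp h1 (by
          have := hCi i
          rw [← e]
          have : (-1 : ℤ).natAbs = 1 := rfl
          rw [Nat.mul_succ]
          omega)
      have e2 : (-1 : ℤ) + -(k : ℤ) = -((k + 1 : ℕ) : ℤ) := by push_cast; ring
      rw [e2] at h2
      exact h2
  refine ⟨C, fun h u v => ?_⟩
  have hlet : ∀ (i : Fin n) (v : MT Φ), PP Φ h (FreeGroup.of i) v (C * h.natAbs) := by
    intro i v
    rcases Int.natAbs_eq h with h1 | h1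
    · have := hpos h.natAbs i v
      rw [← h1] at this
      exact this
    · have := hneg h.natAbs i v
      rw [← h1] at this
      exact this
  obtain ⟨c, h1, h2⟩ := PP.word hlet u v
  refine ⟨c, h1, fun q hq => (h2 q hq).trans ?_⟩
  rw [Nat.mul_add]
  have : u.norm ≤ C * u.norm := Nat.le_mul_of_pos_left _ (by omega)
  omega

end MC
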