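import Pool.Agent.Helper42.MC.Ladder
import Pool.Agent.Helper42.MC.Corner

/-!
# MC-6: a corner gives grid boxes

`N = 0`: a constant map. `N > 0`: let `λ = min_i d(o,u i) > 0`, `r = λ/N = R`. By `marks` on `I(o,u i)` get
`α i : ℕ → M`. Let `f p = m(b, m(b, α 0 p₁, α 1 p₂), α 2 p₃)`.
Upper bound: `gate_lip` in each argument (`med` is symmetric):
`d(f p,f q) ≤ Σ_i d(α i p_i, α i q_i) ≤ 3·(3/2)·r·D ≤ 6 r D` with `D = dist p q` the sup distance
(`|p_i - q_i| ≤ D`).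
Lower bound: `g_i = m(o,u i,·)` is 1-Lipschitz, and `g_i (f p) = α i p_i`: `g_i b = u i` (`med_of_btw`),
`g_i (α i k) = α i k`, and for `j ≠ i`, `g_i (α j k) ∈ I(g_i o, g_i (u j)) = I(o, m(o,u i,u j)) = {o}`;
`med_distrib` gives `g_i m(b,x,y) = m(u i, g_i x, g_i y)`, and `m(u i, α, o) = α` for `α ∈ I(o,u i)`,
`m(u i,o,o) = o`. So `d(f p, f q) ≥ r/2 |p_i - q_i|` for each `i`, hence `≥ r/2 D ≥ r/6 D`.

`rank2_of_noBox0`: otherwise `corner` and `rankBox` contradict `NoBox0` for `L = 6`.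
-/

open Set

namespace MC

variable {M : Type*} [MetricSpace M]

theorem rankBox (h : IsMedian M) {K : ℝ} (hC : Chains M K 0) {o b : M} {u : Fin 3 → M}
    (h1 : ∀ i, u i ≠ o) (h2 : ∀ i, Btw o (u i) b) (h3 : ∀ i j, i ≠ j → med h o (u i) (u j) = o) :
    ∀ N : ℕ, ∃ R > 0, Box M 6 N R := by
  intro N
  rcases Nat.eq_zero_or_pos N with hN | hN
  · subst hN
    refine ⟨1, one_pos, fun _ => o, ?_⟩
    rintro ⟨p1, p2, p3⟩ ⟨q1, q2, q3⟩ ⟨a1, a2, a3⟩ ⟨b1, b2, b3⟩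
    simp only [Nat.le_zero] at a1 a2 a3 b1 b2 b3
    subst a1 a2 a3 b1 b2 b3
    simp
  have hNR : (0 : ℝ) < N := by exact_mod_cast hN
  have hd : ∀ i, 0 < dist o (u i) := fun i => dist_pos.2 (Ne.symm (h1 i))
  obtain ⟨l, hl0, hl⟩ : ∃ l : ℝ, 0 < l ∧ ∀ i, l ≤ dist o (u i) := by
    refine ⟨min (dist o (u 0)) (min (dist o (u 1)) (dist o (u 2))),
      lt_min (hd 0) (lt_min (hd 1) (hd 2)), ?_⟩
    intro i
    fin_cases i
    · exact min_le_left _ _
    · exact (min_le_right _ _).trans (min_le_left _ _)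
    · exact (min_le_right _ _).trans (min_le_right _ _)
  have hr : 0 < l / N := div_pos hl0 hNR
  obtain ⟨r, hrdef⟩ : ∃ r, r = l / N := ⟨_, rfl⟩
  rw [← hrdef] at hr
  have hNr : (N : ℝ) * r = l := by rw [hrdef]; field_simp
  have hm : ∀ i, ∃ y : ℕ → M, (∀ k ≤ N, Btw o (y k) (u i)) ∧ ∀ k m : ℕ, k ≤ N → m ≤ N →
      r / 2 * |(k : ℝ) - m| ≤ dist (y k) (y m) ∧ dist (y k) (y m) ≤ 3 / 2 * r * |(k : ℝ) - m| :=
    fun i => marks h hC hr (by rw [hNr]; exact hl i)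
  choose α hα1 hα2 using hm
  -- the coordinate gates
  have gb : ∀ i, med h o (u i) b = u i := by
    intro i
    rw [med_swap23]; exact med_of_btw h (h2 i)
  have go : ∀ i, med h o (u i) o = o := fun i => med_of_btw h (by unfold Btw; simp)
  have gs : ∀ i, ∀ k ≤ N, med h o (u i) (α i k) = α i k := fun i k hk =>
    med_of_btw h (hα1 i k hk)
  have gn : ∀ i j, i ≠ j → ∀ k ≤ N, med h o (u i) (α j k) = o := by
    intro i j hij k hk
    have := gate_btw h o (u i) (hα1 j k hk)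
    rw [go i, h3 i j hij] at this
    exact this.eq_of_self
  have m1 : ∀ i, ∀ k ≤ N, med h (u i) (α i k) o = α i k := by
    intro i k hk
    have e : med h (u i) (α i k) o = med h o (u i) (α i k) := by
      rw [med_swap23, med_swap12]
    rw [e, gs i k hk]
  have m2 : ∀ i, ∀ k ≤ N, med h (u i) o (α i k) = α i k := by
    intro i k hk
    rw [med_swap23]; exact m1 i k hk
  have m3 : ∀ i, med h (u i) o o = o := fun i => med_of_btw h (by unfold Btw; simp)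
  obtain ⟨f, hf⟩ : ∃ f : ℕ × ℕ × ℕ → M, ∀ p, f p =
      med h b (med h b (α 0 p.1) (α 1 p.2.1)) (α 2 p.2.2) := ⟨_, fun _ => rfl⟩
  have g0 : ∀ p, InCube N p → med h o (u 0) (f p) = α 0 p.1 := by
    rintro p ⟨a1, a2, a3⟩
    rw [hf, med_distrib h o (u 0) b, med_distrib h o (u 0) b, gb, gs 0 _ a1, gn 0 1 (by decide) _ a2,
      gn 0 2 (by decide) _ a3, m1 0 _ a1, m1 0 _ a1]
  have g1 : ∀ p, InCube N p → med h o (u 1) (f p) = α 1 p.2.1 := by
    rintro p ⟨a1, a2, a3⟩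
    rw [hf, med_distrib h o (u 1) b, med_distrib h o (u 1) b, gb, gs 1 _ a2, gn 1 0 (by decide) _ a1,
      gn 1 2 (by decide) _ a3, m2 1 _ a2, m1 1 _ a2]
  have g2 : ∀ p, InCube N p → med h o (u 2) (f p) = α 2 p.2.2 := by
    rintro p ⟨a1, a2, a3⟩
    rw [hf, med_distrib h o (u 2) b, med_distrib h o (u 2) b, gb, gs 2 _ a3, gn 2 0 (by decide) _ a1,
      gn 2 1 (by decide) _ a2, m3 2, m2 2 _ a3]
  refine ⟨r, hr, f, ?_⟩
  intro p q hp hq
  have hD : dist p q = max |(p.1 : ℝ) - q.1| (max |(p.2.1 : ℝ) - q.2.1| |(p.2.2 : ℝ) - q.2.2|) := by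
    rw [Prod.dist_eq, Prod.dist_eq, Nat.dist_eq, Nat.dist_eq, Nat.dist_eq]
  have e1 : |(p.1 : ℝ) - q.1| ≤ dist p q := by rw [hD]; exact le_max_left _ _
  have e2 : |(p.2.1 : ℝ) - q.2.1| ≤ dist p q := by
    rw [hD]; exact (le_max_left _ _).trans (le_max_right _ _)
  have e3 : |(p.2.2 : ℝ) - q.2.2| ≤ dist p q := by
    rw [hD]; exact (le_max_right _ _).trans (le_max_right _ _)
  have hD0 : 0 ≤ dist p q := dist_nonneg
  have k1 := hα2 0 p.1 q.1 hp.1 hq.1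
  have k2 := hα2 1 p.2.1 q.2.1 hp.2.1 hq.2.1
  have k3 := hα2 2 p.2.2 q.2.2 hp.2.2 hq.2.2
  constructor
  · have l1 : dist (α 0 p.1) (α 0 q.1) ≤ dist (f p) (f q) := by
      rw [← g0 p hp, ← g0 q hq]; exact gate_lip h o (u 0) (f p) (f q)
    have l2 : dist (α 1 p.2.1) (α 1 q.2.1) ≤ dist (f p) (f q) := by
      rw [← g1 p hp, ← g1 q hq]; exact gate_lip h o (u 1) (f p) (f q)
    have l3 : dist (α 2 p.2.2) (α 2 q.2.2) ≤ dist (f p) (f q) := by
      rw [← g2 p hp, ← g2 q hq]; exact gate_lip h o (u 2) (f p) (f q)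
    have l4 : r / 2 * dist p q ≤ dist (f p) (f q) := by
      rw [hD, mul_max_of_nonneg _ _ (by positivity), mul_max_of_nonneg _ _ (by positivity)]
      exact max_le (k1.1.trans l1) (max_le (k2.1.trans l2) (k3.1.trans l3))
    have : r / 6 * dist p q ≤ r / 2 * dist p q := by
      apply mul_le_mul_of_nonneg_right _ hD0
      linarith
    linarith
  · have t1 : dist (med h b (α 0 p.1) (α 1 p.2.1)) (med h b (α 0 q.1) (α 1 q.2.1)) ≤
        dist (α 0 p.1) (α 0 q.1) + dist (α 1 p.2.1) (α 1 q.2.1) := by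
      have s1 : dist (med h b (α 0 p.1) (α 1 p.2.1)) (med h b (α 0 q.1) (α 1 p.2.1)) ≤
          dist (α 0 p.1) (α 0 q.1) := by
        rw [med_swap23 h b (α 0 p.1), med_swap23 h b (α 0 q.1)]
        exact gate_lip h b (α 1 p.2.1) _ _
      have s2 : dist (med h b (α 0 q.1) (α 1 p.2.1)) (med h b (α 0 q.1) (α 1 q.2.1)) ≤
          dist (α 1 p.2.1) (α 1 q.2.1) := gate_lip h b (α 0 q.1) _ _
      exact (dist_triangle _ _ _).trans (add_le_add s1 s2)
    have t2 : dist (f p) (f q) ≤ dist (med h b (α 0 p.1) (α 1 p.2.1))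
        (med h b (α 0 q.1) (α 1 q.2.1)) + dist (α 2 p.2.2) (α 2 q.2.2) := by
      rw [hf p, hf q]
      generalize med h b (α 0 p.1) (α 1 p.2.1) = X
      generalize med h b (α 0 q.1) (α 1 q.2.1) = Y
      have s1 : dist (med h b X (α 2 p.2.2)) (med h b Y (α 2 p.2.2)) ≤ dist X Y := by
        rw [med_swap23 h b X, med_swap23 h b Y]
        exact gate_lip h b (α 2 p.2.2) _ _
      have s2 : dist (med h b Y (α 2 p.2.2)) (med h b Y (α 2 q.2.2)) ≤
          dist (α 2 p.2.2) (α 2 q.2.2) := gate_lip h b Y _ _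
      exact (dist_triangle _ _ _).trans (add_le_add s1 s2)
    have w : ∀ {t : ℝ}, t ≤ dist p q → 3 / 2 * r * t ≤ 3 / 2 * r * dist p q := fun ht =>
      mul_le_mul_of_nonneg_left ht (by positivity)
    have w1 := w e1
    have w2 := w e2
    have w3 := w e3
    have w4 : 0 ≤ r * dist p q := mul_nonneg hr.le hD0
    nlinarith [k1.2, k2.2, k3.2]

theorem rank2_of_noBox0 (h : IsMedian M) {K : ℝ} (hC : Chains M K 0) (hN : NoBox0 M) :
    Rank2 M := by
  by_contra hr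
  obtain ⟨o, b, u, h1, h2, h3⟩ := corner h hr
  obtain ⟨N, hN⟩ := hN 6 (by norm_num)
  obtain ⟨R, hR, hB⟩ := rankBox h hC h1 h2 h3 N
  exact hN R hR hB

end MC
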