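import Pool.Agent.Helper42.MC.Nondeg

/-!
# MC-10: rectangles lie in intervals

First let `u` be in the open rectangle (`min a.1 b.1 < u.1 < max a.1 b.1`, the same for `.2`). If
`g = m(E a,E b,E u) ≠ E u`, there is a halfspace `H ∋ E u`, `g ∉ H`. If `E a ∈ H` then
`g ∈ I(E a,E u) ⊆ H`; so `E a ∉ H`, the same `E b ∉ H`. The trace is nontrivial; by `Axes.thr` it is
vertical or horizontal, e.g. `VThr E H c`: `u.1 ≤ c ≤ a.1, b.1`, contradiction; the other three cases
are the same (`VThr E Hᶜ c`: `a.1, b.1 ≤ c ≤ u.1`).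
If `a.1 = b.1` or `a.2 = b.2`, a point of the rectangle is on the segment from `a` to `b`: `Flat.seg`.
Otherwise a point of the closed rectangle is a limit of points of the open rectangle, and `Btw` is a
closed condition (`E` is continuous by `Flat.lip`).
-/

open Set

namespace MC

variable {M : Type*} [MetricSpace M]

/-- the open rectangle -/
theorem rect_btw_open (hM : IsMedian M) {E : ℝ × ℝ → M} (hA : Axes E)
    {a b u : ℝ × ℝ} (h1 : min a.1 b.1 < u.1) (h2 : u.1 < max a.1 b.1)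
    (h3 : min a.2 b.2 < u.2) (h4 : u.2 < max a.2 b.2) : Btw (E a) (E u) (E b) := by
  by_contra hcon
  have hne : E u ≠ med hM (E a) (E b) (E u) := by
    intro h
    apply hcon
    rw [h]
    exact med_btw12 hM _ _ _
  obtain ⟨H, hH, huH, hgH⟩ := sep hM hne
  have ha : E a ∉ H := fun h => hgH (hH.1 _ h _ huH _ (med_btw13 hM (E a) (E b) (E u)))
  have hb : E b ∉ H := fun h => hgH (hH.1 _ h _ huH _ (med_btw23 hM (E a) (E b) (E u)))
  obtain ⟨c, h⟩ := hA.thr H hH ⟨u, huH⟩ ⟨a, ha⟩
  rcases h with ⟨p, q⟩ | ⟨p, q⟩ | ⟨p, q⟩ | ⟨p, q⟩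
  · have e1 : c ≤ a.1 := not_lt.1 fun h => ha (p a h)
    have e2 : c ≤ b.1 := not_lt.1 fun h => hb (p b h)
    have e3 : u.1 ≤ c := not_lt.1 fun h => q u h huH
    exact absurd h1 (not_lt.2 (e3.trans (le_min e1 e2)))
  · have e1 : a.1 ≤ c := not_lt.1 fun h => q a h ha
    have e2 : b.1 ≤ c := not_lt.1 fun h => q b h hb
    have e3 : c ≤ u.1 := not_lt.1 fun h => p u h huH
    exact absurd h2 (not_lt.2 ((max_le e1 e2).trans e3))
  · have e1 : c ≤ a.2 := not_lt.1 fun h => ha (p a h)
    have e2 : c ≤ b.2 := not_lt.1 fun h => hb (p b h)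
    have e3 : u.2 ≤ c := not_lt.1 fun h => q u h huH
    exact absurd h3 (not_lt.2 (e3.trans (le_min e1 e2)))
  · have e1 : a.2 ≤ c := not_lt.1 fun h => q a h ha
    have e2 : b.2 ≤ c := not_lt.1 fun h => q b h hb
    have e3 : c ≤ u.2 := not_lt.1 fun h => p u h huH
    exact absurd h4 (not_lt.2 ((max_le e1 e2).trans e3))

theorem exists_seg {x y z : ℝ} (h : x ∈ uIcc y z) : ∃ t ∈ Icc (0 : ℝ) 1, x = y + t * (z - y) := by
  rw [← segment_eq_uIcc] at h
  obtain ⟨p, q, hp, hq, hpq, hx⟩ := h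
  refine ⟨q, ⟨hq, by linarith⟩, ?_⟩
  rw [← hx]
  simp only [smul_eq_mul]
  have : p = 1 - q := by linarith
  rw [this]
  ring

theorem rect_btw (hM : IsMedian M) {E : ℝ × ℝ → M} {L : ℝ} (hE : Flat E L) (hA : Axes E)
    {a b u : ℝ × ℝ} (hu : u ∈ Rect a b) : Btw (E a) (E u) (E b) := by
  obtain ⟨hu1, hu2⟩ := hu
  by_cases ha1 : a.1 = b.1
  · obtain ⟨t, ht, hut⟩ := exists_seg hu2
    have e : u = a + t • (b - a) := by
      rw [ha1, uIcc_self, mem_singleton_iff] at hu1
      refine Prod.ext ?_ ?_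
      · simp [hu1, ha1]
      · simpa using hut
    rw [e]
    exact hE.seg a b t ht
  by_cases ha2 : a.2 = b.2
  · obtain ⟨t, ht, hut⟩ := exists_seg hu1
    have e : u = a + t • (b - a) := by
      rw [ha2, uIcc_self, mem_singleton_iff] at hu2
      refine Prod.ext ?_ ?_
      · simpa using hut
      · simp [hu2, ha2]
    rw [e]
    exact hE.seg a b t ht
  -- the midpoint of the rectangle
  set m : ℝ × ℝ := ((a.1 + b.1) / 2, (a.2 + b.2) / 2) with hm
  have hcont : Continuous E := by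
    have : LipschitzWith (Real.toNNReal L) E := by
      apply LipschitzWith.of_dist_le_mul
      intro x y
      rw [Real.coe_toNNReal L hE.pos.le]
      exact hE.lip x y
    exact this.continuous
  have hopen : ∀ s : ℝ, 0 < s → s ≤ 1 → Btw (E a) (E (u + s • (m - u))) (E b) := by
    intro s hs0 hs1
    have m1 : min a.1 b.1 < (a.1 + b.1) / 2 := by
      rcases lt_or_gt_of_ne ha1 with h | h
      · rw [min_eq_left h.le]; linarith
      · rw [min_eq_right h.le]; linarith
    have m2 : (a.1 + b.1) / 2 < max a.1 b.1 := by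
      rcases lt_or_gt_of_ne ha1 with h | h
      · rw [max_eq_right h.le]; linarith
      · rw [max_eq_left h.le]; linarith
    have m3 : min a.2 b.2 < (a.2 + b.2) / 2 := by
      rcases lt_or_gt_of_ne ha2 with h | h
      · rw [min_eq_left h.le]; linarith
      · rw [min_eq_right h.le]; linarith
    have m4 : (a.2 + b.2) / 2 < max a.2 b.2 := by
      rcases lt_or_gt_of_ne ha2 with h | h
      · rw [max_eq_right h.le]; linarith
      · rw [max_eq_left h.le]; linarith
    have c1 : (u + s • (m - u)).1 = u.1 + s * ((a.1 + b.1) / 2 - u.1) := by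
      simp [hm]
    have c2 : (u + s • (m - u)).2 = u.2 + s * ((a.2 + b.2) / 2 - u.2) := by
      simp [hm]
    have l1 : min a.1 b.1 ≤ u.1 := hu1.1
    have l2 : u.1 ≤ max a.1 b.1 := hu1.2
    have l3 : min a.2 b.2 ≤ u.2 := hu2.1
    have l4 : u.2 ≤ max a.2 b.2 := hu2.2
    refine rect_btw_open hM hA ?_ ?_ ?_ ?_
    · rw [c1]
      nlinarith
    · rw [c1]
      nlinarith
    · rw [c2]
      nlinarith
    · rw [c2]
      nlinarith
  have hlim : Filter.Tendsto (fun s : ℝ => u + s • (m - u)) (nhdsWithin 0 (Ioi 0)) (nhds u) := by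
    have h1 : Continuous (fun s : ℝ => u + s • (m - u)) := by fun_prop
    have h2 := h1.tendsto 0
    simp only [zero_smul, add_zero] at h2
    exact h2.mono_left nhdsWithin_le_nhds
  have hlimE := (hcont.tendsto u).comp hlim
  have hd : Filter.Tendsto (fun s : ℝ => dist (E a) (E (u + s • (m - u))) +
      dist (E (u + s • (m - u))) (E b)) (nhdsWithin 0 (Ioi 0))
      (nhds (dist (E a) (E u) + dist (E u) (E b))) :=
    (tendsto_const_nhds.dist hlimE).add (hlimE.dist tendsto_const_nhds)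
  refine tendsto_nhds_unique hd ?_
  refine tendsto_const_nhds.congr' ?_
  have hmem : Ioc (0 : ℝ) 1 ∈ nhdsWithin (0 : ℝ) (Ioi 0) := Ioc_mem_nhdsGT one_pos
  filter_upwards [hmem] with s hs
  exact Eq.symm (show _ + _ = _ from hopen s hs.1 hs.2)

end MC
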