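import Pool.Agent.Helper42.MC.Med

/-!
# MC-2: halfspaces separate points

By Zorn take a maximal convex `H ∋ x`, `y ∉ H`. To show: `Hᶜ` convex. For `p ∉ H` the join
`J(p) = ⋃_{h ∈ H} I(h,p)` is convex (`join_cvx`), contains `H` and `p`, so by maximality `y ∈ J(p)`.
Suppose `p, q ∉ H`, `r ∈ I(p,q)`, `r ∈ H`; then `y ∈ I(h1,p)`, `y ∈ I(h2,q)` with `h1, h2 ∈ H`.
Put `u = m(y,h1,h2) ∈ H`, `v = m(y,u,r) ∈ I(u,r) ⊆ H`. Let `g = m(y,v,·)` (the gate of `I(y,v)`).
`v ∈ I(y,u)`, `u ∈ I(y,h1)` so `v ∈ I(y,h1)`: `g h1 = v`, the same `g h2 = v`; `v ∈ I(y,r)` so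
`g r = v`. `y ∈ I(h1,p)` gives (`gate_btw`) `y = g y ∈ I(v, g p)`, and `g p ∈ I(y,v)`, so `g p = y`; the
same `g q = y`; `r ∈ I(p,q)` gives `v = g r ∈ I(y,y)`, `v = y`, contradiction with `y ∉ H`.

`join_cvx`: let `u ∈ I(h1,p)`, `v ∈ I(h2,p)`, `w ∈ I(u,v)`. Put `h = m(h1,h2,w) ∈ H`,
`n = m(w,h,p)`; claim `w = n` (then `w ∈ I(h,p)`). Let `g = m(w,n,·)`. `n ∈ I(w,p)`: `g p = n`;
`n ∈ I(w,h)`: `g h = n`. Let `α = g h1`, `β = g h2`. By `med_distrib` `n = g h = m(α,β,g w) = m(α,β,w)`,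
so `n ∈ I(α,w)`; with `α ∈ I(w,n)` this gives `α = n`, the same `β = n`. So `g u ∈ I(α, g p) = {n}`,
`g v = n`, and `w = g w ∈ I(g u, g v) = {n}`.
-/

open Set

namespace MC

variable {M : Type*} [MetricSpace M]

theorem med_self_right (h : IsMedian M) (w n : M) : med h w n w = w := by
  refine (med_unique h ?_ ?_ ?_).symm
  · simp [Btw]
  · simp [Btw, dist_comm]
  · simp [Btw]

theorem med_of_btw_right (h : IsMedian M) {w n p : M} (hn : Btw w n p) : med h w n p = n := by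
  refine (med_unique h ?_ ?_ hn).symm
  · simp [Btw]
  · simp [Btw]

theorem join_cvx (h : IsMedian M) {H : Set M} (hH : Cvx H) (p : M) :
    Cvx {w | ∃ a ∈ H, Btw a w p} := by
  rintro u ⟨h1, hh1, hu⟩ v ⟨h2, hh2, hv⟩ w hw
  obtain ⟨a, ha⟩ : ∃ a, a = med h h1 h2 w := ⟨_, rfl⟩
  have haH : a ∈ H := hH h1 hh1 h2 hh2 a (ha ▸ med_btw12 h h1 h2 w)
  refine ⟨a, haH, ?_⟩
  obtain ⟨n, hn⟩ : ∃ n, n = med h w a p := ⟨_, rfl⟩
  have hn1 : Btw w n a := hn ▸ med_btw12 h w a p
  have hn2 : Btw a n p := hn ▸ med_btw23 h w a p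
  have hn3 : Btw w n p := hn ▸ med_btw13 h w a p
  suffices hwn : w = n by rw [hwn]; exact hn2
  have gp : med h w n p = n := med_of_btw_right h hn3
  have ga : med h w n a = n := med_of_btw_right h hn1
  have gw : med h w n w = w := med_self_right h w n
  have e : n = med h (med h w n h1) (med h w n h2) w := by
    have h0 := med_distrib h w n h1 h2 w
    rw [← ha, ga, gw] at h0
    exact h0
  have hα : med h w n h1 = n := by
    have h3 : Btw (med h w n h1) n w := by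
      have h5 := med_btw13 h (med h w n h1) (med h w n h2) w
      rwa [← e] at h5
    exact Btw.antisymm (med_btw12 h w n h1) h3.symm
  have hβ : med h w n h2 = n := by
    have h3 : Btw (med h w n h2) n w := by
      have h5 := med_btw23 h (med h w n h1) (med h w n h2) w
      rwa [← e] at h5
    exact Btw.antisymm (med_btw12 h w n h2) h3.symm
  have gu : med h w n u = n := by
    have h0 := gate_btw h w n hu
    rw [hα, gp] at h0
    exact h0.eq_of_self
  have gv : med h w n v = n := by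
    have h0 := gate_btw h w n hv
    rw [hβ, gp] at h0
    exact h0.eq_of_self
  have h0 := gate_btw h w n hw
  rw [gu, gv, gw] at h0
  exact h0.eq_of_self

theorem sep (h : IsMedian M) {x y : M} (hxy : x ≠ y) :
    ∃ H : Set M, Half H ∧ x ∈ H ∧ y ∉ H := by
  obtain ⟨H, hxH, hmax⟩ := zorn_subset_nonempty {H : Set M | Cvx H ∧ y ∉ H} (by
    intro c hc hchain hne
    refine ⟨⋃₀ c, ⟨?_, ?_⟩, fun s hs => subset_sUnion_of_mem hs⟩
    · rintro u ⟨s, hs, hus⟩ v ⟨t, ht, hvt⟩ z hz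
      rcases hchain.total hs ht with hst | hts
      · exact ⟨t, ht, (hc ht).1 u (hst hus) v hvt z hz⟩
      · exact ⟨s, hs, (hc hs).1 u hus v (hts hvt) z hz⟩
    · rintro ⟨s, hs, hys⟩
      exact (hc hs).2 hys) {x} (by
    refine ⟨?_, ?_⟩
    · intro u hu v hv z hz
      rw [mem_singleton_iff] at hu hv
      subst hu; subst hv
      exact hz.eq_of_self
    · intro hy
      rw [mem_singleton_iff] at hy
      exact hxy hy.symm)
  have hH : Cvx H := hmax.prop.1
  have hyH : y ∉ H := hmax.prop.2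
  have hxH' : x ∈ H := hxH rfl
  have join : ∀ p, p ∉ H → ∃ a ∈ H, Btw a y p := by
    intro p hp
    by_contra hcon
    have h1 : {w | ∃ a ∈ H, Btw a w p} ∈ {H : Set M | Cvx H ∧ y ∉ H} := by
      refine ⟨join_cvx h hH p, ?_⟩
      intro hy
      exact hcon hy
    have h2 : H ⊆ {w | ∃ a ∈ H, Btw a w p} := by
      intro a ha
      exact ⟨a, ha, by simp [Btw]⟩
    have h3 := hmax.le_of_ge h1 h2
    apply hp
    apply h3
    exact ⟨x, hxH', by simp [Btw]⟩
  refine ⟨H, ⟨hH, ?_⟩, hxH', hyH⟩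
  intro p hp q hq r hr hrH
  obtain ⟨h1, hh1, hy1⟩ := join p hp
  obtain ⟨h2, hh2, hy2⟩ := join q hq
  obtain ⟨u, hu⟩ : ∃ u, u = med h y h1 h2 := ⟨_, rfl⟩
  have huH : u ∈ H := hH h1 hh1 h2 hh2 u (hu ▸ med_btw23 h y h1 h2)
  obtain ⟨v, hv⟩ : ∃ v, v = med h y u r := ⟨_, rfl⟩
  have hvH : v ∈ H := hH u huH r hrH v (hv ▸ med_btw23 h y u r)
  have hv1 : Btw y v u := hv ▸ med_btw12 h y u r
  have hvr : Btw y v r := hv ▸ med_btw13 h y u r
  have hu1 : Btw y u h1 := hu ▸ med_btw12 h y h1 h2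
  have hu2 : Btw y u h2 := hu ▸ med_btw13 h y h1 h2
  have g1 : med h y v h1 = v := med_of_btw_right h (hv1.trans_left hu1).1
  have g2 : med h y v h2 = v := med_of_btw_right h (hv1.trans_left hu2).1
  have gr : med h y v r = v := med_of_btw_right h hvr
  have gy : med h y v y = y := med_self_right h y v
  have gp : med h y v p = y := by
    have h0 := gate_btw h y v hy1
    rw [g1, gy] at h0
    exact (Btw.antisymm h0 (med_btw12 h y v p).symm).symm
  have gq : med h y v q = y := by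
    have h0 := gate_btw h y v hy2
    rw [g2, gy] at h0
    exact (Btw.antisymm h0 (med_btw12 h y v q).symm).symm
  have h0 := gate_btw h y v hr
  rw [gp, gq, gr] at h0
  have h3 := h0.eq_of_self
  rw [h3] at hvH
  exact hyH hvH

end MC
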