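import Pool.Agent.Helper42.MC.Sep

/-!
# MC-3: distances are controlled by the separating halfspaces

Let `gx = m(x,y,x')`, `gy = m(x,y,y')`; `d(gx,gy) ≤ d(x',y')` by `gate_lip`. Let `u = m(x,gx,gy)`.
Claim `u = x`. If not, by `sep` there is a halfspace `H ∋ x`, `u ∉ H`. `u ∈ I(x,gx)`, so `gx ∉ H`,
the same `gy ∉ H`. `gx ∈ I(x,y)`, so `y ∉ H`. If `x' ∈ H` then `gx ∈ I(x,x') ⊆ H`, contradiction; so
`x' ∉ H`, the same `y' ∉ H`, contradicting the hypothesis. So `x ∈ I(gx,gy)`. Symmetrically (using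
the complement of a halfspace which contains `y` but not `x`) `y ∈ I(gx,gy)`.
With `gx, gy ∈ I(x,y)`, `x, y ∈ I(gx,gy)`, sum the four equations: `d(gx,gy) = d(x,y)`.
-/

open Set

namespace MC

variable {M : Type*} [MetricSpace M]

theorem sepDist (h : IsMedian M) {x y x' y' : M}
    (hs : ∀ H : Set M, Half H → x ∈ H → y ∉ H → (x' ∈ H ∧ y' ∉ H) ∨ (x' ∉ H ∧ y' ∈ H)) :
    dist x y ≤ dist x' y' := by
  have hg : dist (med h x y x') (med h x y y') ≤ dist x' y' := gate_lip h x y x' y'
  have hgx : Btw x (med h x y x') y := med_btw12 h x y x'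
  have hgy : Btw x (med h x y y') y := med_btw12 h x y y'
  have hx1 : Btw x (med h x y x') x' := med_btw13 h x y x'
  have hx2 : Btw x (med h x y y') y' := med_btw13 h x y y'
  have hy1 : Btw y (med h x y x') x' := med_btw23 h x y x'
  have hy2 : Btw y (med h x y y') y' := med_btw23 h x y y'
  generalize med h x y x' = gx at *
  generalize med h x y y' = gy at *
  have c1 : Btw gx x gy := by
    have hu1 : Btw x (med h x gx gy) gx := med_btw12 h x gx gy
    have hu2 : Btw x (med h x gx gy) gy := med_btw13 h x gx gy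
    have hu3 : Btw gx (med h x gx gy) gy := med_btw23 h x gx gy
    generalize med h x gx gy = u at *
    by_cases hux : x = u
    · subst hux; exact hu3
    · exfalso
      obtain ⟨H, hH, hxH, huH⟩ := sep h hux
      have h1 : gx ∉ H := fun hh => huH (hH.1 x hxH gx hh u hu1)
      have h2 : gy ∉ H := fun hh => huH (hH.1 x hxH gy hh u hu2)
      have h3 : y ∉ H := fun hh => h1 (hH.1 x hxH y hh gx hgx)
      rcases hs H hH hxH h3 with ⟨h4, _⟩ | ⟨_, h5⟩
      · exact h1 (hH.1 x hxH x' h4 gx hx1)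
      · exact h2 (hH.1 x hxH y' h5 gy hx2)
  have c2 : Btw gx y gy := by
    have hu1 : Btw y (med h y gx gy) gx := med_btw12 h y gx gy
    have hu2 : Btw y (med h y gx gy) gy := med_btw13 h y gx gy
    have hu3 : Btw gx (med h y gx gy) gy := med_btw23 h y gx gy
    generalize med h y gx gy = u at *
    by_cases hux : y = u
    · subst hux; exact hu3
    · exfalso
      obtain ⟨H, hH, hyH, huH⟩ := sep h hux
      have h1 : gx ∉ H := fun hh => huH (hH.1 y hyH gx hh u hu1)
      have h2 : gy ∉ H := fun hh => huH (hH.1 y hyH gy hh u hu2)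
      have h3 : x ∉ H := fun hh => h1 (hH.1 x hh y hyH gx hgx)
      rcases hs Hᶜ hH.compl h3 (fun hh => hh hyH) with ⟨_, h5⟩ | ⟨h4, _⟩
      · exact h2 (hH.1 y hyH y' (not_not.1 h5) gy hy2)
      · exact h1 (hH.1 y hyH x' (not_not.1 h4) gx hy1)
  unfold Btw at hgx hgy c1 c2
  rw [dist_comm gx x] at c1
  rw [dist_comm y gy] at c2
  linarith

end MC
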