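import Pool.Agent.Helper42.MC.Defs

/-!
# MC-26: the tree metric of the free group

`gp x y` is the length of the longest common prefix of the reduced words of `x` and `y`.
-/

namespace MC

variable {n : ℕ}

/-- length of the longest common prefix -/
def cpl {α : Type*} [DecidableEq α] : List α → List α → ℕ
  | [], _ => 0
  | _ :: _, [] => 0
  | a :: l, b :: m => if a = b then cpl l m + 1 else 0

theorem le_cpl_iff {α : Type*} [DecidableEq α] : ∀ (t : ℕ) (l m : List α),
    t ≤ cpl l m ↔ t ≤ l.length ∧ t ≤ m.length ∧ l.take t = m.take t := by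
  intro t
  induction t with
  | zero => intro l m; simp
  | succ t ih =>
    intro l m
    cases l with
    | nil => simp [cpl]
    | cons a l =>
      cases m with
      | nil => simp [cpl]
      | cons b m =>
        by_cases hab : a = b
        · subst hab
          simp only [cpl, if_true, List.length_cons, List.take_succ_cons, List.cons.injEq,
            true_and, Nat.add_le_add_iff_right]
          exact ih l m
        · simp [cpl, hab]

theorem isReduced_invRev {l : List (Fin n × Bool)} (h : FreeGroup.IsReduced l) :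
    FreeGroup.IsReduced (FreeGroup.invRev l) := by
  apply FreeGroup.IsReduced.of_reduce_eq
  rw [FreeGroup.reduce_invRev, h.reduce_eq]

theorem norm_mk_of_isReduced {l : List (Fin n × Bool)} (h : FreeGroup.IsReduced l) :
    (FreeGroup.mk l).norm = l.length := by
  rw [FreeGroup.norm, FreeGroup.toWord_mk, h.reduce_eq]

theorem mk_cons (a : Fin n × Bool) (l : List (Fin n × Bool)) :
    FreeGroup.mk (a :: l) = FreeGroup.mk [a] * FreeGroup.mk l :=
  (FreeGroup.mul_mk (L₁ := [a]) (L₂ := l)).symm

theorem fd_list : ∀ (l m : List (Fin n × Bool)), FreeGroup.IsReduced l → FreeGroup.IsReduced m →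
    ((FreeGroup.mk l)⁻¹ * FreeGroup.mk m).norm + 2 * cpl l m = l.length + m.length := by
  intro l
  induction l with
  | nil =>
    intro m _ hm
    have h1 : (FreeGroup.mk ([] : List (Fin n × Bool))) = 1 := rfl
    rw [h1, inv_one, one_mul, norm_mk_of_isReduced hm]
    simp [cpl]
  | cons a l ih =>
    intro m hl hm
    cases m with
    | nil =>
      have h1 : (FreeGroup.mk ([] : List (Fin n × Bool))) = 1 := rfl
      rw [h1, mul_one, FreeGroup.norm_inv_eq, norm_mk_of_isReduced hl]
      simp [cpl]
    | cons b m =>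
      by_cases hab : a = b
      · subst hab
        have h1 : (FreeGroup.mk (a :: l))⁻¹ * FreeGroup.mk (a :: m) =
            (FreeGroup.mk l)⁻¹ * FreeGroup.mk m := by
          rw [mk_cons a l, mk_cons a m]
          group
        have hl' : FreeGroup.IsReduced l := (List.isChain_append (l₁ := [a])).1 hl |>.2.1
        have hm' : FreeGroup.IsReduced m := (List.isChain_append (l₁ := [a])).1 hm |>.2.1
        have h2 := ih m hl' hm'
        rw [h1]
        simp only [cpl, if_true, List.length_cons]
        omega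
      · have h1 : (FreeGroup.mk (a :: l))⁻¹ * FreeGroup.mk (b :: m) =
            FreeGroup.mk (FreeGroup.invRev (a :: l) ++ (b :: m)) := by
          rw [FreeGroup.inv_mk, FreeGroup.mul_mk]
        have hred : FreeGroup.IsReduced (FreeGroup.invRev (a :: l) ++ (b :: m)) := by
          rw [FreeGroup.IsReduced, List.isChain_append]
          refine ⟨isReduced_invRev hl, hm, ?_⟩
          intro x hx y hy hxy
          have h3 : FreeGroup.invRev (a :: l) = FreeGroup.invRev l ++ [(a.1, !a.2)] := by
            simp [FreeGroup.invRev]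
          rw [h3, List.getLast?_append_of_ne_nil _ (by simp)] at hx
          simp only [List.getLast?_singleton, Option.mem_def, Option.some.injEq] at hx
          simp only [List.head?_cons, Option.mem_def, Option.some.injEq] at hy
          subst hx
          subst hy
          have h4 : a.2 ≠ b.2 := fun h => hab (Prod.ext hxy h)
          show (!a.2) = b.2
          revert h4
          cases a.2 <;> cases b.2 <;> simp
        rw [h1, norm_mk_of_isReduced hred]
        simp [cpl, hab, FreeGroup.invRev_length]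

theorem fd_cpl (x y : FreeGroup (Fin n)) :
    fd x y + 2 * cpl x.toWord y.toWord = x.norm + y.norm := by
  have h := fd_list x.toWord y.toWord FreeGroup.isReduced_toWord FreeGroup.isReduced_toWord
  rw [FreeGroup.mk_toWord, FreeGroup.mk_toWord] at h
  exact h

theorem gp_eq (x y : FreeGroup (Fin n)) : gp x y = cpl x.toWord y.toWord := by
  have h := fd_cpl x y
  rw [gp]
  omega

theorem gp_spec (x y : FreeGroup (Fin n)) : 2 * gp x y + fd x y = x.norm + y.norm := by
  have h := fd_cpl x y
  rw [gp_eq]
  omega

theorem fd_comm (x y : FreeGroup (Fin n)) : fd x y = fd y x := by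
  rw [fd, fd, ← FreeGroup.norm_inv_eq]
  congr 1
  group

theorem gp_comm (x y : FreeGroup (Fin n)) : gp x y = gp y x := by
  have h1 := gp_spec x y
  have h2 := gp_spec y x
  have h3 := fd_comm x y
  omega

theorem fd_self (x : FreeGroup (Fin n)) : fd x x = 0 := by
  rw [fd, inv_mul_cancel, FreeGroup.norm_one]

theorem gp_self (x : FreeGroup (Fin n)) : gp x x = x.norm := by
  have h1 := gp_spec x x
  have h2 := fd_self x
  omega

theorem fd_triangle (x y z : FreeGroup (Fin n)) : fd x z ≤ fd x y + fd y z := by
  have h := FreeGroup.norm_mul_le (x⁻¹ * y) (y⁻¹ * z)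
  have h1 : x⁻¹ * y * (y⁻¹ * z) = x⁻¹ * z := by group
  rw [h1] at h
  exact h

theorem fd_mul_left (g x y : FreeGroup (Fin n)) : fd (g * x) (g * y) = fd x y := by
  rw [fd, fd]
  congr 1
  group

theorem gp_le_left (x y : FreeGroup (Fin n)) : gp x y ≤ x.norm := by
  rw [gp_eq]
  exact ((le_cpl_iff _ _ _).1 le_rfl).1

theorem gp_le_right (x y : FreeGroup (Fin n)) : gp x y ≤ y.norm := by
  rw [gp_comm]
  exact gp_le_left y x

theorem gp_four (x y z : FreeGroup (Fin n)) : min (gp x y) (gp y z) ≤ gp x z := by
  rw [gp_eq, gp_eq, gp_eq, le_cpl_iff]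
  obtain ⟨h1, h2, h3⟩ := (le_cpl_iff _ _ _).1
    (min_le_left (cpl x.toWord y.toWord) (cpl y.toWord z.toWord))
  obtain ⟨h4, h5, h6⟩ := (le_cpl_iff _ _ _).1
    (min_le_right (cpl x.toWord y.toWord) (cpl y.toWord z.toWord))
  exact ⟨h1, h5, h3.trans h6⟩

/-- the prefix of length `k` -/
def pfx (y : FreeGroup (Fin n)) (k : ℕ) : FreeGroup (Fin n) := FreeGroup.mk (y.toWord.take k)

theorem isReduced_take (y : FreeGroup (Fin n)) (k : ℕ) :
    FreeGroup.IsReduced (y.toWord.take k) := by
  have h : FreeGroup.IsReduced (y.toWord.take k ++ y.toWord.drop k) := by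
    rw [List.take_append_drop]
    exact FreeGroup.isReduced_toWord
  exact (List.isChain_append.1 h).1

theorem pfx_toWord (y : FreeGroup (Fin n)) (k : ℕ) : (pfx y k).toWord = y.toWord.take k := by
  rw [pfx, FreeGroup.toWord_mk, (isReduced_take y k).reduce_eq]

theorem pfx_norm (y : FreeGroup (Fin n)) {k : ℕ} (hk : k ≤ y.norm) : (pfx y k).norm = k := by
  rw [FreeGroup.norm, pfx_toWord, List.length_take]
  exact min_eq_left hk

theorem pfx_gp (y : FreeGroup (Fin n)) {k : ℕ} (hk : k ≤ y.norm) : gp (pfx y k) y = k := by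
  apply le_antisymm
  · exact (gp_le_left _ _).trans (pfx_norm y hk).le
  · rw [gp_eq, le_cpl_iff, pfx_toWord]
    refine ⟨?_, hk, ?_⟩
    · rw [List.length_take]
      exact le_min le_rfl hk
    · rw [List.take_take, min_self]

theorem exists_prefix (y : FreeGroup (Fin n)) {k : ℕ} (hk : k ≤ y.norm) :
    ∃ p : FreeGroup (Fin n), p.norm = k ∧ gp p y = k := ⟨pfx y k, pfx_norm y hk, pfx_gp y hk⟩

/-- the prefixes of `y` form a geodesic -/
theorem exists_geod (y : FreeGroup (Fin n)) : ∃ q : ℕ → FreeGroup (Fin n), q 0 = 1 ∧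
    q y.norm = y ∧ (∀ i, fd (q i) (q (i + 1)) ≤ 1) ∧
      ∀ i ≤ y.norm, (q i).norm = i ∧ gp (q i) y = i := by
  refine ⟨pfx y, rfl, ?_, ?_, fun i hi => ⟨pfx_norm y hi, pfx_gp y hi⟩⟩
  · rw [pfx, FreeGroup.norm, List.take_length, FreeGroup.mk_toWord]
  · intro i
    rcases Nat.lt_or_ge i y.toWord.length with hi | hi
    · have h1 : y.toWord.take (i + 1) = y.toWord.take i ++ [y.toWord[i]] := by
        rw [List.take_append_getElem]
      have h2 : (pfx y i)⁻¹ * pfx y (i + 1) = FreeGroup.mk [y.toWord[i]] := by
        rw [pfx, pfx, h1, ← FreeGroup.mul_mk]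
        group
      rw [fd, h2]
      exact FreeGroup.norm_mk_le
    · have h1 : pfx y (i + 1) = pfx y i := by
        rw [pfx, pfx, List.take_of_length_le hi, List.take_of_length_le (by omega)]
      rw [h1, fd_self]
      omega

theorem chain_near {K m : ℕ} (c : ℕ → FreeGroup (Fin n)) (c0 : c 0 = 1)
    (hc : ∀ i < m, fd (c i) (c (i + 1)) ≤ K) {p : FreeGroup (Fin n)} (hp : gp p (c m) = p.norm) :
    ∃ i ≤ m, fd (c i) p ≤ K := by
  classical
  set y := c m with hy
  have hex : ∃ i, p.norm ≤ gp (c i) y := ⟨m, by rw [← hy, gp_self, ← hp]; exact gp_le_right _ _⟩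
  set i := Nat.find hex with hi
  have hi1 : p.norm ≤ gp (c i) y := Nat.find_spec hex
  have him : i ≤ m := Nat.find_min' hex (by rw [← hy, gp_self, ← hp]; exact gp_le_right _ _)
  have h1 : p.norm ≤ gp (c i) p := by
    refine le_trans (le_min hi1 ?_) (gp_four (c i) y p)
    rw [gp_comm, hp]
  have h2 : gp (c i) p = p.norm := le_antisymm (gp_le_right _ _) h1
  rcases Nat.eq_zero_or_pos i with h0 | hpos
  · refine ⟨0, Nat.zero_le _, ?_⟩
    rw [h0, c0] at h2
    have h3 := gp_le_left (1 : FreeGroup (Fin n)) p
    rw [FreeGroup.norm_one] at h3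
    have h4 : p.norm = 0 := by omega
    have h5 : p = 1 := FreeGroup.norm_eq_zero.1 h4
    rw [c0, h5, fd_self]
    exact Nat.zero_le _
  · refine ⟨i - 1, by omega, ?_⟩
    have h3 : gp (c (i - 1)) y < p.norm := by
      have h4 := Nat.find_min hex (m := i - 1) (by omega)
      omega
    have h4 : gp (c (i - 1)) (c i) < p.norm := by
      have h5 := gp_four (c (i - 1)) (c i) y
      rcases min_le_iff.1 h5 with h6 | h6
      · omega
      · omega
    have h5 : gp (c (i - 1)) (c i) ≤ gp (c (i - 1)) p := by
      refine le_trans (le_min le_rfl ?_) (gp_four (c (i - 1)) (c i) p)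
      omega
    have h6 := gp_spec (c (i - 1)) p
    have h7 := gp_spec (c (i - 1)) (c i)
    have h8 := hc (i - 1) (by omega)
    rw [Nat.sub_add_cancel hpos] at h8
    have h9 : p.norm ≤ (c i).norm := h2 ▸ gp_le_left (c i) p
    omega

end MC
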