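import Pool.Agent.Helper42.MC.Nondeg

/-!
# MC-9: only two directions; linear coordinates

By `nondeg` (0 and (1,0)) get `H1` with trace `f1 = α1 x + β1 y ≠ 0`; by `nondeg` for `0` and `(-β1, α1)` get
`H2` with trace `f2`, `f2 (-β1,α1) > 0`, so `f1, f2` are linearly independent. Let `A` be the inverse of
`w ↦ (f1 w, f2 w)`. `E' = E ∘ A` is `Flat` (a linear equivalence of `ℝ × ℝ` is bilipschitz, and
commutes with segments); `VThr E' H1 c1`, `HThr E' H2 c2`.
(*) If `H` is a halfspace with `Thr E' H α β c` and `α ≠ 0`, `β ≠ 0`, then `H, H1, H2` cross pairwise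
(for two independent linear functionals all four sign patterns of (value - threshold) occur),
contradiction with `Rank2`.
`thr`: `trace` for `E'` gives `Thr E' H α β c`; by (*) `β = 0` (then `VThr E' H (c/α)` if `α > 0`,
`VThr E' Hᶜ (c/α)` if `α < 0`) or `α = 0` (the same with `HThr`).
`denseV`: `nondeg` for `E'` and `(x,0)`, `(y,0)`: `α x ≤ c ≤ α y`, `α x < α y`, so `α > 0`, `β = 0` by
(*) and `VThr E' H (c/α)` with `x ≤ c/α ≤ y`. `denseH` is the same.
-/

open Set

namespace MC

variable {M : Type*} [MetricSpace M]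

/-- the linear coordinates with `f1 = x`, `f2 = y` -/
private noncomputable def coord (a b c d : ℝ) (hD : a * d - c * b ≠ 0) : (ℝ × ℝ) ≃ₗ[ℝ] (ℝ × ℝ) where
  toFun w := ((d * w.1 - b * w.2) / (a * d - c * b), (a * w.2 - c * w.1) / (a * d - c * b))
  invFun w := (a * w.1 + b * w.2, c * w.1 + d * w.2)
  map_add' u v := by
    ext
    · simp only [Prod.fst_add, Prod.snd_add]; ring
    · simp only [Prod.fst_add, Prod.snd_add]; ring
  map_smul' t u := by
    ext
    · simp only [Prod.smul_fst, Prod.smul_snd, smul_eq_mul, RingHom.id_apply]; ring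
    · simp only [Prod.smul_fst, Prod.smul_snd, smul_eq_mul, RingHom.id_apply]; ring
  left_inv u := by
    ext
    · simp only
      rw [← mul_div_assoc, ← mul_div_assoc, ← add_div, div_eq_iff hD]
      ring
    · simp only
      rw [← mul_div_assoc, ← mul_div_assoc, ← add_div, div_eq_iff hD]
      ring
  right_inv u := by
    ext
    · simp only
      rw [div_eq_iff hD]
      ring
    · simp only
      rw [div_eq_iff hD]
      ring

private theorem coord_fst (a b c d : ℝ) (hD : a * d - c * b ≠ 0) (w : ℝ × ℝ) :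
    a * (coord a b c d hD w).1 + b * (coord a b c d hD w).2 = w.1 := by
  have := congrArg Prod.fst ((coord a b c d hD).symm_apply_apply w)
  exact this

private theorem coord_snd (a b c d : ℝ) (hD : a * d - c * b ≠ 0) (w : ℝ × ℝ) :
    c * (coord a b c d hD w).1 + d * (coord a b c d hD w).2 = w.2 := by
  have := congrArg Prod.snd ((coord a b c d hD).symm_apply_apply w)
  exact this

private theorem flat_comp {E : ℝ × ℝ → M} {L : ℝ} (hE : Flat E L) (A : (ℝ × ℝ) ≃ₗ[ℝ] (ℝ × ℝ)) :
    ∃ L' : ℝ, Flat (fun u => E (A u)) L' := by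
  let A' := A.toContinuousLinearEquiv
  have hA : ∀ u v, dist (A u) (A v) ≤ ‖(A' : (ℝ × ℝ) →L[ℝ] (ℝ × ℝ))‖ * dist u v := by
    intro u v
    have := (A' : (ℝ × ℝ) →L[ℝ] (ℝ × ℝ)).le_opNorm (u - v)
    rw [map_sub] at this
    rw [dist_eq_norm, dist_eq_norm]
    exact this
  have hB : ∀ u v, dist u v ≤ ‖(A'.symm : (ℝ × ℝ) →L[ℝ] (ℝ × ℝ))‖ * dist (A u) (A v) := by
    intro u v
    have := (A'.symm : (ℝ × ℝ) →L[ℝ] (ℝ × ℝ)).le_opNorm (A' u - A' v)
    rw [map_sub] at this
    rw [dist_eq_norm, dist_eq_norm]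
    simpa [A'] using this
  set a := ‖(A' : (ℝ × ℝ) →L[ℝ] (ℝ × ℝ))‖ with ha
  set b := ‖(A'.symm : (ℝ × ℝ) →L[ℝ] (ℝ × ℝ))‖ with hb
  have ha0 : 0 ≤ a := norm_nonneg _
  have hb0 : 0 ≤ b := norm_nonneg _
  have hL := hE.pos
  refine ⟨L * (a + b + 1), by positivity, fun u v => ?_, fun u v => ?_, fun u v t ht => ?_⟩
  · calc dist (E (A u)) (E (A v)) ≤ L * dist (A u) (A v) := hE.lip _ _
      _ ≤ L * (a * dist u v) := by gcongr; exact hA u v
      _ = L * a * dist u v := by ring
      _ ≤ L * (a + b + 1) * dist u v := by gcongr; linarith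
  · calc dist u v ≤ b * dist (A u) (A v) := hB u v
      _ ≤ b * (L * dist (E (A u)) (E (A v))) := by gcongr; exact hE.low _ _
      _ = L * b * dist (E (A u)) (E (A v)) := by ring
      _ ≤ L * (a + b + 1) * dist (E (A u)) (E (A v)) := by gcongr; linarith
  · have := hE.seg (A u) (A v) t ht
    simp only [map_add, map_smul, map_sub]
    exact this

omit [MetricSpace M] in
private theorem cross_of_thr {E : ℝ × ℝ → M} {H K : Set M} {a b c a' b' c' : ℝ}
    (hH : Thr E H a b c) (hK : Thr E K a' b' c') (hdet : a * b' - a' * b ≠ 0) : Cross H K := by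
  have key : ∀ s t : ℝ, ∃ u : ℝ × ℝ, a * u.1 + b * u.2 = s ∧ a' * u.1 + b' * u.2 = t := by
    intro s t
    refine ⟨((s * b' - t * b) / (a * b' - a' * b), (a * t - a' * s) / (a * b' - a' * b)), ?_, ?_⟩
    · simp only
      rw [← mul_div_assoc, ← mul_div_assoc, ← add_div, div_eq_iff hdet]
      ring
    · simp only
      rw [← mul_div_assoc, ← mul_div_assoc, ← add_div, div_eq_iff hdet]
      ring
  refine ⟨?_, ?_, ?_, ?_⟩
  · obtain ⟨u, h1, h2⟩ := key (c - 1) (c' - 1)
    exact ⟨E u, hH.1 u (by linarith), hK.1 u (by linarith)⟩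
  · obtain ⟨u, h1, h2⟩ := key (c - 1) (c' + 1)
    exact ⟨E u, hH.1 u (by linarith), hK.2 u (by linarith)⟩
  · obtain ⟨u, h1, h2⟩ := key (c + 1) (c' - 1)
    exact ⟨E u, hH.2 u (by linarith), hK.1 u (by linarith)⟩
  · obtain ⟨u, h1, h2⟩ := key (c + 1) (c' + 1)
    exact ⟨E u, hH.2 u (by linarith), hK.2 u (by linarith)⟩

theorem twoDir (hM : IsMedian M) (hR : Rank2 M) {E : ℝ × ℝ → M} {L : ℝ} (hE : Flat E L) :
    ∃ (A : (ℝ × ℝ) ≃ₗ[ℝ] (ℝ × ℝ)) (L' : ℝ), Flat (fun u => E (A u)) L' ∧
      Axes (fun u => E (A u)) := by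
  obtain ⟨H1, hH1, α1, β1, c1, ht1, -, -, h1⟩ := nondeg hM hE (u := (0, 0)) (v := (1, 0))
    (by simp)
  simp only [mul_zero, add_zero, mul_one] at h1
  obtain ⟨H2, hH2, α2, β2, c2, ht2, -, -, h2⟩ := nondeg hM hE (u := (0, 0)) (v := (-β1, α1))
    (by simp only [ne_eq, Prod.mk.injEq, not_and]; intro _ h; exact h1.ne h)
  simp only [mul_zero, add_zero] at h2
  have hD : α1 * β2 - α2 * β1 ≠ 0 := by
    have : 0 < α1 * β2 - α2 * β1 := by linarith
    exact this.ne'
  let A := coord α1 β1 α2 β2 hD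
  obtain ⟨L', hE'⟩ := flat_comp hE A
  have hV1 : Thr (fun u => E (A u)) H1 1 0 c1 := by
    refine ⟨fun u hu => ht1.1 _ ?_, fun u hu => ht1.2 _ ?_⟩
    · rw [coord_fst]; linarith
    · rw [coord_fst]; linarith
  have hV2 : Thr (fun u => E (A u)) H2 0 1 c2 := by
    refine ⟨fun u hu => ht2.1 _ ?_, fun u hu => ht2.2 _ ?_⟩
    · rw [coord_snd]; linarith
    · rw [coord_snd]; linarith
  have hstar : ∀ (H : Set M) (α β c : ℝ), Half H → Thr (fun u => E (A u)) H α β c →
      α ≠ 0 → β ≠ 0 → False := by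
    intro H α β c hH ht hα hβ
    refine hR H H1 H2 hH hH1 hH2 (cross_of_thr ht hV1 ?_) (cross_of_thr ht hV2 ?_)
      (cross_of_thr hV1 hV2 ?_)
    · simpa using hβ
    · simpa using hα
    · norm_num
  refine ⟨A, L', hE', ?_, ?_, ?_⟩
  · intro H hH hex hex'
    obtain ⟨α, β, c, hne, ht⟩ := trace hE' hH hex hex'
    by_cases hβ : β = 0
    · have hα : α ≠ 0 := by
        rcases hne with h | h
        · exact h
        · exact absurd hβ h
      subst hβ
      refine ⟨c / α, ?_⟩
      rcases lt_or_gt_of_ne hα with hlt | hgt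
      · right; left
        refine ⟨fun u hu => ?_, fun u hu => ?_⟩
        · apply ht.2
          rw [lt_div_iff_of_neg hlt] at hu
          linarith
        · rw [div_lt_iff_of_neg hlt] at hu
          intro hn
          exact hn (ht.1 u (by linarith))
      · left
        refine ⟨fun u hu => ?_, fun u hu => ?_⟩
        · apply ht.1
          rw [lt_div_iff₀ hgt] at hu
          linarith
        · apply ht.2
          rw [div_lt_iff₀ hgt] at hu
          linarith
    · have hα : α = 0 := by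
        by_contra h
        exact hstar H α β c hH ht h hβ
      subst hα
      refine ⟨c / β, ?_⟩
      rcases lt_or_gt_of_ne hβ with hlt | hgt
      · right; right; right
        refine ⟨fun u hu => ?_, fun u hu => ?_⟩
        · apply ht.2
          rw [lt_div_iff_of_neg hlt] at hu
          linarith
        · rw [div_lt_iff_of_neg hlt] at hu
          intro hn
          exact hn (ht.1 u (by linarith))
      · right; right; left
        refine ⟨fun u hu => ?_, fun u hu => ?_⟩
        · apply ht.1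
          rw [lt_div_iff₀ hgt] at hu
          linarith
        · apply ht.2
          rw [div_lt_iff₀ hgt] at hu
          linarith
  · intro x y hxy
    obtain ⟨H, hH, α, β, c, ht, h3, h4, h5⟩ := nondeg hM hE' (u := (x, 0)) (v := (y, 0))
      (by simpa using hxy.ne)
    simp only [mul_zero, add_zero] at h3 h4 h5
    have hα : 0 < α := by
      by_contra hcon
      nlinarith
    have hβ : β = 0 := by
      by_contra h
      exact hstar H α β c hH ht hα.ne' h
    subst hβ
    refine ⟨H, hH, c / α, ?_, ?_, fun u hu => ?_, fun u hu => ?_⟩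
    · rw [le_div_iff₀ hα]; linarith
    · rw [div_le_iff₀ hα]; linarith
    · apply ht.1
      rw [lt_div_iff₀ hα] at hu
      linarith
    · apply ht.2
      rw [div_lt_iff₀ hα] at hu
      linarith
  · intro x y hxy
    obtain ⟨H, hH, α, β, c, ht, h3, h4, h5⟩ := nondeg hM hE' (u := (0, x)) (v := (0, y))
      (by simpa using hxy.ne)
    simp only [mul_zero, zero_add] at h3 h4 h5
    have hβ : 0 < β := by
      by_contra hcon
      nlinarith
    have hα : α = 0 := by
      by_contra h
      exact hstar H α β c hH ht h hβ.ne'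
    subst hα
    refine ⟨H, hH, c / β, ?_, ?_, fun u hu => ?_, fun u hu => ?_⟩
    · rw [le_div_iff₀ hβ]; linarith
    · rw [div_le_iff₀ hβ]; linarith
    · apply ht.1
      rw [lt_div_iff₀ hβ] at hu
      linarith
    · apply ht.2
      rw [div_lt_iff₀ hβ] at hu
      linarith

end MC
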