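import Pool.Agent.Helper42.MC.Len
import Pool.Agent.Helper42.MC.FreeFacts

/-!
# MC-33: the centre of a virtually `F' × ℤ` subgroup

Let `Q ≤ P` of finite index, `e : Q ≃* F' × ℤ`, `u', v' : F'` not commuting, `c₀ = e⁻¹ (1, 1)`.
(a) noncommuting elements of `P ∩ F`: `comm_noncomm` in `F'` gives `x,y,x',y'`; lift them to
`e⁻¹(x,1)` etc. in `Q`; the two commutators of the lifts have level 0, so they are `inc u`, `inc v`, and
they do not commute since their images under `e` do not.
(b) `lev c₀ ≠ 0`: otherwise `c₀ = inc f`, `f ≠ 1` (infinite order), `f` commutes with the two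
non-commuting elements of (a), contradiction with `commute_trans`.
(c) Let `N` be the normal core of `Q` in `P` (finite index normal subgroup of `P` inside `Q`),
`c₀^k ∈ N`, `k ≥ 1`. For `g ∈ P`: `g c₀^k g⁻¹ ∈ N ⊆ Q` commutes with `g N g⁻¹ = N`. Let
`e (g c₀^k g⁻¹) = (f, m)`. `N` contains `x^j, y^j` for some `j ≥ 1`, so `f` commutes with `u'^j`, `v'^j`; so `f = 1`
(otherwise `u', v'` commute, `commute_of_zpow`, `commute_trans`). So `g c₀^k g⁻¹ = c₀^m`, and levels give
`m = k`. Take `c = c₀^k`.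
-/

namespace MC

variable {n : ℕ}

theorem virt_center {Φ : MulAut (FreeGroup (Fin n))} {P : Subgroup (MT Φ)} (hP : VirtFxZ P) :
    ∃ c ∈ P, MT.lev c ≠ 0 ∧ (∀ g ∈ P, Commute c g) ∧
      ∃ u v : FreeGroup (Fin n), MT.inc Φ u ∈ P ∧ MT.inc Φ v ∈ P ∧ u * v ≠ v * u := by
  classical
  obtain ⟨Q, hQP, hrel, F', _, hfree, ⟨u', v', huv'⟩, ⟨e⟩⟩ := hP
  have := hfree
  have hlev : ∀ (g : MT Φ) (m : ℤ), MT.lev (g ^ m) = m * MT.lev g := by
    intro g m
    have : ∀ k : ℕ, MT.lev (g ^ k) = k * MT.lev g := by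
      intro k
      induction k with
      | zero => simp [MT.lev]
      | succ k ih => rw [pow_succ, lev_mul, ih]; push_cast; ring
    rcases m with k | k
    · simpa using this k
    · rw [zpow_negSucc, lev_inv, this]
      push_cast
      rw [Int.negSucc_eq]
      ring
  -- lifts
  let X : F' → MT Φ := fun x => (e.symm (x, 1) : Q)
  have hXQ : ∀ x, X x ∈ Q := fun x => (e.symm (x, 1) : Q).2
  have hXmul : ∀ x y, X (x * y) = X x * X y := by
    intro x y
    have : e.symm (x * y, 1) = e.symm (x, 1) * e.symm (y, 1) := by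
      rw [← map_mul]; simp
    simp only [X, this, Subgroup.coe_mul]
  have hXone : X 1 = 1 := by
    have : e.symm ((1 : F'), (1 : Multiplicative ℤ)) = 1 := map_one e.symm
    simp only [X, this, Subgroup.coe_one]
  have hXinv : ∀ x, X x⁻¹ = (X x)⁻¹ := by
    intro x
    rw [eq_inv_iff_mul_eq_one, ← hXmul, inv_mul_cancel, hXone]
  have hXinj : Function.Injective X := by
    intro x y h
    have h1 : e.symm (x, 1) = e.symm (y, 1) := Subtype.ext h
    have h2 := e.symm.injective h1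
    exact (Prod.mk.inj h2).1
  -- (a)
  obtain ⟨x, y, x', y', hne⟩ := comm_noncomm huv'
  have hl : ∀ a b : F', ∃ f, X (a * b * a⁻¹ * b⁻¹) = MT.inc Φ f := by
    intro a b
    apply exists_inc_of_lev_zero
    rw [hXmul, hXmul, hXmul, hXinv, hXinv, lev_mul, lev_mul, lev_mul, lev_inv, lev_inv]
    ring
  obtain ⟨u, hu⟩ := hl x y
  obtain ⟨v, hv⟩ := hl x' y'
  have huv : u * v ≠ v * u := by
    intro h
    apply hne
    apply hXinj
    rw [hXmul _ (x' * y' * x'⁻¹ * y'⁻¹), hXmul _ (x * y * x⁻¹ * y⁻¹), hu, hv, ← map_mul, ← map_mul, h]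
  have huQ : MT.inc Φ u ∈ Q := hu ▸ hXQ _
  have hvQ : MT.inc Φ v ∈ Q := hv ▸ hXQ _
  -- the central element
  let c₀ : MT Φ := (e.symm (1, Multiplicative.ofAdd 1) : Q)
  have hc₀Q : c₀ ∈ Q := (e.symm (1, Multiplicative.ofAdd 1) : Q).2
  have hc₀comm : ∀ q ∈ Q, Commute c₀ q := by
    intro q hq
    have h1 : Commute (e.symm (1, Multiplicative.ofAdd 1) : Q) ⟨q, hq⟩ := by
      apply e.injective
      rw [map_mul, map_mul, e.apply_symm_apply]
      ext
      · simp
      · simp [mul_comm]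
    exact congrArg Subtype.val h1
  have hc₀ : ∀ q : Q, (e q).1 = 1 → (q : MT Φ) = c₀ ^ (Multiplicative.toAdd (e q).2) := by
    intro q hq
    have h1 : q = (e.symm (1, Multiplicative.ofAdd 1) : Q) ^ (Multiplicative.toAdd (e q).2) := by
      apply e.injective
      rw [map_zpow, e.apply_symm_apply]
      ext
      · simp [hq]
      · rw [Prod.pow_snd, ← ofAdd_zsmul]
        simp
    have h2 := congrArg Subtype.val h1
    rw [Subgroup.coe_zpow] at h2
    exact h2
  have hc₀1 : c₀ ≠ 1 := by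
    intro h
    have h1 : (e.symm (1, Multiplicative.ofAdd 1) : Q) = 1 := Subtype.ext h
    have h2 : ((1 : F'), Multiplicative.ofAdd (1 : ℤ)) = 1 := by
      rw [← e.apply_symm_apply (1, Multiplicative.ofAdd 1), h1, map_one]
    have h3 := congrArg (fun p => Multiplicative.toAdd p.2) h2
    simp at h3
  -- (b)
  have hlc : MT.lev c₀ ≠ 0 := by
    intro h
    obtain ⟨f, hf⟩ := exists_inc_of_lev_zero h
    have hf1 : f ≠ 1 := by
      rintro rfl
      rw [map_one] at hf
      exact hc₀1 hf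
    have h1 : ∀ w, MT.inc Φ w ∈ Q → Commute f w := by
      intro w hw
      have h2 := hc₀comm _ hw
      rw [hf] at h2
      apply inc_injective (Φ := Φ)
      rw [map_mul, map_mul]
      exact h2
    exact huv (commute_trans hf1 (h1 u huQ).symm (h1 v hvQ))
  -- (c)
  let Q' : Subgroup P := Q.subgroupOf P
  have hfi : Q'.FiniteIndex := ⟨hrel⟩
  let N : Subgroup P := Q'.normalCore
  have hN : N ≤ Q' := Subgroup.normalCore_le Q'
  have : N.Normal := Subgroup.normalCore_normal Q'
  have : N.FiniteIndex := Subgroup.finiteIndex_normalCore Q'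
  have hk0 : N.index ≠ 0 := Subgroup.FiniteIndex.index_ne_zero
  have hconj : ∀ g ∈ P, ∀ x ∈ P, g * x ^ N.index * g⁻¹ ∈ Q := by
    intro g hg x hx
    have h1 : (⟨x, hx⟩ : P) ^ N.index ∈ N := Subgroup.pow_index_mem N _
    have h2 : (⟨g, hg⟩ : P) * (⟨x, hx⟩ : P) ^ N.index * (⟨g, hg⟩ : P)⁻¹ ∈ N :=
      (inferInstance : N.Normal).conj_mem _ h1 _
    have h3 := hN h2
    rw [Subgroup.mem_subgroupOf] at h3
    simpa using h3
  refine ⟨c₀ ^ N.index, P.pow_mem (hQP hc₀Q) _, ?_, ?_, u, v, hQP huQ, hQP hvQ, huv⟩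
  · rw [← zpow_natCast, hlev]
    exact mul_ne_zero (by exact_mod_cast hk0) hlc
  · intro g hg
    have hw : g * c₀ ^ N.index * g⁻¹ ∈ Q := hconj g hg _ (hQP hc₀Q)
    have hcomm : ∀ z : F', Commute (e ⟨_, hw⟩).1 (z ^ (N.index : ℤ)) := by
      intro z
      have h1 : g⁻¹ * X z ^ N.index * g⁻¹⁻¹ ∈ Q :=
        hconj g⁻¹ (P.inv_mem hg) (X z) (hQP (hXQ z))
      rw [inv_inv] at h1
      have h2 : Commute (c₀ ^ N.index) (g⁻¹ * X z ^ N.index * g) := (hc₀comm _ h1).pow_left _
      have h3 : Commute (g * c₀ ^ N.index * g⁻¹) (X z ^ N.index) := by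
        have h4 : X z ^ N.index = g * (g⁻¹ * X z ^ N.index * g) * g⁻¹ := by group
        rw [h4]
        exact (Commute.conj_iff g).2 h2
      have h5 : Commute (⟨_, hw⟩ : Q) ((e.symm (z, 1) : Q) ^ N.index) := by
        apply Subtype.ext
        simpa [X] using h3.eq
      have h6 := congrArg (fun q => (e q).1) h5.eq
      simp only [map_mul, map_pow, e.apply_symm_apply, Prod.fst_mul, Prod.pow_fst] at h6
      rw [zpow_natCast]
      exact h6
    have hf1 : (e ⟨_, hw⟩).1 = 1 := by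
      by_contra hf
      have h1 : ∀ z : F', Commute (e ⟨_, hw⟩).1 z := fun z =>
        commute_of_zpow (k := (N.index : ℤ)) (by exact_mod_cast hk0) (hcomm z)
      exact huv' (commute_trans hf (h1 u').symm (h1 v'))
    have h1 := hc₀ ⟨_, hw⟩ hf1
    simp only at h1
    have h2 : MT.lev (g * c₀ ^ N.index * g⁻¹) = N.index * MT.lev c₀ := by
      rw [lev_mul, lev_mul, lev_inv, ← zpow_natCast, hlev]
      ring
    rw [h1, hlev] at h2
    have h3 := mul_right_cancel₀ hlc h2
    rw [h3, zpow_natCast] at h1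
    have h4 : g * c₀ ^ N.index = c₀ ^ N.index * g := mul_inv_eq_iff_eq_mul.1 h1
    exact h4.symm

end MC
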